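import Pool.Agent.N367.HT.J
import Pool.Agent.N367.HT.D10659

/-! The sum for 19 17 11 3. -/

namespace Pool.Agent.N367.HT.D10659

open Pool.Agent.N156.HT Pool.Agent.N911.L Pool.Agent.N367.HT

set_option exponentiation.threshold 2000000

theorem u15 : W15 = P (w8 10659 10660) (.cons 1122 19 (.cons 5016 17 (.cons 969 11 (.cons 3553 3 .nil)))) 0 :=
  by
  unfold W15
  have h9 := chkW_sound (by norm_num) (by norm_num) (by norm_num) c15_9
  have h8 : Nat.add W15c8 (Nat.mul (Nat.pow 2 49368) (W15c9)) = P (w8 10659 10660) (.cons 1122 3 (.cons 5016 17 (.cons 969 11 (.cons 3553 3 .nil)))) 17952 :=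
    @P_join2 (w8 10659 10660) 1122 2 1 3 17952 20196 49368 (.cons 5016 17 (.cons 969 11 (.cons 3553 3 .nil))) W15c8 (W15c9)
      (chkW_sound (by norm_num) (by norm_num) (by norm_num) c15_8) h9 (by norm_num) rfl rfl
  have h7 : Nat.add W15c7 (Nat.mul (Nat.pow 2 49368) (Nat.add W15c8 (Nat.mul (Nat.pow 2 49368) (W15c9)))) = P (w8 10659 10660) (.cons 1122 5 (.cons 5016 17 (.cons 969 11 (.cons 3553 3 .nil)))) 15708 :=
    @P_join2 (w8 10659 10660) 1122 2 3 5 15708 17952 49368 (.cons 5016 17 (.cons 969 11 (.cons 3553 3 .nil))) W15c7 (Nat.add W15c8 (Nat.mul (Nat.pow 2 49368) (W15c9)))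
      (chkW_sound (by norm_num) (by norm_num) (by norm_num) c15_7) h8 (by norm_num) rfl rfl
  have h6 : Nat.add W15c6 (Nat.mul (Nat.pow 2 49368) (Nat.add W15c7 (Nat.mul (Nat.pow 2 49368) (Nat.add W15c8 (Nat.mul (Nat.pow 2 49368) (W15c9)))))) = P (w8 10659 10660) (.cons 1122 7 (.cons 5016 17 (.cons 969 11 (.cons 3553 3 .nil)))) 13464 :=
    @P_join2 (w8 10659 10660) 1122 2 5 7 13464 15708 49368 (.cons 5016 17 (.cons 969 11 (.cons 3553 3 .nil))) W15c6 (Nat.add W15c7 (Nat.mul (Nat.pow 2 49368) (Nat.add W15c8 (Nat.mul (Nat.pow 2 49368) (W15c9)))))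
      (chkW_sound (by norm_num) (by norm_num) (by norm_num) c15_6) h7 (by norm_num) rfl rfl
  have h5 : Nat.add W15c5 (Nat.mul (Nat.pow 2 49368) (Nat.add W15c6 (Nat.mul (Nat.pow 2 49368) (Nat.add W15c7 (Nat.mul (Nat.pow 2 49368) (Nat.add W15c8 (Nat.mul (Nat.pow 2 49368) (W15c9)))))))) = P (w8 10659 10660) (.cons 1122 9 (.cons 5016 17 (.cons 969 11 (.cons 3553 3 .nil)))) 11220 :=
    @P_join2 (w8 10659 10660) 1122 2 7 9 11220 13464 49368 (.cons 5016 17 (.cons 969 11 (.cons 3553 3 .nil))) W15c5 (Nat.add W15c6 (Nat.mul (Nat.pow 2 49368) (Nat.add W15c7 (Nat.mul (Nat.pow 2 49368) (Nat.add W15c8 (Nat.mul (Nat.pow 2 49368) (W15c9)))))))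
      (chkW_sound (by norm_num) (by norm_num) (by norm_num) c15_5) h6 (by norm_num) rfl rfl
  have h4 : Nat.add W15c4 (Nat.mul (Nat.pow 2 49368) (Nat.add W15c5 (Nat.mul (Nat.pow 2 49368) (Nat.add W15c6 (Nat.mul (Nat.pow 2 49368) (Nat.add W15c7 (Nat.mul (Nat.pow 2 49368) (Nat.add W15c8 (Nat.mul (Nat.pow 2 49368) (W15c9)))))))))) = P (w8 10659 10660) (.cons 1122 11 (.cons 5016 17 (.cons 969 11 (.cons 3553 3 .nil)))) 8976 :=
    @P_join2 (w8 10659 10660) 1122 2 9 11 8976 11220 49368 (.cons 5016 17 (.cons 969 11 (.cons 3553 3 .nil))) W15c4 (Nat.add W15c5 (Nat.mul (Nat.pow 2 49368) (Nat.add W15c6 (Nat.mul (Nat.pow 2 49368) (Nat.add W15c7 (Nat.mul (Nat.pow 2 49368) (Nat.add W15c8 (Nat.mul (Nat.pow 2 49368) (W15c9)))))))))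
      (chkW_sound (by norm_num) (by norm_num) (by norm_num) c15_4) h5 (by norm_num) rfl rfl
  have h3 : Nat.add W15c3 (Nat.mul (Nat.pow 2 49368) (Nat.add W15c4 (Nat.mul (Nat.pow 2 49368) (Nat.add W15c5 (Nat.mul (Nat.pow 2 49368) (Nat.add W15c6 (Nat.mul (Nat.pow 2 49368) (Nat.add W15c7 (Nat.mul (Nat.pow 2 49368) (Nat.add W15c8 (Nat.mul (Nat.pow 2 49368) (W15c9)))))))))))) = P (w8 10659 10660) (.cons 1122 13 (.cons 5016 17 (.cons 969 11 (.cons 3553 3 .nil)))) 6732 :=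
    @P_join2 (w8 10659 10660) 1122 2 11 13 6732 8976 49368 (.cons 5016 17 (.cons 969 11 (.cons 3553 3 .nil))) W15c3 (Nat.add W15c4 (Nat.mul (Nat.pow 2 49368) (Nat.add W15c5 (Nat.mul (Nat.pow 2 49368) (Nat.add W15c6 (Nat.mul (Nat.pow 2 49368) (Nat.add W15c7 (Nat.mul (Nat.pow 2 49368) (Nat.add W15c8 (Nat.mul (Nat.pow 2 49368) (W15c9)))))))))))
      (chkW_sound (by norm_num) (by norm_num) (by norm_num) c15_3) h4 (by norm_num) rfl rfl
  have h2 : Nat.add W15c2 (Nat.mul (Nat.pow 2 49368) (Nat.add W15c3 (Nat.mul (Nat.pow 2 49368) (Nat.add W15c4 (Nat.mul (Nat.pow 2 49368) (Nat.add W15c5 (Nat.mul (Nat.pow 2 49368) (Nat.add W15c6 (Nat.mul (Nat.pow 2 49368) (Nat.add W15c7 (Nat.mul (Nat.pow 2 49368) (Nat.add W15c8 (Nat.mul (Nat.pow 2 49368) (W15c9)))))))))))))) = P (w8 10659 10660) (.cons 1122 15 (.cons 5016 17 (.cons 969 11 (.cons 3553 3 .nil)))) 4488 :=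
    @P_join2 (w8 10659 10660) 1122 2 13 15 4488 6732 49368 (.cons 5016 17 (.cons 969 11 (.cons 3553 3 .nil))) W15c2 (Nat.add W15c3 (Nat.mul (Nat.pow 2 49368) (Nat.add W15c4 (Nat.mul (Nat.pow 2 49368) (Nat.add W15c5 (Nat.mul (Nat.pow 2 49368) (Nat.add W15c6 (Nat.mul (Nat.pow 2 49368) (Nat.add W15c7 (Nat.mul (Nat.pow 2 49368) (Nat.add W15c8 (Nat.mul (Nat.pow 2 49368) (W15c9)))))))))))))
      (chkW_sound (by norm_num) (by norm_num) (by norm_num) c15_2) h3 (by norm_num) rfl rfl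
  have h1 : Nat.add W15c1 (Nat.mul (Nat.pow 2 49368) (Nat.add W15c2 (Nat.mul (Nat.pow 2 49368) (Nat.add W15c3 (Nat.mul (Nat.pow 2 49368) (Nat.add W15c4 (Nat.mul (Nat.pow 2 49368) (Nat.add W15c5 (Nat.mul (Nat.pow 2 49368) (Nat.add W15c6 (Nat.mul (Nat.pow 2 49368) (Nat.add W15c7 (Nat.mul (Nat.pow 2 49368) (Nat.add W15c8 (Nat.mul (Nat.pow 2 49368) (W15c9)))))))))))))))) = P (w8 10659 10660) (.cons 1122 17 (.cons 5016 17 (.cons 969 11 (.cons 3553 3 .nil)))) 2244 :=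
    @P_join2 (w8 10659 10660) 1122 2 15 17 2244 4488 49368 (.cons 5016 17 (.cons 969 11 (.cons 3553 3 .nil))) W15c1 (Nat.add W15c2 (Nat.mul (Nat.pow 2 49368) (Nat.add W15c3 (Nat.mul (Nat.pow 2 49368) (Nat.add W15c4 (Nat.mul (Nat.pow 2 49368) (Nat.add W15c5 (Nat.mul (Nat.pow 2 49368) (Nat.add W15c6 (Nat.mul (Nat.pow 2 49368) (Nat.add W15c7 (Nat.mul (Nat.pow 2 49368) (Nat.add W15c8 (Nat.mul (Nat.pow 2 49368) (W15c9)))))))))))))))
      (chkW_sound (by norm_num) (by norm_num) (by norm_num) c15_1) h2 (by norm_num) rfl rfl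
  have h0 : Nat.add W15c0 (Nat.mul (Nat.pow 2 49368) (Nat.add W15c1 (Nat.mul (Nat.pow 2 49368) (Nat.add W15c2 (Nat.mul (Nat.pow 2 49368) (Nat.add W15c3 (Nat.mul (Nat.pow 2 49368) (Nat.add W15c4 (Nat.mul (Nat.pow 2 49368) (Nat.add W15c5 (Nat.mul (Nat.pow 2 49368) (Nat.add W15c6 (Nat.mul (Nat.pow 2 49368) (Nat.add W15c7 (Nat.mul (Nat.pow 2 49368) (Nat.add W15c8 (Nat.mul (Nat.pow 2 49368) (W15c9)))))))))))))))))) = P (w8 10659 10660) (.cons 1122 19 (.cons 5016 17 (.cons 969 11 (.cons 3553 3 .nil)))) 0 :=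
    @P_join2 (w8 10659 10660) 1122 2 17 19 0 2244 49368 (.cons 5016 17 (.cons 969 11 (.cons 3553 3 .nil))) W15c0 (Nat.add W15c1 (Nat.mul (Nat.pow 2 49368) (Nat.add W15c2 (Nat.mul (Nat.pow 2 49368) (Nat.add W15c3 (Nat.mul (Nat.pow 2 49368) (Nat.add W15c4 (Nat.mul (Nat.pow 2 49368) (Nat.add W15c5 (Nat.mul (Nat.pow 2 49368) (Nat.add W15c6 (Nat.mul (Nat.pow 2 49368) (Nat.add W15c7 (Nat.mul (Nat.pow 2 49368) (Nat.add W15c8 (Nat.mul (Nat.pow 2 49368) (W15c9)))))))))))))))))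
      (chkW_sound (by norm_num) (by norm_num) (by norm_num) c15_0) h1 (by norm_num) rfl rfl
  exact h0
theorem u14 : W14 = P (w8 10659 7107) (.cons 1122 19 (.cons 5016 17 (.cons 969 11 .nil))) 3553 :=
  by
  unfold W14
  have h2 := chkW_sound (by norm_num) (by norm_num) (by norm_num) c14_2
  have h1 : Nat.add W14c1 (Nat.mul (Nat.pow 2 49368) (W14c2)) = P (w8 10659 7107) (.cons 1122 12 (.cons 5016 17 (.cons 969 11 .nil))) 11407 :=
    @P_join2 (w8 10659 7107) 1122 6 6 12 11407 18139 49368 (.cons 5016 17 (.cons 969 11 .nil)) W14c1 (W14c2)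
      (chkW_sound (by norm_num) (by norm_num) (by norm_num) c14_1) h2 (by norm_num) rfl rfl
  have h0 : Nat.add W14c0 (Nat.mul (Nat.pow 2 57596) (Nat.add W14c1 (Nat.mul (Nat.pow 2 49368) (W14c2)))) = P (w8 10659 7107) (.cons 1122 19 (.cons 5016 17 (.cons 969 11 .nil))) 3553 :=
    @P_join2 (w8 10659 7107) 1122 7 12 19 3553 11407 57596 (.cons 5016 17 (.cons 969 11 .nil)) W14c0 (Nat.add W14c1 (Nat.mul (Nat.pow 2 49368) (W14c2)))
      (chkW_sound (by norm_num) (by norm_num) (by norm_num) c14_0) h1 (by norm_num) rfl rfl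
  exact h0
theorem u13 : W13 = P (w8 10659 9691) (.cons 1122 19 (.cons 5016 17 (.cons 3553 3 .nil))) 969 :=
  chkW_sound (by norm_num) (by norm_num) (by norm_num) c13_0
theorem u12 : W12 = P (w8 10659 6138) (.cons 1122 19 (.cons 5016 17 .nil)) 4522 :=
  chkW_sound (by norm_num) (by norm_num) (by norm_num) c12_0
theorem u11 : W11 = P (w8 10659 5644) (.cons 1122 19 (.cons 969 11 (.cons 3553 3 .nil))) 5016 :=
  chkW_sound (by norm_num) (by norm_num) (by norm_num) c11_0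
theorem u10 : W10 = P (w8 10659 2091) (.cons 1122 19 (.cons 969 11 .nil)) 8569 :=
  chkW_sound (by norm_num) (by norm_num) (by norm_num) c10_0
theorem u9 : W9 = P (w8 10659 4675) (.cons 1122 19 (.cons 3553 3 .nil)) 5985 :=
  chkW_sound (by norm_num) (by norm_num) (by norm_num) c9_0
theorem u8 : W8 = P (w8 10659 1122) (.cons 1122 19 .nil) 9538 :=
  chkW_sound (by norm_num) (by norm_num) (by norm_num) c8_0
theorem u7 : W7 = P (w8 10659 9538) (.cons 5016 17 (.cons 969 11 (.cons 3553 3 .nil))) 1122 :=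
  chkW_sound (by norm_num) (by norm_num) (by norm_num) c7_0
theorem u6 : W6 = P (w8 10659 5985) (.cons 5016 17 (.cons 969 11 .nil)) 4675 :=
  chkW_sound (by norm_num) (by norm_num) (by norm_num) c6_0
theorem u5 : W5 = P (w8 10659 8569) (.cons 5016 17 (.cons 3553 3 .nil)) 2091 :=
  chkW_sound (by norm_num) (by norm_num) (by norm_num) c5_0
theorem u4 : W4 = P (w8 10659 5016) (.cons 5016 17 .nil) 5644 :=
  chkW_sound (by norm_num) (by norm_num) (by norm_num) c4_0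
theorem u3 : W3 = P (w8 10659 4522) (.cons 969 11 (.cons 3553 3 .nil)) 6138 :=
  chkW_sound (by norm_num) (by norm_num) (by norm_num) c3_0
theorem u2 : W2 = P (w8 10659 969) (.cons 969 11 .nil) 9691 :=
  chkW_sound (by norm_num) (by norm_num) (by norm_num) c2_0
theorem u1 : W1 = P (w8 10659 3553) (.cons 3553 3 .nil) 7107 :=
  chkW_sound (by norm_num) (by norm_num) (by norm_num) c1_0
theorem tr_eq : tr = TR (w8 10659) [(1122, 19, 324876, 255), (5016, 17, 23784, 1), (969, 11, 1476, 255), (3553, 3, 4, 255)] .nil 0 0 :=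
  mk_node (mk_node (mk_node (mk_node (mk_leaf rfl u15) (mk_leaf rfl u14)) (mk_node (mk_leaf rfl u13) (mk_leaf rfl u12))) (mk_node (mk_node (mk_leaf rfl u11) (mk_leaf rfl u10)) (mk_node (mk_leaf rfl u9) (mk_leaf rfl u8)))) (mk_node (mk_node (mk_node (mk_leaf rfl u7) (mk_leaf rfl u6)) (mk_node (mk_leaf rfl u5) (mk_leaf rfl u4))) (mk_node (mk_node (mk_leaf rfl u3) (mk_leaf rfl u2)) (mk_node (mk_leaf rfl u1) (mk_leaf rfl (w8_zero _ _).symm))))
theorem tb (d : ℤ) (n : ℕ)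
    (h : ∀ l ∈ ({19, 17, 11, 3} : Finset ℕ), jacobiSym ((n : ℤ) ^ 2 + 4) l = -1) :
    (512 : ℤ) ∣ Pool.Agent.N367.LE.SEr d {19, 17, 11, 3} n -
      256 * (((BT10659 >>> (((n % 19 * 17 + n % 17) * 11 + n % 11) * 3 + n % 3)) % 2 : ℕ) : ℤ) :=
  tb_gen (m := 10659) pd19 pd17 pd11 pd3 (by norm_num) (by norm_num) (by norm_num)
    (by norm_num) (by norm_num) (by norm_num) (show Idem 3 11 17 19 3553 969 5016 1122 from Idem.of (by decide)) (by norm_num) (by norm_num)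
    (by norm_num) (by rw [← tr_eq]; exact ev_true) d n h

end Pool.Agent.N367.HT.D10659
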