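import Pool.Agent.N367.HT.J
import Pool.Agent.N367.HT.D10695

/-! The sum for 31 23 5 3. -/

namespace Pool.Agent.N367.HT.D10695

open Pool.Agent.N156.HT Pool.Agent.N911.L Pool.Agent.N367.HT

set_option exponentiation.threshold 2000000

theorem u15 : W15 = P (w8 10695 21391) (.cons 2760 31 (.cons 6510 23 (.cons 8556 5 (.cons 3565 3 .nil)))) 0 :=
  by
  unfold W15
  have h7 := chkW_sound (by norm_num) (by norm_num) (by norm_num) c15_7
  have h6 : Nat.add W15c6 (Nat.mul (Nat.pow 2 60720) (W15c7)) = P (w8 10695 21391) (.cons 2760 7 (.cons 6510 23 (.cons 8556 5 (.cons 3565 3 .nil)))) 66240 :=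
    @P_join2 (w8 10695 21391) 2760 4 3 7 66240 77280 60720 (.cons 6510 23 (.cons 8556 5 (.cons 3565 3 .nil))) W15c6 (W15c7)
      (chkW_sound (by norm_num) (by norm_num) (by norm_num) c15_6) h7 (by norm_num) rfl rfl
  have h5 : Nat.add W15c5 (Nat.mul (Nat.pow 2 60720) (Nat.add W15c6 (Nat.mul (Nat.pow 2 60720) (W15c7)))) = P (w8 10695 21391) (.cons 2760 11 (.cons 6510 23 (.cons 8556 5 (.cons 3565 3 .nil)))) 55200 :=
    @P_join2 (w8 10695 21391) 2760 4 7 11 55200 66240 60720 (.cons 6510 23 (.cons 8556 5 (.cons 3565 3 .nil))) W15c5 (Nat.add W15c6 (Nat.mul (Nat.pow 2 60720) (W15c7)))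
      (chkW_sound (by norm_num) (by norm_num) (by norm_num) c15_5) h6 (by norm_num) rfl rfl
  have h4 : Nat.add W15c4 (Nat.mul (Nat.pow 2 60720) (Nat.add W15c5 (Nat.mul (Nat.pow 2 60720) (Nat.add W15c6 (Nat.mul (Nat.pow 2 60720) (W15c7)))))) = P (w8 10695 21391) (.cons 2760 15 (.cons 6510 23 (.cons 8556 5 (.cons 3565 3 .nil)))) 44160 :=
    @P_join2 (w8 10695 21391) 2760 4 11 15 44160 55200 60720 (.cons 6510 23 (.cons 8556 5 (.cons 3565 3 .nil))) W15c4 (Nat.add W15c5 (Nat.mul (Nat.pow 2 60720) (Nat.add W15c6 (Nat.mul (Nat.pow 2 60720) (W15c7)))))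
      (chkW_sound (by norm_num) (by norm_num) (by norm_num) c15_4) h5 (by norm_num) rfl rfl
  have h3 : Nat.add W15c3 (Nat.mul (Nat.pow 2 60720) (Nat.add W15c4 (Nat.mul (Nat.pow 2 60720) (Nat.add W15c5 (Nat.mul (Nat.pow 2 60720) (Nat.add W15c6 (Nat.mul (Nat.pow 2 60720) (W15c7)))))))) = P (w8 10695 21391) (.cons 2760 19 (.cons 6510 23 (.cons 8556 5 (.cons 3565 3 .nil)))) 33120 :=
    @P_join2 (w8 10695 21391) 2760 4 15 19 33120 44160 60720 (.cons 6510 23 (.cons 8556 5 (.cons 3565 3 .nil))) W15c3 (Nat.add W15c4 (Nat.mul (Nat.pow 2 60720) (Nat.add W15c5 (Nat.mul (Nat.pow 2 60720) (Nat.add W15c6 (Nat.mul (Nat.pow 2 60720) (W15c7)))))))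
      (chkW_sound (by norm_num) (by norm_num) (by norm_num) c15_3) h4 (by norm_num) rfl rfl
  have h2 : Nat.add W15c2 (Nat.mul (Nat.pow 2 60720) (Nat.add W15c3 (Nat.mul (Nat.pow 2 60720) (Nat.add W15c4 (Nat.mul (Nat.pow 2 60720) (Nat.add W15c5 (Nat.mul (Nat.pow 2 60720) (Nat.add W15c6 (Nat.mul (Nat.pow 2 60720) (W15c7)))))))))) = P (w8 10695 21391) (.cons 2760 23 (.cons 6510 23 (.cons 8556 5 (.cons 3565 3 .nil)))) 22080 :=
    @P_join2 (w8 10695 21391) 2760 4 19 23 22080 33120 60720 (.cons 6510 23 (.cons 8556 5 (.cons 3565 3 .nil))) W15c2 (Nat.add W15c3 (Nat.mul (Nat.pow 2 60720) (Nat.add W15c4 (Nat.mul (Nat.pow 2 60720) (Nat.add W15c5 (Nat.mul (Nat.pow 2 60720) (Nat.add W15c6 (Nat.mul (Nat.pow 2 60720) (W15c7)))))))))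
      (chkW_sound (by norm_num) (by norm_num) (by norm_num) c15_2) h3 (by norm_num) rfl rfl
  have h1 : Nat.add W15c1 (Nat.mul (Nat.pow 2 60720) (Nat.add W15c2 (Nat.mul (Nat.pow 2 60720) (Nat.add W15c3 (Nat.mul (Nat.pow 2 60720) (Nat.add W15c4 (Nat.mul (Nat.pow 2 60720) (Nat.add W15c5 (Nat.mul (Nat.pow 2 60720) (Nat.add W15c6 (Nat.mul (Nat.pow 2 60720) (W15c7)))))))))))) = P (w8 10695 21391) (.cons 2760 27 (.cons 6510 23 (.cons 8556 5 (.cons 3565 3 .nil)))) 11040 :=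
    @P_join2 (w8 10695 21391) 2760 4 23 27 11040 22080 60720 (.cons 6510 23 (.cons 8556 5 (.cons 3565 3 .nil))) W15c1 (Nat.add W15c2 (Nat.mul (Nat.pow 2 60720) (Nat.add W15c3 (Nat.mul (Nat.pow 2 60720) (Nat.add W15c4 (Nat.mul (Nat.pow 2 60720) (Nat.add W15c5 (Nat.mul (Nat.pow 2 60720) (Nat.add W15c6 (Nat.mul (Nat.pow 2 60720) (W15c7)))))))))))
      (chkW_sound (by norm_num) (by norm_num) (by norm_num) c15_1) h2 (by norm_num) rfl rfl
  have h0 : Nat.add W15c0 (Nat.mul (Nat.pow 2 60720) (Nat.add W15c1 (Nat.mul (Nat.pow 2 60720) (Nat.add W15c2 (Nat.mul (Nat.pow 2 60720) (Nat.add W15c3 (Nat.mul (Nat.pow 2 60720) (Nat.add W15c4 (Nat.mul (Nat.pow 2 60720) (Nat.add W15c5 (Nat.mul (Nat.pow 2 60720) (Nat.add W15c6 (Nat.mul (Nat.pow 2 60720) (W15c7)))))))))))))) = P (w8 10695 21391) (.cons 2760 31 (.cons 6510 23 (.cons 8556 5 (.cons 3565 3 .nil)))) 0 :=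
    @P_join2 (w8 10695 21391) 2760 4 27 31 0 11040 60720 (.cons 6510 23 (.cons 8556 5 (.cons 3565 3 .nil))) W15c0 (Nat.add W15c1 (Nat.mul (Nat.pow 2 60720) (Nat.add W15c2 (Nat.mul (Nat.pow 2 60720) (Nat.add W15c3 (Nat.mul (Nat.pow 2 60720) (Nat.add W15c4 (Nat.mul (Nat.pow 2 60720) (Nat.add W15c5 (Nat.mul (Nat.pow 2 60720) (Nat.add W15c6 (Nat.mul (Nat.pow 2 60720) (W15c7)))))))))))))
      (chkW_sound (by norm_num) (by norm_num) (by norm_num) c15_0) h1 (by norm_num) rfl rfl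
  exact h0
theorem u14 : W14 = P (w8 10695 17826) (.cons 2760 31 (.cons 6510 23 (.cons 8556 5 .nil))) 3565 :=
  by
  unfold W14
  have h2 := chkW_sound (by norm_num) (by norm_num) (by norm_num) c14_2
  have h1 : Nat.add W14c1 (Nat.mul (Nat.pow 2 50600) (W14c2)) = P (w8 10695 17826) (.cons 2760 20 (.cons 6510 23 (.cons 8556 5 .nil))) 33925 :=
    @P_join2 (w8 10695 17826) 2760 10 10 20 33925 61525 50600 (.cons 6510 23 (.cons 8556 5 .nil)) W14c1 (W14c2)
      (chkW_sound (by norm_num) (by norm_num) (by norm_num) c14_1) h2 (by norm_num) rfl rfl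
  have h0 : Nat.add W14c0 (Nat.mul (Nat.pow 2 55660) (Nat.add W14c1 (Nat.mul (Nat.pow 2 50600) (W14c2)))) = P (w8 10695 17826) (.cons 2760 31 (.cons 6510 23 (.cons 8556 5 .nil))) 3565 :=
    @P_join2 (w8 10695 17826) 2760 11 20 31 3565 33925 55660 (.cons 6510 23 (.cons 8556 5 .nil)) W14c0 (Nat.add W14c1 (Nat.mul (Nat.pow 2 50600) (W14c2)))
      (chkW_sound (by norm_num) (by norm_num) (by norm_num) c14_0) h1 (by norm_num) rfl rfl
  exact h0
theorem u13 : W13 = P (w8 10695 12835) (.cons 2760 31 (.cons 6510 23 (.cons 3565 3 .nil))) 8556 :=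
  by
  unfold W13
  have h1 := chkW_sound (by norm_num) (by norm_num) (by norm_num) c13_1
  have h0 : Nat.add W13c0 (Nat.mul (Nat.pow 2 48576) (W13c1)) = P (w8 10695 12835) (.cons 2760 31 (.cons 6510 23 (.cons 3565 3 .nil))) 8556 :=
    @P_join2 (w8 10695 12835) 2760 16 15 31 8556 52716 48576 (.cons 6510 23 (.cons 3565 3 .nil)) W13c0 (W13c1)
      (chkW_sound (by norm_num) (by norm_num) (by norm_num) c13_0) h1 (by norm_num) rfl rfl
  exact h0
theorem u12 : W12 = P (w8 10695 9270) (.cons 2760 31 (.cons 6510 23 .nil)) 12121 :=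
  chkW_sound (by norm_num) (by norm_num) (by norm_num) c12_0
theorem u11 : W11 = P (w8 10695 14881) (.cons 2760 31 (.cons 8556 5 (.cons 3565 3 .nil))) 6510 :=
  chkW_sound (by norm_num) (by norm_num) (by norm_num) c11_0
theorem u10 : W10 = P (w8 10695 11316) (.cons 2760 31 (.cons 8556 5 .nil)) 10075 :=
  chkW_sound (by norm_num) (by norm_num) (by norm_num) c10_0
theorem u9 : W9 = P (w8 10695 6325) (.cons 2760 31 (.cons 3565 3 .nil)) 15066 :=
  chkW_sound (by norm_num) (by norm_num) (by norm_num) c9_0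
theorem u8 : W8 = P (w8 10695 2760) (.cons 2760 31 .nil) 18631 :=
  chkW_sound (by norm_num) (by norm_num) (by norm_num) c8_0
theorem u7 : W7 = P (w8 10695 18631) (.cons 6510 23 (.cons 8556 5 (.cons 3565 3 .nil))) 2760 :=
  chkW_sound (by norm_num) (by norm_num) (by norm_num) c7_0
theorem u6 : W6 = P (w8 10695 15066) (.cons 6510 23 (.cons 8556 5 .nil)) 6325 :=
  chkW_sound (by norm_num) (by norm_num) (by norm_num) c6_0
theorem u5 : W5 = P (w8 10695 10075) (.cons 6510 23 (.cons 3565 3 .nil)) 11316 :=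
  chkW_sound (by norm_num) (by norm_num) (by norm_num) c5_0
theorem u4 : W4 = P (w8 10695 6510) (.cons 6510 23 .nil) 14881 :=
  chkW_sound (by norm_num) (by norm_num) (by norm_num) c4_0
theorem u3 : W3 = P (w8 10695 12121) (.cons 8556 5 (.cons 3565 3 .nil)) 9270 :=
  chkW_sound (by norm_num) (by norm_num) (by norm_num) c3_0
theorem u2 : W2 = P (w8 10695 8556) (.cons 8556 5 .nil) 12835 :=
  chkW_sound (by norm_num) (by norm_num) (by norm_num) c2_0
theorem u1 : W1 = P (w8 10695 3565) (.cons 3565 3 .nil) 17826 :=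
  chkW_sound (by norm_num) (by norm_num) (by norm_num) c1_0
theorem tr_eq : tr = TR (w8 10695) [(2760, 31, 1843574856, 255), (6510, 23, 8047776, 255), (8556, 5, 12, 1), (3565, 3, 4, 255)] .nil 0 0 :=
  mk_node (mk_node (mk_node (mk_node (mk_leaf rfl u15) (mk_leaf rfl u14)) (mk_node (mk_leaf rfl u13) (mk_leaf rfl u12))) (mk_node (mk_node (mk_leaf rfl u11) (mk_leaf rfl u10)) (mk_node (mk_leaf rfl u9) (mk_leaf rfl u8)))) (mk_node (mk_node (mk_node (mk_leaf rfl u7) (mk_leaf rfl u6)) (mk_node (mk_leaf rfl u5) (mk_leaf rfl u4))) (mk_node (mk_node (mk_leaf rfl u3) (mk_leaf rfl u2)) (mk_node (mk_leaf rfl u1) (mk_leaf rfl (w8_zero _ _).symm))))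
theorem tb (d : ℤ) (n : ℕ)
    (h : ∀ l ∈ ({31, 23, 5, 3} : Finset ℕ), jacobiSym ((n : ℤ) ^ 2 + 4) l = -1) :
    (512 : ℤ) ∣ Pool.Agent.N367.LE.SEr d {31, 23, 5, 3} n -
      256 * (((BT10695 >>> (((n % 31 * 23 + n % 23) * 5 + n % 5) * 3 + n % 3)) % 2 : ℕ) : ℤ) :=
  tb_gen (m := 10695) pd31 pd23 pd5 pd3 (by norm_num) (by norm_num) (by norm_num)
    (by norm_num) (by norm_num) (by norm_num) (show Idem 3 5 23 31 3565 8556 6510 2760 from Idem.of (by decide)) (by norm_num) (by norm_num)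
    (by norm_num) (by rw [← tr_eq]; exact ev_true) d n h

end Pool.Agent.N367.HT.D10695
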