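import Pool.Agent.N367.HT.J
import Pool.Agent.N367.HT.D11571

/-! The sum for 29 19 7 3. -/

namespace Pool.Agent.N367.HT.D11571

open Pool.Agent.N156.HT Pool.Agent.N911.L Pool.Agent.N367.HT

set_option exponentiation.threshold 2000000

theorem u15 : W15 = P (w8 11571 11572) (.cons 1596 29 (.cons 609 19 (.cons 1653 7 (.cons 7714 3 .nil)))) 0 :=
  by
  unfold W15
  have h9 := chkW_sound (by norm_num) (by norm_num) (by norm_num) c15_9
  have h8 : Nat.add W15c8 (Nat.mul (Nat.pow 2 52668) (W15c9)) = P (w8 11571 11572) (.cons 1596 5 (.cons 609 19 (.cons 1653 7 (.cons 7714 3 .nil)))) 38304 :=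
    @P_join2 (w8 11571 11572) 1596 3 2 5 38304 43092 52668 (.cons 609 19 (.cons 1653 7 (.cons 7714 3 .nil))) W15c8 (W15c9)
      (chkW_sound (by norm_num) (by norm_num) (by norm_num) c15_8) h9 (by norm_num) rfl rfl
  have h7 : Nat.add W15c7 (Nat.mul (Nat.pow 2 52668) (Nat.add W15c8 (Nat.mul (Nat.pow 2 52668) (W15c9)))) = P (w8 11571 11572) (.cons 1596 8 (.cons 609 19 (.cons 1653 7 (.cons 7714 3 .nil)))) 33516 :=
    @P_join2 (w8 11571 11572) 1596 3 5 8 33516 38304 52668 (.cons 609 19 (.cons 1653 7 (.cons 7714 3 .nil))) W15c7 (Nat.add W15c8 (Nat.mul (Nat.pow 2 52668) (W15c9)))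
      (chkW_sound (by norm_num) (by norm_num) (by norm_num) c15_7) h8 (by norm_num) rfl rfl
  have h6 : Nat.add W15c6 (Nat.mul (Nat.pow 2 52668) (Nat.add W15c7 (Nat.mul (Nat.pow 2 52668) (Nat.add W15c8 (Nat.mul (Nat.pow 2 52668) (W15c9)))))) = P (w8 11571 11572) (.cons 1596 11 (.cons 609 19 (.cons 1653 7 (.cons 7714 3 .nil)))) 28728 :=
    @P_join2 (w8 11571 11572) 1596 3 8 11 28728 33516 52668 (.cons 609 19 (.cons 1653 7 (.cons 7714 3 .nil))) W15c6 (Nat.add W15c7 (Nat.mul (Nat.pow 2 52668) (Nat.add W15c8 (Nat.mul (Nat.pow 2 52668) (W15c9)))))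
      (chkW_sound (by norm_num) (by norm_num) (by norm_num) c15_6) h7 (by norm_num) rfl rfl
  have h5 : Nat.add W15c5 (Nat.mul (Nat.pow 2 52668) (Nat.add W15c6 (Nat.mul (Nat.pow 2 52668) (Nat.add W15c7 (Nat.mul (Nat.pow 2 52668) (Nat.add W15c8 (Nat.mul (Nat.pow 2 52668) (W15c9)))))))) = P (w8 11571 11572) (.cons 1596 14 (.cons 609 19 (.cons 1653 7 (.cons 7714 3 .nil)))) 23940 :=
    @P_join2 (w8 11571 11572) 1596 3 11 14 23940 28728 52668 (.cons 609 19 (.cons 1653 7 (.cons 7714 3 .nil))) W15c5 (Nat.add W15c6 (Nat.mul (Nat.pow 2 52668) (Nat.add W15c7 (Nat.mul (Nat.pow 2 52668) (Nat.add W15c8 (Nat.mul (Nat.pow 2 52668) (W15c9)))))))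
      (chkW_sound (by norm_num) (by norm_num) (by norm_num) c15_5) h6 (by norm_num) rfl rfl
  have h4 : Nat.add W15c4 (Nat.mul (Nat.pow 2 52668) (Nat.add W15c5 (Nat.mul (Nat.pow 2 52668) (Nat.add W15c6 (Nat.mul (Nat.pow 2 52668) (Nat.add W15c7 (Nat.mul (Nat.pow 2 52668) (Nat.add W15c8 (Nat.mul (Nat.pow 2 52668) (W15c9)))))))))) = P (w8 11571 11572) (.cons 1596 17 (.cons 609 19 (.cons 1653 7 (.cons 7714 3 .nil)))) 19152 :=
    @P_join2 (w8 11571 11572) 1596 3 14 17 19152 23940 52668 (.cons 609 19 (.cons 1653 7 (.cons 7714 3 .nil))) W15c4 (Nat.add W15c5 (Nat.mul (Nat.pow 2 52668) (Nat.add W15c6 (Nat.mul (Nat.pow 2 52668) (Nat.add W15c7 (Nat.mul (Nat.pow 2 52668) (Nat.add W15c8 (Nat.mul (Nat.pow 2 52668) (W15c9)))))))))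
      (chkW_sound (by norm_num) (by norm_num) (by norm_num) c15_4) h5 (by norm_num) rfl rfl
  have h3 : Nat.add W15c3 (Nat.mul (Nat.pow 2 52668) (Nat.add W15c4 (Nat.mul (Nat.pow 2 52668) (Nat.add W15c5 (Nat.mul (Nat.pow 2 52668) (Nat.add W15c6 (Nat.mul (Nat.pow 2 52668) (Nat.add W15c7 (Nat.mul (Nat.pow 2 52668) (Nat.add W15c8 (Nat.mul (Nat.pow 2 52668) (W15c9)))))))))))) = P (w8 11571 11572) (.cons 1596 20 (.cons 609 19 (.cons 1653 7 (.cons 7714 3 .nil)))) 14364 :=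
    @P_join2 (w8 11571 11572) 1596 3 17 20 14364 19152 52668 (.cons 609 19 (.cons 1653 7 (.cons 7714 3 .nil))) W15c3 (Nat.add W15c4 (Nat.mul (Nat.pow 2 52668) (Nat.add W15c5 (Nat.mul (Nat.pow 2 52668) (Nat.add W15c6 (Nat.mul (Nat.pow 2 52668) (Nat.add W15c7 (Nat.mul (Nat.pow 2 52668) (Nat.add W15c8 (Nat.mul (Nat.pow 2 52668) (W15c9)))))))))))
      (chkW_sound (by norm_num) (by norm_num) (by norm_num) c15_3) h4 (by norm_num) rfl rfl
  have h2 : Nat.add W15c2 (Nat.mul (Nat.pow 2 52668) (Nat.add W15c3 (Nat.mul (Nat.pow 2 52668) (Nat.add W15c4 (Nat.mul (Nat.pow 2 52668) (Nat.add W15c5 (Nat.mul (Nat.pow 2 52668) (Nat.add W15c6 (Nat.mul (Nat.pow 2 52668) (Nat.add W15c7 (Nat.mul (Nat.pow 2 52668) (Nat.add W15c8 (Nat.mul (Nat.pow 2 52668) (W15c9)))))))))))))) = P (w8 11571 11572) (.cons 1596 23 (.cons 609 19 (.cons 1653 7 (.cons 7714 3 .nil)))) 9576 :=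
    @P_join2 (w8 11571 11572) 1596 3 20 23 9576 14364 52668 (.cons 609 19 (.cons 1653 7 (.cons 7714 3 .nil))) W15c2 (Nat.add W15c3 (Nat.mul (Nat.pow 2 52668) (Nat.add W15c4 (Nat.mul (Nat.pow 2 52668) (Nat.add W15c5 (Nat.mul (Nat.pow 2 52668) (Nat.add W15c6 (Nat.mul (Nat.pow 2 52668) (Nat.add W15c7 (Nat.mul (Nat.pow 2 52668) (Nat.add W15c8 (Nat.mul (Nat.pow 2 52668) (W15c9)))))))))))))
      (chkW_sound (by norm_num) (by norm_num) (by norm_num) c15_2) h3 (by norm_num) rfl rfl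
  have h1 : Nat.add W15c1 (Nat.mul (Nat.pow 2 52668) (Nat.add W15c2 (Nat.mul (Nat.pow 2 52668) (Nat.add W15c3 (Nat.mul (Nat.pow 2 52668) (Nat.add W15c4 (Nat.mul (Nat.pow 2 52668) (Nat.add W15c5 (Nat.mul (Nat.pow 2 52668) (Nat.add W15c6 (Nat.mul (Nat.pow 2 52668) (Nat.add W15c7 (Nat.mul (Nat.pow 2 52668) (Nat.add W15c8 (Nat.mul (Nat.pow 2 52668) (W15c9)))))))))))))))) = P (w8 11571 11572) (.cons 1596 26 (.cons 609 19 (.cons 1653 7 (.cons 7714 3 .nil)))) 4788 :=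
    @P_join2 (w8 11571 11572) 1596 3 23 26 4788 9576 52668 (.cons 609 19 (.cons 1653 7 (.cons 7714 3 .nil))) W15c1 (Nat.add W15c2 (Nat.mul (Nat.pow 2 52668) (Nat.add W15c3 (Nat.mul (Nat.pow 2 52668) (Nat.add W15c4 (Nat.mul (Nat.pow 2 52668) (Nat.add W15c5 (Nat.mul (Nat.pow 2 52668) (Nat.add W15c6 (Nat.mul (Nat.pow 2 52668) (Nat.add W15c7 (Nat.mul (Nat.pow 2 52668) (Nat.add W15c8 (Nat.mul (Nat.pow 2 52668) (W15c9)))))))))))))))
      (chkW_sound (by norm_num) (by norm_num) (by norm_num) c15_1) h2 (by norm_num) rfl rfl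
  have h0 : Nat.add W15c0 (Nat.mul (Nat.pow 2 52668) (Nat.add W15c1 (Nat.mul (Nat.pow 2 52668) (Nat.add W15c2 (Nat.mul (Nat.pow 2 52668) (Nat.add W15c3 (Nat.mul (Nat.pow 2 52668) (Nat.add W15c4 (Nat.mul (Nat.pow 2 52668) (Nat.add W15c5 (Nat.mul (Nat.pow 2 52668) (Nat.add W15c6 (Nat.mul (Nat.pow 2 52668) (Nat.add W15c7 (Nat.mul (Nat.pow 2 52668) (Nat.add W15c8 (Nat.mul (Nat.pow 2 52668) (W15c9)))))))))))))))))) = P (w8 11571 11572) (.cons 1596 29 (.cons 609 19 (.cons 1653 7 (.cons 7714 3 .nil)))) 0 :=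
    @P_join2 (w8 11571 11572) 1596 3 26 29 0 4788 52668 (.cons 609 19 (.cons 1653 7 (.cons 7714 3 .nil))) W15c0 (Nat.add W15c1 (Nat.mul (Nat.pow 2 52668) (Nat.add W15c2 (Nat.mul (Nat.pow 2 52668) (Nat.add W15c3 (Nat.mul (Nat.pow 2 52668) (Nat.add W15c4 (Nat.mul (Nat.pow 2 52668) (Nat.add W15c5 (Nat.mul (Nat.pow 2 52668) (Nat.add W15c6 (Nat.mul (Nat.pow 2 52668) (Nat.add W15c7 (Nat.mul (Nat.pow 2 52668) (Nat.add W15c8 (Nat.mul (Nat.pow 2 52668) (W15c9)))))))))))))))))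
      (chkW_sound (by norm_num) (by norm_num) (by norm_num) c15_0) h1 (by norm_num) rfl rfl
  exact h0
theorem u14 : W14 = P (w8 11571 3858) (.cons 1596 29 (.cons 609 19 (.cons 1653 7 .nil))) 7714 :=
  by
  unfold W14
  have h2 := chkW_sound (by norm_num) (by norm_num) (by norm_num) c14_2
  have h1 : Nat.add W14c1 (Nat.mul (Nat.pow 2 58520) (W14c2)) = P (w8 11571 3858) (.cons 1596 19 (.cons 609 19 (.cons 1653 7 .nil))) 23674 :=
    @P_join2 (w8 11571 3858) 1596 10 9 19 23674 39634 58520 (.cons 609 19 (.cons 1653 7 .nil)) W14c1 (W14c2)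
      (chkW_sound (by norm_num) (by norm_num) (by norm_num) c14_1) h2 (by norm_num) rfl rfl
  have h0 : Nat.add W14c0 (Nat.mul (Nat.pow 2 58520) (Nat.add W14c1 (Nat.mul (Nat.pow 2 58520) (W14c2)))) = P (w8 11571 3858) (.cons 1596 29 (.cons 609 19 (.cons 1653 7 .nil))) 7714 :=
    @P_join2 (w8 11571 3858) 1596 10 19 29 7714 23674 58520 (.cons 609 19 (.cons 1653 7 .nil)) W14c0 (Nat.add W14c1 (Nat.mul (Nat.pow 2 58520) (W14c2)))
      (chkW_sound (by norm_num) (by norm_num) (by norm_num) c14_0) h1 (by norm_num) rfl rfl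
  exact h0
theorem u13 : W13 = P (w8 11571 9919) (.cons 1596 29 (.cons 609 19 (.cons 7714 3 .nil))) 1653 :=
  by
  unfold W13
  have h1 := chkW_sound (by norm_num) (by norm_num) (by norm_num) c13_1
  have h0 : Nat.add W13c0 (Nat.mul (Nat.pow 2 37620) (W13c1)) = P (w8 11571 9919) (.cons 1596 29 (.cons 609 19 (.cons 7714 3 .nil))) 1653 :=
    @P_join2 (w8 11571 9919) 1596 15 14 29 1653 25593 37620 (.cons 609 19 (.cons 7714 3 .nil)) W13c0 (W13c1)
      (chkW_sound (by norm_num) (by norm_num) (by norm_num) c13_0) h1 (by norm_num) rfl rfl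
  exact h0
theorem u12 : W12 = P (w8 11571 2205) (.cons 1596 29 (.cons 609 19 .nil)) 9367 :=
  chkW_sound (by norm_num) (by norm_num) (by norm_num) c12_0
theorem u11 : W11 = P (w8 11571 10963) (.cons 1596 29 (.cons 1653 7 (.cons 7714 3 .nil))) 609 :=
  chkW_sound (by norm_num) (by norm_num) (by norm_num) c11_0
theorem u10 : W10 = P (w8 11571 3249) (.cons 1596 29 (.cons 1653 7 .nil)) 8323 :=
  chkW_sound (by norm_num) (by norm_num) (by norm_num) c10_0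
theorem u9 : W9 = P (w8 11571 9310) (.cons 1596 29 (.cons 7714 3 .nil)) 2262 :=
  chkW_sound (by norm_num) (by norm_num) (by norm_num) c9_0
theorem u8 : W8 = P (w8 11571 1596) (.cons 1596 29 .nil) 9976 :=
  chkW_sound (by norm_num) (by norm_num) (by norm_num) c8_0
theorem u7 : W7 = P (w8 11571 9976) (.cons 609 19 (.cons 1653 7 (.cons 7714 3 .nil))) 1596 :=
  chkW_sound (by norm_num) (by norm_num) (by norm_num) c7_0
theorem u6 : W6 = P (w8 11571 2262) (.cons 609 19 (.cons 1653 7 .nil)) 9310 :=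
  chkW_sound (by norm_num) (by norm_num) (by norm_num) c6_0
theorem u5 : W5 = P (w8 11571 8323) (.cons 609 19 (.cons 7714 3 .nil)) 3249 :=
  chkW_sound (by norm_num) (by norm_num) (by norm_num) c5_0
theorem u4 : W4 = P (w8 11571 609) (.cons 609 19 .nil) 10963 :=
  chkW_sound (by norm_num) (by norm_num) (by norm_num) c4_0
theorem u3 : W3 = P (w8 11571 9367) (.cons 1653 7 (.cons 7714 3 .nil)) 2205 :=
  chkW_sound (by norm_num) (by norm_num) (by norm_num) c3_0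
theorem u2 : W2 = P (w8 11571 1653) (.cons 1653 7 .nil) 9919 :=
  chkW_sound (by norm_num) (by norm_num) (by norm_num) c2_0
theorem u1 : W1 = P (w8 11571 7714) (.cons 7714 3 .nil) 3858 :=
  chkW_sound (by norm_num) (by norm_num) (by norm_num) c1_0
theorem tr_eq : tr = TR (w8 11571) [(1596, 29, 204397836, 1), (609, 19, 324876, 255), (1653, 7, 104, 255), (7714, 3, 4, 255)] .nil 0 0 :=
  mk_node (mk_node (mk_node (mk_node (mk_leaf rfl u15) (mk_leaf rfl u14)) (mk_node (mk_leaf rfl u13) (mk_leaf rfl u12))) (mk_node (mk_node (mk_leaf rfl u11) (mk_leaf rfl u10)) (mk_node (mk_leaf rfl u9) (mk_leaf rfl u8)))) (mk_node (mk_node (mk_node (mk_leaf rfl u7) (mk_leaf rfl u6)) (mk_node (mk_leaf rfl u5) (mk_leaf rfl u4))) (mk_node (mk_node (mk_leaf rfl u3) (mk_leaf rfl u2)) (mk_node (mk_leaf rfl u1) (mk_leaf rfl (w8_zero _ _).symm))))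
theorem tb (d : ℤ) (n : ℕ)
    (h : ∀ l ∈ ({29, 19, 7, 3} : Finset ℕ), jacobiSym ((n : ℤ) ^ 2 + 4) l = -1) :
    (512 : ℤ) ∣ Pool.Agent.N367.LE.SEr d {29, 19, 7, 3} n -
      256 * (((BT11571 >>> (((n % 29 * 19 + n % 19) * 7 + n % 7) * 3 + n % 3)) % 2 : ℕ) : ℤ) :=
  tb_gen (m := 11571) pd29 pd19 pd7 pd3 (by norm_num) (by norm_num) (by norm_num)
    (by norm_num) (by norm_num) (by norm_num) (show Idem 3 7 19 29 7714 1653 609 1596 from Idem.of (by decide)) (by norm_num) (by norm_num)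
    (by norm_num) (by rw [← tr_eq]; exact ev_true) d n h

end Pool.Agent.N367.HT.D11571
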