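import Pool.Agent.N367.HT.J
import Pool.Agent.N367.HT.D12903

/-! The sum for 23 17 11 3. -/

namespace Pool.Agent.N367.HT.D12903

open Pool.Agent.N156.HT Pool.Agent.N911.L Pool.Agent.N367.HT

set_option exponentiation.threshold 2000000

theorem u15 : W15 = P (w8 12903 38710) (.cons 10098 23 (.cons 10626 17 (.cons 9384 11 (.cons 8602 3 .nil)))) 0 :=
  by
  unfold W15
  have h11 := chkW_sound (by norm_num) (by norm_num) (by norm_num) c15_11
  have h10 : Nat.add W15c10 (Nat.mul (Nat.pow 2 49368) (W15c11)) = P (w8 12903 38710) (.cons 10098 3 (.cons 10626 17 (.cons 9384 11 (.cons 8602 3 .nil)))) 201960 :=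
    @P_join2 (w8 12903 38710) 10098 2 1 3 201960 222156 49368 (.cons 10626 17 (.cons 9384 11 (.cons 8602 3 .nil))) W15c10 (W15c11)
      (chkW_sound (by norm_num) (by norm_num) (by norm_num) c15_10) h11 (by norm_num) rfl rfl
  have h9 : Nat.add W15c9 (Nat.mul (Nat.pow 2 49368) (Nat.add W15c10 (Nat.mul (Nat.pow 2 49368) (W15c11)))) = P (w8 12903 38710) (.cons 10098 5 (.cons 10626 17 (.cons 9384 11 (.cons 8602 3 .nil)))) 181764 :=
    @P_join2 (w8 12903 38710) 10098 2 3 5 181764 201960 49368 (.cons 10626 17 (.cons 9384 11 (.cons 8602 3 .nil))) W15c9 (Nat.add W15c10 (Nat.mul (Nat.pow 2 49368) (W15c11)))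
      (chkW_sound (by norm_num) (by norm_num) (by norm_num) c15_9) h10 (by norm_num) rfl rfl
  have h8 : Nat.add W15c8 (Nat.mul (Nat.pow 2 49368) (Nat.add W15c9 (Nat.mul (Nat.pow 2 49368) (Nat.add W15c10 (Nat.mul (Nat.pow 2 49368) (W15c11)))))) = P (w8 12903 38710) (.cons 10098 7 (.cons 10626 17 (.cons 9384 11 (.cons 8602 3 .nil)))) 161568 :=
    @P_join2 (w8 12903 38710) 10098 2 5 7 161568 181764 49368 (.cons 10626 17 (.cons 9384 11 (.cons 8602 3 .nil))) W15c8 (Nat.add W15c9 (Nat.mul (Nat.pow 2 49368) (Nat.add W15c10 (Nat.mul (Nat.pow 2 49368) (W15c11)))))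
      (chkW_sound (by norm_num) (by norm_num) (by norm_num) c15_8) h9 (by norm_num) rfl rfl
  have h7 : Nat.add W15c7 (Nat.mul (Nat.pow 2 49368) (Nat.add W15c8 (Nat.mul (Nat.pow 2 49368) (Nat.add W15c9 (Nat.mul (Nat.pow 2 49368) (Nat.add W15c10 (Nat.mul (Nat.pow 2 49368) (W15c11)))))))) = P (w8 12903 38710) (.cons 10098 9 (.cons 10626 17 (.cons 9384 11 (.cons 8602 3 .nil)))) 141372 :=
    @P_join2 (w8 12903 38710) 10098 2 7 9 141372 161568 49368 (.cons 10626 17 (.cons 9384 11 (.cons 8602 3 .nil))) W15c7 (Nat.add W15c8 (Nat.mul (Nat.pow 2 49368) (Nat.add W15c9 (Nat.mul (Nat.pow 2 49368) (Nat.add W15c10 (Nat.mul (Nat.pow 2 49368) (W15c11)))))))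
      (chkW_sound (by norm_num) (by norm_num) (by norm_num) c15_7) h8 (by norm_num) rfl rfl
  have h6 : Nat.add W15c6 (Nat.mul (Nat.pow 2 49368) (Nat.add W15c7 (Nat.mul (Nat.pow 2 49368) (Nat.add W15c8 (Nat.mul (Nat.pow 2 49368) (Nat.add W15c9 (Nat.mul (Nat.pow 2 49368) (Nat.add W15c10 (Nat.mul (Nat.pow 2 49368) (W15c11)))))))))) = P (w8 12903 38710) (.cons 10098 11 (.cons 10626 17 (.cons 9384 11 (.cons 8602 3 .nil)))) 121176 :=
    @P_join2 (w8 12903 38710) 10098 2 9 11 121176 141372 49368 (.cons 10626 17 (.cons 9384 11 (.cons 8602 3 .nil))) W15c6 (Nat.add W15c7 (Nat.mul (Nat.pow 2 49368) (Nat.add W15c8 (Nat.mul (Nat.pow 2 49368) (Nat.add W15c9 (Nat.mul (Nat.pow 2 49368) (Nat.add W15c10 (Nat.mul (Nat.pow 2 49368) (W15c11)))))))))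
      (chkW_sound (by norm_num) (by norm_num) (by norm_num) c15_6) h7 (by norm_num) rfl rfl
  have h5 : Nat.add W15c5 (Nat.mul (Nat.pow 2 49368) (Nat.add W15c6 (Nat.mul (Nat.pow 2 49368) (Nat.add W15c7 (Nat.mul (Nat.pow 2 49368) (Nat.add W15c8 (Nat.mul (Nat.pow 2 49368) (Nat.add W15c9 (Nat.mul (Nat.pow 2 49368) (Nat.add W15c10 (Nat.mul (Nat.pow 2 49368) (W15c11)))))))))))) = P (w8 12903 38710) (.cons 10098 13 (.cons 10626 17 (.cons 9384 11 (.cons 8602 3 .nil)))) 100980 :=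
    @P_join2 (w8 12903 38710) 10098 2 11 13 100980 121176 49368 (.cons 10626 17 (.cons 9384 11 (.cons 8602 3 .nil))) W15c5 (Nat.add W15c6 (Nat.mul (Nat.pow 2 49368) (Nat.add W15c7 (Nat.mul (Nat.pow 2 49368) (Nat.add W15c8 (Nat.mul (Nat.pow 2 49368) (Nat.add W15c9 (Nat.mul (Nat.pow 2 49368) (Nat.add W15c10 (Nat.mul (Nat.pow 2 49368) (W15c11)))))))))))
      (chkW_sound (by norm_num) (by norm_num) (by norm_num) c15_5) h6 (by norm_num) rfl rfl
  have h4 : Nat.add W15c4 (Nat.mul (Nat.pow 2 49368) (Nat.add W15c5 (Nat.mul (Nat.pow 2 49368) (Nat.add W15c6 (Nat.mul (Nat.pow 2 49368) (Nat.add W15c7 (Nat.mul (Nat.pow 2 49368) (Nat.add W15c8 (Nat.mul (Nat.pow 2 49368) (Nat.add W15c9 (Nat.mul (Nat.pow 2 49368) (Nat.add W15c10 (Nat.mul (Nat.pow 2 49368) (W15c11)))))))))))))) = P (w8 12903 38710) (.cons 10098 15 (.cons 10626 17 (.cons 9384 11 (.cons 8602 3 .nil)))) 80784 :=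
    @P_join2 (w8 12903 38710) 10098 2 13 15 80784 100980 49368 (.cons 10626 17 (.cons 9384 11 (.cons 8602 3 .nil))) W15c4 (Nat.add W15c5 (Nat.mul (Nat.pow 2 49368) (Nat.add W15c6 (Nat.mul (Nat.pow 2 49368) (Nat.add W15c7 (Nat.mul (Nat.pow 2 49368) (Nat.add W15c8 (Nat.mul (Nat.pow 2 49368) (Nat.add W15c9 (Nat.mul (Nat.pow 2 49368) (Nat.add W15c10 (Nat.mul (Nat.pow 2 49368) (W15c11)))))))))))))
      (chkW_sound (by norm_num) (by norm_num) (by norm_num) c15_4) h5 (by norm_num) rfl rfl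
  have h3 : Nat.add W15c3 (Nat.mul (Nat.pow 2 49368) (Nat.add W15c4 (Nat.mul (Nat.pow 2 49368) (Nat.add W15c5 (Nat.mul (Nat.pow 2 49368) (Nat.add W15c6 (Nat.mul (Nat.pow 2 49368) (Nat.add W15c7 (Nat.mul (Nat.pow 2 49368) (Nat.add W15c8 (Nat.mul (Nat.pow 2 49368) (Nat.add W15c9 (Nat.mul (Nat.pow 2 49368) (Nat.add W15c10 (Nat.mul (Nat.pow 2 49368) (W15c11)))))))))))))))) = P (w8 12903 38710) (.cons 10098 17 (.cons 10626 17 (.cons 9384 11 (.cons 8602 3 .nil)))) 60588 :=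
    @P_join2 (w8 12903 38710) 10098 2 15 17 60588 80784 49368 (.cons 10626 17 (.cons 9384 11 (.cons 8602 3 .nil))) W15c3 (Nat.add W15c4 (Nat.mul (Nat.pow 2 49368) (Nat.add W15c5 (Nat.mul (Nat.pow 2 49368) (Nat.add W15c6 (Nat.mul (Nat.pow 2 49368) (Nat.add W15c7 (Nat.mul (Nat.pow 2 49368) (Nat.add W15c8 (Nat.mul (Nat.pow 2 49368) (Nat.add W15c9 (Nat.mul (Nat.pow 2 49368) (Nat.add W15c10 (Nat.mul (Nat.pow 2 49368) (W15c11)))))))))))))))
      (chkW_sound (by norm_num) (by norm_num) (by norm_num) c15_3) h4 (by norm_num) rfl rfl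
  have h2 : Nat.add W15c2 (Nat.mul (Nat.pow 2 49368) (Nat.add W15c3 (Nat.mul (Nat.pow 2 49368) (Nat.add W15c4 (Nat.mul (Nat.pow 2 49368) (Nat.add W15c5 (Nat.mul (Nat.pow 2 49368) (Nat.add W15c6 (Nat.mul (Nat.pow 2 49368) (Nat.add W15c7 (Nat.mul (Nat.pow 2 49368) (Nat.add W15c8 (Nat.mul (Nat.pow 2 49368) (Nat.add W15c9 (Nat.mul (Nat.pow 2 49368) (Nat.add W15c10 (Nat.mul (Nat.pow 2 49368) (W15c11)))))))))))))))))) = P (w8 12903 38710) (.cons 10098 19 (.cons 10626 17 (.cons 9384 11 (.cons 8602 3 .nil)))) 40392 :=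
    @P_join2 (w8 12903 38710) 10098 2 17 19 40392 60588 49368 (.cons 10626 17 (.cons 9384 11 (.cons 8602 3 .nil))) W15c2 (Nat.add W15c3 (Nat.mul (Nat.pow 2 49368) (Nat.add W15c4 (Nat.mul (Nat.pow 2 49368) (Nat.add W15c5 (Nat.mul (Nat.pow 2 49368) (Nat.add W15c6 (Nat.mul (Nat.pow 2 49368) (Nat.add W15c7 (Nat.mul (Nat.pow 2 49368) (Nat.add W15c8 (Nat.mul (Nat.pow 2 49368) (Nat.add W15c9 (Nat.mul (Nat.pow 2 49368) (Nat.add W15c10 (Nat.mul (Nat.pow 2 49368) (W15c11)))))))))))))))))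
      (chkW_sound (by norm_num) (by norm_num) (by norm_num) c15_2) h3 (by norm_num) rfl rfl
  have h1 : Nat.add W15c1 (Nat.mul (Nat.pow 2 49368) (Nat.add W15c2 (Nat.mul (Nat.pow 2 49368) (Nat.add W15c3 (Nat.mul (Nat.pow 2 49368) (Nat.add W15c4 (Nat.mul (Nat.pow 2 49368) (Nat.add W15c5 (Nat.mul (Nat.pow 2 49368) (Nat.add W15c6 (Nat.mul (Nat.pow 2 49368) (Nat.add W15c7 (Nat.mul (Nat.pow 2 49368) (Nat.add W15c8 (Nat.mul (Nat.pow 2 49368) (Nat.add W15c9 (Nat.mul (Nat.pow 2 49368) (Nat.add W15c10 (Nat.mul (Nat.pow 2 49368) (W15c11)))))))))))))))))))) = P (w8 12903 38710) (.cons 10098 21 (.cons 10626 17 (.cons 9384 11 (.cons 8602 3 .nil)))) 20196 :=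
    @P_join2 (w8 12903 38710) 10098 2 19 21 20196 40392 49368 (.cons 10626 17 (.cons 9384 11 (.cons 8602 3 .nil))) W15c1 (Nat.add W15c2 (Nat.mul (Nat.pow 2 49368) (Nat.add W15c3 (Nat.mul (Nat.pow 2 49368) (Nat.add W15c4 (Nat.mul (Nat.pow 2 49368) (Nat.add W15c5 (Nat.mul (Nat.pow 2 49368) (Nat.add W15c6 (Nat.mul (Nat.pow 2 49368) (Nat.add W15c7 (Nat.mul (Nat.pow 2 49368) (Nat.add W15c8 (Nat.mul (Nat.pow 2 49368) (Nat.add W15c9 (Nat.mul (Nat.pow 2 49368) (Nat.add W15c10 (Nat.mul (Nat.pow 2 49368) (W15c11)))))))))))))))))))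
      (chkW_sound (by norm_num) (by norm_num) (by norm_num) c15_1) h2 (by norm_num) rfl rfl
  have h0 : Nat.add W15c0 (Nat.mul (Nat.pow 2 49368) (Nat.add W15c1 (Nat.mul (Nat.pow 2 49368) (Nat.add W15c2 (Nat.mul (Nat.pow 2 49368) (Nat.add W15c3 (Nat.mul (Nat.pow 2 49368) (Nat.add W15c4 (Nat.mul (Nat.pow 2 49368) (Nat.add W15c5 (Nat.mul (Nat.pow 2 49368) (Nat.add W15c6 (Nat.mul (Nat.pow 2 49368) (Nat.add W15c7 (Nat.mul (Nat.pow 2 49368) (Nat.add W15c8 (Nat.mul (Nat.pow 2 49368) (Nat.add W15c9 (Nat.mul (Nat.pow 2 49368) (Nat.add W15c10 (Nat.mul (Nat.pow 2 49368) (W15c11)))))))))))))))))))))) = P (w8 12903 38710) (.cons 10098 23 (.cons 10626 17 (.cons 9384 11 (.cons 8602 3 .nil)))) 0 :=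
    @P_join2 (w8 12903 38710) 10098 2 21 23 0 20196 49368 (.cons 10626 17 (.cons 9384 11 (.cons 8602 3 .nil))) W15c0 (Nat.add W15c1 (Nat.mul (Nat.pow 2 49368) (Nat.add W15c2 (Nat.mul (Nat.pow 2 49368) (Nat.add W15c3 (Nat.mul (Nat.pow 2 49368) (Nat.add W15c4 (Nat.mul (Nat.pow 2 49368) (Nat.add W15c5 (Nat.mul (Nat.pow 2 49368) (Nat.add W15c6 (Nat.mul (Nat.pow 2 49368) (Nat.add W15c7 (Nat.mul (Nat.pow 2 49368) (Nat.add W15c8 (Nat.mul (Nat.pow 2 49368) (Nat.add W15c9 (Nat.mul (Nat.pow 2 49368) (Nat.add W15c10 (Nat.mul (Nat.pow 2 49368) (W15c11)))))))))))))))))))))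
      (chkW_sound (by norm_num) (by norm_num) (by norm_num) c15_0) h1 (by norm_num) rfl rfl
  exact h0
theorem u14 : W14 = P (w8 12903 30108) (.cons 10098 23 (.cons 10626 17 (.cons 9384 11 .nil))) 8602 :=
  by
  unfold W14
  have h3 := chkW_sound (by norm_num) (by norm_num) (by norm_num) c14_3
  have h2 : Nat.add W14c2 (Nat.mul (Nat.pow 2 49368) (W14c3)) = P (w8 12903 30108) (.cons 10098 11 (.cons 10626 17 (.cons 9384 11 .nil))) 129778 :=
    @P_join2 (w8 12903 30108) 10098 6 5 11 129778 190366 49368 (.cons 10626 17 (.cons 9384 11 .nil)) W14c2 (W14c3)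
      (chkW_sound (by norm_num) (by norm_num) (by norm_num) c14_2) h3 (by norm_num) rfl rfl
  have h1 : Nat.add W14c1 (Nat.mul (Nat.pow 2 49368) (Nat.add W14c2 (Nat.mul (Nat.pow 2 49368) (W14c3)))) = P (w8 12903 30108) (.cons 10098 17 (.cons 10626 17 (.cons 9384 11 .nil))) 69190 :=
    @P_join2 (w8 12903 30108) 10098 6 11 17 69190 129778 49368 (.cons 10626 17 (.cons 9384 11 .nil)) W14c1 (Nat.add W14c2 (Nat.mul (Nat.pow 2 49368) (W14c3)))
      (chkW_sound (by norm_num) (by norm_num) (by norm_num) c14_1) h2 (by norm_num) rfl rfl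
  have h0 : Nat.add W14c0 (Nat.mul (Nat.pow 2 49368) (Nat.add W14c1 (Nat.mul (Nat.pow 2 49368) (Nat.add W14c2 (Nat.mul (Nat.pow 2 49368) (W14c3)))))) = P (w8 12903 30108) (.cons 10098 23 (.cons 10626 17 (.cons 9384 11 .nil))) 8602 :=
    @P_join2 (w8 12903 30108) 10098 6 17 23 8602 69190 49368 (.cons 10626 17 (.cons 9384 11 .nil)) W14c0 (Nat.add W14c1 (Nat.mul (Nat.pow 2 49368) (Nat.add W14c2 (Nat.mul (Nat.pow 2 49368) (W14c3)))))
      (chkW_sound (by norm_num) (by norm_num) (by norm_num) c14_0) h1 (by norm_num) rfl rfl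
  exact h0
theorem u13 : W13 = P (w8 12903 29326) (.cons 10098 23 (.cons 10626 17 (.cons 8602 3 .nil))) 9384 :=
  chkW_sound (by norm_num) (by norm_num) (by norm_num) c13_0
theorem u12 : W12 = P (w8 12903 20724) (.cons 10098 23 (.cons 10626 17 .nil)) 17986 :=
  chkW_sound (by norm_num) (by norm_num) (by norm_num) c12_0
theorem u11 : W11 = P (w8 12903 28084) (.cons 10098 23 (.cons 9384 11 (.cons 8602 3 .nil))) 10626 :=
  chkW_sound (by norm_num) (by norm_num) (by norm_num) c11_0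
theorem u10 : W10 = P (w8 12903 19482) (.cons 10098 23 (.cons 9384 11 .nil)) 19228 :=
  chkW_sound (by norm_num) (by norm_num) (by norm_num) c10_0
theorem u9 : W9 = P (w8 12903 18700) (.cons 10098 23 (.cons 8602 3 .nil)) 20010 :=
  chkW_sound (by norm_num) (by norm_num) (by norm_num) c9_0
theorem u8 : W8 = P (w8 12903 10098) (.cons 10098 23 .nil) 28612 :=
  chkW_sound (by norm_num) (by norm_num) (by norm_num) c8_0
theorem u7 : W7 = P (w8 12903 28612) (.cons 10626 17 (.cons 9384 11 (.cons 8602 3 .nil))) 10098 :=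
  chkW_sound (by norm_num) (by norm_num) (by norm_num) c7_0
theorem u6 : W6 = P (w8 12903 20010) (.cons 10626 17 (.cons 9384 11 .nil)) 18700 :=
  chkW_sound (by norm_num) (by norm_num) (by norm_num) c6_0
theorem u5 : W5 = P (w8 12903 19228) (.cons 10626 17 (.cons 8602 3 .nil)) 19482 :=
  chkW_sound (by norm_num) (by norm_num) (by norm_num) c5_0
theorem u4 : W4 = P (w8 12903 10626) (.cons 10626 17 .nil) 28084 :=
  chkW_sound (by norm_num) (by norm_num) (by norm_num) c4_0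
theorem u3 : W3 = P (w8 12903 17986) (.cons 9384 11 (.cons 8602 3 .nil)) 20724 :=
  chkW_sound (by norm_num) (by norm_num) (by norm_num) c3_0
theorem u2 : W2 = P (w8 12903 9384) (.cons 9384 11 .nil) 29326 :=
  chkW_sound (by norm_num) (by norm_num) (by norm_num) c2_0
theorem u1 : W1 = P (w8 12903 8602) (.cons 8602 3 .nil) 30108 :=
  chkW_sound (by norm_num) (by norm_num) (by norm_num) c1_0
theorem tr_eq : tr = TR (w8 12903) [(10098, 23, 8047776, 255), (10626, 17, 23784, 1), (9384, 11, 1476, 255), (8602, 3, 4, 255)] .nil 0 0 :=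
  mk_node (mk_node (mk_node (mk_node (mk_leaf rfl u15) (mk_leaf rfl u14)) (mk_node (mk_leaf rfl u13) (mk_leaf rfl u12))) (mk_node (mk_node (mk_leaf rfl u11) (mk_leaf rfl u10)) (mk_node (mk_leaf rfl u9) (mk_leaf rfl u8)))) (mk_node (mk_node (mk_node (mk_leaf rfl u7) (mk_leaf rfl u6)) (mk_node (mk_leaf rfl u5) (mk_leaf rfl u4))) (mk_node (mk_node (mk_leaf rfl u3) (mk_leaf rfl u2)) (mk_node (mk_leaf rfl u1) (mk_leaf rfl (w8_zero _ _).symm))))
theorem tb (d : ℤ) (n : ℕ)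
    (h : ∀ l ∈ ({23, 17, 11, 3} : Finset ℕ), jacobiSym ((n : ℤ) ^ 2 + 4) l = -1) :
    (512 : ℤ) ∣ Pool.Agent.N367.LE.SEr d {23, 17, 11, 3} n -
      256 * (((BT12903 >>> (((n % 23 * 17 + n % 17) * 11 + n % 11) * 3 + n % 3)) % 2 : ℕ) : ℤ) :=
  tb_gen (m := 12903) pd23 pd17 pd11 pd3 (by norm_num) (by norm_num) (by norm_num)
    (by norm_num) (by norm_num) (by norm_num) (show Idem 3 11 17 23 8602 9384 10626 10098 from Idem.of (by decide)) (by norm_num) (by norm_num)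
    (by norm_num) (by rw [← tr_eq]; exact ev_true) d n h

end Pool.Agent.N367.HT.D12903
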