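import Pool.Agent.N367.HT.J
import Pool.Agent.N367.HT.D13299

/-! The sum for 31 13 11 3. -/

namespace Pool.Agent.N367.HT.D13299

open Pool.Agent.N156.HT Pool.Agent.N911.L Pool.Agent.N367.HT

set_option exponentiation.threshold 2000000

theorem u15 : W15 = P (w8 13299 26599) (.cons 2574 31 (.cons 3069 13 (.cons 12090 11 (.cons 8866 3 .nil)))) 0 :=
  by
  unfold W15
  have h15 := chkW_sound (by norm_num) (by norm_num) (by norm_num) c15_15
  have h14 : Nat.add W15c14 (Nat.mul (Nat.pow 2 37752) (W15c15)) = P (w8 13299 26599) (.cons 2574 3 (.cons 3069 13 (.cons 12090 11 (.cons 8866 3 .nil)))) 72072 :=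
    @P_join2 (w8 13299 26599) 2574 2 1 3 72072 77220 37752 (.cons 3069 13 (.cons 12090 11 (.cons 8866 3 .nil))) W15c14 (W15c15)
      (chkW_sound (by norm_num) (by norm_num) (by norm_num) c15_14) h15 (by norm_num) rfl rfl
  have h13 : Nat.add W15c13 (Nat.mul (Nat.pow 2 37752) (Nat.add W15c14 (Nat.mul (Nat.pow 2 37752) (W15c15)))) = P (w8 13299 26599) (.cons 2574 5 (.cons 3069 13 (.cons 12090 11 (.cons 8866 3 .nil)))) 66924 :=
    @P_join2 (w8 13299 26599) 2574 2 3 5 66924 72072 37752 (.cons 3069 13 (.cons 12090 11 (.cons 8866 3 .nil))) W15c13 (Nat.add W15c14 (Nat.mul (Nat.pow 2 37752) (W15c15)))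
      (chkW_sound (by norm_num) (by norm_num) (by norm_num) c15_13) h14 (by norm_num) rfl rfl
  have h12 : Nat.add W15c12 (Nat.mul (Nat.pow 2 37752) (Nat.add W15c13 (Nat.mul (Nat.pow 2 37752) (Nat.add W15c14 (Nat.mul (Nat.pow 2 37752) (W15c15)))))) = P (w8 13299 26599) (.cons 2574 7 (.cons 3069 13 (.cons 12090 11 (.cons 8866 3 .nil)))) 61776 :=
    @P_join2 (w8 13299 26599) 2574 2 5 7 61776 66924 37752 (.cons 3069 13 (.cons 12090 11 (.cons 8866 3 .nil))) W15c12 (Nat.add W15c13 (Nat.mul (Nat.pow 2 37752) (Nat.add W15c14 (Nat.mul (Nat.pow 2 37752) (W15c15)))))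
      (chkW_sound (by norm_num) (by norm_num) (by norm_num) c15_12) h13 (by norm_num) rfl rfl
  have h11 : Nat.add W15c11 (Nat.mul (Nat.pow 2 37752) (Nat.add W15c12 (Nat.mul (Nat.pow 2 37752) (Nat.add W15c13 (Nat.mul (Nat.pow 2 37752) (Nat.add W15c14 (Nat.mul (Nat.pow 2 37752) (W15c15)))))))) = P (w8 13299 26599) (.cons 2574 9 (.cons 3069 13 (.cons 12090 11 (.cons 8866 3 .nil)))) 56628 :=
    @P_join2 (w8 13299 26599) 2574 2 7 9 56628 61776 37752 (.cons 3069 13 (.cons 12090 11 (.cons 8866 3 .nil))) W15c11 (Nat.add W15c12 (Nat.mul (Nat.pow 2 37752) (Nat.add W15c13 (Nat.mul (Nat.pow 2 37752) (Nat.add W15c14 (Nat.mul (Nat.pow 2 37752) (W15c15)))))))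
      (chkW_sound (by norm_num) (by norm_num) (by norm_num) c15_11) h12 (by norm_num) rfl rfl
  have h10 : Nat.add W15c10 (Nat.mul (Nat.pow 2 37752) (Nat.add W15c11 (Nat.mul (Nat.pow 2 37752) (Nat.add W15c12 (Nat.mul (Nat.pow 2 37752) (Nat.add W15c13 (Nat.mul (Nat.pow 2 37752) (Nat.add W15c14 (Nat.mul (Nat.pow 2 37752) (W15c15)))))))))) = P (w8 13299 26599) (.cons 2574 11 (.cons 3069 13 (.cons 12090 11 (.cons 8866 3 .nil)))) 51480 :=
    @P_join2 (w8 13299 26599) 2574 2 9 11 51480 56628 37752 (.cons 3069 13 (.cons 12090 11 (.cons 8866 3 .nil))) W15c10 (Nat.add W15c11 (Nat.mul (Nat.pow 2 37752) (Nat.add W15c12 (Nat.mul (Nat.pow 2 37752) (Nat.add W15c13 (Nat.mul (Nat.pow 2 37752) (Nat.add W15c14 (Nat.mul (Nat.pow 2 37752) (W15c15)))))))))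
      (chkW_sound (by norm_num) (by norm_num) (by norm_num) c15_10) h11 (by norm_num) rfl rfl
  have h9 : Nat.add W15c9 (Nat.mul (Nat.pow 2 37752) (Nat.add W15c10 (Nat.mul (Nat.pow 2 37752) (Nat.add W15c11 (Nat.mul (Nat.pow 2 37752) (Nat.add W15c12 (Nat.mul (Nat.pow 2 37752) (Nat.add W15c13 (Nat.mul (Nat.pow 2 37752) (Nat.add W15c14 (Nat.mul (Nat.pow 2 37752) (W15c15)))))))))))) = P (w8 13299 26599) (.cons 2574 13 (.cons 3069 13 (.cons 12090 11 (.cons 8866 3 .nil)))) 46332 :=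
    @P_join2 (w8 13299 26599) 2574 2 11 13 46332 51480 37752 (.cons 3069 13 (.cons 12090 11 (.cons 8866 3 .nil))) W15c9 (Nat.add W15c10 (Nat.mul (Nat.pow 2 37752) (Nat.add W15c11 (Nat.mul (Nat.pow 2 37752) (Nat.add W15c12 (Nat.mul (Nat.pow 2 37752) (Nat.add W15c13 (Nat.mul (Nat.pow 2 37752) (Nat.add W15c14 (Nat.mul (Nat.pow 2 37752) (W15c15)))))))))))
      (chkW_sound (by norm_num) (by norm_num) (by norm_num) c15_9) h10 (by norm_num) rfl rfl
  have h8 : Nat.add W15c8 (Nat.mul (Nat.pow 2 37752) (Nat.add W15c9 (Nat.mul (Nat.pow 2 37752) (Nat.add W15c10 (Nat.mul (Nat.pow 2 37752) (Nat.add W15c11 (Nat.mul (Nat.pow 2 37752) (Nat.add W15c12 (Nat.mul (Nat.pow 2 37752) (Nat.add W15c13 (Nat.mul (Nat.pow 2 37752) (Nat.add W15c14 (Nat.mul (Nat.pow 2 37752) (W15c15)))))))))))))) = P (w8 13299 26599) (.cons 2574 15 (.cons 3069 13 (.cons 12090 11 (.cons 8866 3 .nil)))) 41184 :=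
    @P_join2 (w8 13299 26599) 2574 2 13 15 41184 46332 37752 (.cons 3069 13 (.cons 12090 11 (.cons 8866 3 .nil))) W15c8 (Nat.add W15c9 (Nat.mul (Nat.pow 2 37752) (Nat.add W15c10 (Nat.mul (Nat.pow 2 37752) (Nat.add W15c11 (Nat.mul (Nat.pow 2 37752) (Nat.add W15c12 (Nat.mul (Nat.pow 2 37752) (Nat.add W15c13 (Nat.mul (Nat.pow 2 37752) (Nat.add W15c14 (Nat.mul (Nat.pow 2 37752) (W15c15)))))))))))))
      (chkW_sound (by norm_num) (by norm_num) (by norm_num) c15_8) h9 (by norm_num) rfl rfl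
  have h7 : Nat.add W15c7 (Nat.mul (Nat.pow 2 37752) (Nat.add W15c8 (Nat.mul (Nat.pow 2 37752) (Nat.add W15c9 (Nat.mul (Nat.pow 2 37752) (Nat.add W15c10 (Nat.mul (Nat.pow 2 37752) (Nat.add W15c11 (Nat.mul (Nat.pow 2 37752) (Nat.add W15c12 (Nat.mul (Nat.pow 2 37752) (Nat.add W15c13 (Nat.mul (Nat.pow 2 37752) (Nat.add W15c14 (Nat.mul (Nat.pow 2 37752) (W15c15)))))))))))))))) = P (w8 13299 26599) (.cons 2574 17 (.cons 3069 13 (.cons 12090 11 (.cons 8866 3 .nil)))) 36036 :=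
    @P_join2 (w8 13299 26599) 2574 2 15 17 36036 41184 37752 (.cons 3069 13 (.cons 12090 11 (.cons 8866 3 .nil))) W15c7 (Nat.add W15c8 (Nat.mul (Nat.pow 2 37752) (Nat.add W15c9 (Nat.mul (Nat.pow 2 37752) (Nat.add W15c10 (Nat.mul (Nat.pow 2 37752) (Nat.add W15c11 (Nat.mul (Nat.pow 2 37752) (Nat.add W15c12 (Nat.mul (Nat.pow 2 37752) (Nat.add W15c13 (Nat.mul (Nat.pow 2 37752) (Nat.add W15c14 (Nat.mul (Nat.pow 2 37752) (W15c15)))))))))))))))
      (chkW_sound (by norm_num) (by norm_num) (by norm_num) c15_7) h8 (by norm_num) rfl rfl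
  have h6 : Nat.add W15c6 (Nat.mul (Nat.pow 2 37752) (Nat.add W15c7 (Nat.mul (Nat.pow 2 37752) (Nat.add W15c8 (Nat.mul (Nat.pow 2 37752) (Nat.add W15c9 (Nat.mul (Nat.pow 2 37752) (Nat.add W15c10 (Nat.mul (Nat.pow 2 37752) (Nat.add W15c11 (Nat.mul (Nat.pow 2 37752) (Nat.add W15c12 (Nat.mul (Nat.pow 2 37752) (Nat.add W15c13 (Nat.mul (Nat.pow 2 37752) (Nat.add W15c14 (Nat.mul (Nat.pow 2 37752) (W15c15)))))))))))))))))) = P (w8 13299 26599) (.cons 2574 19 (.cons 3069 13 (.cons 12090 11 (.cons 8866 3 .nil)))) 30888 :=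
    @P_join2 (w8 13299 26599) 2574 2 17 19 30888 36036 37752 (.cons 3069 13 (.cons 12090 11 (.cons 8866 3 .nil))) W15c6 (Nat.add W15c7 (Nat.mul (Nat.pow 2 37752) (Nat.add W15c8 (Nat.mul (Nat.pow 2 37752) (Nat.add W15c9 (Nat.mul (Nat.pow 2 37752) (Nat.add W15c10 (Nat.mul (Nat.pow 2 37752) (Nat.add W15c11 (Nat.mul (Nat.pow 2 37752) (Nat.add W15c12 (Nat.mul (Nat.pow 2 37752) (Nat.add W15c13 (Nat.mul (Nat.pow 2 37752) (Nat.add W15c14 (Nat.mul (Nat.pow 2 37752) (W15c15)))))))))))))))))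
      (chkW_sound (by norm_num) (by norm_num) (by norm_num) c15_6) h7 (by norm_num) rfl rfl
  have h5 : Nat.add W15c5 (Nat.mul (Nat.pow 2 37752) (Nat.add W15c6 (Nat.mul (Nat.pow 2 37752) (Nat.add W15c7 (Nat.mul (Nat.pow 2 37752) (Nat.add W15c8 (Nat.mul (Nat.pow 2 37752) (Nat.add W15c9 (Nat.mul (Nat.pow 2 37752) (Nat.add W15c10 (Nat.mul (Nat.pow 2 37752) (Nat.add W15c11 (Nat.mul (Nat.pow 2 37752) (Nat.add W15c12 (Nat.mul (Nat.pow 2 37752) (Nat.add W15c13 (Nat.mul (Nat.pow 2 37752) (Nat.add W15c14 (Nat.mul (Nat.pow 2 37752) (W15c15)))))))))))))))))))) = P (w8 13299 26599) (.cons 2574 21 (.cons 3069 13 (.cons 12090 11 (.cons 8866 3 .nil)))) 25740 :=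
    @P_join2 (w8 13299 26599) 2574 2 19 21 25740 30888 37752 (.cons 3069 13 (.cons 12090 11 (.cons 8866 3 .nil))) W15c5 (Nat.add W15c6 (Nat.mul (Nat.pow 2 37752) (Nat.add W15c7 (Nat.mul (Nat.pow 2 37752) (Nat.add W15c8 (Nat.mul (Nat.pow 2 37752) (Nat.add W15c9 (Nat.mul (Nat.pow 2 37752) (Nat.add W15c10 (Nat.mul (Nat.pow 2 37752) (Nat.add W15c11 (Nat.mul (Nat.pow 2 37752) (Nat.add W15c12 (Nat.mul (Nat.pow 2 37752) (Nat.add W15c13 (Nat.mul (Nat.pow 2 37752) (Nat.add W15c14 (Nat.mul (Nat.pow 2 37752) (W15c15)))))))))))))))))))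
      (chkW_sound (by norm_num) (by norm_num) (by norm_num) c15_5) h6 (by norm_num) rfl rfl
  have h4 : Nat.add W15c4 (Nat.mul (Nat.pow 2 37752) (Nat.add W15c5 (Nat.mul (Nat.pow 2 37752) (Nat.add W15c6 (Nat.mul (Nat.pow 2 37752) (Nat.add W15c7 (Nat.mul (Nat.pow 2 37752) (Nat.add W15c8 (Nat.mul (Nat.pow 2 37752) (Nat.add W15c9 (Nat.mul (Nat.pow 2 37752) (Nat.add W15c10 (Nat.mul (Nat.pow 2 37752) (Nat.add W15c11 (Nat.mul (Nat.pow 2 37752) (Nat.add W15c12 (Nat.mul (Nat.pow 2 37752) (Nat.add W15c13 (Nat.mul (Nat.pow 2 37752) (Nat.add W15c14 (Nat.mul (Nat.pow 2 37752) (W15c15)))))))))))))))))))))) = P (w8 13299 26599) (.cons 2574 23 (.cons 3069 13 (.cons 12090 11 (.cons 8866 3 .nil)))) 20592 :=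
    @P_join2 (w8 13299 26599) 2574 2 21 23 20592 25740 37752 (.cons 3069 13 (.cons 12090 11 (.cons 8866 3 .nil))) W15c4 (Nat.add W15c5 (Nat.mul (Nat.pow 2 37752) (Nat.add W15c6 (Nat.mul (Nat.pow 2 37752) (Nat.add W15c7 (Nat.mul (Nat.pow 2 37752) (Nat.add W15c8 (Nat.mul (Nat.pow 2 37752) (Nat.add W15c9 (Nat.mul (Nat.pow 2 37752) (Nat.add W15c10 (Nat.mul (Nat.pow 2 37752) (Nat.add W15c11 (Nat.mul (Nat.pow 2 37752) (Nat.add W15c12 (Nat.mul (Nat.pow 2 37752) (Nat.add W15c13 (Nat.mul (Nat.pow 2 37752) (Nat.add W15c14 (Nat.mul (Nat.pow 2 37752) (W15c15)))))))))))))))))))))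
      (chkW_sound (by norm_num) (by norm_num) (by norm_num) c15_4) h5 (by norm_num) rfl rfl
  have h3 : Nat.add W15c3 (Nat.mul (Nat.pow 2 37752) (Nat.add W15c4 (Nat.mul (Nat.pow 2 37752) (Nat.add W15c5 (Nat.mul (Nat.pow 2 37752) (Nat.add W15c6 (Nat.mul (Nat.pow 2 37752) (Nat.add W15c7 (Nat.mul (Nat.pow 2 37752) (Nat.add W15c8 (Nat.mul (Nat.pow 2 37752) (Nat.add W15c9 (Nat.mul (Nat.pow 2 37752) (Nat.add W15c10 (Nat.mul (Nat.pow 2 37752) (Nat.add W15c11 (Nat.mul (Nat.pow 2 37752) (Nat.add W15c12 (Nat.mul (Nat.pow 2 37752) (Nat.add W15c13 (Nat.mul (Nat.pow 2 37752) (Nat.add W15c14 (Nat.mul (Nat.pow 2 37752) (W15c15)))))))))))))))))))))))) = P (w8 13299 26599) (.cons 2574 25 (.cons 3069 13 (.cons 12090 11 (.cons 8866 3 .nil)))) 15444 :=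
    @P_join2 (w8 13299 26599) 2574 2 23 25 15444 20592 37752 (.cons 3069 13 (.cons 12090 11 (.cons 8866 3 .nil))) W15c3 (Nat.add W15c4 (Nat.mul (Nat.pow 2 37752) (Nat.add W15c5 (Nat.mul (Nat.pow 2 37752) (Nat.add W15c6 (Nat.mul (Nat.pow 2 37752) (Nat.add W15c7 (Nat.mul (Nat.pow 2 37752) (Nat.add W15c8 (Nat.mul (Nat.pow 2 37752) (Nat.add W15c9 (Nat.mul (Nat.pow 2 37752) (Nat.add W15c10 (Nat.mul (Nat.pow 2 37752) (Nat.add W15c11 (Nat.mul (Nat.pow 2 37752) (Nat.add W15c12 (Nat.mul (Nat.pow 2 37752) (Nat.add W15c13 (Nat.mul (Nat.pow 2 37752) (Nat.add W15c14 (Nat.mul (Nat.pow 2 37752) (W15c15)))))))))))))))))))))))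
      (chkW_sound (by norm_num) (by norm_num) (by norm_num) c15_3) h4 (by norm_num) rfl rfl
  have h2 : Nat.add W15c2 (Nat.mul (Nat.pow 2 37752) (Nat.add W15c3 (Nat.mul (Nat.pow 2 37752) (Nat.add W15c4 (Nat.mul (Nat.pow 2 37752) (Nat.add W15c5 (Nat.mul (Nat.pow 2 37752) (Nat.add W15c6 (Nat.mul (Nat.pow 2 37752) (Nat.add W15c7 (Nat.mul (Nat.pow 2 37752) (Nat.add W15c8 (Nat.mul (Nat.pow 2 37752) (Nat.add W15c9 (Nat.mul (Nat.pow 2 37752) (Nat.add W15c10 (Nat.mul (Nat.pow 2 37752) (Nat.add W15c11 (Nat.mul (Nat.pow 2 37752) (Nat.add W15c12 (Nat.mul (Nat.pow 2 37752) (Nat.add W15c13 (Nat.mul (Nat.pow 2 37752) (Nat.add W15c14 (Nat.mul (Nat.pow 2 37752) (W15c15)))))))))))))))))))))))))) = P (w8 13299 26599) (.cons 2574 27 (.cons 3069 13 (.cons 12090 11 (.cons 8866 3 .nil)))) 10296 :=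
    @P_join2 (w8 13299 26599) 2574 2 25 27 10296 15444 37752 (.cons 3069 13 (.cons 12090 11 (.cons 8866 3 .nil))) W15c2 (Nat.add W15c3 (Nat.mul (Nat.pow 2 37752) (Nat.add W15c4 (Nat.mul (Nat.pow 2 37752) (Nat.add W15c5 (Nat.mul (Nat.pow 2 37752) (Nat.add W15c6 (Nat.mul (Nat.pow 2 37752) (Nat.add W15c7 (Nat.mul (Nat.pow 2 37752) (Nat.add W15c8 (Nat.mul (Nat.pow 2 37752) (Nat.add W15c9 (Nat.mul (Nat.pow 2 37752) (Nat.add W15c10 (Nat.mul (Nat.pow 2 37752) (Nat.add W15c11 (Nat.mul (Nat.pow 2 37752) (Nat.add W15c12 (Nat.mul (Nat.pow 2 37752) (Nat.add W15c13 (Nat.mul (Nat.pow 2 37752) (Nat.add W15c14 (Nat.mul (Nat.pow 2 37752) (W15c15)))))))))))))))))))))))))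
      (chkW_sound (by norm_num) (by norm_num) (by norm_num) c15_2) h3 (by norm_num) rfl rfl
  have h1 : Nat.add W15c1 (Nat.mul (Nat.pow 2 37752) (Nat.add W15c2 (Nat.mul (Nat.pow 2 37752) (Nat.add W15c3 (Nat.mul (Nat.pow 2 37752) (Nat.add W15c4 (Nat.mul (Nat.pow 2 37752) (Nat.add W15c5 (Nat.mul (Nat.pow 2 37752) (Nat.add W15c6 (Nat.mul (Nat.pow 2 37752) (Nat.add W15c7 (Nat.mul (Nat.pow 2 37752) (Nat.add W15c8 (Nat.mul (Nat.pow 2 37752) (Nat.add W15c9 (Nat.mul (Nat.pow 2 37752) (Nat.add W15c10 (Nat.mul (Nat.pow 2 37752) (Nat.add W15c11 (Nat.mul (Nat.pow 2 37752) (Nat.add W15c12 (Nat.mul (Nat.pow 2 37752) (Nat.add W15c13 (Nat.mul (Nat.pow 2 37752) (Nat.add W15c14 (Nat.mul (Nat.pow 2 37752) (W15c15)))))))))))))))))))))))))))) = P (w8 13299 26599) (.cons 2574 29 (.cons 3069 13 (.cons 12090 11 (.cons 8866 3 .nil)))) 5148 :=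
    @P_join2 (w8 13299 26599) 2574 2 27 29 5148 10296 37752 (.cons 3069 13 (.cons 12090 11 (.cons 8866 3 .nil))) W15c1 (Nat.add W15c2 (Nat.mul (Nat.pow 2 37752) (Nat.add W15c3 (Nat.mul (Nat.pow 2 37752) (Nat.add W15c4 (Nat.mul (Nat.pow 2 37752) (Nat.add W15c5 (Nat.mul (Nat.pow 2 37752) (Nat.add W15c6 (Nat.mul (Nat.pow 2 37752) (Nat.add W15c7 (Nat.mul (Nat.pow 2 37752) (Nat.add W15c8 (Nat.mul (Nat.pow 2 37752) (Nat.add W15c9 (Nat.mul (Nat.pow 2 37752) (Nat.add W15c10 (Nat.mul (Nat.pow 2 37752) (Nat.add W15c11 (Nat.mul (Nat.pow 2 37752) (Nat.add W15c12 (Nat.mul (Nat.pow 2 37752) (Nat.add W15c13 (Nat.mul (Nat.pow 2 37752) (Nat.add W15c14 (Nat.mul (Nat.pow 2 37752) (W15c15)))))))))))))))))))))))))))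
      (chkW_sound (by norm_num) (by norm_num) (by norm_num) c15_1) h2 (by norm_num) rfl rfl
  have h0 : Nat.add W15c0 (Nat.mul (Nat.pow 2 37752) (Nat.add W15c1 (Nat.mul (Nat.pow 2 37752) (Nat.add W15c2 (Nat.mul (Nat.pow 2 37752) (Nat.add W15c3 (Nat.mul (Nat.pow 2 37752) (Nat.add W15c4 (Nat.mul (Nat.pow 2 37752) (Nat.add W15c5 (Nat.mul (Nat.pow 2 37752) (Nat.add W15c6 (Nat.mul (Nat.pow 2 37752) (Nat.add W15c7 (Nat.mul (Nat.pow 2 37752) (Nat.add W15c8 (Nat.mul (Nat.pow 2 37752) (Nat.add W15c9 (Nat.mul (Nat.pow 2 37752) (Nat.add W15c10 (Nat.mul (Nat.pow 2 37752) (Nat.add W15c11 (Nat.mul (Nat.pow 2 37752) (Nat.add W15c12 (Nat.mul (Nat.pow 2 37752) (Nat.add W15c13 (Nat.mul (Nat.pow 2 37752) (Nat.add W15c14 (Nat.mul (Nat.pow 2 37752) (W15c15)))))))))))))))))))))))))))))) = P (w8 13299 26599) (.cons 2574 31 (.cons 3069 13 (.cons 12090 11 (.cons 8866 3 .nil)))) 0 :=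
    @P_join2 (w8 13299 26599) 2574 2 29 31 0 5148 37752 (.cons 3069 13 (.cons 12090 11 (.cons 8866 3 .nil))) W15c0 (Nat.add W15c1 (Nat.mul (Nat.pow 2 37752) (Nat.add W15c2 (Nat.mul (Nat.pow 2 37752) (Nat.add W15c3 (Nat.mul (Nat.pow 2 37752) (Nat.add W15c4 (Nat.mul (Nat.pow 2 37752) (Nat.add W15c5 (Nat.mul (Nat.pow 2 37752) (Nat.add W15c6 (Nat.mul (Nat.pow 2 37752) (Nat.add W15c7 (Nat.mul (Nat.pow 2 37752) (Nat.add W15c8 (Nat.mul (Nat.pow 2 37752) (Nat.add W15c9 (Nat.mul (Nat.pow 2 37752) (Nat.add W15c10 (Nat.mul (Nat.pow 2 37752) (Nat.add W15c11 (Nat.mul (Nat.pow 2 37752) (Nat.add W15c12 (Nat.mul (Nat.pow 2 37752) (Nat.add W15c13 (Nat.mul (Nat.pow 2 37752) (Nat.add W15c14 (Nat.mul (Nat.pow 2 37752) (W15c15)))))))))))))))))))))))))))))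
      (chkW_sound (by norm_num) (by norm_num) (by norm_num) c15_0) h1 (by norm_num) rfl rfl
  exact h0
theorem u14 : W14 = P (w8 13299 17733) (.cons 2574 31 (.cons 3069 13 (.cons 12090 11 .nil))) 8866 :=
  by
  unfold W14
  have h3 := chkW_sound (by norm_num) (by norm_num) (by norm_num) c14_3
  have h2 : Nat.add W14c2 (Nat.mul (Nat.pow 2 50336) (W14c3)) = P (w8 13299 17733) (.cons 2574 15 (.cons 3069 13 (.cons 12090 11 .nil))) 50050 :=
    @P_join2 (w8 13299 17733) 2574 8 7 15 50050 70642 50336 (.cons 3069 13 (.cons 12090 11 .nil)) W14c2 (W14c3)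
      (chkW_sound (by norm_num) (by norm_num) (by norm_num) c14_2) h3 (by norm_num) rfl rfl
  have h1 : Nat.add W14c1 (Nat.mul (Nat.pow 2 50336) (Nat.add W14c2 (Nat.mul (Nat.pow 2 50336) (W14c3)))) = P (w8 13299 17733) (.cons 2574 23 (.cons 3069 13 (.cons 12090 11 .nil))) 29458 :=
    @P_join2 (w8 13299 17733) 2574 8 15 23 29458 50050 50336 (.cons 3069 13 (.cons 12090 11 .nil)) W14c1 (Nat.add W14c2 (Nat.mul (Nat.pow 2 50336) (W14c3)))
      (chkW_sound (by norm_num) (by norm_num) (by norm_num) c14_1) h2 (by norm_num) rfl rfl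
  have h0 : Nat.add W14c0 (Nat.mul (Nat.pow 2 50336) (Nat.add W14c1 (Nat.mul (Nat.pow 2 50336) (Nat.add W14c2 (Nat.mul (Nat.pow 2 50336) (W14c3)))))) = P (w8 13299 17733) (.cons 2574 31 (.cons 3069 13 (.cons 12090 11 .nil))) 8866 :=
    @P_join2 (w8 13299 17733) 2574 8 23 31 8866 29458 50336 (.cons 3069 13 (.cons 12090 11 .nil)) W14c0 (Nat.add W14c1 (Nat.mul (Nat.pow 2 50336) (Nat.add W14c2 (Nat.mul (Nat.pow 2 50336) (W14c3)))))
      (chkW_sound (by norm_num) (by norm_num) (by norm_num) c14_0) h1 (by norm_num) rfl rfl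
  exact h0
theorem u13 : W13 = P (w8 13299 14509) (.cons 2574 31 (.cons 3069 13 (.cons 8866 3 .nil))) 12090 :=
  by
  unfold W13
  have h1 := chkW_sound (by norm_num) (by norm_num) (by norm_num) c13_1
  have h0 : Nat.add W13c0 (Nat.mul (Nat.pow 2 27456) (W13c1)) = P (w8 13299 14509) (.cons 2574 31 (.cons 3069 13 (.cons 8866 3 .nil))) 12090 :=
    @P_join2 (w8 13299 14509) 2574 16 15 31 12090 53274 27456 (.cons 3069 13 (.cons 8866 3 .nil)) W13c0 (W13c1)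
      (chkW_sound (by norm_num) (by norm_num) (by norm_num) c13_0) h1 (by norm_num) rfl rfl
  exact h0
theorem u12 : W12 = P (w8 13299 5643) (.cons 2574 31 (.cons 3069 13 .nil)) 20956 :=
  chkW_sound (by norm_num) (by norm_num) (by norm_num) c12_0
theorem u11 : W11 = P (w8 13299 23530) (.cons 2574 31 (.cons 12090 11 (.cons 8866 3 .nil))) 3069 :=
  chkW_sound (by norm_num) (by norm_num) (by norm_num) c11_0
theorem u10 : W10 = P (w8 13299 14664) (.cons 2574 31 (.cons 12090 11 .nil)) 11935 :=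
  chkW_sound (by norm_num) (by norm_num) (by norm_num) c10_0
theorem u9 : W9 = P (w8 13299 11440) (.cons 2574 31 (.cons 8866 3 .nil)) 15159 :=
  chkW_sound (by norm_num) (by norm_num) (by norm_num) c9_0
theorem u8 : W8 = P (w8 13299 2574) (.cons 2574 31 .nil) 24025 :=
  chkW_sound (by norm_num) (by norm_num) (by norm_num) c8_0
theorem u7 : W7 = P (w8 13299 24025) (.cons 3069 13 (.cons 12090 11 (.cons 8866 3 .nil))) 2574 :=
  chkW_sound (by norm_num) (by norm_num) (by norm_num) c7_0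
theorem u6 : W6 = P (w8 13299 15159) (.cons 3069 13 (.cons 12090 11 .nil)) 11440 :=
  chkW_sound (by norm_num) (by norm_num) (by norm_num) c6_0
theorem u5 : W5 = P (w8 13299 11935) (.cons 3069 13 (.cons 8866 3 .nil)) 14664 :=
  chkW_sound (by norm_num) (by norm_num) (by norm_num) c5_0
theorem u4 : W4 = P (w8 13299 3069) (.cons 3069 13 .nil) 23530 :=
  chkW_sound (by norm_num) (by norm_num) (by norm_num) c4_0
theorem u3 : W3 = P (w8 13299 20956) (.cons 12090 11 (.cons 8866 3 .nil)) 5643 :=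
  chkW_sound (by norm_num) (by norm_num) (by norm_num) c3_0
theorem u2 : W2 = P (w8 13299 12090) (.cons 12090 11 .nil) 14509 :=
  chkW_sound (by norm_num) (by norm_num) (by norm_num) c2_0
theorem u1 : W1 = P (w8 13299 8866) (.cons 8866 3 .nil) 17733 :=
  chkW_sound (by norm_num) (by norm_num) (by norm_num) c1_0
theorem tr_eq : tr = TR (w8 13299) [(2574, 31, 1843574856, 255), (3069, 13, 2532, 1), (12090, 11, 1476, 255), (8866, 3, 4, 255)] .nil 0 0 :=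
  mk_node (mk_node (mk_node (mk_node (mk_leaf rfl u15) (mk_leaf rfl u14)) (mk_node (mk_leaf rfl u13) (mk_leaf rfl u12))) (mk_node (mk_node (mk_leaf rfl u11) (mk_leaf rfl u10)) (mk_node (mk_leaf rfl u9) (mk_leaf rfl u8)))) (mk_node (mk_node (mk_node (mk_leaf rfl u7) (mk_leaf rfl u6)) (mk_node (mk_leaf rfl u5) (mk_leaf rfl u4))) (mk_node (mk_node (mk_leaf rfl u3) (mk_leaf rfl u2)) (mk_node (mk_leaf rfl u1) (mk_leaf rfl (w8_zero _ _).symm))))
theorem tb (d : ℤ) (n : ℕ)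
    (h : ∀ l ∈ ({31, 13, 11, 3} : Finset ℕ), jacobiSym ((n : ℤ) ^ 2 + 4) l = -1) :
    (512 : ℤ) ∣ Pool.Agent.N367.LE.SEr d {31, 13, 11, 3} n -
      256 * (((BT13299 >>> (((n % 31 * 13 + n % 13) * 11 + n % 11) * 3 + n % 3)) % 2 : ℕ) : ℤ) :=
  tb_gen (m := 13299) pd31 pd13 pd11 pd3 (by norm_num) (by norm_num) (by norm_num)
    (by norm_num) (by norm_num) (by norm_num) (show Idem 3 11 13 31 8866 12090 3069 2574 from Idem.of (by decide)) (by norm_num) (by norm_num)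
    (by norm_num) (by rw [← tr_eq]; exact ev_true) d n h

end Pool.Agent.N367.HT.D13299
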