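import Pool.Agent.N367.HT.J
import Pool.Agent.N367.HT.D14007

/-! The sum for 29 23 7 3. -/

namespace Pool.Agent.N367.HT.D14007

open Pool.Agent.N156.HT Pool.Agent.N911.L Pool.Agent.N367.HT

set_option exponentiation.threshold 2000000

theorem u15 : W15 = P (w8 14007 42022) (.cons 12558 29 (.cons 12789 23 (.cons 12006 7 (.cons 4669 3 .nil)))) 0 :=
  by
  unfold W15
  have h14 := chkW_sound (by norm_num) (by norm_num) (by norm_num) c15_14
  have h13 : Nat.add W15c13 (Nat.mul (Nat.pow 2 42504) (W15c14)) = P (w8 14007 42022) (.cons 12558 3 (.cons 12789 23 (.cons 12006 7 (.cons 4669 3 .nil)))) 326508 :=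
    @P_join2 (w8 14007 42022) 12558 2 1 3 326508 351624 42504 (.cons 12789 23 (.cons 12006 7 (.cons 4669 3 .nil))) W15c13 (W15c14)
      (chkW_sound (by norm_num) (by norm_num) (by norm_num) c15_13) h14 (by norm_num) rfl rfl
  have h12 : Nat.add W15c12 (Nat.mul (Nat.pow 2 42504) (Nat.add W15c13 (Nat.mul (Nat.pow 2 42504) (W15c14)))) = P (w8 14007 42022) (.cons 12558 5 (.cons 12789 23 (.cons 12006 7 (.cons 4669 3 .nil)))) 301392 :=
    @P_join2 (w8 14007 42022) 12558 2 3 5 301392 326508 42504 (.cons 12789 23 (.cons 12006 7 (.cons 4669 3 .nil))) W15c12 (Nat.add W15c13 (Nat.mul (Nat.pow 2 42504) (W15c14)))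
      (chkW_sound (by norm_num) (by norm_num) (by norm_num) c15_12) h13 (by norm_num) rfl rfl
  have h11 : Nat.add W15c11 (Nat.mul (Nat.pow 2 42504) (Nat.add W15c12 (Nat.mul (Nat.pow 2 42504) (Nat.add W15c13 (Nat.mul (Nat.pow 2 42504) (W15c14)))))) = P (w8 14007 42022) (.cons 12558 7 (.cons 12789 23 (.cons 12006 7 (.cons 4669 3 .nil)))) 276276 :=
    @P_join2 (w8 14007 42022) 12558 2 5 7 276276 301392 42504 (.cons 12789 23 (.cons 12006 7 (.cons 4669 3 .nil))) W15c11 (Nat.add W15c12 (Nat.mul (Nat.pow 2 42504) (Nat.add W15c13 (Nat.mul (Nat.pow 2 42504) (W15c14)))))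
      (chkW_sound (by norm_num) (by norm_num) (by norm_num) c15_11) h12 (by norm_num) rfl rfl
  have h10 : Nat.add W15c10 (Nat.mul (Nat.pow 2 42504) (Nat.add W15c11 (Nat.mul (Nat.pow 2 42504) (Nat.add W15c12 (Nat.mul (Nat.pow 2 42504) (Nat.add W15c13 (Nat.mul (Nat.pow 2 42504) (W15c14)))))))) = P (w8 14007 42022) (.cons 12558 9 (.cons 12789 23 (.cons 12006 7 (.cons 4669 3 .nil)))) 251160 :=
    @P_join2 (w8 14007 42022) 12558 2 7 9 251160 276276 42504 (.cons 12789 23 (.cons 12006 7 (.cons 4669 3 .nil))) W15c10 (Nat.add W15c11 (Nat.mul (Nat.pow 2 42504) (Nat.add W15c12 (Nat.mul (Nat.pow 2 42504) (Nat.add W15c13 (Nat.mul (Nat.pow 2 42504) (W15c14)))))))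
      (chkW_sound (by norm_num) (by norm_num) (by norm_num) c15_10) h11 (by norm_num) rfl rfl
  have h9 : Nat.add W15c9 (Nat.mul (Nat.pow 2 42504) (Nat.add W15c10 (Nat.mul (Nat.pow 2 42504) (Nat.add W15c11 (Nat.mul (Nat.pow 2 42504) (Nat.add W15c12 (Nat.mul (Nat.pow 2 42504) (Nat.add W15c13 (Nat.mul (Nat.pow 2 42504) (W15c14)))))))))) = P (w8 14007 42022) (.cons 12558 11 (.cons 12789 23 (.cons 12006 7 (.cons 4669 3 .nil)))) 226044 :=
    @P_join2 (w8 14007 42022) 12558 2 9 11 226044 251160 42504 (.cons 12789 23 (.cons 12006 7 (.cons 4669 3 .nil))) W15c9 (Nat.add W15c10 (Nat.mul (Nat.pow 2 42504) (Nat.add W15c11 (Nat.mul (Nat.pow 2 42504) (Nat.add W15c12 (Nat.mul (Nat.pow 2 42504) (Nat.add W15c13 (Nat.mul (Nat.pow 2 42504) (W15c14)))))))))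
      (chkW_sound (by norm_num) (by norm_num) (by norm_num) c15_9) h10 (by norm_num) rfl rfl
  have h8 : Nat.add W15c8 (Nat.mul (Nat.pow 2 42504) (Nat.add W15c9 (Nat.mul (Nat.pow 2 42504) (Nat.add W15c10 (Nat.mul (Nat.pow 2 42504) (Nat.add W15c11 (Nat.mul (Nat.pow 2 42504) (Nat.add W15c12 (Nat.mul (Nat.pow 2 42504) (Nat.add W15c13 (Nat.mul (Nat.pow 2 42504) (W15c14)))))))))))) = P (w8 14007 42022) (.cons 12558 13 (.cons 12789 23 (.cons 12006 7 (.cons 4669 3 .nil)))) 200928 :=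
    @P_join2 (w8 14007 42022) 12558 2 11 13 200928 226044 42504 (.cons 12789 23 (.cons 12006 7 (.cons 4669 3 .nil))) W15c8 (Nat.add W15c9 (Nat.mul (Nat.pow 2 42504) (Nat.add W15c10 (Nat.mul (Nat.pow 2 42504) (Nat.add W15c11 (Nat.mul (Nat.pow 2 42504) (Nat.add W15c12 (Nat.mul (Nat.pow 2 42504) (Nat.add W15c13 (Nat.mul (Nat.pow 2 42504) (W15c14)))))))))))
      (chkW_sound (by norm_num) (by norm_num) (by norm_num) c15_8) h9 (by norm_num) rfl rfl
  have h7 : Nat.add W15c7 (Nat.mul (Nat.pow 2 42504) (Nat.add W15c8 (Nat.mul (Nat.pow 2 42504) (Nat.add W15c9 (Nat.mul (Nat.pow 2 42504) (Nat.add W15c10 (Nat.mul (Nat.pow 2 42504) (Nat.add W15c11 (Nat.mul (Nat.pow 2 42504) (Nat.add W15c12 (Nat.mul (Nat.pow 2 42504) (Nat.add W15c13 (Nat.mul (Nat.pow 2 42504) (W15c14)))))))))))))) = P (w8 14007 42022) (.cons 12558 15 (.cons 12789 23 (.cons 12006 7 (.cons 4669 3 .nil)))) 175812 :=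
    @P_join2 (w8 14007 42022) 12558 2 13 15 175812 200928 42504 (.cons 12789 23 (.cons 12006 7 (.cons 4669 3 .nil))) W15c7 (Nat.add W15c8 (Nat.mul (Nat.pow 2 42504) (Nat.add W15c9 (Nat.mul (Nat.pow 2 42504) (Nat.add W15c10 (Nat.mul (Nat.pow 2 42504) (Nat.add W15c11 (Nat.mul (Nat.pow 2 42504) (Nat.add W15c12 (Nat.mul (Nat.pow 2 42504) (Nat.add W15c13 (Nat.mul (Nat.pow 2 42504) (W15c14)))))))))))))
      (chkW_sound (by norm_num) (by norm_num) (by norm_num) c15_7) h8 (by norm_num) rfl rfl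
  have h6 : Nat.add W15c6 (Nat.mul (Nat.pow 2 42504) (Nat.add W15c7 (Nat.mul (Nat.pow 2 42504) (Nat.add W15c8 (Nat.mul (Nat.pow 2 42504) (Nat.add W15c9 (Nat.mul (Nat.pow 2 42504) (Nat.add W15c10 (Nat.mul (Nat.pow 2 42504) (Nat.add W15c11 (Nat.mul (Nat.pow 2 42504) (Nat.add W15c12 (Nat.mul (Nat.pow 2 42504) (Nat.add W15c13 (Nat.mul (Nat.pow 2 42504) (W15c14)))))))))))))))) = P (w8 14007 42022) (.cons 12558 17 (.cons 12789 23 (.cons 12006 7 (.cons 4669 3 .nil)))) 150696 :=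
    @P_join2 (w8 14007 42022) 12558 2 15 17 150696 175812 42504 (.cons 12789 23 (.cons 12006 7 (.cons 4669 3 .nil))) W15c6 (Nat.add W15c7 (Nat.mul (Nat.pow 2 42504) (Nat.add W15c8 (Nat.mul (Nat.pow 2 42504) (Nat.add W15c9 (Nat.mul (Nat.pow 2 42504) (Nat.add W15c10 (Nat.mul (Nat.pow 2 42504) (Nat.add W15c11 (Nat.mul (Nat.pow 2 42504) (Nat.add W15c12 (Nat.mul (Nat.pow 2 42504) (Nat.add W15c13 (Nat.mul (Nat.pow 2 42504) (W15c14)))))))))))))))
      (chkW_sound (by norm_num) (by norm_num) (by norm_num) c15_6) h7 (by norm_num) rfl rfl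
  have h5 : Nat.add W15c5 (Nat.mul (Nat.pow 2 42504) (Nat.add W15c6 (Nat.mul (Nat.pow 2 42504) (Nat.add W15c7 (Nat.mul (Nat.pow 2 42504) (Nat.add W15c8 (Nat.mul (Nat.pow 2 42504) (Nat.add W15c9 (Nat.mul (Nat.pow 2 42504) (Nat.add W15c10 (Nat.mul (Nat.pow 2 42504) (Nat.add W15c11 (Nat.mul (Nat.pow 2 42504) (Nat.add W15c12 (Nat.mul (Nat.pow 2 42504) (Nat.add W15c13 (Nat.mul (Nat.pow 2 42504) (W15c14)))))))))))))))))) = P (w8 14007 42022) (.cons 12558 19 (.cons 12789 23 (.cons 12006 7 (.cons 4669 3 .nil)))) 125580 :=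
    @P_join2 (w8 14007 42022) 12558 2 17 19 125580 150696 42504 (.cons 12789 23 (.cons 12006 7 (.cons 4669 3 .nil))) W15c5 (Nat.add W15c6 (Nat.mul (Nat.pow 2 42504) (Nat.add W15c7 (Nat.mul (Nat.pow 2 42504) (Nat.add W15c8 (Nat.mul (Nat.pow 2 42504) (Nat.add W15c9 (Nat.mul (Nat.pow 2 42504) (Nat.add W15c10 (Nat.mul (Nat.pow 2 42504) (Nat.add W15c11 (Nat.mul (Nat.pow 2 42504) (Nat.add W15c12 (Nat.mul (Nat.pow 2 42504) (Nat.add W15c13 (Nat.mul (Nat.pow 2 42504) (W15c14)))))))))))))))))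
      (chkW_sound (by norm_num) (by norm_num) (by norm_num) c15_5) h6 (by norm_num) rfl rfl
  have h4 : Nat.add W15c4 (Nat.mul (Nat.pow 2 42504) (Nat.add W15c5 (Nat.mul (Nat.pow 2 42504) (Nat.add W15c6 (Nat.mul (Nat.pow 2 42504) (Nat.add W15c7 (Nat.mul (Nat.pow 2 42504) (Nat.add W15c8 (Nat.mul (Nat.pow 2 42504) (Nat.add W15c9 (Nat.mul (Nat.pow 2 42504) (Nat.add W15c10 (Nat.mul (Nat.pow 2 42504) (Nat.add W15c11 (Nat.mul (Nat.pow 2 42504) (Nat.add W15c12 (Nat.mul (Nat.pow 2 42504) (Nat.add W15c13 (Nat.mul (Nat.pow 2 42504) (W15c14)))))))))))))))))))) = P (w8 14007 42022) (.cons 12558 21 (.cons 12789 23 (.cons 12006 7 (.cons 4669 3 .nil)))) 100464 :=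
    @P_join2 (w8 14007 42022) 12558 2 19 21 100464 125580 42504 (.cons 12789 23 (.cons 12006 7 (.cons 4669 3 .nil))) W15c4 (Nat.add W15c5 (Nat.mul (Nat.pow 2 42504) (Nat.add W15c6 (Nat.mul (Nat.pow 2 42504) (Nat.add W15c7 (Nat.mul (Nat.pow 2 42504) (Nat.add W15c8 (Nat.mul (Nat.pow 2 42504) (Nat.add W15c9 (Nat.mul (Nat.pow 2 42504) (Nat.add W15c10 (Nat.mul (Nat.pow 2 42504) (Nat.add W15c11 (Nat.mul (Nat.pow 2 42504) (Nat.add W15c12 (Nat.mul (Nat.pow 2 42504) (Nat.add W15c13 (Nat.mul (Nat.pow 2 42504) (W15c14)))))))))))))))))))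
      (chkW_sound (by norm_num) (by norm_num) (by norm_num) c15_4) h5 (by norm_num) rfl rfl
  have h3 : Nat.add W15c3 (Nat.mul (Nat.pow 2 42504) (Nat.add W15c4 (Nat.mul (Nat.pow 2 42504) (Nat.add W15c5 (Nat.mul (Nat.pow 2 42504) (Nat.add W15c6 (Nat.mul (Nat.pow 2 42504) (Nat.add W15c7 (Nat.mul (Nat.pow 2 42504) (Nat.add W15c8 (Nat.mul (Nat.pow 2 42504) (Nat.add W15c9 (Nat.mul (Nat.pow 2 42504) (Nat.add W15c10 (Nat.mul (Nat.pow 2 42504) (Nat.add W15c11 (Nat.mul (Nat.pow 2 42504) (Nat.add W15c12 (Nat.mul (Nat.pow 2 42504) (Nat.add W15c13 (Nat.mul (Nat.pow 2 42504) (W15c14)))))))))))))))))))))) = P (w8 14007 42022) (.cons 12558 23 (.cons 12789 23 (.cons 12006 7 (.cons 4669 3 .nil)))) 75348 :=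
    @P_join2 (w8 14007 42022) 12558 2 21 23 75348 100464 42504 (.cons 12789 23 (.cons 12006 7 (.cons 4669 3 .nil))) W15c3 (Nat.add W15c4 (Nat.mul (Nat.pow 2 42504) (Nat.add W15c5 (Nat.mul (Nat.pow 2 42504) (Nat.add W15c6 (Nat.mul (Nat.pow 2 42504) (Nat.add W15c7 (Nat.mul (Nat.pow 2 42504) (Nat.add W15c8 (Nat.mul (Nat.pow 2 42504) (Nat.add W15c9 (Nat.mul (Nat.pow 2 42504) (Nat.add W15c10 (Nat.mul (Nat.pow 2 42504) (Nat.add W15c11 (Nat.mul (Nat.pow 2 42504) (Nat.add W15c12 (Nat.mul (Nat.pow 2 42504) (Nat.add W15c13 (Nat.mul (Nat.pow 2 42504) (W15c14)))))))))))))))))))))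
      (chkW_sound (by norm_num) (by norm_num) (by norm_num) c15_3) h4 (by norm_num) rfl rfl
  have h2 : Nat.add W15c2 (Nat.mul (Nat.pow 2 42504) (Nat.add W15c3 (Nat.mul (Nat.pow 2 42504) (Nat.add W15c4 (Nat.mul (Nat.pow 2 42504) (Nat.add W15c5 (Nat.mul (Nat.pow 2 42504) (Nat.add W15c6 (Nat.mul (Nat.pow 2 42504) (Nat.add W15c7 (Nat.mul (Nat.pow 2 42504) (Nat.add W15c8 (Nat.mul (Nat.pow 2 42504) (Nat.add W15c9 (Nat.mul (Nat.pow 2 42504) (Nat.add W15c10 (Nat.mul (Nat.pow 2 42504) (Nat.add W15c11 (Nat.mul (Nat.pow 2 42504) (Nat.add W15c12 (Nat.mul (Nat.pow 2 42504) (Nat.add W15c13 (Nat.mul (Nat.pow 2 42504) (W15c14)))))))))))))))))))))))) = P (w8 14007 42022) (.cons 12558 25 (.cons 12789 23 (.cons 12006 7 (.cons 4669 3 .nil)))) 50232 :=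
    @P_join2 (w8 14007 42022) 12558 2 23 25 50232 75348 42504 (.cons 12789 23 (.cons 12006 7 (.cons 4669 3 .nil))) W15c2 (Nat.add W15c3 (Nat.mul (Nat.pow 2 42504) (Nat.add W15c4 (Nat.mul (Nat.pow 2 42504) (Nat.add W15c5 (Nat.mul (Nat.pow 2 42504) (Nat.add W15c6 (Nat.mul (Nat.pow 2 42504) (Nat.add W15c7 (Nat.mul (Nat.pow 2 42504) (Nat.add W15c8 (Nat.mul (Nat.pow 2 42504) (Nat.add W15c9 (Nat.mul (Nat.pow 2 42504) (Nat.add W15c10 (Nat.mul (Nat.pow 2 42504) (Nat.add W15c11 (Nat.mul (Nat.pow 2 42504) (Nat.add W15c12 (Nat.mul (Nat.pow 2 42504) (Nat.add W15c13 (Nat.mul (Nat.pow 2 42504) (W15c14)))))))))))))))))))))))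
      (chkW_sound (by norm_num) (by norm_num) (by norm_num) c15_2) h3 (by norm_num) rfl rfl
  have h1 : Nat.add W15c1 (Nat.mul (Nat.pow 2 42504) (Nat.add W15c2 (Nat.mul (Nat.pow 2 42504) (Nat.add W15c3 (Nat.mul (Nat.pow 2 42504) (Nat.add W15c4 (Nat.mul (Nat.pow 2 42504) (Nat.add W15c5 (Nat.mul (Nat.pow 2 42504) (Nat.add W15c6 (Nat.mul (Nat.pow 2 42504) (Nat.add W15c7 (Nat.mul (Nat.pow 2 42504) (Nat.add W15c8 (Nat.mul (Nat.pow 2 42504) (Nat.add W15c9 (Nat.mul (Nat.pow 2 42504) (Nat.add W15c10 (Nat.mul (Nat.pow 2 42504) (Nat.add W15c11 (Nat.mul (Nat.pow 2 42504) (Nat.add W15c12 (Nat.mul (Nat.pow 2 42504) (Nat.add W15c13 (Nat.mul (Nat.pow 2 42504) (W15c14)))))))))))))))))))))))))) = P (w8 14007 42022) (.cons 12558 27 (.cons 12789 23 (.cons 12006 7 (.cons 4669 3 .nil)))) 25116 :=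
    @P_join2 (w8 14007 42022) 12558 2 25 27 25116 50232 42504 (.cons 12789 23 (.cons 12006 7 (.cons 4669 3 .nil))) W15c1 (Nat.add W15c2 (Nat.mul (Nat.pow 2 42504) (Nat.add W15c3 (Nat.mul (Nat.pow 2 42504) (Nat.add W15c4 (Nat.mul (Nat.pow 2 42504) (Nat.add W15c5 (Nat.mul (Nat.pow 2 42504) (Nat.add W15c6 (Nat.mul (Nat.pow 2 42504) (Nat.add W15c7 (Nat.mul (Nat.pow 2 42504) (Nat.add W15c8 (Nat.mul (Nat.pow 2 42504) (Nat.add W15c9 (Nat.mul (Nat.pow 2 42504) (Nat.add W15c10 (Nat.mul (Nat.pow 2 42504) (Nat.add W15c11 (Nat.mul (Nat.pow 2 42504) (Nat.add W15c12 (Nat.mul (Nat.pow 2 42504) (Nat.add W15c13 (Nat.mul (Nat.pow 2 42504) (W15c14)))))))))))))))))))))))))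
      (chkW_sound (by norm_num) (by norm_num) (by norm_num) c15_1) h2 (by norm_num) rfl rfl
  have h0 : Nat.add W15c0 (Nat.mul (Nat.pow 2 42504) (Nat.add W15c1 (Nat.mul (Nat.pow 2 42504) (Nat.add W15c2 (Nat.mul (Nat.pow 2 42504) (Nat.add W15c3 (Nat.mul (Nat.pow 2 42504) (Nat.add W15c4 (Nat.mul (Nat.pow 2 42504) (Nat.add W15c5 (Nat.mul (Nat.pow 2 42504) (Nat.add W15c6 (Nat.mul (Nat.pow 2 42504) (Nat.add W15c7 (Nat.mul (Nat.pow 2 42504) (Nat.add W15c8 (Nat.mul (Nat.pow 2 42504) (Nat.add W15c9 (Nat.mul (Nat.pow 2 42504) (Nat.add W15c10 (Nat.mul (Nat.pow 2 42504) (Nat.add W15c11 (Nat.mul (Nat.pow 2 42504) (Nat.add W15c12 (Nat.mul (Nat.pow 2 42504) (Nat.add W15c13 (Nat.mul (Nat.pow 2 42504) (W15c14)))))))))))))))))))))))))))) = P (w8 14007 42022) (.cons 12558 29 (.cons 12789 23 (.cons 12006 7 (.cons 4669 3 .nil)))) 0 :=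
    @P_join2 (w8 14007 42022) 12558 2 27 29 0 25116 42504 (.cons 12789 23 (.cons 12006 7 (.cons 4669 3 .nil))) W15c0 (Nat.add W15c1 (Nat.mul (Nat.pow 2 42504) (Nat.add W15c2 (Nat.mul (Nat.pow 2 42504) (Nat.add W15c3 (Nat.mul (Nat.pow 2 42504) (Nat.add W15c4 (Nat.mul (Nat.pow 2 42504) (Nat.add W15c5 (Nat.mul (Nat.pow 2 42504) (Nat.add W15c6 (Nat.mul (Nat.pow 2 42504) (Nat.add W15c7 (Nat.mul (Nat.pow 2 42504) (Nat.add W15c8 (Nat.mul (Nat.pow 2 42504) (Nat.add W15c9 (Nat.mul (Nat.pow 2 42504) (Nat.add W15c10 (Nat.mul (Nat.pow 2 42504) (Nat.add W15c11 (Nat.mul (Nat.pow 2 42504) (Nat.add W15c12 (Nat.mul (Nat.pow 2 42504) (Nat.add W15c13 (Nat.mul (Nat.pow 2 42504) (W15c14)))))))))))))))))))))))))))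
      (chkW_sound (by norm_num) (by norm_num) (by norm_num) c15_0) h1 (by norm_num) rfl rfl
  exact h0
theorem u14 : W14 = P (w8 14007 37353) (.cons 12558 29 (.cons 12789 23 (.cons 12006 7 .nil))) 4669 :=
  by
  unfold W14
  have h4 := chkW_sound (by norm_num) (by norm_num) (by norm_num) c14_4
  have h3 : Nat.add W14c3 (Nat.mul (Nat.pow 2 42504) (W14c4)) = P (w8 14007 37353) (.cons 12558 11 (.cons 12789 23 (.cons 12006 7 .nil))) 230713 :=
    @P_join2 (w8 14007 37353) 12558 6 5 11 230713 306061 42504 (.cons 12789 23 (.cons 12006 7 .nil)) W14c3 (W14c4)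
      (chkW_sound (by norm_num) (by norm_num) (by norm_num) c14_3) h4 (by norm_num) rfl rfl
  have h2 : Nat.add W14c2 (Nat.mul (Nat.pow 2 42504) (Nat.add W14c3 (Nat.mul (Nat.pow 2 42504) (W14c4)))) = P (w8 14007 37353) (.cons 12558 17 (.cons 12789 23 (.cons 12006 7 .nil))) 155365 :=
    @P_join2 (w8 14007 37353) 12558 6 11 17 155365 230713 42504 (.cons 12789 23 (.cons 12006 7 .nil)) W14c2 (Nat.add W14c3 (Nat.mul (Nat.pow 2 42504) (W14c4)))
      (chkW_sound (by norm_num) (by norm_num) (by norm_num) c14_2) h3 (by norm_num) rfl rfl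
  have h1 : Nat.add W14c1 (Nat.mul (Nat.pow 2 42504) (Nat.add W14c2 (Nat.mul (Nat.pow 2 42504) (Nat.add W14c3 (Nat.mul (Nat.pow 2 42504) (W14c4)))))) = P (w8 14007 37353) (.cons 12558 23 (.cons 12789 23 (.cons 12006 7 .nil))) 80017 :=
    @P_join2 (w8 14007 37353) 12558 6 17 23 80017 155365 42504 (.cons 12789 23 (.cons 12006 7 .nil)) W14c1 (Nat.add W14c2 (Nat.mul (Nat.pow 2 42504) (Nat.add W14c3 (Nat.mul (Nat.pow 2 42504) (W14c4)))))
      (chkW_sound (by norm_num) (by norm_num) (by norm_num) c14_1) h2 (by norm_num) rfl rfl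
  have h0 : Nat.add W14c0 (Nat.mul (Nat.pow 2 42504) (Nat.add W14c1 (Nat.mul (Nat.pow 2 42504) (Nat.add W14c2 (Nat.mul (Nat.pow 2 42504) (Nat.add W14c3 (Nat.mul (Nat.pow 2 42504) (W14c4)))))))) = P (w8 14007 37353) (.cons 12558 29 (.cons 12789 23 (.cons 12006 7 .nil))) 4669 :=
    @P_join2 (w8 14007 37353) 12558 6 23 29 4669 80017 42504 (.cons 12789 23 (.cons 12006 7 .nil)) W14c0 (Nat.add W14c1 (Nat.mul (Nat.pow 2 42504) (Nat.add W14c2 (Nat.mul (Nat.pow 2 42504) (Nat.add W14c3 (Nat.mul (Nat.pow 2 42504) (W14c4)))))))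
      (chkW_sound (by norm_num) (by norm_num) (by norm_num) c14_0) h1 (by norm_num) rfl rfl
  exact h0
theorem u13 : W13 = P (w8 14007 30016) (.cons 12558 29 (.cons 12789 23 (.cons 4669 3 .nil))) 12006 :=
  by
  unfold W13
  have h1 := chkW_sound (by norm_num) (by norm_num) (by norm_num) c13_1
  have h0 : Nat.add W13c0 (Nat.mul (Nat.pow 2 45540) (W13c1)) = P (w8 14007 30016) (.cons 12558 29 (.cons 12789 23 (.cons 4669 3 .nil))) 12006 :=
    @P_join2 (w8 14007 30016) 12558 15 14 29 12006 200376 45540 (.cons 12789 23 (.cons 4669 3 .nil)) W13c0 (W13c1)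
      (chkW_sound (by norm_num) (by norm_num) (by norm_num) c13_0) h1 (by norm_num) rfl rfl
  exact h0
theorem u12 : W12 = P (w8 14007 25347) (.cons 12558 29 (.cons 12789 23 .nil)) 16675 :=
  chkW_sound (by norm_num) (by norm_num) (by norm_num) c12_0
theorem u11 : W11 = P (w8 14007 29233) (.cons 12558 29 (.cons 12006 7 (.cons 4669 3 .nil))) 12789 :=
  chkW_sound (by norm_num) (by norm_num) (by norm_num) c11_0
theorem u10 : W10 = P (w8 14007 24564) (.cons 12558 29 (.cons 12006 7 .nil)) 17458 :=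
  chkW_sound (by norm_num) (by norm_num) (by norm_num) c10_0
theorem u9 : W9 = P (w8 14007 17227) (.cons 12558 29 (.cons 4669 3 .nil)) 24795 :=
  chkW_sound (by norm_num) (by norm_num) (by norm_num) c9_0
theorem u8 : W8 = P (w8 14007 12558) (.cons 12558 29 .nil) 29464 :=
  chkW_sound (by norm_num) (by norm_num) (by norm_num) c8_0
theorem u7 : W7 = P (w8 14007 29464) (.cons 12789 23 (.cons 12006 7 (.cons 4669 3 .nil))) 12558 :=
  chkW_sound (by norm_num) (by norm_num) (by norm_num) c7_0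
theorem u6 : W6 = P (w8 14007 24795) (.cons 12789 23 (.cons 12006 7 .nil)) 17227 :=
  chkW_sound (by norm_num) (by norm_num) (by norm_num) c6_0
theorem u5 : W5 = P (w8 14007 17458) (.cons 12789 23 (.cons 4669 3 .nil)) 24564 :=
  chkW_sound (by norm_num) (by norm_num) (by norm_num) c5_0
theorem u4 : W4 = P (w8 14007 12789) (.cons 12789 23 .nil) 29233 :=
  chkW_sound (by norm_num) (by norm_num) (by norm_num) c4_0
theorem u3 : W3 = P (w8 14007 16675) (.cons 12006 7 (.cons 4669 3 .nil)) 25347 :=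
  chkW_sound (by norm_num) (by norm_num) (by norm_num) c3_0
theorem u2 : W2 = P (w8 14007 12006) (.cons 12006 7 .nil) 30016 :=
  chkW_sound (by norm_num) (by norm_num) (by norm_num) c2_0
theorem u1 : W1 = P (w8 14007 4669) (.cons 4669 3 .nil) 37353 :=
  chkW_sound (by norm_num) (by norm_num) (by norm_num) c1_0
theorem tr_eq : tr = TR (w8 14007) [(12558, 29, 204397836, 1), (12789, 23, 8047776, 255), (12006, 7, 104, 255), (4669, 3, 4, 255)] .nil 0 0 :=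
  mk_node (mk_node (mk_node (mk_node (mk_leaf rfl u15) (mk_leaf rfl u14)) (mk_node (mk_leaf rfl u13) (mk_leaf rfl u12))) (mk_node (mk_node (mk_leaf rfl u11) (mk_leaf rfl u10)) (mk_node (mk_leaf rfl u9) (mk_leaf rfl u8)))) (mk_node (mk_node (mk_node (mk_leaf rfl u7) (mk_leaf rfl u6)) (mk_node (mk_leaf rfl u5) (mk_leaf rfl u4))) (mk_node (mk_node (mk_leaf rfl u3) (mk_leaf rfl u2)) (mk_node (mk_leaf rfl u1) (mk_leaf rfl (w8_zero _ _).symm))))
theorem tb (d : ℤ) (n : ℕ)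
    (h : ∀ l ∈ ({29, 23, 7, 3} : Finset ℕ), jacobiSym ((n : ℤ) ^ 2 + 4) l = -1) :
    (512 : ℤ) ∣ Pool.Agent.N367.LE.SEr d {29, 23, 7, 3} n -
      256 * (((BT14007 >>> (((n % 29 * 23 + n % 23) * 7 + n % 7) * 3 + n % 3)) % 2 : ℕ) : ℤ) :=
  tb_gen (m := 14007) pd29 pd23 pd7 pd3 (by norm_num) (by norm_num) (by norm_num)
    (by norm_num) (by norm_num) (by norm_num) (show Idem 3 7 23 29 4669 12006 12789 12558 from Idem.of (by decide)) (by norm_num) (by norm_num)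
    (by norm_num) (by rw [← tr_eq]; exact ev_true) d n h

end Pool.Agent.N367.HT.D14007
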