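import Pool.Agent.N367.HT.J
import Pool.Agent.N367.HT.D19019

/-! The sum for 19 13 11 7. -/

namespace Pool.Agent.N367.HT.D19019

open Pool.Agent.N156.HT Pool.Agent.N911.L Pool.Agent.N367.HT

set_option exponentiation.threshold 2000000

theorem u15 : W15 = P (w8 19019 19020) (.cons 3003 19 (.cons 2926 13 (.cons 10374 11 (.cons 2717 7 .nil)))) 0 :=
  by
  unfold W15
  have h18 := chkW_sound (by norm_num) (by norm_num) (by norm_num) c15_18
  have h17 : Nat.add W15c17 (Nat.mul (Nat.pow 2 44044) (W15c18)) = P (w8 19019 19020) (.cons 3003 2 (.cons 2926 13 (.cons 10374 11 (.cons 2717 7 .nil)))) 51051 :=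
    @P_join2 (w8 19019 19020) 3003 1 1 2 51051 54054 44044 (.cons 2926 13 (.cons 10374 11 (.cons 2717 7 .nil))) W15c17 (W15c18)
      (chkW_sound (by norm_num) (by norm_num) (by norm_num) c15_17) h18 (by norm_num) rfl rfl
  have h16 : Nat.add W15c16 (Nat.mul (Nat.pow 2 44044) (Nat.add W15c17 (Nat.mul (Nat.pow 2 44044) (W15c18)))) = P (w8 19019 19020) (.cons 3003 3 (.cons 2926 13 (.cons 10374 11 (.cons 2717 7 .nil)))) 48048 :=
    @P_join2 (w8 19019 19020) 3003 1 2 3 48048 51051 44044 (.cons 2926 13 (.cons 10374 11 (.cons 2717 7 .nil))) W15c16 (Nat.add W15c17 (Nat.mul (Nat.pow 2 44044) (W15c18)))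
      (chkW_sound (by norm_num) (by norm_num) (by norm_num) c15_16) h17 (by norm_num) rfl rfl
  have h15 : Nat.add W15c15 (Nat.mul (Nat.pow 2 44044) (Nat.add W15c16 (Nat.mul (Nat.pow 2 44044) (Nat.add W15c17 (Nat.mul (Nat.pow 2 44044) (W15c18)))))) = P (w8 19019 19020) (.cons 3003 4 (.cons 2926 13 (.cons 10374 11 (.cons 2717 7 .nil)))) 45045 :=
    @P_join2 (w8 19019 19020) 3003 1 3 4 45045 48048 44044 (.cons 2926 13 (.cons 10374 11 (.cons 2717 7 .nil))) W15c15 (Nat.add W15c16 (Nat.mul (Nat.pow 2 44044) (Nat.add W15c17 (Nat.mul (Nat.pow 2 44044) (W15c18)))))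
      (chkW_sound (by norm_num) (by norm_num) (by norm_num) c15_15) h16 (by norm_num) rfl rfl
  have h14 : Nat.add W15c14 (Nat.mul (Nat.pow 2 44044) (Nat.add W15c15 (Nat.mul (Nat.pow 2 44044) (Nat.add W15c16 (Nat.mul (Nat.pow 2 44044) (Nat.add W15c17 (Nat.mul (Nat.pow 2 44044) (W15c18)))))))) = P (w8 19019 19020) (.cons 3003 5 (.cons 2926 13 (.cons 10374 11 (.cons 2717 7 .nil)))) 42042 :=
    @P_join2 (w8 19019 19020) 3003 1 4 5 42042 45045 44044 (.cons 2926 13 (.cons 10374 11 (.cons 2717 7 .nil))) W15c14 (Nat.add W15c15 (Nat.mul (Nat.pow 2 44044) (Nat.add W15c16 (Nat.mul (Nat.pow 2 44044) (Nat.add W15c17 (Nat.mul (Nat.pow 2 44044) (W15c18)))))))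
      (chkW_sound (by norm_num) (by norm_num) (by norm_num) c15_14) h15 (by norm_num) rfl rfl
  have h13 : Nat.add W15c13 (Nat.mul (Nat.pow 2 44044) (Nat.add W15c14 (Nat.mul (Nat.pow 2 44044) (Nat.add W15c15 (Nat.mul (Nat.pow 2 44044) (Nat.add W15c16 (Nat.mul (Nat.pow 2 44044) (Nat.add W15c17 (Nat.mul (Nat.pow 2 44044) (W15c18)))))))))) = P (w8 19019 19020) (.cons 3003 6 (.cons 2926 13 (.cons 10374 11 (.cons 2717 7 .nil)))) 39039 :=
    @P_join2 (w8 19019 19020) 3003 1 5 6 39039 42042 44044 (.cons 2926 13 (.cons 10374 11 (.cons 2717 7 .nil))) W15c13 (Nat.add W15c14 (Nat.mul (Nat.pow 2 44044) (Nat.add W15c15 (Nat.mul (Nat.pow 2 44044) (Nat.add W15c16 (Nat.mul (Nat.pow 2 44044) (Nat.add W15c17 (Nat.mul (Nat.pow 2 44044) (W15c18)))))))))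
      (chkW_sound (by norm_num) (by norm_num) (by norm_num) c15_13) h14 (by norm_num) rfl rfl
  have h12 : Nat.add W15c12 (Nat.mul (Nat.pow 2 44044) (Nat.add W15c13 (Nat.mul (Nat.pow 2 44044) (Nat.add W15c14 (Nat.mul (Nat.pow 2 44044) (Nat.add W15c15 (Nat.mul (Nat.pow 2 44044) (Nat.add W15c16 (Nat.mul (Nat.pow 2 44044) (Nat.add W15c17 (Nat.mul (Nat.pow 2 44044) (W15c18)))))))))))) = P (w8 19019 19020) (.cons 3003 7 (.cons 2926 13 (.cons 10374 11 (.cons 2717 7 .nil)))) 36036 :=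
    @P_join2 (w8 19019 19020) 3003 1 6 7 36036 39039 44044 (.cons 2926 13 (.cons 10374 11 (.cons 2717 7 .nil))) W15c12 (Nat.add W15c13 (Nat.mul (Nat.pow 2 44044) (Nat.add W15c14 (Nat.mul (Nat.pow 2 44044) (Nat.add W15c15 (Nat.mul (Nat.pow 2 44044) (Nat.add W15c16 (Nat.mul (Nat.pow 2 44044) (Nat.add W15c17 (Nat.mul (Nat.pow 2 44044) (W15c18)))))))))))
      (chkW_sound (by norm_num) (by norm_num) (by norm_num) c15_12) h13 (by norm_num) rfl rfl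
  have h11 : Nat.add W15c11 (Nat.mul (Nat.pow 2 44044) (Nat.add W15c12 (Nat.mul (Nat.pow 2 44044) (Nat.add W15c13 (Nat.mul (Nat.pow 2 44044) (Nat.add W15c14 (Nat.mul (Nat.pow 2 44044) (Nat.add W15c15 (Nat.mul (Nat.pow 2 44044) (Nat.add W15c16 (Nat.mul (Nat.pow 2 44044) (Nat.add W15c17 (Nat.mul (Nat.pow 2 44044) (W15c18)))))))))))))) = P (w8 19019 19020) (.cons 3003 8 (.cons 2926 13 (.cons 10374 11 (.cons 2717 7 .nil)))) 33033 :=
    @P_join2 (w8 19019 19020) 3003 1 7 8 33033 36036 44044 (.cons 2926 13 (.cons 10374 11 (.cons 2717 7 .nil))) W15c11 (Nat.add W15c12 (Nat.mul (Nat.pow 2 44044) (Nat.add W15c13 (Nat.mul (Nat.pow 2 44044) (Nat.add W15c14 (Nat.mul (Nat.pow 2 44044) (Nat.add W15c15 (Nat.mul (Nat.pow 2 44044) (Nat.add W15c16 (Nat.mul (Nat.pow 2 44044) (Nat.add W15c17 (Nat.mul (Nat.pow 2 44044) (W15c18)))))))))))))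
      (chkW_sound (by norm_num) (by norm_num) (by norm_num) c15_11) h12 (by norm_num) rfl rfl
  have h10 : Nat.add W15c10 (Nat.mul (Nat.pow 2 44044) (Nat.add W15c11 (Nat.mul (Nat.pow 2 44044) (Nat.add W15c12 (Nat.mul (Nat.pow 2 44044) (Nat.add W15c13 (Nat.mul (Nat.pow 2 44044) (Nat.add W15c14 (Nat.mul (Nat.pow 2 44044) (Nat.add W15c15 (Nat.mul (Nat.pow 2 44044) (Nat.add W15c16 (Nat.mul (Nat.pow 2 44044) (Nat.add W15c17 (Nat.mul (Nat.pow 2 44044) (W15c18)))))))))))))))) = P (w8 19019 19020) (.cons 3003 9 (.cons 2926 13 (.cons 10374 11 (.cons 2717 7 .nil)))) 30030 :=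
    @P_join2 (w8 19019 19020) 3003 1 8 9 30030 33033 44044 (.cons 2926 13 (.cons 10374 11 (.cons 2717 7 .nil))) W15c10 (Nat.add W15c11 (Nat.mul (Nat.pow 2 44044) (Nat.add W15c12 (Nat.mul (Nat.pow 2 44044) (Nat.add W15c13 (Nat.mul (Nat.pow 2 44044) (Nat.add W15c14 (Nat.mul (Nat.pow 2 44044) (Nat.add W15c15 (Nat.mul (Nat.pow 2 44044) (Nat.add W15c16 (Nat.mul (Nat.pow 2 44044) (Nat.add W15c17 (Nat.mul (Nat.pow 2 44044) (W15c18)))))))))))))))
      (chkW_sound (by norm_num) (by norm_num) (by norm_num) c15_10) h11 (by norm_num) rfl rfl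
  have h9 : Nat.add W15c9 (Nat.mul (Nat.pow 2 44044) (Nat.add W15c10 (Nat.mul (Nat.pow 2 44044) (Nat.add W15c11 (Nat.mul (Nat.pow 2 44044) (Nat.add W15c12 (Nat.mul (Nat.pow 2 44044) (Nat.add W15c13 (Nat.mul (Nat.pow 2 44044) (Nat.add W15c14 (Nat.mul (Nat.pow 2 44044) (Nat.add W15c15 (Nat.mul (Nat.pow 2 44044) (Nat.add W15c16 (Nat.mul (Nat.pow 2 44044) (Nat.add W15c17 (Nat.mul (Nat.pow 2 44044) (W15c18)))))))))))))))))) = P (w8 19019 19020) (.cons 3003 10 (.cons 2926 13 (.cons 10374 11 (.cons 2717 7 .nil)))) 27027 :=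
    @P_join2 (w8 19019 19020) 3003 1 9 10 27027 30030 44044 (.cons 2926 13 (.cons 10374 11 (.cons 2717 7 .nil))) W15c9 (Nat.add W15c10 (Nat.mul (Nat.pow 2 44044) (Nat.add W15c11 (Nat.mul (Nat.pow 2 44044) (Nat.add W15c12 (Nat.mul (Nat.pow 2 44044) (Nat.add W15c13 (Nat.mul (Nat.pow 2 44044) (Nat.add W15c14 (Nat.mul (Nat.pow 2 44044) (Nat.add W15c15 (Nat.mul (Nat.pow 2 44044) (Nat.add W15c16 (Nat.mul (Nat.pow 2 44044) (Nat.add W15c17 (Nat.mul (Nat.pow 2 44044) (W15c18)))))))))))))))))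
      (chkW_sound (by norm_num) (by norm_num) (by norm_num) c15_9) h10 (by norm_num) rfl rfl
  have h8 : Nat.add W15c8 (Nat.mul (Nat.pow 2 44044) (Nat.add W15c9 (Nat.mul (Nat.pow 2 44044) (Nat.add W15c10 (Nat.mul (Nat.pow 2 44044) (Nat.add W15c11 (Nat.mul (Nat.pow 2 44044) (Nat.add W15c12 (Nat.mul (Nat.pow 2 44044) (Nat.add W15c13 (Nat.mul (Nat.pow 2 44044) (Nat.add W15c14 (Nat.mul (Nat.pow 2 44044) (Nat.add W15c15 (Nat.mul (Nat.pow 2 44044) (Nat.add W15c16 (Nat.mul (Nat.pow 2 44044) (Nat.add W15c17 (Nat.mul (Nat.pow 2 44044) (W15c18)))))))))))))))))))) = P (w8 19019 19020) (.cons 3003 11 (.cons 2926 13 (.cons 10374 11 (.cons 2717 7 .nil)))) 24024 :=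
    @P_join2 (w8 19019 19020) 3003 1 10 11 24024 27027 44044 (.cons 2926 13 (.cons 10374 11 (.cons 2717 7 .nil))) W15c8 (Nat.add W15c9 (Nat.mul (Nat.pow 2 44044) (Nat.add W15c10 (Nat.mul (Nat.pow 2 44044) (Nat.add W15c11 (Nat.mul (Nat.pow 2 44044) (Nat.add W15c12 (Nat.mul (Nat.pow 2 44044) (Nat.add W15c13 (Nat.mul (Nat.pow 2 44044) (Nat.add W15c14 (Nat.mul (Nat.pow 2 44044) (Nat.add W15c15 (Nat.mul (Nat.pow 2 44044) (Nat.add W15c16 (Nat.mul (Nat.pow 2 44044) (Nat.add W15c17 (Nat.mul (Nat.pow 2 44044) (W15c18)))))))))))))))))))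
      (chkW_sound (by norm_num) (by norm_num) (by norm_num) c15_8) h9 (by norm_num) rfl rfl
  have h7 : Nat.add W15c7 (Nat.mul (Nat.pow 2 44044) (Nat.add W15c8 (Nat.mul (Nat.pow 2 44044) (Nat.add W15c9 (Nat.mul (Nat.pow 2 44044) (Nat.add W15c10 (Nat.mul (Nat.pow 2 44044) (Nat.add W15c11 (Nat.mul (Nat.pow 2 44044) (Nat.add W15c12 (Nat.mul (Nat.pow 2 44044) (Nat.add W15c13 (Nat.mul (Nat.pow 2 44044) (Nat.add W15c14 (Nat.mul (Nat.pow 2 44044) (Nat.add W15c15 (Nat.mul (Nat.pow 2 44044) (Nat.add W15c16 (Nat.mul (Nat.pow 2 44044) (Nat.add W15c17 (Nat.mul (Nat.pow 2 44044) (W15c18)))))))))))))))))))))) = P (w8 19019 19020) (.cons 3003 12 (.cons 2926 13 (.cons 10374 11 (.cons 2717 7 .nil)))) 21021 :=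
    @P_join2 (w8 19019 19020) 3003 1 11 12 21021 24024 44044 (.cons 2926 13 (.cons 10374 11 (.cons 2717 7 .nil))) W15c7 (Nat.add W15c8 (Nat.mul (Nat.pow 2 44044) (Nat.add W15c9 (Nat.mul (Nat.pow 2 44044) (Nat.add W15c10 (Nat.mul (Nat.pow 2 44044) (Nat.add W15c11 (Nat.mul (Nat.pow 2 44044) (Nat.add W15c12 (Nat.mul (Nat.pow 2 44044) (Nat.add W15c13 (Nat.mul (Nat.pow 2 44044) (Nat.add W15c14 (Nat.mul (Nat.pow 2 44044) (Nat.add W15c15 (Nat.mul (Nat.pow 2 44044) (Nat.add W15c16 (Nat.mul (Nat.pow 2 44044) (Nat.add W15c17 (Nat.mul (Nat.pow 2 44044) (W15c18)))))))))))))))))))))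
      (chkW_sound (by norm_num) (by norm_num) (by norm_num) c15_7) h8 (by norm_num) rfl rfl
  have h6 : Nat.add W15c6 (Nat.mul (Nat.pow 2 44044) (Nat.add W15c7 (Nat.mul (Nat.pow 2 44044) (Nat.add W15c8 (Nat.mul (Nat.pow 2 44044) (Nat.add W15c9 (Nat.mul (Nat.pow 2 44044) (Nat.add W15c10 (Nat.mul (Nat.pow 2 44044) (Nat.add W15c11 (Nat.mul (Nat.pow 2 44044) (Nat.add W15c12 (Nat.mul (Nat.pow 2 44044) (Nat.add W15c13 (Nat.mul (Nat.pow 2 44044) (Nat.add W15c14 (Nat.mul (Nat.pow 2 44044) (Nat.add W15c15 (Nat.mul (Nat.pow 2 44044) (Nat.add W15c16 (Nat.mul (Nat.pow 2 44044) (Nat.add W15c17 (Nat.mul (Nat.pow 2 44044) (W15c18)))))))))))))))))))))))) = P (w8 19019 19020) (.cons 3003 13 (.cons 2926 13 (.cons 10374 11 (.cons 2717 7 .nil)))) 18018 :=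
    @P_join2 (w8 19019 19020) 3003 1 12 13 18018 21021 44044 (.cons 2926 13 (.cons 10374 11 (.cons 2717 7 .nil))) W15c6 (Nat.add W15c7 (Nat.mul (Nat.pow 2 44044) (Nat.add W15c8 (Nat.mul (Nat.pow 2 44044) (Nat.add W15c9 (Nat.mul (Nat.pow 2 44044) (Nat.add W15c10 (Nat.mul (Nat.pow 2 44044) (Nat.add W15c11 (Nat.mul (Nat.pow 2 44044) (Nat.add W15c12 (Nat.mul (Nat.pow 2 44044) (Nat.add W15c13 (Nat.mul (Nat.pow 2 44044) (Nat.add W15c14 (Nat.mul (Nat.pow 2 44044) (Nat.add W15c15 (Nat.mul (Nat.pow 2 44044) (Nat.add W15c16 (Nat.mul (Nat.pow 2 44044) (Nat.add W15c17 (Nat.mul (Nat.pow 2 44044) (W15c18)))))))))))))))))))))))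
      (chkW_sound (by norm_num) (by norm_num) (by norm_num) c15_6) h7 (by norm_num) rfl rfl
  have h5 : Nat.add W15c5 (Nat.mul (Nat.pow 2 44044) (Nat.add W15c6 (Nat.mul (Nat.pow 2 44044) (Nat.add W15c7 (Nat.mul (Nat.pow 2 44044) (Nat.add W15c8 (Nat.mul (Nat.pow 2 44044) (Nat.add W15c9 (Nat.mul (Nat.pow 2 44044) (Nat.add W15c10 (Nat.mul (Nat.pow 2 44044) (Nat.add W15c11 (Nat.mul (Nat.pow 2 44044) (Nat.add W15c12 (Nat.mul (Nat.pow 2 44044) (Nat.add W15c13 (Nat.mul (Nat.pow 2 44044) (Nat.add W15c14 (Nat.mul (Nat.pow 2 44044) (Nat.add W15c15 (Nat.mul (Nat.pow 2 44044) (Nat.add W15c16 (Nat.mul (Nat.pow 2 44044) (Nat.add W15c17 (Nat.mul (Nat.pow 2 44044) (W15c18)))))))))))))))))))))))))) = P (w8 19019 19020) (.cons 3003 14 (.cons 2926 13 (.cons 10374 11 (.cons 2717 7 .nil)))) 15015 :=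
    @P_join2 (w8 19019 19020) 3003 1 13 14 15015 18018 44044 (.cons 2926 13 (.cons 10374 11 (.cons 2717 7 .nil))) W15c5 (Nat.add W15c6 (Nat.mul (Nat.pow 2 44044) (Nat.add W15c7 (Nat.mul (Nat.pow 2 44044) (Nat.add W15c8 (Nat.mul (Nat.pow 2 44044) (Nat.add W15c9 (Nat.mul (Nat.pow 2 44044) (Nat.add W15c10 (Nat.mul (Nat.pow 2 44044) (Nat.add W15c11 (Nat.mul (Nat.pow 2 44044) (Nat.add W15c12 (Nat.mul (Nat.pow 2 44044) (Nat.add W15c13 (Nat.mul (Nat.pow 2 44044) (Nat.add W15c14 (Nat.mul (Nat.pow 2 44044) (Nat.add W15c15 (Nat.mul (Nat.pow 2 44044) (Nat.add W15c16 (Nat.mul (Nat.pow 2 44044) (Nat.add W15c17 (Nat.mul (Nat.pow 2 44044) (W15c18)))))))))))))))))))))))))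
      (chkW_sound (by norm_num) (by norm_num) (by norm_num) c15_5) h6 (by norm_num) rfl rfl
  have h4 : Nat.add W15c4 (Nat.mul (Nat.pow 2 44044) (Nat.add W15c5 (Nat.mul (Nat.pow 2 44044) (Nat.add W15c6 (Nat.mul (Nat.pow 2 44044) (Nat.add W15c7 (Nat.mul (Nat.pow 2 44044) (Nat.add W15c8 (Nat.mul (Nat.pow 2 44044) (Nat.add W15c9 (Nat.mul (Nat.pow 2 44044) (Nat.add W15c10 (Nat.mul (Nat.pow 2 44044) (Nat.add W15c11 (Nat.mul (Nat.pow 2 44044) (Nat.add W15c12 (Nat.mul (Nat.pow 2 44044) (Nat.add W15c13 (Nat.mul (Nat.pow 2 44044) (Nat.add W15c14 (Nat.mul (Nat.pow 2 44044) (Nat.add W15c15 (Nat.mul (Nat.pow 2 44044) (Nat.add W15c16 (Nat.mul (Nat.pow 2 44044) (Nat.add W15c17 (Nat.mul (Nat.pow 2 44044) (W15c18)))))))))))))))))))))))))))) = P (w8 19019 19020) (.cons 3003 15 (.cons 2926 13 (.cons 10374 11 (.cons 2717 7 .nil)))) 12012 :=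
    @P_join2 (w8 19019 19020) 3003 1 14 15 12012 15015 44044 (.cons 2926 13 (.cons 10374 11 (.cons 2717 7 .nil))) W15c4 (Nat.add W15c5 (Nat.mul (Nat.pow 2 44044) (Nat.add W15c6 (Nat.mul (Nat.pow 2 44044) (Nat.add W15c7 (Nat.mul (Nat.pow 2 44044) (Nat.add W15c8 (Nat.mul (Nat.pow 2 44044) (Nat.add W15c9 (Nat.mul (Nat.pow 2 44044) (Nat.add W15c10 (Nat.mul (Nat.pow 2 44044) (Nat.add W15c11 (Nat.mul (Nat.pow 2 44044) (Nat.add W15c12 (Nat.mul (Nat.pow 2 44044) (Nat.add W15c13 (Nat.mul (Nat.pow 2 44044) (Nat.add W15c14 (Nat.mul (Nat.pow 2 44044) (Nat.add W15c15 (Nat.mul (Nat.pow 2 44044) (Nat.add W15c16 (Nat.mul (Nat.pow 2 44044) (Nat.add W15c17 (Nat.mul (Nat.pow 2 44044) (W15c18)))))))))))))))))))))))))))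
      (chkW_sound (by norm_num) (by norm_num) (by norm_num) c15_4) h5 (by norm_num) rfl rfl
  have h3 : Nat.add W15c3 (Nat.mul (Nat.pow 2 44044) (Nat.add W15c4 (Nat.mul (Nat.pow 2 44044) (Nat.add W15c5 (Nat.mul (Nat.pow 2 44044) (Nat.add W15c6 (Nat.mul (Nat.pow 2 44044) (Nat.add W15c7 (Nat.mul (Nat.pow 2 44044) (Nat.add W15c8 (Nat.mul (Nat.pow 2 44044) (Nat.add W15c9 (Nat.mul (Nat.pow 2 44044) (Nat.add W15c10 (Nat.mul (Nat.pow 2 44044) (Nat.add W15c11 (Nat.mul (Nat.pow 2 44044) (Nat.add W15c12 (Nat.mul (Nat.pow 2 44044) (Nat.add W15c13 (Nat.mul (Nat.pow 2 44044) (Nat.add W15c14 (Nat.mul (Nat.pow 2 44044) (Nat.add W15c15 (Nat.mul (Nat.pow 2 44044) (Nat.add W15c16 (Nat.mul (Nat.pow 2 44044) (Nat.add W15c17 (Nat.mul (Nat.pow 2 44044) (W15c18)))))))))))))))))))))))))))))) = P (w8 19019 19020) (.cons 3003 16 (.cons 2926 13 (.cons 10374 11 (.cons 2717 7 .nil)))) 9009 :=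
    @P_join2 (w8 19019 19020) 3003 1 15 16 9009 12012 44044 (.cons 2926 13 (.cons 10374 11 (.cons 2717 7 .nil))) W15c3 (Nat.add W15c4 (Nat.mul (Nat.pow 2 44044) (Nat.add W15c5 (Nat.mul (Nat.pow 2 44044) (Nat.add W15c6 (Nat.mul (Nat.pow 2 44044) (Nat.add W15c7 (Nat.mul (Nat.pow 2 44044) (Nat.add W15c8 (Nat.mul (Nat.pow 2 44044) (Nat.add W15c9 (Nat.mul (Nat.pow 2 44044) (Nat.add W15c10 (Nat.mul (Nat.pow 2 44044) (Nat.add W15c11 (Nat.mul (Nat.pow 2 44044) (Nat.add W15c12 (Nat.mul (Nat.pow 2 44044) (Nat.add W15c13 (Nat.mul (Nat.pow 2 44044) (Nat.add W15c14 (Nat.mul (Nat.pow 2 44044) (Nat.add W15c15 (Nat.mul (Nat.pow 2 44044) (Nat.add W15c16 (Nat.mul (Nat.pow 2 44044) (Nat.add W15c17 (Nat.mul (Nat.pow 2 44044) (W15c18)))))))))))))))))))))))))))))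
      (chkW_sound (by norm_num) (by norm_num) (by norm_num) c15_3) h4 (by norm_num) rfl rfl
  have h2 : Nat.add W15c2 (Nat.mul (Nat.pow 2 44044) (Nat.add W15c3 (Nat.mul (Nat.pow 2 44044) (Nat.add W15c4 (Nat.mul (Nat.pow 2 44044) (Nat.add W15c5 (Nat.mul (Nat.pow 2 44044) (Nat.add W15c6 (Nat.mul (Nat.pow 2 44044) (Nat.add W15c7 (Nat.mul (Nat.pow 2 44044) (Nat.add W15c8 (Nat.mul (Nat.pow 2 44044) (Nat.add W15c9 (Nat.mul (Nat.pow 2 44044) (Nat.add W15c10 (Nat.mul (Nat.pow 2 44044) (Nat.add W15c11 (Nat.mul (Nat.pow 2 44044) (Nat.add W15c12 (Nat.mul (Nat.pow 2 44044) (Nat.add W15c13 (Nat.mul (Nat.pow 2 44044) (Nat.add W15c14 (Nat.mul (Nat.pow 2 44044) (Nat.add W15c15 (Nat.mul (Nat.pow 2 44044) (Nat.add W15c16 (Nat.mul (Nat.pow 2 44044) (Nat.add W15c17 (Nat.mul (Nat.pow 2 44044) (W15c18)))))))))))))))))))))))))))))))) = P (w8 19019 19020) (.cons 3003 17 (.cons 2926 13 (.cons 10374 11 (.cons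 2717 7 .nil)))) 6006 :=
    @P_join2 (w8 19019 19020) 3003 1 16 17 6006 9009 44044 (.cons 2926 13 (.cons 10374 11 (.cons 2717 7 .nil))) W15c2 (Nat.add W15c3 (Nat.mul (Nat.pow 2 44044) (Nat.add W15c4 (Nat.mul (Nat.pow 2 44044) (Nat.add W15c5 (Nat.mul (Nat.pow 2 44044) (Nat.add W15c6 (Nat.mul (Nat.pow 2 44044) (Nat.add W15c7 (Nat.mul (Nat.pow 2 44044) (Nat.add W15c8 (Nat.mul (Nat.pow 2 44044) (Nat.add W15c9 (Nat.mul (Nat.pow 2 44044) (Nat.add W15c10 (Nat.mul (Nat.pow 2 44044) (Nat.add W15c11 (Nat.mul (Nat.pow 2 44044) (Nat.add W15c12 (Nat.mul (Nat.pow 2 44044) (Nat.add W15c13 (Nat.mul (Nat.pow 2 44044) (Nat.add W15c14 (Nat.mul (Nat.pow 2 44044) (Nat.add W15c15 (Nat.mul (Nat.pow 2 44044) (Nat.add W15c16 (Nat.mul (Nat.pow 2 44044) (Nat.add W15c17 (Nat.mul (Nat.pow 2 44044) (W15c18)))))))))))))))))))))))))))))))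
      (chkW_sound (by norm_num) (by norm_num) (by norm_num) c15_2) h3 (by norm_num) rfl rfl
  have h1 : Nat.add W15c1 (Nat.mul (Nat.pow 2 44044) (Nat.add W15c2 (Nat.mul (Nat.pow 2 44044) (Nat.add W15c3 (Nat.mul (Nat.pow 2 44044) (Nat.add W15c4 (Nat.mul (Nat.pow 2 44044) (Nat.add W15c5 (Nat.mul (Nat.pow 2 44044) (Nat.add W15c6 (Nat.mul (Nat.pow 2 44044) (Nat.add W15c7 (Nat.mul (Nat.pow 2 44044) (Nat.add W15c8 (Nat.mul (Nat.pow 2 44044) (Nat.add W15c9 (Nat.mul (Nat.pow 2 44044) (Nat.add W15c10 (Nat.mul (Nat.pow 2 44044) (Nat.add W15c11 (Nat.mul (Nat.pow 2 44044) (Nat.add W15c12 (Nat.mul (Nat.pow 2 44044) (Nat.add W15c13 (Nat.mul (Nat.pow 2 44044) (Nat.add W15c14 (Nat.mul (Nat.pow 2 44044) (Nat.add W15c15 (Nat.mul (Nat.pow 2 44044) (Nat.add W15c16 (Nat.mul (Nat.pow 2 44044) (Nat.add W15c17 (Nat.mul (Nat.pow 2 44044) (W15c18)))))))))))))))))))))))))))))))))) = P (w8 19019 19020) (.cons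 3003 18 (.cons 2926 13 (.cons 10374 11 (.cons 2717 7 .nil)))) 3003 :=
    @P_join2 (w8 19019 19020) 3003 1 17 18 3003 6006 44044 (.cons 2926 13 (.cons 10374 11 (.cons 2717 7 .nil))) W15c1 (Nat.add W15c2 (Nat.mul (Nat.pow 2 44044) (Nat.add W15c3 (Nat.mul (Nat.pow 2 44044) (Nat.add W15c4 (Nat.mul (Nat.pow 2 44044) (Nat.add W15c5 (Nat.mul (Nat.pow 2 44044) (Nat.add W15c6 (Nat.mul (Nat.pow 2 44044) (Nat.add W15c7 (Nat.mul (Nat.pow 2 44044) (Nat.add W15c8 (Nat.mul (Nat.pow 2 44044) (Nat.add W15c9 (Nat.mul (Nat.pow 2 44044) (Nat.add W15c10 (Nat.mul (Nat.pow 2 44044) (Nat.add W15c11 (Nat.mul (Nat.pow 2 44044) (Nat.add W15c12 (Nat.mul (Nat.pow 2 44044) (Nat.add W15c13 (Nat.mul (Nat.pow 2 44044) (Nat.add W15c14 (Nat.mul (Nat.pow 2 44044) (Nat.add W15c15 (Nat.mul (Nat.pow 2 44044) (Nat.add W15c16 (Nat.mul (Nat.pow 2 44044) (Nat.add W15c17 (Nat.mul (Nat.pow 2 44044) (W15c18)))))))))))))))))))))))))))))))))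
      (chkW_sound (by norm_num) (by norm_num) (by norm_num) c15_1) h2 (by norm_num) rfl rfl
  have h0 : Nat.add W15c0 (Nat.mul (Nat.pow 2 44044) (Nat.add W15c1 (Nat.mul (Nat.pow 2 44044) (Nat.add W15c2 (Nat.mul (Nat.pow 2 44044) (Nat.add W15c3 (Nat.mul (Nat.pow 2 44044) (Nat.add W15c4 (Nat.mul (Nat.pow 2 44044) (Nat.add W15c5 (Nat.mul (Nat.pow 2 44044) (Nat.add W15c6 (Nat.mul (Nat.pow 2 44044) (Nat.add W15c7 (Nat.mul (Nat.pow 2 44044) (Nat.add W15c8 (Nat.mul (Nat.pow 2 44044) (Nat.add W15c9 (Nat.mul (Nat.pow 2 44044) (Nat.add W15c10 (Nat.mul (Nat.pow 2 44044) (Nat.add W15c11 (Nat.mul (Nat.pow 2 44044) (Nat.add W15c12 (Nat.mul (Nat.pow 2 44044) (Nat.add W15c13 (Nat.mul (Nat.pow 2 44044) (Nat.add W15c14 (Nat.mul (Nat.pow 2 44044) (Nat.add W15c15 (Nat.mul (Nat.pow 2 44044) (Nat.add W15c16 (Nat.mul (Nat.pow 2 44044) (Nat.add W15c17 (Nat.mul (Nat.pow 2 44044) (W15c18))))))))))))))))))))))))))))))))))))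 = P (w8 19019 19020) (.cons 3003 19 (.cons 2926 13 (.cons 10374 11 (.cons 2717 7 .nil)))) 0 :=
    @P_join2 (w8 19019 19020) 3003 1 18 19 0 3003 44044 (.cons 2926 13 (.cons 10374 11 (.cons 2717 7 .nil))) W15c0 (Nat.add W15c1 (Nat.mul (Nat.pow 2 44044) (Nat.add W15c2 (Nat.mul (Nat.pow 2 44044) (Nat.add W15c3 (Nat.mul (Nat.pow 2 44044) (Nat.add W15c4 (Nat.mul (Nat.pow 2 44044) (Nat.add W15c5 (Nat.mul (Nat.pow 2 44044) (Nat.add W15c6 (Nat.mul (Nat.pow 2 44044) (Nat.add W15c7 (Nat.mul (Nat.pow 2 44044) (Nat.add W15c8 (Nat.mul (Nat.pow 2 44044) (Nat.add W15c9 (Nat.mul (Nat.pow 2 44044) (Nat.add W15c10 (Nat.mul (Nat.pow 2 44044) (Nat.add W15c11 (Nat.mul (Nat.pow 2 44044) (Nat.add W15c12 (Nat.mul (Nat.pow 2 44044) (Nat.add W15c13 (Nat.mul (Nat.pow 2 44044) (Nat.add W15c14 (Nat.mul (Nat.pow 2 44044) (Nat.add W15c15 (Nat.mul (Nat.pow 2 44044) (Nat.add W15c16 (Nat.mul (Nat.pow 2 44044) (Nat.add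 W15c17 (Nat.mul (Nat.pow 2 44044) (W15c18)))))))))))))))))))))))))))))))))))
      (chkW_sound (by norm_num) (by norm_num) (by norm_num) c15_0) h1 (by norm_num) rfl rfl
  exact h0
theorem u14 : W14 = P (w8 19019 16303) (.cons 3003 19 (.cons 2926 13 (.cons 10374 11 .nil))) 2717 :=
  by
  unfold W14
  have h3 := chkW_sound (by norm_num) (by norm_num) (by norm_num) c14_3
  have h2 : Nat.add W14c2 (Nat.mul (Nat.pow 2 31460) (W14c3)) = P (w8 19019 16303) (.cons 3003 9 (.cons 2926 13 (.cons 10374 11 .nil))) 32747 :=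
    @P_join2 (w8 19019 16303) 3003 5 4 9 32747 47762 31460 (.cons 2926 13 (.cons 10374 11 .nil)) W14c2 (W14c3)
      (chkW_sound (by norm_num) (by norm_num) (by norm_num) c14_2) h3 (by norm_num) rfl rfl
  have h1 : Nat.add W14c1 (Nat.mul (Nat.pow 2 31460) (Nat.add W14c2 (Nat.mul (Nat.pow 2 31460) (W14c3)))) = P (w8 19019 16303) (.cons 3003 14 (.cons 2926 13 (.cons 10374 11 .nil))) 17732 :=
    @P_join2 (w8 19019 16303) 3003 5 9 14 17732 32747 31460 (.cons 2926 13 (.cons 10374 11 .nil)) W14c1 (Nat.add W14c2 (Nat.mul (Nat.pow 2 31460) (W14c3)))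
      (chkW_sound (by norm_num) (by norm_num) (by norm_num) c14_1) h2 (by norm_num) rfl rfl
  have h0 : Nat.add W14c0 (Nat.mul (Nat.pow 2 31460) (Nat.add W14c1 (Nat.mul (Nat.pow 2 31460) (Nat.add W14c2 (Nat.mul (Nat.pow 2 31460) (W14c3)))))) = P (w8 19019 16303) (.cons 3003 19 (.cons 2926 13 (.cons 10374 11 .nil))) 2717 :=
    @P_join2 (w8 19019 16303) 3003 5 14 19 2717 17732 31460 (.cons 2926 13 (.cons 10374 11 .nil)) W14c0 (Nat.add W14c1 (Nat.mul (Nat.pow 2 31460) (Nat.add W14c2 (Nat.mul (Nat.pow 2 31460) (W14c3)))))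
      (chkW_sound (by norm_num) (by norm_num) (by norm_num) c14_0) h1 (by norm_num) rfl rfl
  exact h0
theorem u13 : W13 = P (w8 19019 8646) (.cons 3003 19 (.cons 2926 13 (.cons 2717 7 .nil))) 10374 :=
  by
  unfold W13
  have h2 := chkW_sound (by norm_num) (by norm_num) (by norm_num) c13_2
  have h1 : Nat.add W13c1 (Nat.mul (Nat.pow 2 24024) (W13c2)) = P (w8 19019 8646) (.cons 3003 12 (.cons 2926 13 (.cons 2717 7 .nil))) 31395 :=
    @P_join2 (w8 19019 8646) 3003 6 6 12 31395 49413 24024 (.cons 2926 13 (.cons 2717 7 .nil)) W13c1 (W13c2)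
      (chkW_sound (by norm_num) (by norm_num) (by norm_num) c13_1) h2 (by norm_num) rfl rfl
  have h0 : Nat.add W13c0 (Nat.mul (Nat.pow 2 28028) (Nat.add W13c1 (Nat.mul (Nat.pow 2 24024) (W13c2)))) = P (w8 19019 8646) (.cons 3003 19 (.cons 2926 13 (.cons 2717 7 .nil))) 10374 :=
    @P_join2 (w8 19019 8646) 3003 7 12 19 10374 31395 28028 (.cons 2926 13 (.cons 2717 7 .nil)) W13c0 (Nat.add W13c1 (Nat.mul (Nat.pow 2 24024) (W13c2)))
      (chkW_sound (by norm_num) (by norm_num) (by norm_num) c13_0) h1 (by norm_num) rfl rfl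
  exact h0
theorem u12 : W12 = P (w8 19019 5929) (.cons 3003 19 (.cons 2926 13 .nil)) 13091 :=
  chkW_sound (by norm_num) (by norm_num) (by norm_num) c12_0
theorem u11 : W11 = P (w8 19019 16094) (.cons 3003 19 (.cons 10374 11 (.cons 2717 7 .nil))) 2926 :=
  by
  unfold W11
  have h1 := chkW_sound (by norm_num) (by norm_num) (by norm_num) c11_1
  have h0 : Nat.add W11c0 (Nat.mul (Nat.pow 2 33880) (W11c1)) = P (w8 19019 16094) (.cons 3003 19 (.cons 10374 11 (.cons 2717 7 .nil))) 2926 :=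
    @P_join2 (w8 19019 16094) 3003 10 9 19 2926 32956 33880 (.cons 10374 11 (.cons 2717 7 .nil)) W11c0 (W11c1)
      (chkW_sound (by norm_num) (by norm_num) (by norm_num) c11_0) h1 (by norm_num) rfl rfl
  exact h0
theorem u10 : W10 = P (w8 19019 13377) (.cons 3003 19 (.cons 10374 11 .nil)) 5643 :=
  chkW_sound (by norm_num) (by norm_num) (by norm_num) c10_0
theorem u9 : W9 = P (w8 19019 5720) (.cons 3003 19 (.cons 2717 7 .nil)) 13300 :=
  chkW_sound (by norm_num) (by norm_num) (by norm_num) c9_0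
theorem u8 : W8 = P (w8 19019 3003) (.cons 3003 19 .nil) 16017 :=
  chkW_sound (by norm_num) (by norm_num) (by norm_num) c8_0
theorem u7 : W7 = P (w8 19019 16017) (.cons 2926 13 (.cons 10374 11 (.cons 2717 7 .nil))) 3003 :=
  by
  unfold W7
  have h1 := chkW_sound (by norm_num) (by norm_num) (by norm_num) c7_1
  have h0 : Nat.add W7c0 (Nat.mul (Nat.pow 2 23716) (W7c1)) = P (w8 19019 16017) (.cons 2926 13 (.cons 10374 11 (.cons 2717 7 .nil))) 3003 :=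
    @P_join2 (w8 19019 16017) 2926 7 6 13 3003 23485 23716 (.cons 10374 11 (.cons 2717 7 .nil)) W7c0 (W7c1)
      (chkW_sound (by norm_num) (by norm_num) (by norm_num) c7_0) h1 (by norm_num) rfl rfl
  exact h0
theorem u6 : W6 = P (w8 19019 13300) (.cons 2926 13 (.cons 10374 11 .nil)) 5720 :=
  chkW_sound (by norm_num) (by norm_num) (by norm_num) c6_0
theorem u5 : W5 = P (w8 19019 5643) (.cons 2926 13 (.cons 2717 7 .nil)) 13377 :=
  chkW_sound (by norm_num) (by norm_num) (by norm_num) c5_0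
theorem u4 : W4 = P (w8 19019 2926) (.cons 2926 13 .nil) 16094 :=
  chkW_sound (by norm_num) (by norm_num) (by norm_num) c4_0
theorem u3 : W3 = P (w8 19019 13091) (.cons 10374 11 (.cons 2717 7 .nil)) 5929 :=
  chkW_sound (by norm_num) (by norm_num) (by norm_num) c3_0
theorem u2 : W2 = P (w8 19019 10374) (.cons 10374 11 .nil) 8646 :=
  chkW_sound (by norm_num) (by norm_num) (by norm_num) c2_0
theorem u1 : W1 = P (w8 19019 2717) (.cons 2717 7 .nil) 16303 :=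
  chkW_sound (by norm_num) (by norm_num) (by norm_num) c1_0
theorem tr_eq : tr = TR (w8 19019) [(3003, 19, 324876, 255), (2926, 13, 2532, 1), (10374, 11, 1476, 255), (2717, 7, 104, 255)] .nil 0 0 :=
  mk_node (mk_node (mk_node (mk_node (mk_leaf rfl u15) (mk_leaf rfl u14)) (mk_node (mk_leaf rfl u13) (mk_leaf rfl u12))) (mk_node (mk_node (mk_leaf rfl u11) (mk_leaf rfl u10)) (mk_node (mk_leaf rfl u9) (mk_leaf rfl u8)))) (mk_node (mk_node (mk_node (mk_leaf rfl u7) (mk_leaf rfl u6)) (mk_node (mk_leaf rfl u5) (mk_leaf rfl u4))) (mk_node (mk_node (mk_leaf rfl u3) (mk_leaf rfl u2)) (mk_node (mk_leaf rfl u1) (mk_leaf rfl (w8_zero _ _).symm))))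
theorem tb (d : ℤ) (n : ℕ)
    (h : ∀ l ∈ ({19, 13, 11, 7} : Finset ℕ), jacobiSym ((n : ℤ) ^ 2 + 4) l = -1) :
    (512 : ℤ) ∣ Pool.Agent.N367.LE.SEr d {19, 13, 11, 7} n -
      256 * (((BT19019 >>> (((n % 19 * 13 + n % 13) * 11 + n % 11) * 7 + n % 7)) % 2 : ℕ) : ℤ) :=
  tb_gen (m := 19019) pd19 pd13 pd11 pd7 (by norm_num) (by norm_num) (by norm_num)
    (by norm_num) (by norm_num) (by norm_num) (show Idem 7 11 13 19 2717 10374 2926 3003 from Idem.of (by decide)) (by norm_num) (by norm_num)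
    (by norm_num) (by rw [← tr_eq]; exact ev_true) d n h

end Pool.Agent.N367.HT.D19019
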