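import Pool.Agent.N367.HT.J
import Pool.Agent.N367.HT.D22011

/-! The sum for 29 23 11 3. -/

namespace Pool.Agent.N367.HT.D22011

open Pool.Agent.N156.HT Pool.Agent.N911.L Pool.Agent.N367.HT

set_option exponentiation.threshold 2000000

theorem u15 : W15 = P (w8 22011 44023) (.cons 4554 29 (.cons 4785 23 (.cons 20010 11 (.cons 14674 3 .nil)))) 0 :=
  by
  unfold W15
  have h28 := chkW_sound (by norm_num) (by norm_num) (by norm_num) c15_28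
  have h27 : Nat.add W15c27 (Nat.mul (Nat.pow 2 33396) (W15c28)) = P (w8 22011 44023) (.cons 4554 2 (.cons 4785 23 (.cons 20010 11 (.cons 14674 3 .nil)))) 122958 :=
    @P_join2 (w8 22011 44023) 4554 1 1 2 122958 127512 33396 (.cons 4785 23 (.cons 20010 11 (.cons 14674 3 .nil))) W15c27 (W15c28)
      (chkW_sound (by norm_num) (by norm_num) (by norm_num) c15_27) h28 (by norm_num) rfl rfl
  have h26 : Nat.add W15c26 (Nat.mul (Nat.pow 2 33396) (Nat.add W15c27 (Nat.mul (Nat.pow 2 33396) (W15c28)))) = P (w8 22011 44023) (.cons 4554 3 (.cons 4785 23 (.cons 20010 11 (.cons 14674 3 .nil)))) 118404 :=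
    @P_join2 (w8 22011 44023) 4554 1 2 3 118404 122958 33396 (.cons 4785 23 (.cons 20010 11 (.cons 14674 3 .nil))) W15c26 (Nat.add W15c27 (Nat.mul (Nat.pow 2 33396) (W15c28)))
      (chkW_sound (by norm_num) (by norm_num) (by norm_num) c15_26) h27 (by norm_num) rfl rfl
  have h25 : Nat.add W15c25 (Nat.mul (Nat.pow 2 33396) (Nat.add W15c26 (Nat.mul (Nat.pow 2 33396) (Nat.add W15c27 (Nat.mul (Nat.pow 2 33396) (W15c28)))))) = P (w8 22011 44023) (.cons 4554 4 (.cons 4785 23 (.cons 20010 11 (.cons 14674 3 .nil)))) 113850 :=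
    @P_join2 (w8 22011 44023) 4554 1 3 4 113850 118404 33396 (.cons 4785 23 (.cons 20010 11 (.cons 14674 3 .nil))) W15c25 (Nat.add W15c26 (Nat.mul (Nat.pow 2 33396) (Nat.add W15c27 (Nat.mul (Nat.pow 2 33396) (W15c28)))))
      (chkW_sound (by norm_num) (by norm_num) (by norm_num) c15_25) h26 (by norm_num) rfl rfl
  have h24 : Nat.add W15c24 (Nat.mul (Nat.pow 2 33396) (Nat.add W15c25 (Nat.mul (Nat.pow 2 33396) (Nat.add W15c26 (Nat.mul (Nat.pow 2 33396) (Nat.add W15c27 (Nat.mul (Nat.pow 2 33396) (W15c28)))))))) = P (w8 22011 44023) (.cons 4554 5 (.cons 4785 23 (.cons 20010 11 (.cons 14674 3 .nil)))) 109296 :=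
    @P_join2 (w8 22011 44023) 4554 1 4 5 109296 113850 33396 (.cons 4785 23 (.cons 20010 11 (.cons 14674 3 .nil))) W15c24 (Nat.add W15c25 (Nat.mul (Nat.pow 2 33396) (Nat.add W15c26 (Nat.mul (Nat.pow 2 33396) (Nat.add W15c27 (Nat.mul (Nat.pow 2 33396) (W15c28)))))))
      (chkW_sound (by norm_num) (by norm_num) (by norm_num) c15_24) h25 (by norm_num) rfl rfl
  have h23 : Nat.add W15c23 (Nat.mul (Nat.pow 2 33396) (Nat.add W15c24 (Nat.mul (Nat.pow 2 33396) (Nat.add W15c25 (Nat.mul (Nat.pow 2 33396) (Nat.add W15c26 (Nat.mul (Nat.pow 2 33396) (Nat.add W15c27 (Nat.mul (Nat.pow 2 33396) (W15c28)))))))))) = P (w8 22011 44023) (.cons 4554 6 (.cons 4785 23 (.cons 20010 11 (.cons 14674 3 .nil)))) 104742 :=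
    @P_join2 (w8 22011 44023) 4554 1 5 6 104742 109296 33396 (.cons 4785 23 (.cons 20010 11 (.cons 14674 3 .nil))) W15c23 (Nat.add W15c24 (Nat.mul (Nat.pow 2 33396) (Nat.add W15c25 (Nat.mul (Nat.pow 2 33396) (Nat.add W15c26 (Nat.mul (Nat.pow 2 33396) (Nat.add W15c27 (Nat.mul (Nat.pow 2 33396) (W15c28)))))))))
      (chkW_sound (by norm_num) (by norm_num) (by norm_num) c15_23) h24 (by norm_num) rfl rfl
  have h22 : Nat.add W15c22 (Nat.mul (Nat.pow 2 33396) (Nat.add W15c23 (Nat.mul (Nat.pow 2 33396) (Nat.add W15c24 (Nat.mul (Nat.pow 2 33396) (Nat.add W15c25 (Nat.mul (Nat.pow 2 33396) (Nat.add W15c26 (Nat.mul (Nat.pow 2 33396) (Nat.add W15c27 (Nat.mul (Nat.pow 2 33396) (W15c28)))))))))))) = P (w8 22011 44023) (.cons 4554 7 (.cons 4785 23 (.cons 20010 11 (.cons 14674 3 .nil)))) 100188 :=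
    @P_join2 (w8 22011 44023) 4554 1 6 7 100188 104742 33396 (.cons 4785 23 (.cons 20010 11 (.cons 14674 3 .nil))) W15c22 (Nat.add W15c23 (Nat.mul (Nat.pow 2 33396) (Nat.add W15c24 (Nat.mul (Nat.pow 2 33396) (Nat.add W15c25 (Nat.mul (Nat.pow 2 33396) (Nat.add W15c26 (Nat.mul (Nat.pow 2 33396) (Nat.add W15c27 (Nat.mul (Nat.pow 2 33396) (W15c28)))))))))))
      (chkW_sound (by norm_num) (by norm_num) (by norm_num) c15_22) h23 (by norm_num) rfl rfl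
  have h21 : Nat.add W15c21 (Nat.mul (Nat.pow 2 33396) (Nat.add W15c22 (Nat.mul (Nat.pow 2 33396) (Nat.add W15c23 (Nat.mul (Nat.pow 2 33396) (Nat.add W15c24 (Nat.mul (Nat.pow 2 33396) (Nat.add W15c25 (Nat.mul (Nat.pow 2 33396) (Nat.add W15c26 (Nat.mul (Nat.pow 2 33396) (Nat.add W15c27 (Nat.mul (Nat.pow 2 33396) (W15c28)))))))))))))) = P (w8 22011 44023) (.cons 4554 8 (.cons 4785 23 (.cons 20010 11 (.cons 14674 3 .nil)))) 95634 :=
    @P_join2 (w8 22011 44023) 4554 1 7 8 95634 100188 33396 (.cons 4785 23 (.cons 20010 11 (.cons 14674 3 .nil))) W15c21 (Nat.add W15c22 (Nat.mul (Nat.pow 2 33396) (Nat.add W15c23 (Nat.mul (Nat.pow 2 33396) (Nat.add W15c24 (Nat.mul (Nat.pow 2 33396) (Nat.add W15c25 (Nat.mul (Nat.pow 2 33396) (Nat.add W15c26 (Nat.mul (Nat.pow 2 33396) (Nat.add W15c27 (Nat.mul (Nat.pow 2 33396) (W15c28)))))))))))))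
      (chkW_sound (by norm_num) (by norm_num) (by norm_num) c15_21) h22 (by norm_num) rfl rfl
  have h20 : Nat.add W15c20 (Nat.mul (Nat.pow 2 33396) (Nat.add W15c21 (Nat.mul (Nat.pow 2 33396) (Nat.add W15c22 (Nat.mul (Nat.pow 2 33396) (Nat.add W15c23 (Nat.mul (Nat.pow 2 33396) (Nat.add W15c24 (Nat.mul (Nat.pow 2 33396) (Nat.add W15c25 (Nat.mul (Nat.pow 2 33396) (Nat.add W15c26 (Nat.mul (Nat.pow 2 33396) (Nat.add W15c27 (Nat.mul (Nat.pow 2 33396) (W15c28)))))))))))))))) = P (w8 22011 44023) (.cons 4554 9 (.cons 4785 23 (.cons 20010 11 (.cons 14674 3 .nil)))) 91080 :=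
    @P_join2 (w8 22011 44023) 4554 1 8 9 91080 95634 33396 (.cons 4785 23 (.cons 20010 11 (.cons 14674 3 .nil))) W15c20 (Nat.add W15c21 (Nat.mul (Nat.pow 2 33396) (Nat.add W15c22 (Nat.mul (Nat.pow 2 33396) (Nat.add W15c23 (Nat.mul (Nat.pow 2 33396) (Nat.add W15c24 (Nat.mul (Nat.pow 2 33396) (Nat.add W15c25 (Nat.mul (Nat.pow 2 33396) (Nat.add W15c26 (Nat.mul (Nat.pow 2 33396) (Nat.add W15c27 (Nat.mul (Nat.pow 2 33396) (W15c28)))))))))))))))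
      (chkW_sound (by norm_num) (by norm_num) (by norm_num) c15_20) h21 (by norm_num) rfl rfl
  have h19 : Nat.add W15c19 (Nat.mul (Nat.pow 2 33396) (Nat.add W15c20 (Nat.mul (Nat.pow 2 33396) (Nat.add W15c21 (Nat.mul (Nat.pow 2 33396) (Nat.add W15c22 (Nat.mul (Nat.pow 2 33396) (Nat.add W15c23 (Nat.mul (Nat.pow 2 33396) (Nat.add W15c24 (Nat.mul (Nat.pow 2 33396) (Nat.add W15c25 (Nat.mul (Nat.pow 2 33396) (Nat.add W15c26 (Nat.mul (Nat.pow 2 33396) (Nat.add W15c27 (Nat.mul (Nat.pow 2 33396) (W15c28)))))))))))))))))) = P (w8 22011 44023) (.cons 4554 10 (.cons 4785 23 (.cons 20010 11 (.cons 14674 3 .nil)))) 86526 :=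
    @P_join2 (w8 22011 44023) 4554 1 9 10 86526 91080 33396 (.cons 4785 23 (.cons 20010 11 (.cons 14674 3 .nil))) W15c19 (Nat.add W15c20 (Nat.mul (Nat.pow 2 33396) (Nat.add W15c21 (Nat.mul (Nat.pow 2 33396) (Nat.add W15c22 (Nat.mul (Nat.pow 2 33396) (Nat.add W15c23 (Nat.mul (Nat.pow 2 33396) (Nat.add W15c24 (Nat.mul (Nat.pow 2 33396) (Nat.add W15c25 (Nat.mul (Nat.pow 2 33396) (Nat.add W15c26 (Nat.mul (Nat.pow 2 33396) (Nat.add W15c27 (Nat.mul (Nat.pow 2 33396) (W15c28)))))))))))))))))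
      (chkW_sound (by norm_num) (by norm_num) (by norm_num) c15_19) h20 (by norm_num) rfl rfl
  have h18 : Nat.add W15c18 (Nat.mul (Nat.pow 2 33396) (Nat.add W15c19 (Nat.mul (Nat.pow 2 33396) (Nat.add W15c20 (Nat.mul (Nat.pow 2 33396) (Nat.add W15c21 (Nat.mul (Nat.pow 2 33396) (Nat.add W15c22 (Nat.mul (Nat.pow 2 33396) (Nat.add W15c23 (Nat.mul (Nat.pow 2 33396) (Nat.add W15c24 (Nat.mul (Nat.pow 2 33396) (Nat.add W15c25 (Nat.mul (Nat.pow 2 33396) (Nat.add W15c26 (Nat.mul (Nat.pow 2 33396) (Nat.add W15c27 (Nat.mul (Nat.pow 2 33396) (W15c28)))))))))))))))))))) = P (w8 22011 44023) (.cons 4554 11 (.cons 4785 23 (.cons 20010 11 (.cons 14674 3 .nil)))) 81972 :=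
    @P_join2 (w8 22011 44023) 4554 1 10 11 81972 86526 33396 (.cons 4785 23 (.cons 20010 11 (.cons 14674 3 .nil))) W15c18 (Nat.add W15c19 (Nat.mul (Nat.pow 2 33396) (Nat.add W15c20 (Nat.mul (Nat.pow 2 33396) (Nat.add W15c21 (Nat.mul (Nat.pow 2 33396) (Nat.add W15c22 (Nat.mul (Nat.pow 2 33396) (Nat.add W15c23 (Nat.mul (Nat.pow 2 33396) (Nat.add W15c24 (Nat.mul (Nat.pow 2 33396) (Nat.add W15c25 (Nat.mul (Nat.pow 2 33396) (Nat.add W15c26 (Nat.mul (Nat.pow 2 33396) (Nat.add W15c27 (Nat.mul (Nat.pow 2 33396) (W15c28)))))))))))))))))))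
      (chkW_sound (by norm_num) (by norm_num) (by norm_num) c15_18) h19 (by norm_num) rfl rfl
  have h17 : Nat.add W15c17 (Nat.mul (Nat.pow 2 33396) (Nat.add W15c18 (Nat.mul (Nat.pow 2 33396) (Nat.add W15c19 (Nat.mul (Nat.pow 2 33396) (Nat.add W15c20 (Nat.mul (Nat.pow 2 33396) (Nat.add W15c21 (Nat.mul (Nat.pow 2 33396) (Nat.add W15c22 (Nat.mul (Nat.pow 2 33396) (Nat.add W15c23 (Nat.mul (Nat.pow 2 33396) (Nat.add W15c24 (Nat.mul (Nat.pow 2 33396) (Nat.add W15c25 (Nat.mul (Nat.pow 2 33396) (Nat.add W15c26 (Nat.mul (Nat.pow 2 33396) (Nat.add W15c27 (Nat.mul (Nat.pow 2 33396) (W15c28)))))))))))))))))))))) = P (w8 22011 44023) (.cons 4554 12 (.cons 4785 23 (.cons 20010 11 (.cons 14674 3 .nil)))) 77418 :=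
    @P_join2 (w8 22011 44023) 4554 1 11 12 77418 81972 33396 (.cons 4785 23 (.cons 20010 11 (.cons 14674 3 .nil))) W15c17 (Nat.add W15c18 (Nat.mul (Nat.pow 2 33396) (Nat.add W15c19 (Nat.mul (Nat.pow 2 33396) (Nat.add W15c20 (Nat.mul (Nat.pow 2 33396) (Nat.add W15c21 (Nat.mul (Nat.pow 2 33396) (Nat.add W15c22 (Nat.mul (Nat.pow 2 33396) (Nat.add W15c23 (Nat.mul (Nat.pow 2 33396) (Nat.add W15c24 (Nat.mul (Nat.pow 2 33396) (Nat.add W15c25 (Nat.mul (Nat.pow 2 33396) (Nat.add W15c26 (Nat.mul (Nat.pow 2 33396) (Nat.add W15c27 (Nat.mul (Nat.pow 2 33396) (W15c28)))))))))))))))))))))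
      (chkW_sound (by norm_num) (by norm_num) (by norm_num) c15_17) h18 (by norm_num) rfl rfl
  have h16 : Nat.add W15c16 (Nat.mul (Nat.pow 2 33396) (Nat.add W15c17 (Nat.mul (Nat.pow 2 33396) (Nat.add W15c18 (Nat.mul (Nat.pow 2 33396) (Nat.add W15c19 (Nat.mul (Nat.pow 2 33396) (Nat.add W15c20 (Nat.mul (Nat.pow 2 33396) (Nat.add W15c21 (Nat.mul (Nat.pow 2 33396) (Nat.add W15c22 (Nat.mul (Nat.pow 2 33396) (Nat.add W15c23 (Nat.mul (Nat.pow 2 33396) (Nat.add W15c24 (Nat.mul (Nat.pow 2 33396) (Nat.add W15c25 (Nat.mul (Nat.pow 2 33396) (Nat.add W15c26 (Nat.mul (Nat.pow 2 33396) (Nat.add W15c27 (Nat.mul (Nat.pow 2 33396) (W15c28)))))))))))))))))))))))) = P (w8 22011 44023) (.cons 4554 13 (.cons 4785 23 (.cons 20010 11 (.cons 14674 3 .nil)))) 72864 :=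
    @P_join2 (w8 22011 44023) 4554 1 12 13 72864 77418 33396 (.cons 4785 23 (.cons 20010 11 (.cons 14674 3 .nil))) W15c16 (Nat.add W15c17 (Nat.mul (Nat.pow 2 33396) (Nat.add W15c18 (Nat.mul (Nat.pow 2 33396) (Nat.add W15c19 (Nat.mul (Nat.pow 2 33396) (Nat.add W15c20 (Nat.mul (Nat.pow 2 33396) (Nat.add W15c21 (Nat.mul (Nat.pow 2 33396) (Nat.add W15c22 (Nat.mul (Nat.pow 2 33396) (Nat.add W15c23 (Nat.mul (Nat.pow 2 33396) (Nat.add W15c24 (Nat.mul (Nat.pow 2 33396) (Nat.add W15c25 (Nat.mul (Nat.pow 2 33396) (Nat.add W15c26 (Nat.mul (Nat.pow 2 33396) (Nat.add W15c27 (Nat.mul (Nat.pow 2 33396) (W15c28)))))))))))))))))))))))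
      (chkW_sound (by norm_num) (by norm_num) (by norm_num) c15_16) h17 (by norm_num) rfl rfl
  have h15 : Nat.add W15c15 (Nat.mul (Nat.pow 2 33396) (Nat.add W15c16 (Nat.mul (Nat.pow 2 33396) (Nat.add W15c17 (Nat.mul (Nat.pow 2 33396) (Nat.add W15c18 (Nat.mul (Nat.pow 2 33396) (Nat.add W15c19 (Nat.mul (Nat.pow 2 33396) (Nat.add W15c20 (Nat.mul (Nat.pow 2 33396) (Nat.add W15c21 (Nat.mul (Nat.pow 2 33396) (Nat.add W15c22 (Nat.mul (Nat.pow 2 33396) (Nat.add W15c23 (Nat.mul (Nat.pow 2 33396) (Nat.add W15c24 (Nat.mul (Nat.pow 2 33396) (Nat.add W15c25 (Nat.mul (Nat.pow 2 33396) (Nat.add W15c26 (Nat.mul (Nat.pow 2 33396) (Nat.add W15c27 (Nat.mul (Nat.pow 2 33396) (W15c28)))))))))))))))))))))))))) = P (w8 22011 44023) (.cons 4554 14 (.cons 4785 23 (.cons 20010 11 (.cons 14674 3 .nil)))) 68310 :=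
    @P_join2 (w8 22011 44023) 4554 1 13 14 68310 72864 33396 (.cons 4785 23 (.cons 20010 11 (.cons 14674 3 .nil))) W15c15 (Nat.add W15c16 (Nat.mul (Nat.pow 2 33396) (Nat.add W15c17 (Nat.mul (Nat.pow 2 33396) (Nat.add W15c18 (Nat.mul (Nat.pow 2 33396) (Nat.add W15c19 (Nat.mul (Nat.pow 2 33396) (Nat.add W15c20 (Nat.mul (Nat.pow 2 33396) (Nat.add W15c21 (Nat.mul (Nat.pow 2 33396) (Nat.add W15c22 (Nat.mul (Nat.pow 2 33396) (Nat.add W15c23 (Nat.mul (Nat.pow 2 33396) (Nat.add W15c24 (Nat.mul (Nat.pow 2 33396) (Nat.add W15c25 (Nat.mul (Nat.pow 2 33396) (Nat.add W15c26 (Nat.mul (Nat.pow 2 33396) (Nat.add W15c27 (Nat.mul (Nat.pow 2 33396) (W15c28)))))))))))))))))))))))))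
      (chkW_sound (by norm_num) (by norm_num) (by norm_num) c15_15) h16 (by norm_num) rfl rfl
  have h14 : Nat.add W15c14 (Nat.mul (Nat.pow 2 33396) (Nat.add W15c15 (Nat.mul (Nat.pow 2 33396) (Nat.add W15c16 (Nat.mul (Nat.pow 2 33396) (Nat.add W15c17 (Nat.mul (Nat.pow 2 33396) (Nat.add W15c18 (Nat.mul (Nat.pow 2 33396) (Nat.add W15c19 (Nat.mul (Nat.pow 2 33396) (Nat.add W15c20 (Nat.mul (Nat.pow 2 33396) (Nat.add W15c21 (Nat.mul (Nat.pow 2 33396) (Nat.add W15c22 (Nat.mul (Nat.pow 2 33396) (Nat.add W15c23 (Nat.mul (Nat.pow 2 33396) (Nat.add W15c24 (Nat.mul (Nat.pow 2 33396) (Nat.add W15c25 (Nat.mul (Nat.pow 2 33396) (Nat.add W15c26 (Nat.mul (Nat.pow 2 33396) (Nat.add W15c27 (Nat.mul (Nat.pow 2 33396) (W15c28)))))))))))))))))))))))))))) = P (w8 22011 44023) (.cons 4554 15 (.cons 4785 23 (.cons 20010 11 (.cons 14674 3 .nil)))) 63756 :=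
    @P_join2 (w8 22011 44023) 4554 1 14 15 63756 68310 33396 (.cons 4785 23 (.cons 20010 11 (.cons 14674 3 .nil))) W15c14 (Nat.add W15c15 (Nat.mul (Nat.pow 2 33396) (Nat.add W15c16 (Nat.mul (Nat.pow 2 33396) (Nat.add W15c17 (Nat.mul (Nat.pow 2 33396) (Nat.add W15c18 (Nat.mul (Nat.pow 2 33396) (Nat.add W15c19 (Nat.mul (Nat.pow 2 33396) (Nat.add W15c20 (Nat.mul (Nat.pow 2 33396) (Nat.add W15c21 (Nat.mul (Nat.pow 2 33396) (Nat.add W15c22 (Nat.mul (Nat.pow 2 33396) (Nat.add W15c23 (Nat.mul (Nat.pow 2 33396) (Nat.add W15c24 (Nat.mul (Nat.pow 2 33396) (Nat.add W15c25 (Nat.mul (Nat.pow 2 33396) (Nat.add W15c26 (Nat.mul (Nat.pow 2 33396) (Nat.add W15c27 (Nat.mul (Nat.pow 2 33396) (W15c28)))))))))))))))))))))))))))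
      (chkW_sound (by norm_num) (by norm_num) (by norm_num) c15_14) h15 (by norm_num) rfl rfl
  have h13 : Nat.add W15c13 (Nat.mul (Nat.pow 2 33396) (Nat.add W15c14 (Nat.mul (Nat.pow 2 33396) (Nat.add W15c15 (Nat.mul (Nat.pow 2 33396) (Nat.add W15c16 (Nat.mul (Nat.pow 2 33396) (Nat.add W15c17 (Nat.mul (Nat.pow 2 33396) (Nat.add W15c18 (Nat.mul (Nat.pow 2 33396) (Nat.add W15c19 (Nat.mul (Nat.pow 2 33396) (Nat.add W15c20 (Nat.mul (Nat.pow 2 33396) (Nat.add W15c21 (Nat.mul (Nat.pow 2 33396) (Nat.add W15c22 (Nat.mul (Nat.pow 2 33396) (Nat.add W15c23 (Nat.mul (Nat.pow 2 33396) (Nat.add W15c24 (Nat.mul (Nat.pow 2 33396) (Nat.add W15c25 (Nat.mul (Nat.pow 2 33396) (Nat.add W15c26 (Nat.mul (Nat.pow 2 33396) (Nat.add W15c27 (Nat.mul (Nat.pow 2 33396) (W15c28)))))))))))))))))))))))))))))) = P (w8 22011 44023) (.cons 4554 16 (.cons 4785 23 (.cons 20010 11 (.cons 14674 3 .nil))))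 59202 :=
    @P_join2 (w8 22011 44023) 4554 1 15 16 59202 63756 33396 (.cons 4785 23 (.cons 20010 11 (.cons 14674 3 .nil))) W15c13 (Nat.add W15c14 (Nat.mul (Nat.pow 2 33396) (Nat.add W15c15 (Nat.mul (Nat.pow 2 33396) (Nat.add W15c16 (Nat.mul (Nat.pow 2 33396) (Nat.add W15c17 (Nat.mul (Nat.pow 2 33396) (Nat.add W15c18 (Nat.mul (Nat.pow 2 33396) (Nat.add W15c19 (Nat.mul (Nat.pow 2 33396) (Nat.add W15c20 (Nat.mul (Nat.pow 2 33396) (Nat.add W15c21 (Nat.mul (Nat.pow 2 33396) (Nat.add W15c22 (Nat.mul (Nat.pow 2 33396) (Nat.add W15c23 (Nat.mul (Nat.pow 2 33396) (Nat.add W15c24 (Nat.mul (Nat.pow 2 33396) (Nat.add W15c25 (Nat.mul (Nat.pow 2 33396) (Nat.add W15c26 (Nat.mul (Nat.pow 2 33396) (Nat.add W15c27 (Nat.mul (Nat.pow 2 33396) (W15c28)))))))))))))))))))))))))))))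
      (chkW_sound (by norm_num) (by norm_num) (by norm_num) c15_13) h14 (by norm_num) rfl rfl
  have h12 : Nat.add W15c12 (Nat.mul (Nat.pow 2 33396) (Nat.add W15c13 (Nat.mul (Nat.pow 2 33396) (Nat.add W15c14 (Nat.mul (Nat.pow 2 33396) (Nat.add W15c15 (Nat.mul (Nat.pow 2 33396) (Nat.add W15c16 (Nat.mul (Nat.pow 2 33396) (Nat.add W15c17 (Nat.mul (Nat.pow 2 33396) (Nat.add W15c18 (Nat.mul (Nat.pow 2 33396) (Nat.add W15c19 (Nat.mul (Nat.pow 2 33396) (Nat.add W15c20 (Nat.mul (Nat.pow 2 33396) (Nat.add W15c21 (Nat.mul (Nat.pow 2 33396) (Nat.add W15c22 (Nat.mul (Nat.pow 2 33396) (Nat.add W15c23 (Nat.mul (Nat.pow 2 33396) (Nat.add W15c24 (Nat.mul (Nat.pow 2 33396) (Nat.add W15c25 (Nat.mul (Nat.pow 2 33396) (Nat.add W15c26 (Nat.mul (Nat.pow 2 33396) (Nat.add W15c27 (Nat.mul (Nat.pow 2 33396) (W15c28)))))))))))))))))))))))))))))))) = P (w8 22011 44023) (.cons 4554 17 (.cons 4785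 23 (.cons 20010 11 (.cons 14674 3 .nil)))) 54648 :=
    @P_join2 (w8 22011 44023) 4554 1 16 17 54648 59202 33396 (.cons 4785 23 (.cons 20010 11 (.cons 14674 3 .nil))) W15c12 (Nat.add W15c13 (Nat.mul (Nat.pow 2 33396) (Nat.add W15c14 (Nat.mul (Nat.pow 2 33396) (Nat.add W15c15 (Nat.mul (Nat.pow 2 33396) (Nat.add W15c16 (Nat.mul (Nat.pow 2 33396) (Nat.add W15c17 (Nat.mul (Nat.pow 2 33396) (Nat.add W15c18 (Nat.mul (Nat.pow 2 33396) (Nat.add W15c19 (Nat.mul (Nat.pow 2 33396) (Nat.add W15c20 (Nat.mul (Nat.pow 2 33396) (Nat.add W15c21 (Nat.mul (Nat.pow 2 33396) (Nat.add W15c22 (Nat.mul (Nat.pow 2 33396) (Nat.add W15c23 (Nat.mul (Nat.pow 2 33396) (Nat.add W15c24 (Nat.mul (Nat.pow 2 33396) (Nat.add W15c25 (Nat.mul (Nat.pow 2 33396) (Nat.add W15c26 (Nat.mul (Nat.pow 2 33396) (Nat.add W15c27 (Nat.mul (Nat.pow 2 33396) (W15c28)))))))))))))))))))))))))))))))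
      (chkW_sound (by norm_num) (by norm_num) (by norm_num) c15_12) h13 (by norm_num) rfl rfl
  have h11 : Nat.add W15c11 (Nat.mul (Nat.pow 2 33396) (Nat.add W15c12 (Nat.mul (Nat.pow 2 33396) (Nat.add W15c13 (Nat.mul (Nat.pow 2 33396) (Nat.add W15c14 (Nat.mul (Nat.pow 2 33396) (Nat.add W15c15 (Nat.mul (Nat.pow 2 33396) (Nat.add W15c16 (Nat.mul (Nat.pow 2 33396) (Nat.add W15c17 (Nat.mul (Nat.pow 2 33396) (Nat.add W15c18 (Nat.mul (Nat.pow 2 33396) (Nat.add W15c19 (Nat.mul (Nat.pow 2 33396) (Nat.add W15c20 (Nat.mul (Nat.pow 2 33396) (Nat.add W15c21 (Nat.mul (Nat.pow 2 33396) (Nat.add W15c22 (Nat.mul (Nat.pow 2 33396) (Nat.add W15c23 (Nat.mul (Nat.pow 2 33396) (Nat.add W15c24 (Nat.mul (Nat.pow 2 33396) (Nat.add W15c25 (Nat.mul (Nat.pow 2 33396) (Nat.add W15c26 (Nat.mul (Nat.pow 2 33396) (Nat.add W15c27 (Nat.mul (Nat.pow 2 33396) (W15c28))))))))))))))))))))))))))))))))))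 = P (w8 22011 44023) (.cons 4554 18 (.cons 4785 23 (.cons 20010 11 (.cons 14674 3 .nil)))) 50094 :=
    @P_join2 (w8 22011 44023) 4554 1 17 18 50094 54648 33396 (.cons 4785 23 (.cons 20010 11 (.cons 14674 3 .nil))) W15c11 (Nat.add W15c12 (Nat.mul (Nat.pow 2 33396) (Nat.add W15c13 (Nat.mul (Nat.pow 2 33396) (Nat.add W15c14 (Nat.mul (Nat.pow 2 33396) (Nat.add W15c15 (Nat.mul (Nat.pow 2 33396) (Nat.add W15c16 (Nat.mul (Nat.pow 2 33396) (Nat.add W15c17 (Nat.mul (Nat.pow 2 33396) (Nat.add W15c18 (Nat.mul (Nat.pow 2 33396) (Nat.add W15c19 (Nat.mul (Nat.pow 2 33396) (Nat.add W15c20 (Nat.mul (Nat.pow 2 33396) (Nat.add W15c21 (Nat.mul (Nat.pow 2 33396) (Nat.add W15c22 (Nat.mul (Nat.pow 2 33396) (Nat.add W15c23 (Nat.mul (Nat.pow 2 33396) (Nat.add W15c24 (Nat.mul (Nat.pow 2 33396) (Nat.add W15c25 (Nat.mul (Nat.pow 2 33396) (Nat.add W15c26 (Nat.mul (Nat.pow 2 33396) (Nat.add W15c27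 (Nat.mul (Nat.pow 2 33396) (W15c28)))))))))))))))))))))))))))))))))
      (chkW_sound (by norm_num) (by norm_num) (by norm_num) c15_11) h12 (by norm_num) rfl rfl
  have h10 : Nat.add W15c10 (Nat.mul (Nat.pow 2 33396) (Nat.add W15c11 (Nat.mul (Nat.pow 2 33396) (Nat.add W15c12 (Nat.mul (Nat.pow 2 33396) (Nat.add W15c13 (Nat.mul (Nat.pow 2 33396) (Nat.add W15c14 (Nat.mul (Nat.pow 2 33396) (Nat.add W15c15 (Nat.mul (Nat.pow 2 33396) (Nat.add W15c16 (Nat.mul (Nat.pow 2 33396) (Nat.add W15c17 (Nat.mul (Nat.pow 2 33396) (Nat.add W15c18 (Nat.mul (Nat.pow 2 33396) (Nat.add W15c19 (Nat.mul (Nat.pow 2 33396) (Nat.add W15c20 (Nat.mul (Nat.pow 2 33396) (Nat.add W15c21 (Nat.mul (Nat.pow 2 33396) (Nat.add W15c22 (Nat.mul (Nat.pow 2 33396) (Nat.add W15c23 (Nat.mul (Nat.pow 2 33396) (Nat.add W15c24 (Nat.mul (Nat.pow 2 33396) (Nat.add W15c25 (Nat.mul (Nat.pow 2 33396) (Nat.add W15c26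 (Nat.mul (Nat.pow 2 33396) (Nat.add W15c27 (Nat.mul (Nat.pow 2 33396) (W15c28)))))))))))))))))))))))))))))))))))) = P (w8 22011 44023) (.cons 4554 19 (.cons 4785 23 (.cons 20010 11 (.cons 14674 3 .nil)))) 45540 :=
    @P_join2 (w8 22011 44023) 4554 1 18 19 45540 50094 33396 (.cons 4785 23 (.cons 20010 11 (.cons 14674 3 .nil))) W15c10 (Nat.add W15c11 (Nat.mul (Nat.pow 2 33396) (Nat.add W15c12 (Nat.mul (Nat.pow 2 33396) (Nat.add W15c13 (Nat.mul (Nat.pow 2 33396) (Nat.add W15c14 (Nat.mul (Nat.pow 2 33396) (Nat.add W15c15 (Nat.mul (Nat.pow 2 33396) (Nat.add W15c16 (Nat.mul (Nat.pow 2 33396) (Nat.add W15c17 (Nat.mul (Nat.pow 2 33396) (Nat.add W15c18 (Nat.mul (Nat.pow 2 33396) (Nat.add W15c19 (Nat.mul (Nat.pow 2 33396) (Nat.add W15c20 (Nat.mul (Nat.pow 2 33396) (Nat.add W15c21 (Nat.mul (Nat.pow 2 33396) (Nat.add W15c22 (Nat.mul (Nat.pow 2 33396) (Nat.add W15c23 (Nat.mul (Nat.pow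 2 33396) (Nat.add W15c24 (Nat.mul (Nat.pow 2 33396) (Nat.add W15c25 (Nat.mul (Nat.pow 2 33396) (Nat.add W15c26 (Nat.mul (Nat.pow 2 33396) (Nat.add W15c27 (Nat.mul (Nat.pow 2 33396) (W15c28)))))))))))))))))))))))))))))))))))
      (chkW_sound (by norm_num) (by norm_num) (by norm_num) c15_10) h11 (by norm_num) rfl rfl
  have h9 : Nat.add W15c9 (Nat.mul (Nat.pow 2 33396) (Nat.add W15c10 (Nat.mul (Nat.pow 2 33396) (Nat.add W15c11 (Nat.mul (Nat.pow 2 33396) (Nat.add W15c12 (Nat.mul (Nat.pow 2 33396) (Nat.add W15c13 (Nat.mul (Nat.pow 2 33396) (Nat.add W15c14 (Nat.mul (Nat.pow 2 33396) (Nat.add W15c15 (Nat.mul (Nat.pow 2 33396) (Nat.add W15c16 (Nat.mul (Nat.pow 2 33396) (Nat.add W15c17 (Nat.mul (Nat.pow 2 33396) (Nat.add W15c18 (Nat.mul (Nat.pow 2 33396) (Nat.add W15c19 (Nat.mul (Nat.pow 2 33396) (Nat.add W15c20 (Nat.mul (Nat.pow 2 33396) (Nat.add W15c21 (Nat.mul (Nat.pow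 2 33396) (Nat.add W15c22 (Nat.mul (Nat.pow 2 33396) (Nat.add W15c23 (Nat.mul (Nat.pow 2 33396) (Nat.add W15c24 (Nat.mul (Nat.pow 2 33396) (Nat.add W15c25 (Nat.mul (Nat.pow 2 33396) (Nat.add W15c26 (Nat.mul (Nat.pow 2 33396) (Nat.add W15c27 (Nat.mul (Nat.pow 2 33396) (W15c28)))))))))))))))))))))))))))))))))))))) = P (w8 22011 44023) (.cons 4554 20 (.cons 4785 23 (.cons 20010 11 (.cons 14674 3 .nil)))) 40986 :=
    @P_join2 (w8 22011 44023) 4554 1 19 20 40986 45540 33396 (.cons 4785 23 (.cons 20010 11 (.cons 14674 3 .nil))) W15c9 (Nat.add W15c10 (Nat.mul (Nat.pow 2 33396) (Nat.add W15c11 (Nat.mul (Nat.pow 2 33396) (Nat.add W15c12 (Nat.mul (Nat.pow 2 33396) (Nat.add W15c13 (Nat.mul (Nat.pow 2 33396) (Nat.add W15c14 (Nat.mul (Nat.pow 2 33396) (Nat.add W15c15 (Nat.mul (Nat.pow 2 33396) (Nat.add W15c16 (Nat.mul (Nat.pow 2 33396) (Nat.add W15c17 (Nat.mul (Nat.pow 2 33396)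 (Nat.add W15c18 (Nat.mul (Nat.pow 2 33396) (Nat.add W15c19 (Nat.mul (Nat.pow 2 33396) (Nat.add W15c20 (Nat.mul (Nat.pow 2 33396) (Nat.add W15c21 (Nat.mul (Nat.pow 2 33396) (Nat.add W15c22 (Nat.mul (Nat.pow 2 33396) (Nat.add W15c23 (Nat.mul (Nat.pow 2 33396) (Nat.add W15c24 (Nat.mul (Nat.pow 2 33396) (Nat.add W15c25 (Nat.mul (Nat.pow 2 33396) (Nat.add W15c26 (Nat.mul (Nat.pow 2 33396) (Nat.add W15c27 (Nat.mul (Nat.pow 2 33396) (W15c28)))))))))))))))))))))))))))))))))))))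
      (chkW_sound (by norm_num) (by norm_num) (by norm_num) c15_9) h10 (by norm_num) rfl rfl
  have h8 : Nat.add W15c8 (Nat.mul (Nat.pow 2 33396) (Nat.add W15c9 (Nat.mul (Nat.pow 2 33396) (Nat.add W15c10 (Nat.mul (Nat.pow 2 33396) (Nat.add W15c11 (Nat.mul (Nat.pow 2 33396) (Nat.add W15c12 (Nat.mul (Nat.pow 2 33396) (Nat.add W15c13 (Nat.mul (Nat.pow 2 33396) (Nat.add W15c14 (Nat.mul (Nat.pow 2 33396) (Nat.add W15c15 (Nat.mul (Nat.pow 2 33396) (Nat.add W15c16 (Nat.mul (Nat.pow 2 33396) (Nat.add W15c17 (Nat.mul (Nat.pow 2 33396) (Nat.add W15c18 (Nat.mul (Nat.pow 2 33396) (Nat.add W15c19 (Nat.mul (Nat.pow 2 33396) (Nat.add W15c20 (Nat.mul (Nat.pow 2 33396) (Nat.add W15c21 (Nat.mul (Nat.pow 2 33396) (Nat.add W15c22 (Nat.mul (Nat.pow 2 33396) (Nat.add W15c23 (Nat.mul (Nat.pow 2 33396) (Nat.add W15c24 (Nat.mul (Nat.pow 2 33396) (Nat.add W15c25 (Nat.mul (Nat.pow 2 33396) (Nat.add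 W15c26 (Nat.mul (Nat.pow 2 33396) (Nat.add W15c27 (Nat.mul (Nat.pow 2 33396) (W15c28)))))))))))))))))))))))))))))))))))))))) = P (w8 22011 44023) (.cons 4554 21 (.cons 4785 23 (.cons 20010 11 (.cons 14674 3 .nil)))) 36432 :=
    @P_join2 (w8 22011 44023) 4554 1 20 21 36432 40986 33396 (.cons 4785 23 (.cons 20010 11 (.cons 14674 3 .nil))) W15c8 (Nat.add W15c9 (Nat.mul (Nat.pow 2 33396) (Nat.add W15c10 (Nat.mul (Nat.pow 2 33396) (Nat.add W15c11 (Nat.mul (Nat.pow 2 33396) (Nat.add W15c12 (Nat.mul (Nat.pow 2 33396) (Nat.add W15c13 (Nat.mul (Nat.pow 2 33396) (Nat.add W15c14 (Nat.mul (Nat.pow 2 33396) (Nat.add W15c15 (Nat.mul (Nat.pow 2 33396) (Nat.add W15c16 (Nat.mul (Nat.pow 2 33396) (Nat.add W15c17 (Nat.mul (Nat.pow 2 33396) (Nat.add W15c18 (Nat.mul (Nat.pow 2 33396) (Nat.add W15c19 (Nat.mul (Nat.pow 2 33396) (Nat.add W15c20 (Nat.mul (Nat.pow 2 33396) (Nat.add W15c21 (Nat.mul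 (Nat.pow 2 33396) (Nat.add W15c22 (Nat.mul (Nat.pow 2 33396) (Nat.add W15c23 (Nat.mul (Nat.pow 2 33396) (Nat.add W15c24 (Nat.mul (Nat.pow 2 33396) (Nat.add W15c25 (Nat.mul (Nat.pow 2 33396) (Nat.add W15c26 (Nat.mul (Nat.pow 2 33396) (Nat.add W15c27 (Nat.mul (Nat.pow 2 33396) (W15c28)))))))))))))))))))))))))))))))))))))))
      (chkW_sound (by norm_num) (by norm_num) (by norm_num) c15_8) h9 (by norm_num) rfl rfl
  have h7 : Nat.add W15c7 (Nat.mul (Nat.pow 2 33396) (Nat.add W15c8 (Nat.mul (Nat.pow 2 33396) (Nat.add W15c9 (Nat.mul (Nat.pow 2 33396) (Nat.add W15c10 (Nat.mul (Nat.pow 2 33396) (Nat.add W15c11 (Nat.mul (Nat.pow 2 33396) (Nat.add W15c12 (Nat.mul (Nat.pow 2 33396) (Nat.add W15c13 (Nat.mul (Nat.pow 2 33396) (Nat.add W15c14 (Nat.mul (Nat.pow 2 33396) (Nat.add W15c15 (Nat.mul (Nat.pow 2 33396) (Nat.add W15c16 (Nat.mul (Nat.pow 2 33396) (Nat.add W15c17 (Nat.mul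 (Nat.pow 2 33396) (Nat.add W15c18 (Nat.mul (Nat.pow 2 33396) (Nat.add W15c19 (Nat.mul (Nat.pow 2 33396) (Nat.add W15c20 (Nat.mul (Nat.pow 2 33396) (Nat.add W15c21 (Nat.mul (Nat.pow 2 33396) (Nat.add W15c22 (Nat.mul (Nat.pow 2 33396) (Nat.add W15c23 (Nat.mul (Nat.pow 2 33396) (Nat.add W15c24 (Nat.mul (Nat.pow 2 33396) (Nat.add W15c25 (Nat.mul (Nat.pow 2 33396) (Nat.add W15c26 (Nat.mul (Nat.pow 2 33396) (Nat.add W15c27 (Nat.mul (Nat.pow 2 33396) (W15c28)))))))))))))))))))))))))))))))))))))))))) = P (w8 22011 44023) (.cons 4554 22 (.cons 4785 23 (.cons 20010 11 (.cons 14674 3 .nil)))) 31878 :=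
    @P_join2 (w8 22011 44023) 4554 1 21 22 31878 36432 33396 (.cons 4785 23 (.cons 20010 11 (.cons 14674 3 .nil))) W15c7 (Nat.add W15c8 (Nat.mul (Nat.pow 2 33396) (Nat.add W15c9 (Nat.mul (Nat.pow 2 33396) (Nat.add W15c10 (Nat.mul (Nat.pow 2 33396) (Nat.add W15c11 (Nat.mul (Nat.pow 2 33396) (Nat.add W15c12 (Nat.mul (Nat.pow 2 33396) (Nat.add W15c13 (Nat.mul (Nat.pow 2 33396) (Nat.add W15c14 (Nat.mul (Nat.pow 2 33396) (Nat.add W15c15 (Nat.mul (Nat.pow 2 33396) (Nat.add W15c16 (Nat.mul (Nat.pow 2 33396) (Nat.add W15c17 (Nat.mul (Nat.pow 2 33396) (Nat.add W15c18 (Nat.mul (Nat.pow 2 33396) (Nat.add W15c19 (Nat.mul (Nat.pow 2 33396) (Nat.add W15c20 (Nat.mul (Nat.pow 2 33396) (Nat.add W15c21 (Nat.mul (Nat.pow 2 33396) (Nat.add W15c22 (Nat.mul (Nat.pow 2 33396) (Nat.add W15c23 (Nat.mul (Nat.pow 2 33396) (Nat.add W15c24 (Nat.mul (Nat.pow 2 33396) (Nat.add W15c25 (Nat.mul (Nat.pow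 2 33396) (Nat.add W15c26 (Nat.mul (Nat.pow 2 33396) (Nat.add W15c27 (Nat.mul (Nat.pow 2 33396) (W15c28)))))))))))))))))))))))))))))))))))))))))
      (chkW_sound (by norm_num) (by norm_num) (by norm_num) c15_7) h8 (by norm_num) rfl rfl
  have h6 : Nat.add W15c6 (Nat.mul (Nat.pow 2 33396) (Nat.add W15c7 (Nat.mul (Nat.pow 2 33396) (Nat.add W15c8 (Nat.mul (Nat.pow 2 33396) (Nat.add W15c9 (Nat.mul (Nat.pow 2 33396) (Nat.add W15c10 (Nat.mul (Nat.pow 2 33396) (Nat.add W15c11 (Nat.mul (Nat.pow 2 33396) (Nat.add W15c12 (Nat.mul (Nat.pow 2 33396) (Nat.add W15c13 (Nat.mul (Nat.pow 2 33396) (Nat.add W15c14 (Nat.mul (Nat.pow 2 33396) (Nat.add W15c15 (Nat.mul (Nat.pow 2 33396) (Nat.add W15c16 (Nat.mul (Nat.pow 2 33396) (Nat.add W15c17 (Nat.mul (Nat.pow 2 33396) (Nat.add W15c18 (Nat.mul (Nat.pow 2 33396) (Nat.add W15c19 (Nat.mul (Nat.pow 2 33396) (Nat.add W15c20 (Nat.mul (Nat.pow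 2 33396) (Nat.add W15c21 (Nat.mul (Nat.pow 2 33396) (Nat.add W15c22 (Nat.mul (Nat.pow 2 33396) (Nat.add W15c23 (Nat.mul (Nat.pow 2 33396) (Nat.add W15c24 (Nat.mul (Nat.pow 2 33396) (Nat.add W15c25 (Nat.mul (Nat.pow 2 33396) (Nat.add W15c26 (Nat.mul (Nat.pow 2 33396) (Nat.add W15c27 (Nat.mul (Nat.pow 2 33396) (W15c28)))))))))))))))))))))))))))))))))))))))))))) = P (w8 22011 44023) (.cons 4554 23 (.cons 4785 23 (.cons 20010 11 (.cons 14674 3 .nil)))) 27324 :=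
    @P_join2 (w8 22011 44023) 4554 1 22 23 27324 31878 33396 (.cons 4785 23 (.cons 20010 11 (.cons 14674 3 .nil))) W15c6 (Nat.add W15c7 (Nat.mul (Nat.pow 2 33396) (Nat.add W15c8 (Nat.mul (Nat.pow 2 33396) (Nat.add W15c9 (Nat.mul (Nat.pow 2 33396) (Nat.add W15c10 (Nat.mul (Nat.pow 2 33396) (Nat.add W15c11 (Nat.mul (Nat.pow 2 33396) (Nat.add W15c12 (Nat.mul (Nat.pow 2 33396) (Nat.add W15c13 (Nat.mul (Nat.pow 2 33396) (Nat.add W15c14 (Nat.mul (Nat.pow 2 33396) (Nat.add W15c15 (Nat.mul (Nat.pow 2 33396) (Nat.add W15c16 (Nat.mul (Nat.pow 2 33396) (Nat.add W15c17 (Nat.mul (Nat.pow 2 33396) (Nat.add W15c18 (Nat.mul (Nat.pow 2 33396) (Nat.add W15c19 (Nat.mul (Nat.pow 2 33396) (Nat.add W15c20 (Nat.mul (Nat.pow 2 33396) (Nat.add W15c21 (Nat.mul (Nat.pow 2 33396) (Nat.add W15c22 (Nat.mul (Nat.pow 2 33396) (Nat.add W15c23 (Nat.mul (Nat.pow 2 33396) (Nat.add W15c24 (Nat.mul (Nat.pow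 2 33396) (Nat.add W15c25 (Nat.mul (Nat.pow 2 33396) (Nat.add W15c26 (Nat.mul (Nat.pow 2 33396) (Nat.add W15c27 (Nat.mul (Nat.pow 2 33396) (W15c28)))))))))))))))))))))))))))))))))))))))))))
      (chkW_sound (by norm_num) (by norm_num) (by norm_num) c15_6) h7 (by norm_num) rfl rfl
  have h5 : Nat.add W15c5 (Nat.mul (Nat.pow 2 33396) (Nat.add W15c6 (Nat.mul (Nat.pow 2 33396) (Nat.add W15c7 (Nat.mul (Nat.pow 2 33396) (Nat.add W15c8 (Nat.mul (Nat.pow 2 33396) (Nat.add W15c9 (Nat.mul (Nat.pow 2 33396) (Nat.add W15c10 (Nat.mul (Nat.pow 2 33396) (Nat.add W15c11 (Nat.mul (Nat.pow 2 33396) (Nat.add W15c12 (Nat.mul (Nat.pow 2 33396) (Nat.add W15c13 (Nat.mul (Nat.pow 2 33396) (Nat.add W15c14 (Nat.mul (Nat.pow 2 33396) (Nat.add W15c15 (Nat.mul (Nat.pow 2 33396) (Nat.add W15c16 (Nat.mul (Nat.pow 2 33396) (Nat.add W15c17 (Nat.mul (Nat.pow 2 33396) (Nat.add W15c18 (Nat.mul (Nat.pow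 2 33396) (Nat.add W15c19 (Nat.mul (Nat.pow 2 33396) (Nat.add W15c20 (Nat.mul (Nat.pow 2 33396) (Nat.add W15c21 (Nat.mul (Nat.pow 2 33396) (Nat.add W15c22 (Nat.mul (Nat.pow 2 33396) (Nat.add W15c23 (Nat.mul (Nat.pow 2 33396) (Nat.add W15c24 (Nat.mul (Nat.pow 2 33396) (Nat.add W15c25 (Nat.mul (Nat.pow 2 33396) (Nat.add W15c26 (Nat.mul (Nat.pow 2 33396) (Nat.add W15c27 (Nat.mul (Nat.pow 2 33396) (W15c28)))))))))))))))))))))))))))))))))))))))))))))) = P (w8 22011 44023) (.cons 4554 24 (.cons 4785 23 (.cons 20010 11 (.cons 14674 3 .nil)))) 22770 :=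
    @P_join2 (w8 22011 44023) 4554 1 23 24 22770 27324 33396 (.cons 4785 23 (.cons 20010 11 (.cons 14674 3 .nil))) W15c5 (Nat.add W15c6 (Nat.mul (Nat.pow 2 33396) (Nat.add W15c7 (Nat.mul (Nat.pow 2 33396) (Nat.add W15c8 (Nat.mul (Nat.pow 2 33396) (Nat.add W15c9 (Nat.mul (Nat.pow 2 33396) (Nat.add W15c10 (Nat.mul (Nat.pow 2 33396) (Nat.add W15c11 (Nat.mul (Nat.pow 2 33396) (Nat.add W15c12 (Nat.mul (Nat.pow 2 33396) (Nat.add W15c13 (Nat.mul (Nat.pow 2 33396) (Nat.add W15c14 (Nat.mul (Nat.pow 2 33396) (Nat.add W15c15 (Nat.mul (Nat.pow 2 33396) (Nat.add W15c16 (Nat.mul (Nat.pow 2 33396) (Nat.add W15c17 (Nat.mul (Nat.pow 2 33396) (Nat.add W15c18 (Nat.mul (Nat.pow 2 33396) (Nat.add W15c19 (Nat.mul (Nat.pow 2 33396) (Nat.add W15c20 (Nat.mul (Nat.pow 2 33396) (Nat.add W15c21 (Nat.mul (Nat.pow 2 33396) (Nat.add W15c22 (Nat.mul (Nat.pow 2 33396) (Nat.add W15c23 (Nat.mul (Nat.pow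 2 33396) (Nat.add W15c24 (Nat.mul (Nat.pow 2 33396) (Nat.add W15c25 (Nat.mul (Nat.pow 2 33396) (Nat.add W15c26 (Nat.mul (Nat.pow 2 33396) (Nat.add W15c27 (Nat.mul (Nat.pow 2 33396) (W15c28)))))))))))))))))))))))))))))))))))))))))))))
      (chkW_sound (by norm_num) (by norm_num) (by norm_num) c15_5) h6 (by norm_num) rfl rfl
  have h4 : Nat.add W15c4 (Nat.mul (Nat.pow 2 33396) (Nat.add W15c5 (Nat.mul (Nat.pow 2 33396) (Nat.add W15c6 (Nat.mul (Nat.pow 2 33396) (Nat.add W15c7 (Nat.mul (Nat.pow 2 33396) (Nat.add W15c8 (Nat.mul (Nat.pow 2 33396) (Nat.add W15c9 (Nat.mul (Nat.pow 2 33396) (Nat.add W15c10 (Nat.mul (Nat.pow 2 33396) (Nat.add W15c11 (Nat.mul (Nat.pow 2 33396) (Nat.add W15c12 (Nat.mul (Nat.pow 2 33396) (Nat.add W15c13 (Nat.mul (Nat.pow 2 33396) (Nat.add W15c14 (Nat.mul (Nat.pow 2 33396) (Nat.add W15c15 (Nat.mul (Nat.pow 2 33396) (Nat.add W15c16 (Nat.mul (Nat.pow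 2 33396) (Nat.add W15c17 (Nat.mul (Nat.pow 2 33396) (Nat.add W15c18 (Nat.mul (Nat.pow 2 33396) (Nat.add W15c19 (Nat.mul (Nat.pow 2 33396) (Nat.add W15c20 (Nat.mul (Nat.pow 2 33396) (Nat.add W15c21 (Nat.mul (Nat.pow 2 33396) (Nat.add W15c22 (Nat.mul (Nat.pow 2 33396) (Nat.add W15c23 (Nat.mul (Nat.pow 2 33396) (Nat.add W15c24 (Nat.mul (Nat.pow 2 33396) (Nat.add W15c25 (Nat.mul (Nat.pow 2 33396) (Nat.add W15c26 (Nat.mul (Nat.pow 2 33396) (Nat.add W15c27 (Nat.mul (Nat.pow 2 33396) (W15c28)))))))))))))))))))))))))))))))))))))))))))))))) = P (w8 22011 44023) (.cons 4554 25 (.cons 4785 23 (.cons 20010 11 (.cons 14674 3 .nil)))) 18216 :=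
    @P_join2 (w8 22011 44023) 4554 1 24 25 18216 22770 33396 (.cons 4785 23 (.cons 20010 11 (.cons 14674 3 .nil))) W15c4 (Nat.add W15c5 (Nat.mul (Nat.pow 2 33396) (Nat.add W15c6 (Nat.mul (Nat.pow 2 33396) (Nat.add W15c7 (Nat.mul (Nat.pow 2 33396) (Nat.add W15c8 (Nat.mul (Nat.pow 2 33396) (Nat.add W15c9 (Nat.mul (Nat.pow 2 33396) (Nat.add W15c10 (Nat.mul (Nat.pow 2 33396) (Nat.add W15c11 (Nat.mul (Nat.pow 2 33396) (Nat.add W15c12 (Nat.mul (Nat.pow 2 33396) (Nat.add W15c13 (Nat.mul (Nat.pow 2 33396) (Nat.add W15c14 (Nat.mul (Nat.pow 2 33396) (Nat.add W15c15 (Nat.mul (Nat.pow 2 33396) (Nat.add W15c16 (Nat.mul (Nat.pow 2 33396) (Nat.add W15c17 (Nat.mul (Nat.pow 2 33396) (Nat.add W15c18 (Nat.mul (Nat.pow 2 33396) (Nat.add W15c19 (Nat.mul (Nat.pow 2 33396) (Nat.add W15c20 (Nat.mul (Nat.pow 2 33396) (Nat.add W15c21 (Nat.mul (Nat.pow 2 33396) (Nat.add W15c22 (Nat.mul (Nat.pow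 2 33396) (Nat.add W15c23 (Nat.mul (Nat.pow 2 33396) (Nat.add W15c24 (Nat.mul (Nat.pow 2 33396) (Nat.add W15c25 (Nat.mul (Nat.pow 2 33396) (Nat.add W15c26 (Nat.mul (Nat.pow 2 33396) (Nat.add W15c27 (Nat.mul (Nat.pow 2 33396) (W15c28)))))))))))))))))))))))))))))))))))))))))))))))
      (chkW_sound (by norm_num) (by norm_num) (by norm_num) c15_4) h5 (by norm_num) rfl rfl
  have h3 : Nat.add W15c3 (Nat.mul (Nat.pow 2 33396) (Nat.add W15c4 (Nat.mul (Nat.pow 2 33396) (Nat.add W15c5 (Nat.mul (Nat.pow 2 33396) (Nat.add W15c6 (Nat.mul (Nat.pow 2 33396) (Nat.add W15c7 (Nat.mul (Nat.pow 2 33396) (Nat.add W15c8 (Nat.mul (Nat.pow 2 33396) (Nat.add W15c9 (Nat.mul (Nat.pow 2 33396) (Nat.add W15c10 (Nat.mul (Nat.pow 2 33396) (Nat.add W15c11 (Nat.mul (Nat.pow 2 33396) (Nat.add W15c12 (Nat.mul (Nat.pow 2 33396) (Nat.add W15c13 (Nat.mul (Nat.pow 2 33396) (Nat.add W15c14 (Nat.mul (Nat.pow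 2 33396) (Nat.add W15c15 (Nat.mul (Nat.pow 2 33396) (Nat.add W15c16 (Nat.mul (Nat.pow 2 33396) (Nat.add W15c17 (Nat.mul (Nat.pow 2 33396) (Nat.add W15c18 (Nat.mul (Nat.pow 2 33396) (Nat.add W15c19 (Nat.mul (Nat.pow 2 33396) (Nat.add W15c20 (Nat.mul (Nat.pow 2 33396) (Nat.add W15c21 (Nat.mul (Nat.pow 2 33396) (Nat.add W15c22 (Nat.mul (Nat.pow 2 33396) (Nat.add W15c23 (Nat.mul (Nat.pow 2 33396) (Nat.add W15c24 (Nat.mul (Nat.pow 2 33396) (Nat.add W15c25 (Nat.mul (Nat.pow 2 33396) (Nat.add W15c26 (Nat.mul (Nat.pow 2 33396) (Nat.add W15c27 (Nat.mul (Nat.pow 2 33396) (W15c28)))))))))))))))))))))))))))))))))))))))))))))))))) = P (w8 22011 44023) (.cons 4554 26 (.cons 4785 23 (.cons 20010 11 (.cons 14674 3 .nil)))) 13662 :=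
    @P_join2 (w8 22011 44023) 4554 1 25 26 13662 18216 33396 (.cons 4785 23 (.cons 20010 11 (.cons 14674 3 .nil))) W15c3 (Nat.add W15c4 (Nat.mul (Nat.pow 2 33396) (Nat.add W15c5 (Nat.mul (Nat.pow 2 33396) (Nat.add W15c6 (Nat.mul (Nat.pow 2 33396) (Nat.add W15c7 (Nat.mul (Nat.pow 2 33396) (Nat.add W15c8 (Nat.mul (Nat.pow 2 33396) (Nat.add W15c9 (Nat.mul (Nat.pow 2 33396) (Nat.add W15c10 (Nat.mul (Nat.pow 2 33396) (Nat.add W15c11 (Nat.mul (Nat.pow 2 33396) (Nat.add W15c12 (Nat.mul (Nat.pow 2 33396) (Nat.add W15c13 (Nat.mul (Nat.pow 2 33396) (Nat.add W15c14 (Nat.mul (Nat.pow 2 33396) (Nat.add W15c15 (Nat.mul (Nat.pow 2 33396) (Nat.add W15c16 (Nat.mul (Nat.pow 2 33396) (Nat.add W15c17 (Nat.mul (Nat.pow 2 33396) (Nat.add W15c18 (Nat.mul (Nat.pow 2 33396) (Nat.add W15c19 (Nat.mul (Nat.pow 2 33396) (Nat.add W15c20 (Nat.mul (Nat.pow 2 33396) (Nat.add W15c21 (Nat.mul (Nat.pow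 2 33396) (Nat.add W15c22 (Nat.mul (Nat.pow 2 33396) (Nat.add W15c23 (Nat.mul (Nat.pow 2 33396) (Nat.add W15c24 (Nat.mul (Nat.pow 2 33396) (Nat.add W15c25 (Nat.mul (Nat.pow 2 33396) (Nat.add W15c26 (Nat.mul (Nat.pow 2 33396) (Nat.add W15c27 (Nat.mul (Nat.pow 2 33396) (W15c28)))))))))))))))))))))))))))))))))))))))))))))))))
      (chkW_sound (by norm_num) (by norm_num) (by norm_num) c15_3) h4 (by norm_num) rfl rfl
  have h2 : Nat.add W15c2 (Nat.mul (Nat.pow 2 33396) (Nat.add W15c3 (Nat.mul (Nat.pow 2 33396) (Nat.add W15c4 (Nat.mul (Nat.pow 2 33396) (Nat.add W15c5 (Nat.mul (Nat.pow 2 33396) (Nat.add W15c6 (Nat.mul (Nat.pow 2 33396) (Nat.add W15c7 (Nat.mul (Nat.pow 2 33396) (Nat.add W15c8 (Nat.mul (Nat.pow 2 33396) (Nat.add W15c9 (Nat.mul (Nat.pow 2 33396) (Nat.add W15c10 (Nat.mul (Nat.pow 2 33396) (Nat.add W15c11 (Nat.mul (Nat.pow 2 33396) (Nat.add W15c12 (Nat.mul (Nat.pow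 2 33396) (Nat.add W15c13 (Nat.mul (Nat.pow 2 33396) (Nat.add W15c14 (Nat.mul (Nat.pow 2 33396) (Nat.add W15c15 (Nat.mul (Nat.pow 2 33396) (Nat.add W15c16 (Nat.mul (Nat.pow 2 33396) (Nat.add W15c17 (Nat.mul (Nat.pow 2 33396) (Nat.add W15c18 (Nat.mul (Nat.pow 2 33396) (Nat.add W15c19 (Nat.mul (Nat.pow 2 33396) (Nat.add W15c20 (Nat.mul (Nat.pow 2 33396) (Nat.add W15c21 (Nat.mul (Nat.pow 2 33396) (Nat.add W15c22 (Nat.mul (Nat.pow 2 33396) (Nat.add W15c23 (Nat.mul (Nat.pow 2 33396) (Nat.add W15c24 (Nat.mul (Nat.pow 2 33396) (Nat.add W15c25 (Nat.mul (Nat.pow 2 33396) (Nat.add W15c26 (Nat.mul (Nat.pow 2 33396) (Nat.add W15c27 (Nat.mul (Nat.pow 2 33396) (W15c28)))))))))))))))))))))))))))))))))))))))))))))))))))) = P (w8 22011 44023) (.cons 4554 27 (.cons 4785 23 (.cons 20010 11 (.cons 14674 3 .nil)))) 9108 :=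
    @P_join2 (w8 22011 44023) 4554 1 26 27 9108 13662 33396 (.cons 4785 23 (.cons 20010 11 (.cons 14674 3 .nil))) W15c2 (Nat.add W15c3 (Nat.mul (Nat.pow 2 33396) (Nat.add W15c4 (Nat.mul (Nat.pow 2 33396) (Nat.add W15c5 (Nat.mul (Nat.pow 2 33396) (Nat.add W15c6 (Nat.mul (Nat.pow 2 33396) (Nat.add W15c7 (Nat.mul (Nat.pow 2 33396) (Nat.add W15c8 (Nat.mul (Nat.pow 2 33396) (Nat.add W15c9 (Nat.mul (Nat.pow 2 33396) (Nat.add W15c10 (Nat.mul (Nat.pow 2 33396) (Nat.add W15c11 (Nat.mul (Nat.pow 2 33396) (Nat.add W15c12 (Nat.mul (Nat.pow 2 33396) (Nat.add W15c13 (Nat.mul (Nat.pow 2 33396) (Nat.add W15c14 (Nat.mul (Nat.pow 2 33396) (Nat.add W15c15 (Nat.mul (Nat.pow 2 33396) (Nat.add W15c16 (Nat.mul (Nat.pow 2 33396) (Nat.add W15c17 (Nat.mul (Nat.pow 2 33396) (Nat.add W15c18 (Nat.mul (Nat.pow 2 33396) (Nat.add W15c19 (Nat.mul (Nat.pow 2 33396) (Nat.add W15c20 (Nat.mul (Nat.pow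 2 33396) (Nat.add W15c21 (Nat.mul (Nat.pow 2 33396) (Nat.add W15c22 (Nat.mul (Nat.pow 2 33396) (Nat.add W15c23 (Nat.mul (Nat.pow 2 33396) (Nat.add W15c24 (Nat.mul (Nat.pow 2 33396) (Nat.add W15c25 (Nat.mul (Nat.pow 2 33396) (Nat.add W15c26 (Nat.mul (Nat.pow 2 33396) (Nat.add W15c27 (Nat.mul (Nat.pow 2 33396) (W15c28)))))))))))))))))))))))))))))))))))))))))))))))))))
      (chkW_sound (by norm_num) (by norm_num) (by norm_num) c15_2) h3 (by norm_num) rfl rfl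
  have h1 : Nat.add W15c1 (Nat.mul (Nat.pow 2 33396) (Nat.add W15c2 (Nat.mul (Nat.pow 2 33396) (Nat.add W15c3 (Nat.mul (Nat.pow 2 33396) (Nat.add W15c4 (Nat.mul (Nat.pow 2 33396) (Nat.add W15c5 (Nat.mul (Nat.pow 2 33396) (Nat.add W15c6 (Nat.mul (Nat.pow 2 33396) (Nat.add W15c7 (Nat.mul (Nat.pow 2 33396) (Nat.add W15c8 (Nat.mul (Nat.pow 2 33396) (Nat.add W15c9 (Nat.mul (Nat.pow 2 33396) (Nat.add W15c10 (Nat.mul (Nat.pow 2 33396) (Nat.add W15c11 (Nat.mul (Nat.pow 2 33396) (Nat.add W15c12 (Nat.mul (Nat.pow 2 33396) (Nat.add W15c13 (Nat.mul (Nat.pow 2 33396) (Nat.add W15c14 (Nat.mul (Nat.pow 2 33396) (Nat.add W15c15 (Nat.mul (Nat.pow 2 33396) (Nat.add W15c16 (Nat.mul (Nat.pow 2 33396) (Nat.add W15c17 (Nat.mul (Nat.pow 2 33396) (Nat.add W15c18 (Nat.mul (Nat.pow 2 33396) (Nat.add W15c19 (Nat.mul (Nat.pow 2 33396) (Nat.add W15c20 (Nat.mul (Nat.pow 2 33396) (Nat.add W15c21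 (Nat.mul (Nat.pow 2 33396) (Nat.add W15c22 (Nat.mul (Nat.pow 2 33396) (Nat.add W15c23 (Nat.mul (Nat.pow 2 33396) (Nat.add W15c24 (Nat.mul (Nat.pow 2 33396) (Nat.add W15c25 (Nat.mul (Nat.pow 2 33396) (Nat.add W15c26 (Nat.mul (Nat.pow 2 33396) (Nat.add W15c27 (Nat.mul (Nat.pow 2 33396) (W15c28)))))))))))))))))))))))))))))))))))))))))))))))))))))) = P (w8 22011 44023) (.cons 4554 28 (.cons 4785 23 (.cons 20010 11 (.cons 14674 3 .nil)))) 4554 :=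
    @P_join2 (w8 22011 44023) 4554 1 27 28 4554 9108 33396 (.cons 4785 23 (.cons 20010 11 (.cons 14674 3 .nil))) W15c1 (Nat.add W15c2 (Nat.mul (Nat.pow 2 33396) (Nat.add W15c3 (Nat.mul (Nat.pow 2 33396) (Nat.add W15c4 (Nat.mul (Nat.pow 2 33396) (Nat.add W15c5 (Nat.mul (Nat.pow 2 33396) (Nat.add W15c6 (Nat.mul (Nat.pow 2 33396) (Nat.add W15c7 (Nat.mul (Nat.pow 2 33396) (Nat.add W15c8 (Nat.mul (Nat.pow 2 33396) (Nat.add W15c9 (Nat.mul (Nat.pow 2 33396) (Nat.add W15c10 (Nat.mul (Nat.pow 2 33396) (Nat.add W15c11 (Nat.mul (Nat.pow 2 33396) (Nat.add W15c12 (Nat.mul (Nat.pow 2 33396) (Nat.add W15c13 (Nat.mul (Nat.pow 2 33396) (Nat.add W15c14 (Nat.mul (Nat.pow 2 33396) (Nat.add W15c15 (Nat.mul (Nat.pow 2 33396) (Nat.add W15c16 (Nat.mul (Nat.pow 2 33396) (Nat.add W15c17 (Nat.mul (Nat.pow 2 33396) (Nat.add W15c18 (Nat.mul (Nat.pow 2 33396) (Nat.add W15c19 (Nat.mul (Nat.pow 2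 33396) (Nat.add W15c20 (Nat.mul (Nat.pow 2 33396) (Nat.add W15c21 (Nat.mul (Nat.pow 2 33396) (Nat.add W15c22 (Nat.mul (Nat.pow 2 33396) (Nat.add W15c23 (Nat.mul (Nat.pow 2 33396) (Nat.add W15c24 (Nat.mul (Nat.pow 2 33396) (Nat.add W15c25 (Nat.mul (Nat.pow 2 33396) (Nat.add W15c26 (Nat.mul (Nat.pow 2 33396) (Nat.add W15c27 (Nat.mul (Nat.pow 2 33396) (W15c28)))))))))))))))))))))))))))))))))))))))))))))))))))))
      (chkW_sound (by norm_num) (by norm_num) (by norm_num) c15_1) h2 (by norm_num) rfl rfl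
  have h0 : Nat.add W15c0 (Nat.mul (Nat.pow 2 33396) (Nat.add W15c1 (Nat.mul (Nat.pow 2 33396) (Nat.add W15c2 (Nat.mul (Nat.pow 2 33396) (Nat.add W15c3 (Nat.mul (Nat.pow 2 33396) (Nat.add W15c4 (Nat.mul (Nat.pow 2 33396) (Nat.add W15c5 (Nat.mul (Nat.pow 2 33396) (Nat.add W15c6 (Nat.mul (Nat.pow 2 33396) (Nat.add W15c7 (Nat.mul (Nat.pow 2 33396) (Nat.add W15c8 (Nat.mul (Nat.pow 2 33396) (Nat.add W15c9 (Nat.mul (Nat.pow 2 33396) (Nat.add W15c10 (Nat.mul (Nat.pow 2 33396) (Nat.add W15c11 (Nat.mul (Nat.pow 2 33396) (Nat.add W15c12 (Nat.mul (Nat.pow 2 33396) (Nat.add W15c13 (Nat.mul (Nat.pow 2 33396) (Nat.add W15c14 (Nat.mul (Nat.pow 2 33396) (Nat.add W15c15 (Nat.mul (Nat.pow 2 33396) (Nat.add W15c16 (Nat.mul (Nat.pow 2 33396) (Nat.add W15c17 (Nat.mul (Nat.pow 2 33396) (Nat.add W15c18 (Nat.mul (Nat.pow 2 33396) (Nat.add W15c19 (Nat.mul (Nat.pow 2 33396) (Nat.add W15c20 (Nat.mul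 (Nat.pow 2 33396) (Nat.add W15c21 (Nat.mul (Nat.pow 2 33396) (Nat.add W15c22 (Nat.mul (Nat.pow 2 33396) (Nat.add W15c23 (Nat.mul (Nat.pow 2 33396) (Nat.add W15c24 (Nat.mul (Nat.pow 2 33396) (Nat.add W15c25 (Nat.mul (Nat.pow 2 33396) (Nat.add W15c26 (Nat.mul (Nat.pow 2 33396) (Nat.add W15c27 (Nat.mul (Nat.pow 2 33396) (W15c28)))))))))))))))))))))))))))))))))))))))))))))))))))))))) = P (w8 22011 44023) (.cons 4554 29 (.cons 4785 23 (.cons 20010 11 (.cons 14674 3 .nil)))) 0 :=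
    @P_join2 (w8 22011 44023) 4554 1 28 29 0 4554 33396 (.cons 4785 23 (.cons 20010 11 (.cons 14674 3 .nil))) W15c0 (Nat.add W15c1 (Nat.mul (Nat.pow 2 33396) (Nat.add W15c2 (Nat.mul (Nat.pow 2 33396) (Nat.add W15c3 (Nat.mul (Nat.pow 2 33396) (Nat.add W15c4 (Nat.mul (Nat.pow 2 33396) (Nat.add W15c5 (Nat.mul (Nat.pow 2 33396) (Nat.add W15c6 (Nat.mul (Nat.pow 2 33396) (Nat.add W15c7 (Nat.mul (Nat.pow 2 33396) (Nat.add W15c8 (Nat.mul (Nat.pow 2 33396) (Nat.add W15c9 (Nat.mul (Nat.pow 2 33396) (Nat.add W15c10 (Nat.mul (Nat.pow 2 33396) (Nat.add W15c11 (Nat.mul (Nat.pow 2 33396) (Nat.add W15c12 (Nat.mul (Nat.pow 2 33396) (Nat.add W15c13 (Nat.mul (Nat.pow 2 33396) (Nat.add W15c14 (Nat.mul (Nat.pow 2 33396) (Nat.add W15c15 (Nat.mul (Nat.pow 2 33396) (Nat.add W15c16 (Nat.mul (Nat.pow 2 33396) (Nat.add W15c17 (Nat.mul (Nat.pow 2 33396) (Nat.add W15c18 (Nat.mul (Nat.pow 2 33396)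 (Nat.add W15c19 (Nat.mul (Nat.pow 2 33396) (Nat.add W15c20 (Nat.mul (Nat.pow 2 33396) (Nat.add W15c21 (Nat.mul (Nat.pow 2 33396) (Nat.add W15c22 (Nat.mul (Nat.pow 2 33396) (Nat.add W15c23 (Nat.mul (Nat.pow 2 33396) (Nat.add W15c24 (Nat.mul (Nat.pow 2 33396) (Nat.add W15c25 (Nat.mul (Nat.pow 2 33396) (Nat.add W15c26 (Nat.mul (Nat.pow 2 33396) (Nat.add W15c27 (Nat.mul (Nat.pow 2 33396) (W15c28)))))))))))))))))))))))))))))))))))))))))))))))))))))))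
      (chkW_sound (by norm_num) (by norm_num) (by norm_num) c15_0) h1 (by norm_num) rfl rfl
  exact h0
theorem u14 : W14 = P (w8 22011 29349) (.cons 4554 29 (.cons 4785 23 (.cons 20010 11 .nil))) 14674 :=
  by
  unfold W14
  have h14 := chkW_sound (by norm_num) (by norm_num) (by norm_num) c14_14
  have h13 : Nat.add W14c13 (Nat.mul (Nat.pow 2 22264) (W14c14)) = P (w8 22011 29349) (.cons 4554 3 (.cons 4785 23 (.cons 20010 11 .nil))) 133078 :=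
    @P_join2 (w8 22011 29349) 4554 2 1 3 133078 142186 22264 (.cons 4785 23 (.cons 20010 11 .nil)) W14c13 (W14c14)
      (chkW_sound (by norm_num) (by norm_num) (by norm_num) c14_13) h14 (by norm_num) rfl rfl
  have h12 : Nat.add W14c12 (Nat.mul (Nat.pow 2 22264) (Nat.add W14c13 (Nat.mul (Nat.pow 2 22264) (W14c14)))) = P (w8 22011 29349) (.cons 4554 5 (.cons 4785 23 (.cons 20010 11 .nil))) 123970 :=
    @P_join2 (w8 22011 29349) 4554 2 3 5 123970 133078 22264 (.cons 4785 23 (.cons 20010 11 .nil)) W14c12 (Nat.add W14c13 (Nat.mul (Nat.pow 2 22264) (W14c14)))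
      (chkW_sound (by norm_num) (by norm_num) (by norm_num) c14_12) h13 (by norm_num) rfl rfl
  have h11 : Nat.add W14c11 (Nat.mul (Nat.pow 2 22264) (Nat.add W14c12 (Nat.mul (Nat.pow 2 22264) (Nat.add W14c13 (Nat.mul (Nat.pow 2 22264) (W14c14)))))) = P (w8 22011 29349) (.cons 4554 7 (.cons 4785 23 (.cons 20010 11 .nil))) 114862 :=
    @P_join2 (w8 22011 29349) 4554 2 5 7 114862 123970 22264 (.cons 4785 23 (.cons 20010 11 .nil)) W14c11 (Nat.add W14c12 (Nat.mul (Nat.pow 2 22264) (Nat.add W14c13 (Nat.mul (Nat.pow 2 22264) (W14c14)))))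
      (chkW_sound (by norm_num) (by norm_num) (by norm_num) c14_11) h12 (by norm_num) rfl rfl
  have h10 : Nat.add W14c10 (Nat.mul (Nat.pow 2 22264) (Nat.add W14c11 (Nat.mul (Nat.pow 2 22264) (Nat.add W14c12 (Nat.mul (Nat.pow 2 22264) (Nat.add W14c13 (Nat.mul (Nat.pow 2 22264) (W14c14)))))))) = P (w8 22011 29349) (.cons 4554 9 (.cons 4785 23 (.cons 20010 11 .nil))) 105754 :=
    @P_join2 (w8 22011 29349) 4554 2 7 9 105754 114862 22264 (.cons 4785 23 (.cons 20010 11 .nil)) W14c10 (Nat.add W14c11 (Nat.mul (Nat.pow 2 22264) (Nat.add W14c12 (Nat.mul (Nat.pow 2 22264) (Nat.add W14c13 (Nat.mul (Nat.pow 2 22264) (W14c14)))))))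
      (chkW_sound (by norm_num) (by norm_num) (by norm_num) c14_10) h11 (by norm_num) rfl rfl
  have h9 : Nat.add W14c9 (Nat.mul (Nat.pow 2 22264) (Nat.add W14c10 (Nat.mul (Nat.pow 2 22264) (Nat.add W14c11 (Nat.mul (Nat.pow 2 22264) (Nat.add W14c12 (Nat.mul (Nat.pow 2 22264) (Nat.add W14c13 (Nat.mul (Nat.pow 2 22264) (W14c14)))))))))) = P (w8 22011 29349) (.cons 4554 11 (.cons 4785 23 (.cons 20010 11 .nil))) 96646 :=
    @P_join2 (w8 22011 29349) 4554 2 9 11 96646 105754 22264 (.cons 4785 23 (.cons 20010 11 .nil)) W14c9 (Nat.add W14c10 (Nat.mul (Nat.pow 2 22264) (Nat.add W14c11 (Nat.mul (Nat.pow 2 22264) (Nat.add W14c12 (Nat.mul (Nat.pow 2 22264) (Nat.add W14c13 (Nat.mul (Nat.pow 2 22264) (W14c14)))))))))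
      (chkW_sound (by norm_num) (by norm_num) (by norm_num) c14_9) h10 (by norm_num) rfl rfl
  have h8 : Nat.add W14c8 (Nat.mul (Nat.pow 2 22264) (Nat.add W14c9 (Nat.mul (Nat.pow 2 22264) (Nat.add W14c10 (Nat.mul (Nat.pow 2 22264) (Nat.add W14c11 (Nat.mul (Nat.pow 2 22264) (Nat.add W14c12 (Nat.mul (Nat.pow 2 22264) (Nat.add W14c13 (Nat.mul (Nat.pow 2 22264) (W14c14)))))))))))) = P (w8 22011 29349) (.cons 4554 13 (.cons 4785 23 (.cons 20010 11 .nil))) 87538 :=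
    @P_join2 (w8 22011 29349) 4554 2 11 13 87538 96646 22264 (.cons 4785 23 (.cons 20010 11 .nil)) W14c8 (Nat.add W14c9 (Nat.mul (Nat.pow 2 22264) (Nat.add W14c10 (Nat.mul (Nat.pow 2 22264) (Nat.add W14c11 (Nat.mul (Nat.pow 2 22264) (Nat.add W14c12 (Nat.mul (Nat.pow 2 22264) (Nat.add W14c13 (Nat.mul (Nat.pow 2 22264) (W14c14)))))))))))
      (chkW_sound (by norm_num) (by norm_num) (by norm_num) c14_8) h9 (by norm_num) rfl rfl
  have h7 : Nat.add W14c7 (Nat.mul (Nat.pow 2 22264) (Nat.add W14c8 (Nat.mul (Nat.pow 2 22264) (Nat.add W14c9 (Nat.mul (Nat.pow 2 22264) (Nat.add W14c10 (Nat.mul (Nat.pow 2 22264) (Nat.add W14c11 (Nat.mul (Nat.pow 2 22264) (Nat.add W14c12 (Nat.mul (Nat.pow 2 22264) (Nat.add W14c13 (Nat.mul (Nat.pow 2 22264) (W14c14)))))))))))))) = P (w8 22011 29349) (.cons 4554 15 (.cons 4785 23 (.cons 20010 11 .nil))) 78430 :=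
    @P_join2 (w8 22011 29349) 4554 2 13 15 78430 87538 22264 (.cons 4785 23 (.cons 20010 11 .nil)) W14c7 (Nat.add W14c8 (Nat.mul (Nat.pow 2 22264) (Nat.add W14c9 (Nat.mul (Nat.pow 2 22264) (Nat.add W14c10 (Nat.mul (Nat.pow 2 22264) (Nat.add W14c11 (Nat.mul (Nat.pow 2 22264) (Nat.add W14c12 (Nat.mul (Nat.pow 2 22264) (Nat.add W14c13 (Nat.mul (Nat.pow 2 22264) (W14c14)))))))))))))
      (chkW_sound (by norm_num) (by norm_num) (by norm_num) c14_7) h8 (by norm_num) rfl rfl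
  have h6 : Nat.add W14c6 (Nat.mul (Nat.pow 2 22264) (Nat.add W14c7 (Nat.mul (Nat.pow 2 22264) (Nat.add W14c8 (Nat.mul (Nat.pow 2 22264) (Nat.add W14c9 (Nat.mul (Nat.pow 2 22264) (Nat.add W14c10 (Nat.mul (Nat.pow 2 22264) (Nat.add W14c11 (Nat.mul (Nat.pow 2 22264) (Nat.add W14c12 (Nat.mul (Nat.pow 2 22264) (Nat.add W14c13 (Nat.mul (Nat.pow 2 22264) (W14c14)))))))))))))))) = P (w8 22011 29349) (.cons 4554 17 (.cons 4785 23 (.cons 20010 11 .nil))) 69322 :=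
    @P_join2 (w8 22011 29349) 4554 2 15 17 69322 78430 22264 (.cons 4785 23 (.cons 20010 11 .nil)) W14c6 (Nat.add W14c7 (Nat.mul (Nat.pow 2 22264) (Nat.add W14c8 (Nat.mul (Nat.pow 2 22264) (Nat.add W14c9 (Nat.mul (Nat.pow 2 22264) (Nat.add W14c10 (Nat.mul (Nat.pow 2 22264) (Nat.add W14c11 (Nat.mul (Nat.pow 2 22264) (Nat.add W14c12 (Nat.mul (Nat.pow 2 22264) (Nat.add W14c13 (Nat.mul (Nat.pow 2 22264) (W14c14)))))))))))))))
      (chkW_sound (by norm_num) (by norm_num) (by norm_num) c14_6) h7 (by norm_num) rfl rfl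
  have h5 : Nat.add W14c5 (Nat.mul (Nat.pow 2 22264) (Nat.add W14c6 (Nat.mul (Nat.pow 2 22264) (Nat.add W14c7 (Nat.mul (Nat.pow 2 22264) (Nat.add W14c8 (Nat.mul (Nat.pow 2 22264) (Nat.add W14c9 (Nat.mul (Nat.pow 2 22264) (Nat.add W14c10 (Nat.mul (Nat.pow 2 22264) (Nat.add W14c11 (Nat.mul (Nat.pow 2 22264) (Nat.add W14c12 (Nat.mul (Nat.pow 2 22264) (Nat.add W14c13 (Nat.mul (Nat.pow 2 22264) (W14c14)))))))))))))))))) = P (w8 22011 29349) (.cons 4554 19 (.cons 4785 23 (.cons 20010 11 .nil))) 60214 :=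
    @P_join2 (w8 22011 29349) 4554 2 17 19 60214 69322 22264 (.cons 4785 23 (.cons 20010 11 .nil)) W14c5 (Nat.add W14c6 (Nat.mul (Nat.pow 2 22264) (Nat.add W14c7 (Nat.mul (Nat.pow 2 22264) (Nat.add W14c8 (Nat.mul (Nat.pow 2 22264) (Nat.add W14c9 (Nat.mul (Nat.pow 2 22264) (Nat.add W14c10 (Nat.mul (Nat.pow 2 22264) (Nat.add W14c11 (Nat.mul (Nat.pow 2 22264) (Nat.add W14c12 (Nat.mul (Nat.pow 2 22264) (Nat.add W14c13 (Nat.mul (Nat.pow 2 22264) (W14c14)))))))))))))))))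
      (chkW_sound (by norm_num) (by norm_num) (by norm_num) c14_5) h6 (by norm_num) rfl rfl
  have h4 : Nat.add W14c4 (Nat.mul (Nat.pow 2 22264) (Nat.add W14c5 (Nat.mul (Nat.pow 2 22264) (Nat.add W14c6 (Nat.mul (Nat.pow 2 22264) (Nat.add W14c7 (Nat.mul (Nat.pow 2 22264) (Nat.add W14c8 (Nat.mul (Nat.pow 2 22264) (Nat.add W14c9 (Nat.mul (Nat.pow 2 22264) (Nat.add W14c10 (Nat.mul (Nat.pow 2 22264) (Nat.add W14c11 (Nat.mul (Nat.pow 2 22264) (Nat.add W14c12 (Nat.mul (Nat.pow 2 22264) (Nat.add W14c13 (Nat.mul (Nat.pow 2 22264) (W14c14)))))))))))))))))))) = P (w8 22011 29349) (.cons 4554 21 (.cons 4785 23 (.cons 20010 11 .nil))) 51106 :=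
    @P_join2 (w8 22011 29349) 4554 2 19 21 51106 60214 22264 (.cons 4785 23 (.cons 20010 11 .nil)) W14c4 (Nat.add W14c5 (Nat.mul (Nat.pow 2 22264) (Nat.add W14c6 (Nat.mul (Nat.pow 2 22264) (Nat.add W14c7 (Nat.mul (Nat.pow 2 22264) (Nat.add W14c8 (Nat.mul (Nat.pow 2 22264) (Nat.add W14c9 (Nat.mul (Nat.pow 2 22264) (Nat.add W14c10 (Nat.mul (Nat.pow 2 22264) (Nat.add W14c11 (Nat.mul (Nat.pow 2 22264) (Nat.add W14c12 (Nat.mul (Nat.pow 2 22264) (Nat.add W14c13 (Nat.mul (Nat.pow 2 22264) (W14c14)))))))))))))))))))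
      (chkW_sound (by norm_num) (by norm_num) (by norm_num) c14_4) h5 (by norm_num) rfl rfl
  have h3 : Nat.add W14c3 (Nat.mul (Nat.pow 2 22264) (Nat.add W14c4 (Nat.mul (Nat.pow 2 22264) (Nat.add W14c5 (Nat.mul (Nat.pow 2 22264) (Nat.add W14c6 (Nat.mul (Nat.pow 2 22264) (Nat.add W14c7 (Nat.mul (Nat.pow 2 22264) (Nat.add W14c8 (Nat.mul (Nat.pow 2 22264) (Nat.add W14c9 (Nat.mul (Nat.pow 2 22264) (Nat.add W14c10 (Nat.mul (Nat.pow 2 22264) (Nat.add W14c11 (Nat.mul (Nat.pow 2 22264) (Nat.add W14c12 (Nat.mul (Nat.pow 2 22264) (Nat.add W14c13 (Nat.mul (Nat.pow 2 22264) (W14c14)))))))))))))))))))))) = P (w8 22011 29349) (.cons 4554 23 (.cons 4785 23 (.cons 20010 11 .nil))) 41998 :=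
    @P_join2 (w8 22011 29349) 4554 2 21 23 41998 51106 22264 (.cons 4785 23 (.cons 20010 11 .nil)) W14c3 (Nat.add W14c4 (Nat.mul (Nat.pow 2 22264) (Nat.add W14c5 (Nat.mul (Nat.pow 2 22264) (Nat.add W14c6 (Nat.mul (Nat.pow 2 22264) (Nat.add W14c7 (Nat.mul (Nat.pow 2 22264) (Nat.add W14c8 (Nat.mul (Nat.pow 2 22264) (Nat.add W14c9 (Nat.mul (Nat.pow 2 22264) (Nat.add W14c10 (Nat.mul (Nat.pow 2 22264) (Nat.add W14c11 (Nat.mul (Nat.pow 2 22264) (Nat.add W14c12 (Nat.mul (Nat.pow 2 22264) (Nat.add W14c13 (Nat.mul (Nat.pow 2 22264) (W14c14)))))))))))))))))))))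
      (chkW_sound (by norm_num) (by norm_num) (by norm_num) c14_3) h4 (by norm_num) rfl rfl
  have h2 : Nat.add W14c2 (Nat.mul (Nat.pow 2 22264) (Nat.add W14c3 (Nat.mul (Nat.pow 2 22264) (Nat.add W14c4 (Nat.mul (Nat.pow 2 22264) (Nat.add W14c5 (Nat.mul (Nat.pow 2 22264) (Nat.add W14c6 (Nat.mul (Nat.pow 2 22264) (Nat.add W14c7 (Nat.mul (Nat.pow 2 22264) (Nat.add W14c8 (Nat.mul (Nat.pow 2 22264) (Nat.add W14c9 (Nat.mul (Nat.pow 2 22264) (Nat.add W14c10 (Nat.mul (Nat.pow 2 22264) (Nat.add W14c11 (Nat.mul (Nat.pow 2 22264) (Nat.add W14c12 (Nat.mul (Nat.pow 2 22264) (Nat.add W14c13 (Nat.mul (Nat.pow 2 22264) (W14c14)))))))))))))))))))))))) = P (w8 22011 29349) (.cons 4554 25 (.cons 4785 23 (.cons 20010 11 .nil))) 32890 :=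
    @P_join2 (w8 22011 29349) 4554 2 23 25 32890 41998 22264 (.cons 4785 23 (.cons 20010 11 .nil)) W14c2 (Nat.add W14c3 (Nat.mul (Nat.pow 2 22264) (Nat.add W14c4 (Nat.mul (Nat.pow 2 22264) (Nat.add W14c5 (Nat.mul (Nat.pow 2 22264) (Nat.add W14c6 (Nat.mul (Nat.pow 2 22264) (Nat.add W14c7 (Nat.mul (Nat.pow 2 22264) (Nat.add W14c8 (Nat.mul (Nat.pow 2 22264) (Nat.add W14c9 (Nat.mul (Nat.pow 2 22264) (Nat.add W14c10 (Nat.mul (Nat.pow 2 22264) (Nat.add W14c11 (Nat.mul (Nat.pow 2 22264) (Nat.add W14c12 (Nat.mul (Nat.pow 2 22264) (Nat.add W14c13 (Nat.mul (Nat.pow 2 22264) (W14c14)))))))))))))))))))))))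
      (chkW_sound (by norm_num) (by norm_num) (by norm_num) c14_2) h3 (by norm_num) rfl rfl
  have h1 : Nat.add W14c1 (Nat.mul (Nat.pow 2 22264) (Nat.add W14c2 (Nat.mul (Nat.pow 2 22264) (Nat.add W14c3 (Nat.mul (Nat.pow 2 22264) (Nat.add W14c4 (Nat.mul (Nat.pow 2 22264) (Nat.add W14c5 (Nat.mul (Nat.pow 2 22264) (Nat.add W14c6 (Nat.mul (Nat.pow 2 22264) (Nat.add W14c7 (Nat.mul (Nat.pow 2 22264) (Nat.add W14c8 (Nat.mul (Nat.pow 2 22264) (Nat.add W14c9 (Nat.mul (Nat.pow 2 22264) (Nat.add W14c10 (Nat.mul (Nat.pow 2 22264) (Nat.add W14c11 (Nat.mul (Nat.pow 2 22264) (Nat.add W14c12 (Nat.mul (Nat.pow 2 22264) (Nat.add W14c13 (Nat.mul (Nat.pow 2 22264) (W14c14)))))))))))))))))))))))))) = P (w8 22011 29349) (.cons 4554 27 (.cons 4785 23 (.cons 20010 11 .nil))) 23782 :=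
    @P_join2 (w8 22011 29349) 4554 2 25 27 23782 32890 22264 (.cons 4785 23 (.cons 20010 11 .nil)) W14c1 (Nat.add W14c2 (Nat.mul (Nat.pow 2 22264) (Nat.add W14c3 (Nat.mul (Nat.pow 2 22264) (Nat.add W14c4 (Nat.mul (Nat.pow 2 22264) (Nat.add W14c5 (Nat.mul (Nat.pow 2 22264) (Nat.add W14c6 (Nat.mul (Nat.pow 2 22264) (Nat.add W14c7 (Nat.mul (Nat.pow 2 22264) (Nat.add W14c8 (Nat.mul (Nat.pow 2 22264) (Nat.add W14c9 (Nat.mul (Nat.pow 2 22264) (Nat.add W14c10 (Nat.mul (Nat.pow 2 22264) (Nat.add W14c11 (Nat.mul (Nat.pow 2 22264) (Nat.add W14c12 (Nat.mul (Nat.pow 2 22264) (Nat.add W14c13 (Nat.mul (Nat.pow 2 22264) (W14c14)))))))))))))))))))))))))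
      (chkW_sound (by norm_num) (by norm_num) (by norm_num) c14_1) h2 (by norm_num) rfl rfl
  have h0 : Nat.add W14c0 (Nat.mul (Nat.pow 2 22264) (Nat.add W14c1 (Nat.mul (Nat.pow 2 22264) (Nat.add W14c2 (Nat.mul (Nat.pow 2 22264) (Nat.add W14c3 (Nat.mul (Nat.pow 2 22264) (Nat.add W14c4 (Nat.mul (Nat.pow 2 22264) (Nat.add W14c5 (Nat.mul (Nat.pow 2 22264) (Nat.add W14c6 (Nat.mul (Nat.pow 2 22264) (Nat.add W14c7 (Nat.mul (Nat.pow 2 22264) (Nat.add W14c8 (Nat.mul (Nat.pow 2 22264) (Nat.add W14c9 (Nat.mul (Nat.pow 2 22264) (Nat.add W14c10 (Nat.mul (Nat.pow 2 22264) (Nat.add W14c11 (Nat.mul (Nat.pow 2 22264) (Nat.add W14c12 (Nat.mul (Nat.pow 2 22264) (Nat.add W14c13 (Nat.mul (Nat.pow 2 22264) (W14c14)))))))))))))))))))))))))))) = P (w8 22011 29349) (.cons 4554 29 (.cons 4785 23 (.cons 20010 11 .nil))) 14674 :=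
    @P_join2 (w8 22011 29349) 4554 2 27 29 14674 23782 22264 (.cons 4785 23 (.cons 20010 11 .nil)) W14c0 (Nat.add W14c1 (Nat.mul (Nat.pow 2 22264) (Nat.add W14c2 (Nat.mul (Nat.pow 2 22264) (Nat.add W14c3 (Nat.mul (Nat.pow 2 22264) (Nat.add W14c4 (Nat.mul (Nat.pow 2 22264) (Nat.add W14c5 (Nat.mul (Nat.pow 2 22264) (Nat.add W14c6 (Nat.mul (Nat.pow 2 22264) (Nat.add W14c7 (Nat.mul (Nat.pow 2 22264) (Nat.add W14c8 (Nat.mul (Nat.pow 2 22264) (Nat.add W14c9 (Nat.mul (Nat.pow 2 22264) (Nat.add W14c10 (Nat.mul (Nat.pow 2 22264) (Nat.add W14c11 (Nat.mul (Nat.pow 2 22264) (Nat.add W14c12 (Nat.mul (Nat.pow 2 22264) (Nat.add W14c13 (Nat.mul (Nat.pow 2 22264) (W14c14)))))))))))))))))))))))))))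
      (chkW_sound (by norm_num) (by norm_num) (by norm_num) c14_0) h1 (by norm_num) rfl rfl
  exact h0
theorem u13 : W13 = P (w8 22011 24013) (.cons 4554 29 (.cons 4785 23 (.cons 14674 3 .nil))) 20010 :=
  by
  unfold W13
  have h2 := chkW_sound (by norm_num) (by norm_num) (by norm_num) c13_2
  have h1 : Nat.add W13c1 (Nat.mul (Nat.pow 2 30360) (W13c2)) = P (w8 22011 24013) (.cons 4554 19 (.cons 4785 23 (.cons 14674 3 .nil))) 65550 :=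
    @P_join2 (w8 22011 24013) 4554 10 9 19 65550 111090 30360 (.cons 4785 23 (.cons 14674 3 .nil)) W13c1 (W13c2)
      (chkW_sound (by norm_num) (by norm_num) (by norm_num) c13_1) h2 (by norm_num) rfl rfl
  have h0 : Nat.add W13c0 (Nat.mul (Nat.pow 2 30360) (Nat.add W13c1 (Nat.mul (Nat.pow 2 30360) (W13c2)))) = P (w8 22011 24013) (.cons 4554 29 (.cons 4785 23 (.cons 14674 3 .nil))) 20010 :=
    @P_join2 (w8 22011 24013) 4554 10 19 29 20010 65550 30360 (.cons 4785 23 (.cons 14674 3 .nil)) W13c0 (Nat.add W13c1 (Nat.mul (Nat.pow 2 30360) (W13c2)))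
      (chkW_sound (by norm_num) (by norm_num) (by norm_num) c13_0) h1 (by norm_num) rfl rfl
  exact h0
theorem u12 : W12 = P (w8 22011 9339) (.cons 4554 29 (.cons 4785 23 .nil)) 34684 :=
  chkW_sound (by norm_num) (by norm_num) (by norm_num) c12_0
theorem u11 : W11 = P (w8 22011 39238) (.cons 4554 29 (.cons 20010 11 (.cons 14674 3 .nil))) 4785 :=
  by
  unfold W11
  have h1 := chkW_sound (by norm_num) (by norm_num) (by norm_num) c11_1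
  have h0 : Nat.add W11c0 (Nat.mul (Nat.pow 2 21780) (W11c1)) = P (w8 22011 39238) (.cons 4554 29 (.cons 20010 11 (.cons 14674 3 .nil))) 4785 :=
    @P_join2 (w8 22011 39238) 4554 15 14 29 4785 73095 21780 (.cons 20010 11 (.cons 14674 3 .nil)) W11c0 (W11c1)
      (chkW_sound (by norm_num) (by norm_num) (by norm_num) c11_0) h1 (by norm_num) rfl rfl
  exact h0
theorem u10 : W10 = P (w8 22011 24564) (.cons 4554 29 (.cons 20010 11 .nil)) 19459 :=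
  chkW_sound (by norm_num) (by norm_num) (by norm_num) c10_0
theorem u9 : W9 = P (w8 22011 19228) (.cons 4554 29 (.cons 14674 3 .nil)) 24795 :=
  chkW_sound (by norm_num) (by norm_num) (by norm_num) c9_0
theorem u8 : W8 = P (w8 22011 4554) (.cons 4554 29 .nil) 39469 :=
  chkW_sound (by norm_num) (by norm_num) (by norm_num) c8_0
theorem u7 : W7 = P (w8 22011 39469) (.cons 4785 23 (.cons 20010 11 (.cons 14674 3 .nil))) 4554 :=
  by
  unfold W7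
  have h1 := chkW_sound (by norm_num) (by norm_num) (by norm_num) c7_1
  have h0 : Nat.add W7c0 (Nat.mul (Nat.pow 2 17424) (W7c1)) = P (w8 22011 39469) (.cons 4785 23 (.cons 20010 11 (.cons 14674 3 .nil))) 4554 :=
    @P_join2 (w8 22011 39469) 4785 12 11 23 4554 61974 17424 (.cons 20010 11 (.cons 14674 3 .nil)) W7c0 (W7c1)
      (chkW_sound (by norm_num) (by norm_num) (by norm_num) c7_0) h1 (by norm_num) rfl rfl
  exact h0
theorem u6 : W6 = P (w8 22011 24795) (.cons 4785 23 (.cons 20010 11 .nil)) 19228 :=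
  chkW_sound (by norm_num) (by norm_num) (by norm_num) c6_0
theorem u5 : W5 = P (w8 22011 19459) (.cons 4785 23 (.cons 14674 3 .nil)) 24564 :=
  chkW_sound (by norm_num) (by norm_num) (by norm_num) c5_0
theorem u4 : W4 = P (w8 22011 4785) (.cons 4785 23 .nil) 39238 :=
  chkW_sound (by norm_num) (by norm_num) (by norm_num) c4_0
theorem u3 : W3 = P (w8 22011 34684) (.cons 20010 11 (.cons 14674 3 .nil)) 9339 :=
  chkW_sound (by norm_num) (by norm_num) (by norm_num) c3_0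
theorem u2 : W2 = P (w8 22011 20010) (.cons 20010 11 .nil) 24013 :=
  chkW_sound (by norm_num) (by norm_num) (by norm_num) c2_0
theorem u1 : W1 = P (w8 22011 14674) (.cons 14674 3 .nil) 29349 :=
  chkW_sound (by norm_num) (by norm_num) (by norm_num) c1_0
theorem tr_eq : tr = TR (w8 22011) [(4554, 29, 204397836, 1), (4785, 23, 8047776, 255), (20010, 11, 1476, 255), (14674, 3, 4, 255)] .nil 0 0 :=
  mk_node (mk_node (mk_node (mk_node (mk_leaf rfl u15) (mk_leaf rfl u14)) (mk_node (mk_leaf rfl u13) (mk_leaf rfl u12))) (mk_node (mk_node (mk_leaf rfl u11) (mk_leaf rfl u10)) (mk_node (mk_leaf rfl u9) (mk_leaf rfl u8)))) (mk_node (mk_node (mk_node (mk_leaf rfl u7) (mk_leaf rfl u6)) (mk_node (mk_leaf rfl u5) (mk_leaf rfl u4))) (mk_node (mk_node (mk_leaf rfl u3) (mk_leaf rfl u2)) (mk_node (mk_leaf rfl u1) (mk_leaf rfl (w8_zero _ _).symm))))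
theorem tb (d : ℤ) (n : ℕ)
    (h : ∀ l ∈ ({29, 23, 11, 3} : Finset ℕ), jacobiSym ((n : ℤ) ^ 2 + 4) l = -1) :
    (512 : ℤ) ∣ Pool.Agent.N367.LE.SEr d {29, 23, 11, 3} n -
      256 * (((BT22011 >>> (((n % 29 * 23 + n % 23) * 11 + n % 11) * 3 + n % 3)) % 2 : ℕ) : ℤ) :=
  tb_gen (m := 22011) pd29 pd23 pd11 pd3 (by norm_num) (by norm_num) (by norm_num)
    (by norm_num) (by norm_num) (by norm_num) (show Idem 3 11 23 29 14674 20010 4785 4554 from Idem.of (by decide)) (by norm_num) (by norm_num)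
    (by norm_num) (by rw [← tr_eq]; exact ev_true) d n h

end Pool.Agent.N367.HT.D22011
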