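import Pool.Agent.N367.HT.J
import Pool.Agent.N367.HT.D22287

/-! The sum for 23 19 17 3. -/

namespace Pool.Agent.N367.HT.D22287

open Pool.Agent.N156.HT Pool.Agent.N911.L Pool.Agent.N367.HT

set_option exponentiation.threshold 2000000

theorem u15 : W15 = P (w8 22287 44575) (.cons 7752 23 (.cons 17595 19 (.cons 11799 17 (.cons 7429 3 .nil)))) 0 :=
  by
  unfold W15
  have h22 := chkW_sound (by norm_num) (by norm_num) (by norm_num) c15_22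
  have h21 : Nat.add W15c21 (Nat.mul (Nat.pow 2 42636) (W15c22)) = P (w8 22287 44575) (.cons 7752 2 (.cons 17595 19 (.cons 11799 17 (.cons 7429 3 .nil)))) 162792 :=
    @P_join2 (w8 22287 44575) 7752 1 1 2 162792 170544 42636 (.cons 17595 19 (.cons 11799 17 (.cons 7429 3 .nil))) W15c21 (W15c22)
      (chkW_sound (by norm_num) (by norm_num) (by norm_num) c15_21) h22 (by norm_num) rfl rfl
  have h20 : Nat.add W15c20 (Nat.mul (Nat.pow 2 42636) (Nat.add W15c21 (Nat.mul (Nat.pow 2 42636) (W15c22)))) = P (w8 22287 44575) (.cons 7752 3 (.cons 17595 19 (.cons 11799 17 (.cons 7429 3 .nil)))) 155040 :=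
    @P_join2 (w8 22287 44575) 7752 1 2 3 155040 162792 42636 (.cons 17595 19 (.cons 11799 17 (.cons 7429 3 .nil))) W15c20 (Nat.add W15c21 (Nat.mul (Nat.pow 2 42636) (W15c22)))
      (chkW_sound (by norm_num) (by norm_num) (by norm_num) c15_20) h21 (by norm_num) rfl rfl
  have h19 : Nat.add W15c19 (Nat.mul (Nat.pow 2 42636) (Nat.add W15c20 (Nat.mul (Nat.pow 2 42636) (Nat.add W15c21 (Nat.mul (Nat.pow 2 42636) (W15c22)))))) = P (w8 22287 44575) (.cons 7752 4 (.cons 17595 19 (.cons 11799 17 (.cons 7429 3 .nil)))) 147288 :=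
    @P_join2 (w8 22287 44575) 7752 1 3 4 147288 155040 42636 (.cons 17595 19 (.cons 11799 17 (.cons 7429 3 .nil))) W15c19 (Nat.add W15c20 (Nat.mul (Nat.pow 2 42636) (Nat.add W15c21 (Nat.mul (Nat.pow 2 42636) (W15c22)))))
      (chkW_sound (by norm_num) (by norm_num) (by norm_num) c15_19) h20 (by norm_num) rfl rfl
  have h18 : Nat.add W15c18 (Nat.mul (Nat.pow 2 42636) (Nat.add W15c19 (Nat.mul (Nat.pow 2 42636) (Nat.add W15c20 (Nat.mul (Nat.pow 2 42636) (Nat.add W15c21 (Nat.mul (Nat.pow 2 42636) (W15c22)))))))) = P (w8 22287 44575) (.cons 7752 5 (.cons 17595 19 (.cons 11799 17 (.cons 7429 3 .nil)))) 139536 :=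
    @P_join2 (w8 22287 44575) 7752 1 4 5 139536 147288 42636 (.cons 17595 19 (.cons 11799 17 (.cons 7429 3 .nil))) W15c18 (Nat.add W15c19 (Nat.mul (Nat.pow 2 42636) (Nat.add W15c20 (Nat.mul (Nat.pow 2 42636) (Nat.add W15c21 (Nat.mul (Nat.pow 2 42636) (W15c22)))))))
      (chkW_sound (by norm_num) (by norm_num) (by norm_num) c15_18) h19 (by norm_num) rfl rfl
  have h17 : Nat.add W15c17 (Nat.mul (Nat.pow 2 42636) (Nat.add W15c18 (Nat.mul (Nat.pow 2 42636) (Nat.add W15c19 (Nat.mul (Nat.pow 2 42636) (Nat.add W15c20 (Nat.mul (Nat.pow 2 42636) (Nat.add W15c21 (Nat.mul (Nat.pow 2 42636) (W15c22)))))))))) = P (w8 22287 44575) (.cons 7752 6 (.cons 17595 19 (.cons 11799 17 (.cons 7429 3 .nil)))) 131784 :=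
    @P_join2 (w8 22287 44575) 7752 1 5 6 131784 139536 42636 (.cons 17595 19 (.cons 11799 17 (.cons 7429 3 .nil))) W15c17 (Nat.add W15c18 (Nat.mul (Nat.pow 2 42636) (Nat.add W15c19 (Nat.mul (Nat.pow 2 42636) (Nat.add W15c20 (Nat.mul (Nat.pow 2 42636) (Nat.add W15c21 (Nat.mul (Nat.pow 2 42636) (W15c22)))))))))
      (chkW_sound (by norm_num) (by norm_num) (by norm_num) c15_17) h18 (by norm_num) rfl rfl
  have h16 : Nat.add W15c16 (Nat.mul (Nat.pow 2 42636) (Nat.add W15c17 (Nat.mul (Nat.pow 2 42636) (Nat.add W15c18 (Nat.mul (Nat.pow 2 42636) (Nat.add W15c19 (Nat.mul (Nat.pow 2 42636) (Nat.add W15c20 (Nat.mul (Nat.pow 2 42636) (Nat.add W15c21 (Nat.mul (Nat.pow 2 42636) (W15c22)))))))))))) = P (w8 22287 44575) (.cons 7752 7 (.cons 17595 19 (.cons 11799 17 (.cons 7429 3 .nil)))) 124032 :=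
    @P_join2 (w8 22287 44575) 7752 1 6 7 124032 131784 42636 (.cons 17595 19 (.cons 11799 17 (.cons 7429 3 .nil))) W15c16 (Nat.add W15c17 (Nat.mul (Nat.pow 2 42636) (Nat.add W15c18 (Nat.mul (Nat.pow 2 42636) (Nat.add W15c19 (Nat.mul (Nat.pow 2 42636) (Nat.add W15c20 (Nat.mul (Nat.pow 2 42636) (Nat.add W15c21 (Nat.mul (Nat.pow 2 42636) (W15c22)))))))))))
      (chkW_sound (by norm_num) (by norm_num) (by norm_num) c15_16) h17 (by norm_num) rfl rfl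
  have h15 : Nat.add W15c15 (Nat.mul (Nat.pow 2 42636) (Nat.add W15c16 (Nat.mul (Nat.pow 2 42636) (Nat.add W15c17 (Nat.mul (Nat.pow 2 42636) (Nat.add W15c18 (Nat.mul (Nat.pow 2 42636) (Nat.add W15c19 (Nat.mul (Nat.pow 2 42636) (Nat.add W15c20 (Nat.mul (Nat.pow 2 42636) (Nat.add W15c21 (Nat.mul (Nat.pow 2 42636) (W15c22)))))))))))))) = P (w8 22287 44575) (.cons 7752 8 (.cons 17595 19 (.cons 11799 17 (.cons 7429 3 .nil)))) 116280 :=
    @P_join2 (w8 22287 44575) 7752 1 7 8 116280 124032 42636 (.cons 17595 19 (.cons 11799 17 (.cons 7429 3 .nil))) W15c15 (Nat.add W15c16 (Nat.mul (Nat.pow 2 42636) (Nat.add W15c17 (Nat.mul (Nat.pow 2 42636) (Nat.add W15c18 (Nat.mul (Nat.pow 2 42636) (Nat.add W15c19 (Nat.mul (Nat.pow 2 42636) (Nat.add W15c20 (Nat.mul (Nat.pow 2 42636) (Nat.add W15c21 (Nat.mul (Nat.pow 2 42636) (W15c22)))))))))))))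
      (chkW_sound (by norm_num) (by norm_num) (by norm_num) c15_15) h16 (by norm_num) rfl rfl
  have h14 : Nat.add W15c14 (Nat.mul (Nat.pow 2 42636) (Nat.add W15c15 (Nat.mul (Nat.pow 2 42636) (Nat.add W15c16 (Nat.mul (Nat.pow 2 42636) (Nat.add W15c17 (Nat.mul (Nat.pow 2 42636) (Nat.add W15c18 (Nat.mul (Nat.pow 2 42636) (Nat.add W15c19 (Nat.mul (Nat.pow 2 42636) (Nat.add W15c20 (Nat.mul (Nat.pow 2 42636) (Nat.add W15c21 (Nat.mul (Nat.pow 2 42636) (W15c22)))))))))))))))) = P (w8 22287 44575) (.cons 7752 9 (.cons 17595 19 (.cons 11799 17 (.cons 7429 3 .nil)))) 108528 :=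
    @P_join2 (w8 22287 44575) 7752 1 8 9 108528 116280 42636 (.cons 17595 19 (.cons 11799 17 (.cons 7429 3 .nil))) W15c14 (Nat.add W15c15 (Nat.mul (Nat.pow 2 42636) (Nat.add W15c16 (Nat.mul (Nat.pow 2 42636) (Nat.add W15c17 (Nat.mul (Nat.pow 2 42636) (Nat.add W15c18 (Nat.mul (Nat.pow 2 42636) (Nat.add W15c19 (Nat.mul (Nat.pow 2 42636) (Nat.add W15c20 (Nat.mul (Nat.pow 2 42636) (Nat.add W15c21 (Nat.mul (Nat.pow 2 42636) (W15c22)))))))))))))))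
      (chkW_sound (by norm_num) (by norm_num) (by norm_num) c15_14) h15 (by norm_num) rfl rfl
  have h13 : Nat.add W15c13 (Nat.mul (Nat.pow 2 42636) (Nat.add W15c14 (Nat.mul (Nat.pow 2 42636) (Nat.add W15c15 (Nat.mul (Nat.pow 2 42636) (Nat.add W15c16 (Nat.mul (Nat.pow 2 42636) (Nat.add W15c17 (Nat.mul (Nat.pow 2 42636) (Nat.add W15c18 (Nat.mul (Nat.pow 2 42636) (Nat.add W15c19 (Nat.mul (Nat.pow 2 42636) (Nat.add W15c20 (Nat.mul (Nat.pow 2 42636) (Nat.add W15c21 (Nat.mul (Nat.pow 2 42636) (W15c22)))))))))))))))))) = P (w8 22287 44575) (.cons 7752 10 (.cons 17595 19 (.cons 11799 17 (.cons 7429 3 .nil)))) 100776 :=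
    @P_join2 (w8 22287 44575) 7752 1 9 10 100776 108528 42636 (.cons 17595 19 (.cons 11799 17 (.cons 7429 3 .nil))) W15c13 (Nat.add W15c14 (Nat.mul (Nat.pow 2 42636) (Nat.add W15c15 (Nat.mul (Nat.pow 2 42636) (Nat.add W15c16 (Nat.mul (Nat.pow 2 42636) (Nat.add W15c17 (Nat.mul (Nat.pow 2 42636) (Nat.add W15c18 (Nat.mul (Nat.pow 2 42636) (Nat.add W15c19 (Nat.mul (Nat.pow 2 42636) (Nat.add W15c20 (Nat.mul (Nat.pow 2 42636) (Nat.add W15c21 (Nat.mul (Nat.pow 2 42636) (W15c22)))))))))))))))))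
      (chkW_sound (by norm_num) (by norm_num) (by norm_num) c15_13) h14 (by norm_num) rfl rfl
  have h12 : Nat.add W15c12 (Nat.mul (Nat.pow 2 42636) (Nat.add W15c13 (Nat.mul (Nat.pow 2 42636) (Nat.add W15c14 (Nat.mul (Nat.pow 2 42636) (Nat.add W15c15 (Nat.mul (Nat.pow 2 42636) (Nat.add W15c16 (Nat.mul (Nat.pow 2 42636) (Nat.add W15c17 (Nat.mul (Nat.pow 2 42636) (Nat.add W15c18 (Nat.mul (Nat.pow 2 42636) (Nat.add W15c19 (Nat.mul (Nat.pow 2 42636) (Nat.add W15c20 (Nat.mul (Nat.pow 2 42636) (Nat.add W15c21 (Nat.mul (Nat.pow 2 42636) (W15c22)))))))))))))))))))) = P (w8 22287 44575) (.cons 7752 11 (.cons 17595 19 (.cons 11799 17 (.cons 7429 3 .nil)))) 93024 :=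
    @P_join2 (w8 22287 44575) 7752 1 10 11 93024 100776 42636 (.cons 17595 19 (.cons 11799 17 (.cons 7429 3 .nil))) W15c12 (Nat.add W15c13 (Nat.mul (Nat.pow 2 42636) (Nat.add W15c14 (Nat.mul (Nat.pow 2 42636) (Nat.add W15c15 (Nat.mul (Nat.pow 2 42636) (Nat.add W15c16 (Nat.mul (Nat.pow 2 42636) (Nat.add W15c17 (Nat.mul (Nat.pow 2 42636) (Nat.add W15c18 (Nat.mul (Nat.pow 2 42636) (Nat.add W15c19 (Nat.mul (Nat.pow 2 42636) (Nat.add W15c20 (Nat.mul (Nat.pow 2 42636) (Nat.add W15c21 (Nat.mul (Nat.pow 2 42636) (W15c22)))))))))))))))))))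
      (chkW_sound (by norm_num) (by norm_num) (by norm_num) c15_12) h13 (by norm_num) rfl rfl
  have h11 : Nat.add W15c11 (Nat.mul (Nat.pow 2 42636) (Nat.add W15c12 (Nat.mul (Nat.pow 2 42636) (Nat.add W15c13 (Nat.mul (Nat.pow 2 42636) (Nat.add W15c14 (Nat.mul (Nat.pow 2 42636) (Nat.add W15c15 (Nat.mul (Nat.pow 2 42636) (Nat.add W15c16 (Nat.mul (Nat.pow 2 42636) (Nat.add W15c17 (Nat.mul (Nat.pow 2 42636) (Nat.add W15c18 (Nat.mul (Nat.pow 2 42636) (Nat.add W15c19 (Nat.mul (Nat.pow 2 42636) (Nat.add W15c20 (Nat.mul (Nat.pow 2 42636) (Nat.add W15c21 (Nat.mul (Nat.pow 2 42636) (W15c22)))))))))))))))))))))) = P (w8 22287 44575) (.cons 7752 12 (.cons 17595 19 (.cons 11799 17 (.cons 7429 3 .nil)))) 85272 :=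
    @P_join2 (w8 22287 44575) 7752 1 11 12 85272 93024 42636 (.cons 17595 19 (.cons 11799 17 (.cons 7429 3 .nil))) W15c11 (Nat.add W15c12 (Nat.mul (Nat.pow 2 42636) (Nat.add W15c13 (Nat.mul (Nat.pow 2 42636) (Nat.add W15c14 (Nat.mul (Nat.pow 2 42636) (Nat.add W15c15 (Nat.mul (Nat.pow 2 42636) (Nat.add W15c16 (Nat.mul (Nat.pow 2 42636) (Nat.add W15c17 (Nat.mul (Nat.pow 2 42636) (Nat.add W15c18 (Nat.mul (Nat.pow 2 42636) (Nat.add W15c19 (Nat.mul (Nat.pow 2 42636) (Nat.add W15c20 (Nat.mul (Nat.pow 2 42636) (Nat.add W15c21 (Nat.mul (Nat.pow 2 42636) (W15c22)))))))))))))))))))))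
      (chkW_sound (by norm_num) (by norm_num) (by norm_num) c15_11) h12 (by norm_num) rfl rfl
  have h10 : Nat.add W15c10 (Nat.mul (Nat.pow 2 42636) (Nat.add W15c11 (Nat.mul (Nat.pow 2 42636) (Nat.add W15c12 (Nat.mul (Nat.pow 2 42636) (Nat.add W15c13 (Nat.mul (Nat.pow 2 42636) (Nat.add W15c14 (Nat.mul (Nat.pow 2 42636) (Nat.add W15c15 (Nat.mul (Nat.pow 2 42636) (Nat.add W15c16 (Nat.mul (Nat.pow 2 42636) (Nat.add W15c17 (Nat.mul (Nat.pow 2 42636) (Nat.add W15c18 (Nat.mul (Nat.pow 2 42636) (Nat.add W15c19 (Nat.mul (Nat.pow 2 42636) (Nat.add W15c20 (Nat.mul (Nat.pow 2 42636) (Nat.add W15c21 (Nat.mul (Nat.pow 2 42636) (W15c22)))))))))))))))))))))))) = P (w8 22287 44575) (.cons 7752 13 (.cons 17595 19 (.cons 11799 17 (.cons 7429 3 .nil)))) 77520 :=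
    @P_join2 (w8 22287 44575) 7752 1 12 13 77520 85272 42636 (.cons 17595 19 (.cons 11799 17 (.cons 7429 3 .nil))) W15c10 (Nat.add W15c11 (Nat.mul (Nat.pow 2 42636) (Nat.add W15c12 (Nat.mul (Nat.pow 2 42636) (Nat.add W15c13 (Nat.mul (Nat.pow 2 42636) (Nat.add W15c14 (Nat.mul (Nat.pow 2 42636) (Nat.add W15c15 (Nat.mul (Nat.pow 2 42636) (Nat.add W15c16 (Nat.mul (Nat.pow 2 42636) (Nat.add W15c17 (Nat.mul (Nat.pow 2 42636) (Nat.add W15c18 (Nat.mul (Nat.pow 2 42636) (Nat.add W15c19 (Nat.mul (Nat.pow 2 42636) (Nat.add W15c20 (Nat.mul (Nat.pow 2 42636) (Nat.add W15c21 (Nat.mul (Nat.pow 2 42636) (W15c22)))))))))))))))))))))))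
      (chkW_sound (by norm_num) (by norm_num) (by norm_num) c15_10) h11 (by norm_num) rfl rfl
  have h9 : Nat.add W15c9 (Nat.mul (Nat.pow 2 42636) (Nat.add W15c10 (Nat.mul (Nat.pow 2 42636) (Nat.add W15c11 (Nat.mul (Nat.pow 2 42636) (Nat.add W15c12 (Nat.mul (Nat.pow 2 42636) (Nat.add W15c13 (Nat.mul (Nat.pow 2 42636) (Nat.add W15c14 (Nat.mul (Nat.pow 2 42636) (Nat.add W15c15 (Nat.mul (Nat.pow 2 42636) (Nat.add W15c16 (Nat.mul (Nat.pow 2 42636) (Nat.add W15c17 (Nat.mul (Nat.pow 2 42636) (Nat.add W15c18 (Nat.mul (Nat.pow 2 42636) (Nat.add W15c19 (Nat.mul (Nat.pow 2 42636) (Nat.add W15c20 (Nat.mul (Nat.pow 2 42636) (Nat.add W15c21 (Nat.mul (Nat.pow 2 42636) (W15c22)))))))))))))))))))))))))) = P (w8 22287 44575) (.cons 7752 14 (.cons 17595 19 (.cons 11799 17 (.cons 7429 3 .nil)))) 69768 :=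
    @P_join2 (w8 22287 44575) 7752 1 13 14 69768 77520 42636 (.cons 17595 19 (.cons 11799 17 (.cons 7429 3 .nil))) W15c9 (Nat.add W15c10 (Nat.mul (Nat.pow 2 42636) (Nat.add W15c11 (Nat.mul (Nat.pow 2 42636) (Nat.add W15c12 (Nat.mul (Nat.pow 2 42636) (Nat.add W15c13 (Nat.mul (Nat.pow 2 42636) (Nat.add W15c14 (Nat.mul (Nat.pow 2 42636) (Nat.add W15c15 (Nat.mul (Nat.pow 2 42636) (Nat.add W15c16 (Nat.mul (Nat.pow 2 42636) (Nat.add W15c17 (Nat.mul (Nat.pow 2 42636) (Nat.add W15c18 (Nat.mul (Nat.pow 2 42636) (Nat.add W15c19 (Nat.mul (Nat.pow 2 42636) (Nat.add W15c20 (Nat.mul (Nat.pow 2 42636) (Nat.add W15c21 (Nat.mul (Nat.pow 2 42636) (W15c22)))))))))))))))))))))))))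
      (chkW_sound (by norm_num) (by norm_num) (by norm_num) c15_9) h10 (by norm_num) rfl rfl
  have h8 : Nat.add W15c8 (Nat.mul (Nat.pow 2 42636) (Nat.add W15c9 (Nat.mul (Nat.pow 2 42636) (Nat.add W15c10 (Nat.mul (Nat.pow 2 42636) (Nat.add W15c11 (Nat.mul (Nat.pow 2 42636) (Nat.add W15c12 (Nat.mul (Nat.pow 2 42636) (Nat.add W15c13 (Nat.mul (Nat.pow 2 42636) (Nat.add W15c14 (Nat.mul (Nat.pow 2 42636) (Nat.add W15c15 (Nat.mul (Nat.pow 2 42636) (Nat.add W15c16 (Nat.mul (Nat.pow 2 42636) (Nat.add W15c17 (Nat.mul (Nat.pow 2 42636) (Nat.add W15c18 (Nat.mul (Nat.pow 2 42636) (Nat.add W15c19 (Nat.mul (Nat.pow 2 42636) (Nat.add W15c20 (Nat.mul (Nat.pow 2 42636) (Nat.add W15c21 (Nat.mul (Nat.pow 2 42636) (W15c22)))))))))))))))))))))))))))) = P (w8 22287 44575) (.cons 7752 15 (.cons 17595 19 (.cons 11799 17 (.cons 7429 3 .nil)))) 62016 :=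
    @P_join2 (w8 22287 44575) 7752 1 14 15 62016 69768 42636 (.cons 17595 19 (.cons 11799 17 (.cons 7429 3 .nil))) W15c8 (Nat.add W15c9 (Nat.mul (Nat.pow 2 42636) (Nat.add W15c10 (Nat.mul (Nat.pow 2 42636) (Nat.add W15c11 (Nat.mul (Nat.pow 2 42636) (Nat.add W15c12 (Nat.mul (Nat.pow 2 42636) (Nat.add W15c13 (Nat.mul (Nat.pow 2 42636) (Nat.add W15c14 (Nat.mul (Nat.pow 2 42636) (Nat.add W15c15 (Nat.mul (Nat.pow 2 42636) (Nat.add W15c16 (Nat.mul (Nat.pow 2 42636) (Nat.add W15c17 (Nat.mul (Nat.pow 2 42636) (Nat.add W15c18 (Nat.mul (Nat.pow 2 42636) (Nat.add W15c19 (Nat.mul (Nat.pow 2 42636) (Nat.add W15c20 (Nat.mul (Nat.pow 2 42636) (Nat.add W15c21 (Nat.mul (Nat.pow 2 42636) (W15c22)))))))))))))))))))))))))))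
      (chkW_sound (by norm_num) (by norm_num) (by norm_num) c15_8) h9 (by norm_num) rfl rfl
  have h7 : Nat.add W15c7 (Nat.mul (Nat.pow 2 42636) (Nat.add W15c8 (Nat.mul (Nat.pow 2 42636) (Nat.add W15c9 (Nat.mul (Nat.pow 2 42636) (Nat.add W15c10 (Nat.mul (Nat.pow 2 42636) (Nat.add W15c11 (Nat.mul (Nat.pow 2 42636) (Nat.add W15c12 (Nat.mul (Nat.pow 2 42636) (Nat.add W15c13 (Nat.mul (Nat.pow 2 42636) (Nat.add W15c14 (Nat.mul (Nat.pow 2 42636) (Nat.add W15c15 (Nat.mul (Nat.pow 2 42636) (Nat.add W15c16 (Nat.mul (Nat.pow 2 42636) (Nat.add W15c17 (Nat.mul (Nat.pow 2 42636) (Nat.add W15c18 (Nat.mul (Nat.pow 2 42636) (Nat.add W15c19 (Nat.mul (Nat.pow 2 42636) (Nat.add W15c20 (Nat.mul (Nat.pow 2 42636) (Nat.add W15c21 (Nat.mul (Nat.pow 2 42636) (W15c22)))))))))))))))))))))))))))))) = P (w8 22287 44575) (.cons 7752 16 (.cons 17595 19 (.cons 11799 17 (.cons 7429 3 .nil)))) 54264 :=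
    @P_join2 (w8 22287 44575) 7752 1 15 16 54264 62016 42636 (.cons 17595 19 (.cons 11799 17 (.cons 7429 3 .nil))) W15c7 (Nat.add W15c8 (Nat.mul (Nat.pow 2 42636) (Nat.add W15c9 (Nat.mul (Nat.pow 2 42636) (Nat.add W15c10 (Nat.mul (Nat.pow 2 42636) (Nat.add W15c11 (Nat.mul (Nat.pow 2 42636) (Nat.add W15c12 (Nat.mul (Nat.pow 2 42636) (Nat.add W15c13 (Nat.mul (Nat.pow 2 42636) (Nat.add W15c14 (Nat.mul (Nat.pow 2 42636) (Nat.add W15c15 (Nat.mul (Nat.pow 2 42636) (Nat.add W15c16 (Nat.mul (Nat.pow 2 42636) (Nat.add W15c17 (Nat.mul (Nat.pow 2 42636) (Nat.add W15c18 (Nat.mul (Nat.pow 2 42636) (Nat.add W15c19 (Nat.mul (Nat.pow 2 42636) (Nat.add W15c20 (Nat.mul (Nat.pow 2 42636) (Nat.add W15c21 (Nat.mul (Nat.pow 2 42636) (W15c22)))))))))))))))))))))))))))))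
      (chkW_sound (by norm_num) (by norm_num) (by norm_num) c15_7) h8 (by norm_num) rfl rfl
  have h6 : Nat.add W15c6 (Nat.mul (Nat.pow 2 42636) (Nat.add W15c7 (Nat.mul (Nat.pow 2 42636) (Nat.add W15c8 (Nat.mul (Nat.pow 2 42636) (Nat.add W15c9 (Nat.mul (Nat.pow 2 42636) (Nat.add W15c10 (Nat.mul (Nat.pow 2 42636) (Nat.add W15c11 (Nat.mul (Nat.pow 2 42636) (Nat.add W15c12 (Nat.mul (Nat.pow 2 42636) (Nat.add W15c13 (Nat.mul (Nat.pow 2 42636) (Nat.add W15c14 (Nat.mul (Nat.pow 2 42636) (Nat.add W15c15 (Nat.mul (Nat.pow 2 42636) (Nat.add W15c16 (Nat.mul (Nat.pow 2 42636) (Nat.add W15c17 (Nat.mul (Nat.pow 2 42636) (Nat.add W15c18 (Nat.mul (Nat.pow 2 42636) (Nat.add W15c19 (Nat.mul (Nat.pow 2 42636) (Nat.add W15c20 (Nat.mul (Nat.pow 2 42636) (Nat.add W15c21 (Nat.mul (Nat.pow 2 42636) (W15c22)))))))))))))))))))))))))))))))) = P (w8 22287 44575) (.cons 7752 17 (.cons 17595 19 (.cons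 11799 17 (.cons 7429 3 .nil)))) 46512 :=
    @P_join2 (w8 22287 44575) 7752 1 16 17 46512 54264 42636 (.cons 17595 19 (.cons 11799 17 (.cons 7429 3 .nil))) W15c6 (Nat.add W15c7 (Nat.mul (Nat.pow 2 42636) (Nat.add W15c8 (Nat.mul (Nat.pow 2 42636) (Nat.add W15c9 (Nat.mul (Nat.pow 2 42636) (Nat.add W15c10 (Nat.mul (Nat.pow 2 42636) (Nat.add W15c11 (Nat.mul (Nat.pow 2 42636) (Nat.add W15c12 (Nat.mul (Nat.pow 2 42636) (Nat.add W15c13 (Nat.mul (Nat.pow 2 42636) (Nat.add W15c14 (Nat.mul (Nat.pow 2 42636) (Nat.add W15c15 (Nat.mul (Nat.pow 2 42636) (Nat.add W15c16 (Nat.mul (Nat.pow 2 42636) (Nat.add W15c17 (Nat.mul (Nat.pow 2 42636) (Nat.add W15c18 (Nat.mul (Nat.pow 2 42636) (Nat.add W15c19 (Nat.mul (Nat.pow 2 42636) (Nat.add W15c20 (Nat.mul (Nat.pow 2 42636) (Nat.add W15c21 (Nat.mul (Nat.pow 2 42636) (W15c22)))))))))))))))))))))))))))))))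
      (chkW_sound (by norm_num) (by norm_num) (by norm_num) c15_6) h7 (by norm_num) rfl rfl
  have h5 : Nat.add W15c5 (Nat.mul (Nat.pow 2 42636) (Nat.add W15c6 (Nat.mul (Nat.pow 2 42636) (Nat.add W15c7 (Nat.mul (Nat.pow 2 42636) (Nat.add W15c8 (Nat.mul (Nat.pow 2 42636) (Nat.add W15c9 (Nat.mul (Nat.pow 2 42636) (Nat.add W15c10 (Nat.mul (Nat.pow 2 42636) (Nat.add W15c11 (Nat.mul (Nat.pow 2 42636) (Nat.add W15c12 (Nat.mul (Nat.pow 2 42636) (Nat.add W15c13 (Nat.mul (Nat.pow 2 42636) (Nat.add W15c14 (Nat.mul (Nat.pow 2 42636) (Nat.add W15c15 (Nat.mul (Nat.pow 2 42636) (Nat.add W15c16 (Nat.mul (Nat.pow 2 42636) (Nat.add W15c17 (Nat.mul (Nat.pow 2 42636) (Nat.add W15c18 (Nat.mul (Nat.pow 2 42636) (Nat.add W15c19 (Nat.mul (Nat.pow 2 42636) (Nat.add W15c20 (Nat.mul (Nat.pow 2 42636) (Nat.add W15c21 (Nat.mul (Nat.pow 2 42636) (W15c22)))))))))))))))))))))))))))))))))) = P (w8 22287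 44575) (.cons 7752 18 (.cons 17595 19 (.cons 11799 17 (.cons 7429 3 .nil)))) 38760 :=
    @P_join2 (w8 22287 44575) 7752 1 17 18 38760 46512 42636 (.cons 17595 19 (.cons 11799 17 (.cons 7429 3 .nil))) W15c5 (Nat.add W15c6 (Nat.mul (Nat.pow 2 42636) (Nat.add W15c7 (Nat.mul (Nat.pow 2 42636) (Nat.add W15c8 (Nat.mul (Nat.pow 2 42636) (Nat.add W15c9 (Nat.mul (Nat.pow 2 42636) (Nat.add W15c10 (Nat.mul (Nat.pow 2 42636) (Nat.add W15c11 (Nat.mul (Nat.pow 2 42636) (Nat.add W15c12 (Nat.mul (Nat.pow 2 42636) (Nat.add W15c13 (Nat.mul (Nat.pow 2 42636) (Nat.add W15c14 (Nat.mul (Nat.pow 2 42636) (Nat.add W15c15 (Nat.mul (Nat.pow 2 42636) (Nat.add W15c16 (Nat.mul (Nat.pow 2 42636) (Nat.add W15c17 (Nat.mul (Nat.pow 2 42636) (Nat.add W15c18 (Nat.mul (Nat.pow 2 42636) (Nat.add W15c19 (Nat.mul (Nat.pow 2 42636) (Nat.add W15c20 (Nat.mul (Nat.pow 2 42636) (Nat.add W15c21 (Nat.mul (Nat.pow 2 42636)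 (W15c22)))))))))))))))))))))))))))))))))
      (chkW_sound (by norm_num) (by norm_num) (by norm_num) c15_5) h6 (by norm_num) rfl rfl
  have h4 : Nat.add W15c4 (Nat.mul (Nat.pow 2 42636) (Nat.add W15c5 (Nat.mul (Nat.pow 2 42636) (Nat.add W15c6 (Nat.mul (Nat.pow 2 42636) (Nat.add W15c7 (Nat.mul (Nat.pow 2 42636) (Nat.add W15c8 (Nat.mul (Nat.pow 2 42636) (Nat.add W15c9 (Nat.mul (Nat.pow 2 42636) (Nat.add W15c10 (Nat.mul (Nat.pow 2 42636) (Nat.add W15c11 (Nat.mul (Nat.pow 2 42636) (Nat.add W15c12 (Nat.mul (Nat.pow 2 42636) (Nat.add W15c13 (Nat.mul (Nat.pow 2 42636) (Nat.add W15c14 (Nat.mul (Nat.pow 2 42636) (Nat.add W15c15 (Nat.mul (Nat.pow 2 42636) (Nat.add W15c16 (Nat.mul (Nat.pow 2 42636) (Nat.add W15c17 (Nat.mul (Nat.pow 2 42636) (Nat.add W15c18 (Nat.mul (Nat.pow 2 42636) (Nat.add W15c19 (Nat.mul (Nat.pow 2 42636) (Nat.add W15c20 (Nat.mul (Nat.pow 2 42636) (Nat.add W15c21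 (Nat.mul (Nat.pow 2 42636) (W15c22)))))))))))))))))))))))))))))))))))) = P (w8 22287 44575) (.cons 7752 19 (.cons 17595 19 (.cons 11799 17 (.cons 7429 3 .nil)))) 31008 :=
    @P_join2 (w8 22287 44575) 7752 1 18 19 31008 38760 42636 (.cons 17595 19 (.cons 11799 17 (.cons 7429 3 .nil))) W15c4 (Nat.add W15c5 (Nat.mul (Nat.pow 2 42636) (Nat.add W15c6 (Nat.mul (Nat.pow 2 42636) (Nat.add W15c7 (Nat.mul (Nat.pow 2 42636) (Nat.add W15c8 (Nat.mul (Nat.pow 2 42636) (Nat.add W15c9 (Nat.mul (Nat.pow 2 42636) (Nat.add W15c10 (Nat.mul (Nat.pow 2 42636) (Nat.add W15c11 (Nat.mul (Nat.pow 2 42636) (Nat.add W15c12 (Nat.mul (Nat.pow 2 42636) (Nat.add W15c13 (Nat.mul (Nat.pow 2 42636) (Nat.add W15c14 (Nat.mul (Nat.pow 2 42636) (Nat.add W15c15 (Nat.mul (Nat.pow 2 42636) (Nat.add W15c16 (Nat.mul (Nat.pow 2 42636) (Nat.add W15c17 (Nat.mul (Nat.pow 2 42636) (Nat.add W15c18 (Nat.mul (Nat.pow 2 42636)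 (Nat.add W15c19 (Nat.mul (Nat.pow 2 42636) (Nat.add W15c20 (Nat.mul (Nat.pow 2 42636) (Nat.add W15c21 (Nat.mul (Nat.pow 2 42636) (W15c22)))))))))))))))))))))))))))))))))))
      (chkW_sound (by norm_num) (by norm_num) (by norm_num) c15_4) h5 (by norm_num) rfl rfl
  have h3 : Nat.add W15c3 (Nat.mul (Nat.pow 2 42636) (Nat.add W15c4 (Nat.mul (Nat.pow 2 42636) (Nat.add W15c5 (Nat.mul (Nat.pow 2 42636) (Nat.add W15c6 (Nat.mul (Nat.pow 2 42636) (Nat.add W15c7 (Nat.mul (Nat.pow 2 42636) (Nat.add W15c8 (Nat.mul (Nat.pow 2 42636) (Nat.add W15c9 (Nat.mul (Nat.pow 2 42636) (Nat.add W15c10 (Nat.mul (Nat.pow 2 42636) (Nat.add W15c11 (Nat.mul (Nat.pow 2 42636) (Nat.add W15c12 (Nat.mul (Nat.pow 2 42636) (Nat.add W15c13 (Nat.mul (Nat.pow 2 42636) (Nat.add W15c14 (Nat.mul (Nat.pow 2 42636) (Nat.add W15c15 (Nat.mul (Nat.pow 2 42636) (Nat.add W15c16 (Nat.mul (Nat.pow 2 42636) (Nat.add W15c17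 (Nat.mul (Nat.pow 2 42636) (Nat.add W15c18 (Nat.mul (Nat.pow 2 42636) (Nat.add W15c19 (Nat.mul (Nat.pow 2 42636) (Nat.add W15c20 (Nat.mul (Nat.pow 2 42636) (Nat.add W15c21 (Nat.mul (Nat.pow 2 42636) (W15c22)))))))))))))))))))))))))))))))))))))) = P (w8 22287 44575) (.cons 7752 20 (.cons 17595 19 (.cons 11799 17 (.cons 7429 3 .nil)))) 23256 :=
    @P_join2 (w8 22287 44575) 7752 1 19 20 23256 31008 42636 (.cons 17595 19 (.cons 11799 17 (.cons 7429 3 .nil))) W15c3 (Nat.add W15c4 (Nat.mul (Nat.pow 2 42636) (Nat.add W15c5 (Nat.mul (Nat.pow 2 42636) (Nat.add W15c6 (Nat.mul (Nat.pow 2 42636) (Nat.add W15c7 (Nat.mul (Nat.pow 2 42636) (Nat.add W15c8 (Nat.mul (Nat.pow 2 42636) (Nat.add W15c9 (Nat.mul (Nat.pow 2 42636) (Nat.add W15c10 (Nat.mul (Nat.pow 2 42636) (Nat.add W15c11 (Nat.mul (Nat.pow 2 42636) (Nat.add W15c12 (Nat.mul (Nat.pow 2 42636) (Nat.add W15c13 (Nat.mul (Nat.pow 2 42636)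 (Nat.add W15c14 (Nat.mul (Nat.pow 2 42636) (Nat.add W15c15 (Nat.mul (Nat.pow 2 42636) (Nat.add W15c16 (Nat.mul (Nat.pow 2 42636) (Nat.add W15c17 (Nat.mul (Nat.pow 2 42636) (Nat.add W15c18 (Nat.mul (Nat.pow 2 42636) (Nat.add W15c19 (Nat.mul (Nat.pow 2 42636) (Nat.add W15c20 (Nat.mul (Nat.pow 2 42636) (Nat.add W15c21 (Nat.mul (Nat.pow 2 42636) (W15c22)))))))))))))))))))))))))))))))))))))
      (chkW_sound (by norm_num) (by norm_num) (by norm_num) c15_3) h4 (by norm_num) rfl rfl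
  have h2 : Nat.add W15c2 (Nat.mul (Nat.pow 2 42636) (Nat.add W15c3 (Nat.mul (Nat.pow 2 42636) (Nat.add W15c4 (Nat.mul (Nat.pow 2 42636) (Nat.add W15c5 (Nat.mul (Nat.pow 2 42636) (Nat.add W15c6 (Nat.mul (Nat.pow 2 42636) (Nat.add W15c7 (Nat.mul (Nat.pow 2 42636) (Nat.add W15c8 (Nat.mul (Nat.pow 2 42636) (Nat.add W15c9 (Nat.mul (Nat.pow 2 42636) (Nat.add W15c10 (Nat.mul (Nat.pow 2 42636) (Nat.add W15c11 (Nat.mul (Nat.pow 2 42636) (Nat.add W15c12 (Nat.mul (Nat.pow 2 42636) (Nat.add W15c13 (Nat.mul (Nat.pow 2 42636) (Nat.add W15c14 (Nat.mul (Nat.pow 2 42636) (Nat.add W15c15 (Nat.mul (Nat.pow 2 42636) (Nat.add W15c16 (Nat.mul (Nat.pow 2 42636) (Nat.add W15c17 (Nat.mul (Nat.pow 2 42636) (Nat.add W15c18 (Nat.mul (Nat.pow 2 42636) (Nat.add W15c19 (Nat.mul (Nat.pow 2 42636) (Nat.add W15c20 (Nat.mul (Nat.pow 2 42636) (Nat.add W15c21 (Nat.mul (Nat.pow 2 42636) (W15c22))))))))))))))))))))))))))))))))))))))))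 = P (w8 22287 44575) (.cons 7752 21 (.cons 17595 19 (.cons 11799 17 (.cons 7429 3 .nil)))) 15504 :=
    @P_join2 (w8 22287 44575) 7752 1 20 21 15504 23256 42636 (.cons 17595 19 (.cons 11799 17 (.cons 7429 3 .nil))) W15c2 (Nat.add W15c3 (Nat.mul (Nat.pow 2 42636) (Nat.add W15c4 (Nat.mul (Nat.pow 2 42636) (Nat.add W15c5 (Nat.mul (Nat.pow 2 42636) (Nat.add W15c6 (Nat.mul (Nat.pow 2 42636) (Nat.add W15c7 (Nat.mul (Nat.pow 2 42636) (Nat.add W15c8 (Nat.mul (Nat.pow 2 42636) (Nat.add W15c9 (Nat.mul (Nat.pow 2 42636) (Nat.add W15c10 (Nat.mul (Nat.pow 2 42636) (Nat.add W15c11 (Nat.mul (Nat.pow 2 42636) (Nat.add W15c12 (Nat.mul (Nat.pow 2 42636) (Nat.add W15c13 (Nat.mul (Nat.pow 2 42636) (Nat.add W15c14 (Nat.mul (Nat.pow 2 42636) (Nat.add W15c15 (Nat.mul (Nat.pow 2 42636) (Nat.add W15c16 (Nat.mul (Nat.pow 2 42636) (Nat.add W15c17 (Nat.mul (Nat.pow 2 42636) (Nat.add W15c18 (Nat.mul (Nat.pow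 2 42636) (Nat.add W15c19 (Nat.mul (Nat.pow 2 42636) (Nat.add W15c20 (Nat.mul (Nat.pow 2 42636) (Nat.add W15c21 (Nat.mul (Nat.pow 2 42636) (W15c22)))))))))))))))))))))))))))))))))))))))
      (chkW_sound (by norm_num) (by norm_num) (by norm_num) c15_2) h3 (by norm_num) rfl rfl
  have h1 : Nat.add W15c1 (Nat.mul (Nat.pow 2 42636) (Nat.add W15c2 (Nat.mul (Nat.pow 2 42636) (Nat.add W15c3 (Nat.mul (Nat.pow 2 42636) (Nat.add W15c4 (Nat.mul (Nat.pow 2 42636) (Nat.add W15c5 (Nat.mul (Nat.pow 2 42636) (Nat.add W15c6 (Nat.mul (Nat.pow 2 42636) (Nat.add W15c7 (Nat.mul (Nat.pow 2 42636) (Nat.add W15c8 (Nat.mul (Nat.pow 2 42636) (Nat.add W15c9 (Nat.mul (Nat.pow 2 42636) (Nat.add W15c10 (Nat.mul (Nat.pow 2 42636) (Nat.add W15c11 (Nat.mul (Nat.pow 2 42636) (Nat.add W15c12 (Nat.mul (Nat.pow 2 42636) (Nat.add W15c13 (Nat.mul (Nat.pow 2 42636) (Nat.add W15c14 (Nat.mul (Nat.pow 2 42636) (Nat.add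 W15c15 (Nat.mul (Nat.pow 2 42636) (Nat.add W15c16 (Nat.mul (Nat.pow 2 42636) (Nat.add W15c17 (Nat.mul (Nat.pow 2 42636) (Nat.add W15c18 (Nat.mul (Nat.pow 2 42636) (Nat.add W15c19 (Nat.mul (Nat.pow 2 42636) (Nat.add W15c20 (Nat.mul (Nat.pow 2 42636) (Nat.add W15c21 (Nat.mul (Nat.pow 2 42636) (W15c22)))))))))))))))))))))))))))))))))))))))))) = P (w8 22287 44575) (.cons 7752 22 (.cons 17595 19 (.cons 11799 17 (.cons 7429 3 .nil)))) 7752 :=
    @P_join2 (w8 22287 44575) 7752 1 21 22 7752 15504 42636 (.cons 17595 19 (.cons 11799 17 (.cons 7429 3 .nil))) W15c1 (Nat.add W15c2 (Nat.mul (Nat.pow 2 42636) (Nat.add W15c3 (Nat.mul (Nat.pow 2 42636) (Nat.add W15c4 (Nat.mul (Nat.pow 2 42636) (Nat.add W15c5 (Nat.mul (Nat.pow 2 42636) (Nat.add W15c6 (Nat.mul (Nat.pow 2 42636) (Nat.add W15c7 (Nat.mul (Nat.pow 2 42636) (Nat.add W15c8 (Nat.mul (Nat.pow 2 42636) (Nat.add W15c9 (Nat.mul (Nat.pow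 2 42636) (Nat.add W15c10 (Nat.mul (Nat.pow 2 42636) (Nat.add W15c11 (Nat.mul (Nat.pow 2 42636) (Nat.add W15c12 (Nat.mul (Nat.pow 2 42636) (Nat.add W15c13 (Nat.mul (Nat.pow 2 42636) (Nat.add W15c14 (Nat.mul (Nat.pow 2 42636) (Nat.add W15c15 (Nat.mul (Nat.pow 2 42636) (Nat.add W15c16 (Nat.mul (Nat.pow 2 42636) (Nat.add W15c17 (Nat.mul (Nat.pow 2 42636) (Nat.add W15c18 (Nat.mul (Nat.pow 2 42636) (Nat.add W15c19 (Nat.mul (Nat.pow 2 42636) (Nat.add W15c20 (Nat.mul (Nat.pow 2 42636) (Nat.add W15c21 (Nat.mul (Nat.pow 2 42636) (W15c22)))))))))))))))))))))))))))))))))))))))))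
      (chkW_sound (by norm_num) (by norm_num) (by norm_num) c15_1) h2 (by norm_num) rfl rfl
  have h0 : Nat.add W15c0 (Nat.mul (Nat.pow 2 42636) (Nat.add W15c1 (Nat.mul (Nat.pow 2 42636) (Nat.add W15c2 (Nat.mul (Nat.pow 2 42636) (Nat.add W15c3 (Nat.mul (Nat.pow 2 42636) (Nat.add W15c4 (Nat.mul (Nat.pow 2 42636) (Nat.add W15c5 (Nat.mul (Nat.pow 2 42636) (Nat.add W15c6 (Nat.mul (Nat.pow 2 42636) (Nat.add W15c7 (Nat.mul (Nat.pow 2 42636) (Nat.add W15c8 (Nat.mul (Nat.pow 2 42636) (Nat.add W15c9 (Nat.mul (Nat.pow 2 42636) (Nat.add W15c10 (Nat.mul (Nat.pow 2 42636) (Nat.add W15c11 (Nat.mul (Nat.pow 2 42636) (Nat.add W15c12 (Nat.mul (Nat.pow 2 42636) (Nat.add W15c13 (Nat.mul (Nat.pow 2 42636) (Nat.add W15c14 (Nat.mul (Nat.pow 2 42636) (Nat.add W15c15 (Nat.mul (Nat.pow 2 42636) (Nat.add W15c16 (Nat.mul (Nat.pow 2 42636) (Nat.add W15c17 (Nat.mul (Nat.pow 2 42636) (Nat.add W15c18 (Nat.mul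 (Nat.pow 2 42636) (Nat.add W15c19 (Nat.mul (Nat.pow 2 42636) (Nat.add W15c20 (Nat.mul (Nat.pow 2 42636) (Nat.add W15c21 (Nat.mul (Nat.pow 2 42636) (W15c22)))))))))))))))))))))))))))))))))))))))))))) = P (w8 22287 44575) (.cons 7752 23 (.cons 17595 19 (.cons 11799 17 (.cons 7429 3 .nil)))) 0 :=
    @P_join2 (w8 22287 44575) 7752 1 22 23 0 7752 42636 (.cons 17595 19 (.cons 11799 17 (.cons 7429 3 .nil))) W15c0 (Nat.add W15c1 (Nat.mul (Nat.pow 2 42636) (Nat.add W15c2 (Nat.mul (Nat.pow 2 42636) (Nat.add W15c3 (Nat.mul (Nat.pow 2 42636) (Nat.add W15c4 (Nat.mul (Nat.pow 2 42636) (Nat.add W15c5 (Nat.mul (Nat.pow 2 42636) (Nat.add W15c6 (Nat.mul (Nat.pow 2 42636) (Nat.add W15c7 (Nat.mul (Nat.pow 2 42636) (Nat.add W15c8 (Nat.mul (Nat.pow 2 42636) (Nat.add W15c9 (Nat.mul (Nat.pow 2 42636) (Nat.add W15c10 (Nat.mul (Nat.pow 2 42636) (Nat.add W15c11 (Nat.mul (Nat.pow 2 42636) (Nat.add W15c12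 (Nat.mul (Nat.pow 2 42636) (Nat.add W15c13 (Nat.mul (Nat.pow 2 42636) (Nat.add W15c14 (Nat.mul (Nat.pow 2 42636) (Nat.add W15c15 (Nat.mul (Nat.pow 2 42636) (Nat.add W15c16 (Nat.mul (Nat.pow 2 42636) (Nat.add W15c17 (Nat.mul (Nat.pow 2 42636) (Nat.add W15c18 (Nat.mul (Nat.pow 2 42636) (Nat.add W15c19 (Nat.mul (Nat.pow 2 42636) (Nat.add W15c20 (Nat.mul (Nat.pow 2 42636) (Nat.add W15c21 (Nat.mul (Nat.pow 2 42636) (W15c22)))))))))))))))))))))))))))))))))))))))))))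
      (chkW_sound (by norm_num) (by norm_num) (by norm_num) c15_0) h1 (by norm_num) rfl rfl
  exact h0
theorem u14 : W14 = P (w8 22287 37146) (.cons 7752 23 (.cons 17595 19 (.cons 11799 17 .nil))) 7429 :=
  by
  unfold W14
  have h11 := chkW_sound (by norm_num) (by norm_num) (by norm_num) c14_11
  have h10 : Nat.add W14c10 (Nat.mul (Nat.pow 2 28424) (W14c11)) = P (w8 22287 37146) (.cons 7752 3 (.cons 17595 19 (.cons 11799 17 .nil))) 162469 :=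
    @P_join2 (w8 22287 37146) 7752 2 1 3 162469 177973 28424 (.cons 17595 19 (.cons 11799 17 .nil)) W14c10 (W14c11)
      (chkW_sound (by norm_num) (by norm_num) (by norm_num) c14_10) h11 (by norm_num) rfl rfl
  have h9 : Nat.add W14c9 (Nat.mul (Nat.pow 2 28424) (Nat.add W14c10 (Nat.mul (Nat.pow 2 28424) (W14c11)))) = P (w8 22287 37146) (.cons 7752 5 (.cons 17595 19 (.cons 11799 17 .nil))) 146965 :=
    @P_join2 (w8 22287 37146) 7752 2 3 5 146965 162469 28424 (.cons 17595 19 (.cons 11799 17 .nil)) W14c9 (Nat.add W14c10 (Nat.mul (Nat.pow 2 28424) (W14c11)))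
      (chkW_sound (by norm_num) (by norm_num) (by norm_num) c14_9) h10 (by norm_num) rfl rfl
  have h8 : Nat.add W14c8 (Nat.mul (Nat.pow 2 28424) (Nat.add W14c9 (Nat.mul (Nat.pow 2 28424) (Nat.add W14c10 (Nat.mul (Nat.pow 2 28424) (W14c11)))))) = P (w8 22287 37146) (.cons 7752 7 (.cons 17595 19 (.cons 11799 17 .nil))) 131461 :=
    @P_join2 (w8 22287 37146) 7752 2 5 7 131461 146965 28424 (.cons 17595 19 (.cons 11799 17 .nil)) W14c8 (Nat.add W14c9 (Nat.mul (Nat.pow 2 28424) (Nat.add W14c10 (Nat.mul (Nat.pow 2 28424) (W14c11)))))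
      (chkW_sound (by norm_num) (by norm_num) (by norm_num) c14_8) h9 (by norm_num) rfl rfl
  have h7 : Nat.add W14c7 (Nat.mul (Nat.pow 2 28424) (Nat.add W14c8 (Nat.mul (Nat.pow 2 28424) (Nat.add W14c9 (Nat.mul (Nat.pow 2 28424) (Nat.add W14c10 (Nat.mul (Nat.pow 2 28424) (W14c11)))))))) = P (w8 22287 37146) (.cons 7752 9 (.cons 17595 19 (.cons 11799 17 .nil))) 115957 :=
    @P_join2 (w8 22287 37146) 7752 2 7 9 115957 131461 28424 (.cons 17595 19 (.cons 11799 17 .nil)) W14c7 (Nat.add W14c8 (Nat.mul (Nat.pow 2 28424) (Nat.add W14c9 (Nat.mul (Nat.pow 2 28424) (Nat.add W14c10 (Nat.mul (Nat.pow 2 28424) (W14c11)))))))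
      (chkW_sound (by norm_num) (by norm_num) (by norm_num) c14_7) h8 (by norm_num) rfl rfl
  have h6 : Nat.add W14c6 (Nat.mul (Nat.pow 2 28424) (Nat.add W14c7 (Nat.mul (Nat.pow 2 28424) (Nat.add W14c8 (Nat.mul (Nat.pow 2 28424) (Nat.add W14c9 (Nat.mul (Nat.pow 2 28424) (Nat.add W14c10 (Nat.mul (Nat.pow 2 28424) (W14c11)))))))))) = P (w8 22287 37146) (.cons 7752 11 (.cons 17595 19 (.cons 11799 17 .nil))) 100453 :=
    @P_join2 (w8 22287 37146) 7752 2 9 11 100453 115957 28424 (.cons 17595 19 (.cons 11799 17 .nil)) W14c6 (Nat.add W14c7 (Nat.mul (Nat.pow 2 28424) (Nat.add W14c8 (Nat.mul (Nat.pow 2 28424) (Nat.add W14c9 (Nat.mul (Nat.pow 2 28424) (Nat.add W14c10 (Nat.mul (Nat.pow 2 28424) (W14c11)))))))))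
      (chkW_sound (by norm_num) (by norm_num) (by norm_num) c14_6) h7 (by norm_num) rfl rfl
  have h5 : Nat.add W14c5 (Nat.mul (Nat.pow 2 28424) (Nat.add W14c6 (Nat.mul (Nat.pow 2 28424) (Nat.add W14c7 (Nat.mul (Nat.pow 2 28424) (Nat.add W14c8 (Nat.mul (Nat.pow 2 28424) (Nat.add W14c9 (Nat.mul (Nat.pow 2 28424) (Nat.add W14c10 (Nat.mul (Nat.pow 2 28424) (W14c11)))))))))))) = P (w8 22287 37146) (.cons 7752 13 (.cons 17595 19 (.cons 11799 17 .nil))) 84949 :=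
    @P_join2 (w8 22287 37146) 7752 2 11 13 84949 100453 28424 (.cons 17595 19 (.cons 11799 17 .nil)) W14c5 (Nat.add W14c6 (Nat.mul (Nat.pow 2 28424) (Nat.add W14c7 (Nat.mul (Nat.pow 2 28424) (Nat.add W14c8 (Nat.mul (Nat.pow 2 28424) (Nat.add W14c9 (Nat.mul (Nat.pow 2 28424) (Nat.add W14c10 (Nat.mul (Nat.pow 2 28424) (W14c11)))))))))))
      (chkW_sound (by norm_num) (by norm_num) (by norm_num) c14_5) h6 (by norm_num) rfl rfl
  have h4 : Nat.add W14c4 (Nat.mul (Nat.pow 2 28424) (Nat.add W14c5 (Nat.mul (Nat.pow 2 28424) (Nat.add W14c6 (Nat.mul (Nat.pow 2 28424) (Nat.add W14c7 (Nat.mul (Nat.pow 2 28424) (Nat.add W14c8 (Nat.mul (Nat.pow 2 28424) (Nat.add W14c9 (Nat.mul (Nat.pow 2 28424) (Nat.add W14c10 (Nat.mul (Nat.pow 2 28424) (W14c11)))))))))))))) = P (w8 22287 37146) (.cons 7752 15 (.cons 17595 19 (.cons 11799 17 .nil))) 69445 :=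
    @P_join2 (w8 22287 37146) 7752 2 13 15 69445 84949 28424 (.cons 17595 19 (.cons 11799 17 .nil)) W14c4 (Nat.add W14c5 (Nat.mul (Nat.pow 2 28424) (Nat.add W14c6 (Nat.mul (Nat.pow 2 28424) (Nat.add W14c7 (Nat.mul (Nat.pow 2 28424) (Nat.add W14c8 (Nat.mul (Nat.pow 2 28424) (Nat.add W14c9 (Nat.mul (Nat.pow 2 28424) (Nat.add W14c10 (Nat.mul (Nat.pow 2 28424) (W14c11)))))))))))))
      (chkW_sound (by norm_num) (by norm_num) (by norm_num) c14_4) h5 (by norm_num) rfl rfl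
  have h3 : Nat.add W14c3 (Nat.mul (Nat.pow 2 28424) (Nat.add W14c4 (Nat.mul (Nat.pow 2 28424) (Nat.add W14c5 (Nat.mul (Nat.pow 2 28424) (Nat.add W14c6 (Nat.mul (Nat.pow 2 28424) (Nat.add W14c7 (Nat.mul (Nat.pow 2 28424) (Nat.add W14c8 (Nat.mul (Nat.pow 2 28424) (Nat.add W14c9 (Nat.mul (Nat.pow 2 28424) (Nat.add W14c10 (Nat.mul (Nat.pow 2 28424) (W14c11)))))))))))))))) = P (w8 22287 37146) (.cons 7752 17 (.cons 17595 19 (.cons 11799 17 .nil))) 53941 :=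
    @P_join2 (w8 22287 37146) 7752 2 15 17 53941 69445 28424 (.cons 17595 19 (.cons 11799 17 .nil)) W14c3 (Nat.add W14c4 (Nat.mul (Nat.pow 2 28424) (Nat.add W14c5 (Nat.mul (Nat.pow 2 28424) (Nat.add W14c6 (Nat.mul (Nat.pow 2 28424) (Nat.add W14c7 (Nat.mul (Nat.pow 2 28424) (Nat.add W14c8 (Nat.mul (Nat.pow 2 28424) (Nat.add W14c9 (Nat.mul (Nat.pow 2 28424) (Nat.add W14c10 (Nat.mul (Nat.pow 2 28424) (W14c11)))))))))))))))
      (chkW_sound (by norm_num) (by norm_num) (by norm_num) c14_3) h4 (by norm_num) rfl rfl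
  have h2 : Nat.add W14c2 (Nat.mul (Nat.pow 2 28424) (Nat.add W14c3 (Nat.mul (Nat.pow 2 28424) (Nat.add W14c4 (Nat.mul (Nat.pow 2 28424) (Nat.add W14c5 (Nat.mul (Nat.pow 2 28424) (Nat.add W14c6 (Nat.mul (Nat.pow 2 28424) (Nat.add W14c7 (Nat.mul (Nat.pow 2 28424) (Nat.add W14c8 (Nat.mul (Nat.pow 2 28424) (Nat.add W14c9 (Nat.mul (Nat.pow 2 28424) (Nat.add W14c10 (Nat.mul (Nat.pow 2 28424) (W14c11)))))))))))))))))) = P (w8 22287 37146) (.cons 7752 19 (.cons 17595 19 (.cons 11799 17 .nil))) 38437 :=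
    @P_join2 (w8 22287 37146) 7752 2 17 19 38437 53941 28424 (.cons 17595 19 (.cons 11799 17 .nil)) W14c2 (Nat.add W14c3 (Nat.mul (Nat.pow 2 28424) (Nat.add W14c4 (Nat.mul (Nat.pow 2 28424) (Nat.add W14c5 (Nat.mul (Nat.pow 2 28424) (Nat.add W14c6 (Nat.mul (Nat.pow 2 28424) (Nat.add W14c7 (Nat.mul (Nat.pow 2 28424) (Nat.add W14c8 (Nat.mul (Nat.pow 2 28424) (Nat.add W14c9 (Nat.mul (Nat.pow 2 28424) (Nat.add W14c10 (Nat.mul (Nat.pow 2 28424) (W14c11)))))))))))))))))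
      (chkW_sound (by norm_num) (by norm_num) (by norm_num) c14_2) h3 (by norm_num) rfl rfl
  have h1 : Nat.add W14c1 (Nat.mul (Nat.pow 2 28424) (Nat.add W14c2 (Nat.mul (Nat.pow 2 28424) (Nat.add W14c3 (Nat.mul (Nat.pow 2 28424) (Nat.add W14c4 (Nat.mul (Nat.pow 2 28424) (Nat.add W14c5 (Nat.mul (Nat.pow 2 28424) (Nat.add W14c6 (Nat.mul (Nat.pow 2 28424) (Nat.add W14c7 (Nat.mul (Nat.pow 2 28424) (Nat.add W14c8 (Nat.mul (Nat.pow 2 28424) (Nat.add W14c9 (Nat.mul (Nat.pow 2 28424) (Nat.add W14c10 (Nat.mul (Nat.pow 2 28424) (W14c11)))))))))))))))))))) = P (w8 22287 37146) (.cons 7752 21 (.cons 17595 19 (.cons 11799 17 .nil))) 22933 :=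
    @P_join2 (w8 22287 37146) 7752 2 19 21 22933 38437 28424 (.cons 17595 19 (.cons 11799 17 .nil)) W14c1 (Nat.add W14c2 (Nat.mul (Nat.pow 2 28424) (Nat.add W14c3 (Nat.mul (Nat.pow 2 28424) (Nat.add W14c4 (Nat.mul (Nat.pow 2 28424) (Nat.add W14c5 (Nat.mul (Nat.pow 2 28424) (Nat.add W14c6 (Nat.mul (Nat.pow 2 28424) (Nat.add W14c7 (Nat.mul (Nat.pow 2 28424) (Nat.add W14c8 (Nat.mul (Nat.pow 2 28424) (Nat.add W14c9 (Nat.mul (Nat.pow 2 28424) (Nat.add W14c10 (Nat.mul (Nat.pow 2 28424) (W14c11)))))))))))))))))))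
      (chkW_sound (by norm_num) (by norm_num) (by norm_num) c14_1) h2 (by norm_num) rfl rfl
  have h0 : Nat.add W14c0 (Nat.mul (Nat.pow 2 28424) (Nat.add W14c1 (Nat.mul (Nat.pow 2 28424) (Nat.add W14c2 (Nat.mul (Nat.pow 2 28424) (Nat.add W14c3 (Nat.mul (Nat.pow 2 28424) (Nat.add W14c4 (Nat.mul (Nat.pow 2 28424) (Nat.add W14c5 (Nat.mul (Nat.pow 2 28424) (Nat.add W14c6 (Nat.mul (Nat.pow 2 28424) (Nat.add W14c7 (Nat.mul (Nat.pow 2 28424) (Nat.add W14c8 (Nat.mul (Nat.pow 2 28424) (Nat.add W14c9 (Nat.mul (Nat.pow 2 28424) (Nat.add W14c10 (Nat.mul (Nat.pow 2 28424) (W14c11)))))))))))))))))))))) = P (w8 22287 37146) (.cons 7752 23 (.cons 17595 19 (.cons 11799 17 .nil))) 7429 :=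
    @P_join2 (w8 22287 37146) 7752 2 21 23 7429 22933 28424 (.cons 17595 19 (.cons 11799 17 .nil)) W14c0 (Nat.add W14c1 (Nat.mul (Nat.pow 2 28424) (Nat.add W14c2 (Nat.mul (Nat.pow 2 28424) (Nat.add W14c3 (Nat.mul (Nat.pow 2 28424) (Nat.add W14c4 (Nat.mul (Nat.pow 2 28424) (Nat.add W14c5 (Nat.mul (Nat.pow 2 28424) (Nat.add W14c6 (Nat.mul (Nat.pow 2 28424) (Nat.add W14c7 (Nat.mul (Nat.pow 2 28424) (Nat.add W14c8 (Nat.mul (Nat.pow 2 28424) (Nat.add W14c9 (Nat.mul (Nat.pow 2 28424) (Nat.add W14c10 (Nat.mul (Nat.pow 2 28424) (W14c11)))))))))))))))))))))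
      (chkW_sound (by norm_num) (by norm_num) (by norm_num) c14_0) h1 (by norm_num) rfl rfl
  exact h0
theorem u13 : W13 = P (w8 22287 32776) (.cons 7752 23 (.cons 17595 19 (.cons 7429 3 .nil))) 11799 :=
  by
  unfold W13
  have h1 := chkW_sound (by norm_num) (by norm_num) (by norm_num) c13_1
  have h0 : Nat.add W13c0 (Nat.mul (Nat.pow 2 30096) (W13c1)) = P (w8 22287 32776) (.cons 7752 23 (.cons 17595 19 (.cons 7429 3 .nil))) 11799 :=
    @P_join2 (w8 22287 32776) 7752 12 11 23 11799 104823 30096 (.cons 17595 19 (.cons 7429 3 .nil)) W13c0 (W13c1)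
      (chkW_sound (by norm_num) (by norm_num) (by norm_num) c13_0) h1 (by norm_num) rfl rfl
  exact h0
theorem u12 : W12 = P (w8 22287 25347) (.cons 7752 23 (.cons 17595 19 .nil)) 19228 :=
  chkW_sound (by norm_num) (by norm_num) (by norm_num) c12_0
theorem u11 : W11 = P (w8 22287 26980) (.cons 7752 23 (.cons 11799 17 (.cons 7429 3 .nil))) 17595 :=
  by
  unfold W11
  have h1 := chkW_sound (by norm_num) (by norm_num) (by norm_num) c11_1
  have h0 : Nat.add W11c0 (Nat.mul (Nat.pow 2 26928) (W11c1)) = P (w8 22287 26980) (.cons 7752 23 (.cons 11799 17 (.cons 7429 3 .nil))) 17595 :=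
    @P_join2 (w8 22287 26980) 7752 12 11 23 17595 110619 26928 (.cons 11799 17 (.cons 7429 3 .nil)) W11c0 (W11c1)
      (chkW_sound (by norm_num) (by norm_num) (by norm_num) c11_0) h1 (by norm_num) rfl rfl
  exact h0
theorem u10 : W10 = P (w8 22287 19551) (.cons 7752 23 (.cons 11799 17 .nil)) 25024 :=
  chkW_sound (by norm_num) (by norm_num) (by norm_num) c10_0
theorem u9 : W9 = P (w8 22287 15181) (.cons 7752 23 (.cons 7429 3 .nil)) 29394 :=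
  chkW_sound (by norm_num) (by norm_num) (by norm_num) c9_0
theorem u8 : W8 = P (w8 22287 7752) (.cons 7752 23 .nil) 36823 :=
  chkW_sound (by norm_num) (by norm_num) (by norm_num) c8_0
theorem u7 : W7 = P (w8 22287 36823) (.cons 17595 19 (.cons 11799 17 (.cons 7429 3 .nil))) 7752 :=
  by
  unfold W7
  have h1 := chkW_sound (by norm_num) (by norm_num) (by norm_num) c7_1
  have h0 : Nat.add W7c0 (Nat.mul (Nat.pow 2 22440) (W7c1)) = P (w8 22287 36823) (.cons 17595 19 (.cons 11799 17 (.cons 7429 3 .nil))) 7752 :=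
    @P_join2 (w8 22287 36823) 17595 10 9 19 7752 183702 22440 (.cons 11799 17 (.cons 7429 3 .nil)) W7c0 (W7c1)
      (chkW_sound (by norm_num) (by norm_num) (by norm_num) c7_0) h1 (by norm_num) rfl rfl
  exact h0
theorem u6 : W6 = P (w8 22287 29394) (.cons 17595 19 (.cons 11799 17 .nil)) 15181 :=
  chkW_sound (by norm_num) (by norm_num) (by norm_num) c6_0
theorem u5 : W5 = P (w8 22287 25024) (.cons 17595 19 (.cons 7429 3 .nil)) 19551 :=
  chkW_sound (by norm_num) (by norm_num) (by norm_num) c5_0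
theorem u4 : W4 = P (w8 22287 17595) (.cons 17595 19 .nil) 26980 :=
  chkW_sound (by norm_num) (by norm_num) (by norm_num) c4_0
theorem u3 : W3 = P (w8 22287 19228) (.cons 11799 17 (.cons 7429 3 .nil)) 25347 :=
  chkW_sound (by norm_num) (by norm_num) (by norm_num) c3_0
theorem u2 : W2 = P (w8 22287 11799) (.cons 11799 17 .nil) 32776 :=
  chkW_sound (by norm_num) (by norm_num) (by norm_num) c2_0
theorem u1 : W1 = P (w8 22287 7429) (.cons 7429 3 .nil) 37146 :=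
  chkW_sound (by norm_num) (by norm_num) (by norm_num) c1_0
theorem tr_eq : tr = TR (w8 22287) [(7752, 23, 8047776, 255), (17595, 19, 324876, 255), (11799, 17, 23784, 1), (7429, 3, 4, 255)] .nil 0 0 :=
  mk_node (mk_node (mk_node (mk_node (mk_leaf rfl u15) (mk_leaf rfl u14)) (mk_node (mk_leaf rfl u13) (mk_leaf rfl u12))) (mk_node (mk_node (mk_leaf rfl u11) (mk_leaf rfl u10)) (mk_node (mk_leaf rfl u9) (mk_leaf rfl u8)))) (mk_node (mk_node (mk_node (mk_leaf rfl u7) (mk_leaf rfl u6)) (mk_node (mk_leaf rfl u5) (mk_leaf rfl u4))) (mk_node (mk_node (mk_leaf rfl u3) (mk_leaf rfl u2)) (mk_node (mk_leaf rfl u1) (mk_leaf rfl (w8_zero _ _).symm))))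
theorem tb (d : ℤ) (n : ℕ)
    (h : ∀ l ∈ ({23, 19, 17, 3} : Finset ℕ), jacobiSym ((n : ℤ) ^ 2 + 4) l = -1) :
    (512 : ℤ) ∣ Pool.Agent.N367.LE.SEr d {23, 19, 17, 3} n -
      256 * (((BT22287 >>> (((n % 23 * 19 + n % 19) * 17 + n % 17) * 3 + n % 3)) % 2 : ℕ) : ℤ) :=
  tb_gen (m := 22287) pd23 pd19 pd17 pd3 (by norm_num) (by norm_num) (by norm_num)
    (by norm_num) (by norm_num) (by norm_num) (show Idem 3 17 19 23 7429 11799 17595 7752 from Idem.of (by decide)) (by norm_num) (by norm_num)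
    (by norm_num) (by rw [← tr_eq]; exact ev_true) d n h

end Pool.Agent.N367.HT.D22287
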