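import Pool.Agent.N367.HT.J
import Pool.Agent.N367.HT.D24871

/-! The sum for 19 17 11 7. -/

namespace Pool.Agent.N367.HT.D24871

open Pool.Agent.N156.HT Pool.Agent.N911.L Pool.Agent.N367.HT

set_option exponentiation.threshold 2000000

theorem u15 : W15 = P (w8 24871 24872) (.cons 11781 19 (.cons 1463 17 (.cons 4522 11 (.cons 7106 7 .nil)))) 0 :=
  by
  unfold W15
  have h18 := chkW_sound (by norm_num) (by norm_num) (by norm_num) c15_18
  have h17 : Nat.add W15c17 (Nat.mul (Nat.pow 2 57596) (W15c18)) = P (w8 24871 24872) (.cons 11781 2 (.cons 1463 17 (.cons 4522 11 (.cons 7106 7 .nil)))) 200277 :=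
    @P_join2 (w8 24871 24872) 11781 1 1 2 200277 212058 57596 (.cons 1463 17 (.cons 4522 11 (.cons 7106 7 .nil))) W15c17 (W15c18)
      (chkW_sound (by norm_num) (by norm_num) (by norm_num) c15_17) h18 (by norm_num) rfl rfl
  have h16 : Nat.add W15c16 (Nat.mul (Nat.pow 2 57596) (Nat.add W15c17 (Nat.mul (Nat.pow 2 57596) (W15c18)))) = P (w8 24871 24872) (.cons 11781 3 (.cons 1463 17 (.cons 4522 11 (.cons 7106 7 .nil)))) 188496 :=
    @P_join2 (w8 24871 24872) 11781 1 2 3 188496 200277 57596 (.cons 1463 17 (.cons 4522 11 (.cons 7106 7 .nil))) W15c16 (Nat.add W15c17 (Nat.mul (Nat.pow 2 57596) (W15c18)))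
      (chkW_sound (by norm_num) (by norm_num) (by norm_num) c15_16) h17 (by norm_num) rfl rfl
  have h15 : Nat.add W15c15 (Nat.mul (Nat.pow 2 57596) (Nat.add W15c16 (Nat.mul (Nat.pow 2 57596) (Nat.add W15c17 (Nat.mul (Nat.pow 2 57596) (W15c18)))))) = P (w8 24871 24872) (.cons 11781 4 (.cons 1463 17 (.cons 4522 11 (.cons 7106 7 .nil)))) 176715 :=
    @P_join2 (w8 24871 24872) 11781 1 3 4 176715 188496 57596 (.cons 1463 17 (.cons 4522 11 (.cons 7106 7 .nil))) W15c15 (Nat.add W15c16 (Nat.mul (Nat.pow 2 57596) (Nat.add W15c17 (Nat.mul (Nat.pow 2 57596) (W15c18)))))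
      (chkW_sound (by norm_num) (by norm_num) (by norm_num) c15_15) h16 (by norm_num) rfl rfl
  have h14 : Nat.add W15c14 (Nat.mul (Nat.pow 2 57596) (Nat.add W15c15 (Nat.mul (Nat.pow 2 57596) (Nat.add W15c16 (Nat.mul (Nat.pow 2 57596) (Nat.add W15c17 (Nat.mul (Nat.pow 2 57596) (W15c18)))))))) = P (w8 24871 24872) (.cons 11781 5 (.cons 1463 17 (.cons 4522 11 (.cons 7106 7 .nil)))) 164934 :=
    @P_join2 (w8 24871 24872) 11781 1 4 5 164934 176715 57596 (.cons 1463 17 (.cons 4522 11 (.cons 7106 7 .nil))) W15c14 (Nat.add W15c15 (Nat.mul (Nat.pow 2 57596) (Nat.add W15c16 (Nat.mul (Nat.pow 2 57596) (Nat.add W15c17 (Nat.mul (Nat.pow 2 57596) (W15c18)))))))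
      (chkW_sound (by norm_num) (by norm_num) (by norm_num) c15_14) h15 (by norm_num) rfl rfl
  have h13 : Nat.add W15c13 (Nat.mul (Nat.pow 2 57596) (Nat.add W15c14 (Nat.mul (Nat.pow 2 57596) (Nat.add W15c15 (Nat.mul (Nat.pow 2 57596) (Nat.add W15c16 (Nat.mul (Nat.pow 2 57596) (Nat.add W15c17 (Nat.mul (Nat.pow 2 57596) (W15c18)))))))))) = P (w8 24871 24872) (.cons 11781 6 (.cons 1463 17 (.cons 4522 11 (.cons 7106 7 .nil)))) 153153 :=
    @P_join2 (w8 24871 24872) 11781 1 5 6 153153 164934 57596 (.cons 1463 17 (.cons 4522 11 (.cons 7106 7 .nil))) W15c13 (Nat.add W15c14 (Nat.mul (Nat.pow 2 57596) (Nat.add W15c15 (Nat.mul (Nat.pow 2 57596) (Nat.add W15c16 (Nat.mul (Nat.pow 2 57596) (Nat.add W15c17 (Nat.mul (Nat.pow 2 57596) (W15c18)))))))))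
      (chkW_sound (by norm_num) (by norm_num) (by norm_num) c15_13) h14 (by norm_num) rfl rfl
  have h12 : Nat.add W15c12 (Nat.mul (Nat.pow 2 57596) (Nat.add W15c13 (Nat.mul (Nat.pow 2 57596) (Nat.add W15c14 (Nat.mul (Nat.pow 2 57596) (Nat.add W15c15 (Nat.mul (Nat.pow 2 57596) (Nat.add W15c16 (Nat.mul (Nat.pow 2 57596) (Nat.add W15c17 (Nat.mul (Nat.pow 2 57596) (W15c18)))))))))))) = P (w8 24871 24872) (.cons 11781 7 (.cons 1463 17 (.cons 4522 11 (.cons 7106 7 .nil)))) 141372 :=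
    @P_join2 (w8 24871 24872) 11781 1 6 7 141372 153153 57596 (.cons 1463 17 (.cons 4522 11 (.cons 7106 7 .nil))) W15c12 (Nat.add W15c13 (Nat.mul (Nat.pow 2 57596) (Nat.add W15c14 (Nat.mul (Nat.pow 2 57596) (Nat.add W15c15 (Nat.mul (Nat.pow 2 57596) (Nat.add W15c16 (Nat.mul (Nat.pow 2 57596) (Nat.add W15c17 (Nat.mul (Nat.pow 2 57596) (W15c18)))))))))))
      (chkW_sound (by norm_num) (by norm_num) (by norm_num) c15_12) h13 (by norm_num) rfl rfl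
  have h11 : Nat.add W15c11 (Nat.mul (Nat.pow 2 57596) (Nat.add W15c12 (Nat.mul (Nat.pow 2 57596) (Nat.add W15c13 (Nat.mul (Nat.pow 2 57596) (Nat.add W15c14 (Nat.mul (Nat.pow 2 57596) (Nat.add W15c15 (Nat.mul (Nat.pow 2 57596) (Nat.add W15c16 (Nat.mul (Nat.pow 2 57596) (Nat.add W15c17 (Nat.mul (Nat.pow 2 57596) (W15c18)))))))))))))) = P (w8 24871 24872) (.cons 11781 8 (.cons 1463 17 (.cons 4522 11 (.cons 7106 7 .nil)))) 129591 :=
    @P_join2 (w8 24871 24872) 11781 1 7 8 129591 141372 57596 (.cons 1463 17 (.cons 4522 11 (.cons 7106 7 .nil))) W15c11 (Nat.add W15c12 (Nat.mul (Nat.pow 2 57596) (Nat.add W15c13 (Nat.mul (Nat.pow 2 57596) (Nat.add W15c14 (Nat.mul (Nat.pow 2 57596) (Nat.add W15c15 (Nat.mul (Nat.pow 2 57596) (Nat.add W15c16 (Nat.mul (Nat.pow 2 57596) (Nat.add W15c17 (Nat.mul (Nat.pow 2 57596) (W15c18)))))))))))))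
      (chkW_sound (by norm_num) (by norm_num) (by norm_num) c15_11) h12 (by norm_num) rfl rfl
  have h10 : Nat.add W15c10 (Nat.mul (Nat.pow 2 57596) (Nat.add W15c11 (Nat.mul (Nat.pow 2 57596) (Nat.add W15c12 (Nat.mul (Nat.pow 2 57596) (Nat.add W15c13 (Nat.mul (Nat.pow 2 57596) (Nat.add W15c14 (Nat.mul (Nat.pow 2 57596) (Nat.add W15c15 (Nat.mul (Nat.pow 2 57596) (Nat.add W15c16 (Nat.mul (Nat.pow 2 57596) (Nat.add W15c17 (Nat.mul (Nat.pow 2 57596) (W15c18)))))))))))))))) = P (w8 24871 24872) (.cons 11781 9 (.cons 1463 17 (.cons 4522 11 (.cons 7106 7 .nil)))) 117810 :=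
    @P_join2 (w8 24871 24872) 11781 1 8 9 117810 129591 57596 (.cons 1463 17 (.cons 4522 11 (.cons 7106 7 .nil))) W15c10 (Nat.add W15c11 (Nat.mul (Nat.pow 2 57596) (Nat.add W15c12 (Nat.mul (Nat.pow 2 57596) (Nat.add W15c13 (Nat.mul (Nat.pow 2 57596) (Nat.add W15c14 (Nat.mul (Nat.pow 2 57596) (Nat.add W15c15 (Nat.mul (Nat.pow 2 57596) (Nat.add W15c16 (Nat.mul (Nat.pow 2 57596) (Nat.add W15c17 (Nat.mul (Nat.pow 2 57596) (W15c18)))))))))))))))
      (chkW_sound (by norm_num) (by norm_num) (by norm_num) c15_10) h11 (by norm_num) rfl rfl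
  have h9 : Nat.add W15c9 (Nat.mul (Nat.pow 2 57596) (Nat.add W15c10 (Nat.mul (Nat.pow 2 57596) (Nat.add W15c11 (Nat.mul (Nat.pow 2 57596) (Nat.add W15c12 (Nat.mul (Nat.pow 2 57596) (Nat.add W15c13 (Nat.mul (Nat.pow 2 57596) (Nat.add W15c14 (Nat.mul (Nat.pow 2 57596) (Nat.add W15c15 (Nat.mul (Nat.pow 2 57596) (Nat.add W15c16 (Nat.mul (Nat.pow 2 57596) (Nat.add W15c17 (Nat.mul (Nat.pow 2 57596) (W15c18)))))))))))))))))) = P (w8 24871 24872) (.cons 11781 10 (.cons 1463 17 (.cons 4522 11 (.cons 7106 7 .nil)))) 106029 :=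
    @P_join2 (w8 24871 24872) 11781 1 9 10 106029 117810 57596 (.cons 1463 17 (.cons 4522 11 (.cons 7106 7 .nil))) W15c9 (Nat.add W15c10 (Nat.mul (Nat.pow 2 57596) (Nat.add W15c11 (Nat.mul (Nat.pow 2 57596) (Nat.add W15c12 (Nat.mul (Nat.pow 2 57596) (Nat.add W15c13 (Nat.mul (Nat.pow 2 57596) (Nat.add W15c14 (Nat.mul (Nat.pow 2 57596) (Nat.add W15c15 (Nat.mul (Nat.pow 2 57596) (Nat.add W15c16 (Nat.mul (Nat.pow 2 57596) (Nat.add W15c17 (Nat.mul (Nat.pow 2 57596) (W15c18)))))))))))))))))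
      (chkW_sound (by norm_num) (by norm_num) (by norm_num) c15_9) h10 (by norm_num) rfl rfl
  have h8 : Nat.add W15c8 (Nat.mul (Nat.pow 2 57596) (Nat.add W15c9 (Nat.mul (Nat.pow 2 57596) (Nat.add W15c10 (Nat.mul (Nat.pow 2 57596) (Nat.add W15c11 (Nat.mul (Nat.pow 2 57596) (Nat.add W15c12 (Nat.mul (Nat.pow 2 57596) (Nat.add W15c13 (Nat.mul (Nat.pow 2 57596) (Nat.add W15c14 (Nat.mul (Nat.pow 2 57596) (Nat.add W15c15 (Nat.mul (Nat.pow 2 57596) (Nat.add W15c16 (Nat.mul (Nat.pow 2 57596) (Nat.add W15c17 (Nat.mul (Nat.pow 2 57596) (W15c18)))))))))))))))))))) = P (w8 24871 24872) (.cons 11781 11 (.cons 1463 17 (.cons 4522 11 (.cons 7106 7 .nil)))) 94248 :=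
    @P_join2 (w8 24871 24872) 11781 1 10 11 94248 106029 57596 (.cons 1463 17 (.cons 4522 11 (.cons 7106 7 .nil))) W15c8 (Nat.add W15c9 (Nat.mul (Nat.pow 2 57596) (Nat.add W15c10 (Nat.mul (Nat.pow 2 57596) (Nat.add W15c11 (Nat.mul (Nat.pow 2 57596) (Nat.add W15c12 (Nat.mul (Nat.pow 2 57596) (Nat.add W15c13 (Nat.mul (Nat.pow 2 57596) (Nat.add W15c14 (Nat.mul (Nat.pow 2 57596) (Nat.add W15c15 (Nat.mul (Nat.pow 2 57596) (Nat.add W15c16 (Nat.mul (Nat.pow 2 57596) (Nat.add W15c17 (Nat.mul (Nat.pow 2 57596) (W15c18)))))))))))))))))))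
      (chkW_sound (by norm_num) (by norm_num) (by norm_num) c15_8) h9 (by norm_num) rfl rfl
  have h7 : Nat.add W15c7 (Nat.mul (Nat.pow 2 57596) (Nat.add W15c8 (Nat.mul (Nat.pow 2 57596) (Nat.add W15c9 (Nat.mul (Nat.pow 2 57596) (Nat.add W15c10 (Nat.mul (Nat.pow 2 57596) (Nat.add W15c11 (Nat.mul (Nat.pow 2 57596) (Nat.add W15c12 (Nat.mul (Nat.pow 2 57596) (Nat.add W15c13 (Nat.mul (Nat.pow 2 57596) (Nat.add W15c14 (Nat.mul (Nat.pow 2 57596) (Nat.add W15c15 (Nat.mul (Nat.pow 2 57596) (Nat.add W15c16 (Nat.mul (Nat.pow 2 57596) (Nat.add W15c17 (Nat.mul (Nat.pow 2 57596) (W15c18)))))))))))))))))))))) = P (w8 24871 24872) (.cons 11781 12 (.cons 1463 17 (.cons 4522 11 (.cons 7106 7 .nil)))) 82467 :=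
    @P_join2 (w8 24871 24872) 11781 1 11 12 82467 94248 57596 (.cons 1463 17 (.cons 4522 11 (.cons 7106 7 .nil))) W15c7 (Nat.add W15c8 (Nat.mul (Nat.pow 2 57596) (Nat.add W15c9 (Nat.mul (Nat.pow 2 57596) (Nat.add W15c10 (Nat.mul (Nat.pow 2 57596) (Nat.add W15c11 (Nat.mul (Nat.pow 2 57596) (Nat.add W15c12 (Nat.mul (Nat.pow 2 57596) (Nat.add W15c13 (Nat.mul (Nat.pow 2 57596) (Nat.add W15c14 (Nat.mul (Nat.pow 2 57596) (Nat.add W15c15 (Nat.mul (Nat.pow 2 57596) (Nat.add W15c16 (Nat.mul (Nat.pow 2 57596) (Nat.add W15c17 (Nat.mul (Nat.pow 2 57596) (W15c18)))))))))))))))))))))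
      (chkW_sound (by norm_num) (by norm_num) (by norm_num) c15_7) h8 (by norm_num) rfl rfl
  have h6 : Nat.add W15c6 (Nat.mul (Nat.pow 2 57596) (Nat.add W15c7 (Nat.mul (Nat.pow 2 57596) (Nat.add W15c8 (Nat.mul (Nat.pow 2 57596) (Nat.add W15c9 (Nat.mul (Nat.pow 2 57596) (Nat.add W15c10 (Nat.mul (Nat.pow 2 57596) (Nat.add W15c11 (Nat.mul (Nat.pow 2 57596) (Nat.add W15c12 (Nat.mul (Nat.pow 2 57596) (Nat.add W15c13 (Nat.mul (Nat.pow 2 57596) (Nat.add W15c14 (Nat.mul (Nat.pow 2 57596) (Nat.add W15c15 (Nat.mul (Nat.pow 2 57596) (Nat.add W15c16 (Nat.mul (Nat.pow 2 57596) (Nat.add W15c17 (Nat.mul (Nat.pow 2 57596) (W15c18)))))))))))))))))))))))) = P (w8 24871 24872) (.cons 11781 13 (.cons 1463 17 (.cons 4522 11 (.cons 7106 7 .nil)))) 70686 :=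
    @P_join2 (w8 24871 24872) 11781 1 12 13 70686 82467 57596 (.cons 1463 17 (.cons 4522 11 (.cons 7106 7 .nil))) W15c6 (Nat.add W15c7 (Nat.mul (Nat.pow 2 57596) (Nat.add W15c8 (Nat.mul (Nat.pow 2 57596) (Nat.add W15c9 (Nat.mul (Nat.pow 2 57596) (Nat.add W15c10 (Nat.mul (Nat.pow 2 57596) (Nat.add W15c11 (Nat.mul (Nat.pow 2 57596) (Nat.add W15c12 (Nat.mul (Nat.pow 2 57596) (Nat.add W15c13 (Nat.mul (Nat.pow 2 57596) (Nat.add W15c14 (Nat.mul (Nat.pow 2 57596) (Nat.add W15c15 (Nat.mul (Nat.pow 2 57596) (Nat.add W15c16 (Nat.mul (Nat.pow 2 57596) (Nat.add W15c17 (Nat.mul (Nat.pow 2 57596) (W15c18)))))))))))))))))))))))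
      (chkW_sound (by norm_num) (by norm_num) (by norm_num) c15_6) h7 (by norm_num) rfl rfl
  have h5 : Nat.add W15c5 (Nat.mul (Nat.pow 2 57596) (Nat.add W15c6 (Nat.mul (Nat.pow 2 57596) (Nat.add W15c7 (Nat.mul (Nat.pow 2 57596) (Nat.add W15c8 (Nat.mul (Nat.pow 2 57596) (Nat.add W15c9 (Nat.mul (Nat.pow 2 57596) (Nat.add W15c10 (Nat.mul (Nat.pow 2 57596) (Nat.add W15c11 (Nat.mul (Nat.pow 2 57596) (Nat.add W15c12 (Nat.mul (Nat.pow 2 57596) (Nat.add W15c13 (Nat.mul (Nat.pow 2 57596) (Nat.add W15c14 (Nat.mul (Nat.pow 2 57596) (Nat.add W15c15 (Nat.mul (Nat.pow 2 57596) (Nat.add W15c16 (Nat.mul (Nat.pow 2 57596) (Nat.add W15c17 (Nat.mul (Nat.pow 2 57596) (W15c18)))))))))))))))))))))))))) = P (w8 24871 24872) (.cons 11781 14 (.cons 1463 17 (.cons 4522 11 (.cons 7106 7 .nil)))) 58905 :=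
    @P_join2 (w8 24871 24872) 11781 1 13 14 58905 70686 57596 (.cons 1463 17 (.cons 4522 11 (.cons 7106 7 .nil))) W15c5 (Nat.add W15c6 (Nat.mul (Nat.pow 2 57596) (Nat.add W15c7 (Nat.mul (Nat.pow 2 57596) (Nat.add W15c8 (Nat.mul (Nat.pow 2 57596) (Nat.add W15c9 (Nat.mul (Nat.pow 2 57596) (Nat.add W15c10 (Nat.mul (Nat.pow 2 57596) (Nat.add W15c11 (Nat.mul (Nat.pow 2 57596) (Nat.add W15c12 (Nat.mul (Nat.pow 2 57596) (Nat.add W15c13 (Nat.mul (Nat.pow 2 57596) (Nat.add W15c14 (Nat.mul (Nat.pow 2 57596) (Nat.add W15c15 (Nat.mul (Nat.pow 2 57596) (Nat.add W15c16 (Nat.mul (Nat.pow 2 57596) (Nat.add W15c17 (Nat.mul (Nat.pow 2 57596) (W15c18)))))))))))))))))))))))))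
      (chkW_sound (by norm_num) (by norm_num) (by norm_num) c15_5) h6 (by norm_num) rfl rfl
  have h4 : Nat.add W15c4 (Nat.mul (Nat.pow 2 57596) (Nat.add W15c5 (Nat.mul (Nat.pow 2 57596) (Nat.add W15c6 (Nat.mul (Nat.pow 2 57596) (Nat.add W15c7 (Nat.mul (Nat.pow 2 57596) (Nat.add W15c8 (Nat.mul (Nat.pow 2 57596) (Nat.add W15c9 (Nat.mul (Nat.pow 2 57596) (Nat.add W15c10 (Nat.mul (Nat.pow 2 57596) (Nat.add W15c11 (Nat.mul (Nat.pow 2 57596) (Nat.add W15c12 (Nat.mul (Nat.pow 2 57596) (Nat.add W15c13 (Nat.mul (Nat.pow 2 57596) (Nat.add W15c14 (Nat.mul (Nat.pow 2 57596) (Nat.add W15c15 (Nat.mul (Nat.pow 2 57596) (Nat.add W15c16 (Nat.mul (Nat.pow 2 57596) (Nat.add W15c17 (Nat.mul (Nat.pow 2 57596) (W15c18)))))))))))))))))))))))))))) = P (w8 24871 24872) (.cons 11781 15 (.cons 1463 17 (.cons 4522 11 (.cons 7106 7 .nil)))) 47124 :=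
    @P_join2 (w8 24871 24872) 11781 1 14 15 47124 58905 57596 (.cons 1463 17 (.cons 4522 11 (.cons 7106 7 .nil))) W15c4 (Nat.add W15c5 (Nat.mul (Nat.pow 2 57596) (Nat.add W15c6 (Nat.mul (Nat.pow 2 57596) (Nat.add W15c7 (Nat.mul (Nat.pow 2 57596) (Nat.add W15c8 (Nat.mul (Nat.pow 2 57596) (Nat.add W15c9 (Nat.mul (Nat.pow 2 57596) (Nat.add W15c10 (Nat.mul (Nat.pow 2 57596) (Nat.add W15c11 (Nat.mul (Nat.pow 2 57596) (Nat.add W15c12 (Nat.mul (Nat.pow 2 57596) (Nat.add W15c13 (Nat.mul (Nat.pow 2 57596) (Nat.add W15c14 (Nat.mul (Nat.pow 2 57596) (Nat.add W15c15 (Nat.mul (Nat.pow 2 57596) (Nat.add W15c16 (Nat.mul (Nat.pow 2 57596) (Nat.add W15c17 (Nat.mul (Nat.pow 2 57596) (W15c18)))))))))))))))))))))))))))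
      (chkW_sound (by norm_num) (by norm_num) (by norm_num) c15_4) h5 (by norm_num) rfl rfl
  have h3 : Nat.add W15c3 (Nat.mul (Nat.pow 2 57596) (Nat.add W15c4 (Nat.mul (Nat.pow 2 57596) (Nat.add W15c5 (Nat.mul (Nat.pow 2 57596) (Nat.add W15c6 (Nat.mul (Nat.pow 2 57596) (Nat.add W15c7 (Nat.mul (Nat.pow 2 57596) (Nat.add W15c8 (Nat.mul (Nat.pow 2 57596) (Nat.add W15c9 (Nat.mul (Nat.pow 2 57596) (Nat.add W15c10 (Nat.mul (Nat.pow 2 57596) (Nat.add W15c11 (Nat.mul (Nat.pow 2 57596) (Nat.add W15c12 (Nat.mul (Nat.pow 2 57596) (Nat.add W15c13 (Nat.mul (Nat.pow 2 57596) (Nat.add W15c14 (Nat.mul (Nat.pow 2 57596) (Nat.add W15c15 (Nat.mul (Nat.pow 2 57596) (Nat.add W15c16 (Nat.mul (Nat.pow 2 57596) (Nat.add W15c17 (Nat.mul (Nat.pow 2 57596) (W15c18)))))))))))))))))))))))))))))) = P (w8 24871 24872) (.cons 11781 16 (.cons 1463 17 (.cons 4522 11 (.cons 7106 7 .nil)))) 35343 :=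
    @P_join2 (w8 24871 24872) 11781 1 15 16 35343 47124 57596 (.cons 1463 17 (.cons 4522 11 (.cons 7106 7 .nil))) W15c3 (Nat.add W15c4 (Nat.mul (Nat.pow 2 57596) (Nat.add W15c5 (Nat.mul (Nat.pow 2 57596) (Nat.add W15c6 (Nat.mul (Nat.pow 2 57596) (Nat.add W15c7 (Nat.mul (Nat.pow 2 57596) (Nat.add W15c8 (Nat.mul (Nat.pow 2 57596) (Nat.add W15c9 (Nat.mul (Nat.pow 2 57596) (Nat.add W15c10 (Nat.mul (Nat.pow 2 57596) (Nat.add W15c11 (Nat.mul (Nat.pow 2 57596) (Nat.add W15c12 (Nat.mul (Nat.pow 2 57596) (Nat.add W15c13 (Nat.mul (Nat.pow 2 57596) (Nat.add W15c14 (Nat.mul (Nat.pow 2 57596) (Nat.add W15c15 (Nat.mul (Nat.pow 2 57596) (Nat.add W15c16 (Nat.mul (Nat.pow 2 57596) (Nat.add W15c17 (Nat.mul (Nat.pow 2 57596) (W15c18)))))))))))))))))))))))))))))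
      (chkW_sound (by norm_num) (by norm_num) (by norm_num) c15_3) h4 (by norm_num) rfl rfl
  have h2 : Nat.add W15c2 (Nat.mul (Nat.pow 2 57596) (Nat.add W15c3 (Nat.mul (Nat.pow 2 57596) (Nat.add W15c4 (Nat.mul (Nat.pow 2 57596) (Nat.add W15c5 (Nat.mul (Nat.pow 2 57596) (Nat.add W15c6 (Nat.mul (Nat.pow 2 57596) (Nat.add W15c7 (Nat.mul (Nat.pow 2 57596) (Nat.add W15c8 (Nat.mul (Nat.pow 2 57596) (Nat.add W15c9 (Nat.mul (Nat.pow 2 57596) (Nat.add W15c10 (Nat.mul (Nat.pow 2 57596) (Nat.add W15c11 (Nat.mul (Nat.pow 2 57596) (Nat.add W15c12 (Nat.mul (Nat.pow 2 57596) (Nat.add W15c13 (Nat.mul (Nat.pow 2 57596) (Nat.add W15c14 (Nat.mul (Nat.pow 2 57596) (Nat.add W15c15 (Nat.mul (Nat.pow 2 57596) (Nat.add W15c16 (Nat.mul (Nat.pow 2 57596) (Nat.add W15c17 (Nat.mul (Nat.pow 2 57596) (W15c18)))))))))))))))))))))))))))))))) = P (w8 24871 24872) (.cons 11781 17 (.cons 1463 17 (.cons 4522 11 (.cons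 7106 7 .nil)))) 23562 :=
    @P_join2 (w8 24871 24872) 11781 1 16 17 23562 35343 57596 (.cons 1463 17 (.cons 4522 11 (.cons 7106 7 .nil))) W15c2 (Nat.add W15c3 (Nat.mul (Nat.pow 2 57596) (Nat.add W15c4 (Nat.mul (Nat.pow 2 57596) (Nat.add W15c5 (Nat.mul (Nat.pow 2 57596) (Nat.add W15c6 (Nat.mul (Nat.pow 2 57596) (Nat.add W15c7 (Nat.mul (Nat.pow 2 57596) (Nat.add W15c8 (Nat.mul (Nat.pow 2 57596) (Nat.add W15c9 (Nat.mul (Nat.pow 2 57596) (Nat.add W15c10 (Nat.mul (Nat.pow 2 57596) (Nat.add W15c11 (Nat.mul (Nat.pow 2 57596) (Nat.add W15c12 (Nat.mul (Nat.pow 2 57596) (Nat.add W15c13 (Nat.mul (Nat.pow 2 57596) (Nat.add W15c14 (Nat.mul (Nat.pow 2 57596) (Nat.add W15c15 (Nat.mul (Nat.pow 2 57596) (Nat.add W15c16 (Nat.mul (Nat.pow 2 57596) (Nat.add W15c17 (Nat.mul (Nat.pow 2 57596) (W15c18)))))))))))))))))))))))))))))))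
      (chkW_sound (by norm_num) (by norm_num) (by norm_num) c15_2) h3 (by norm_num) rfl rfl
  have h1 : Nat.add W15c1 (Nat.mul (Nat.pow 2 57596) (Nat.add W15c2 (Nat.mul (Nat.pow 2 57596) (Nat.add W15c3 (Nat.mul (Nat.pow 2 57596) (Nat.add W15c4 (Nat.mul (Nat.pow 2 57596) (Nat.add W15c5 (Nat.mul (Nat.pow 2 57596) (Nat.add W15c6 (Nat.mul (Nat.pow 2 57596) (Nat.add W15c7 (Nat.mul (Nat.pow 2 57596) (Nat.add W15c8 (Nat.mul (Nat.pow 2 57596) (Nat.add W15c9 (Nat.mul (Nat.pow 2 57596) (Nat.add W15c10 (Nat.mul (Nat.pow 2 57596) (Nat.add W15c11 (Nat.mul (Nat.pow 2 57596) (Nat.add W15c12 (Nat.mul (Nat.pow 2 57596) (Nat.add W15c13 (Nat.mul (Nat.pow 2 57596) (Nat.add W15c14 (Nat.mul (Nat.pow 2 57596) (Nat.add W15c15 (Nat.mul (Nat.pow 2 57596) (Nat.add W15c16 (Nat.mul (Nat.pow 2 57596) (Nat.add W15c17 (Nat.mul (Nat.pow 2 57596) (W15c18)))))))))))))))))))))))))))))))))) = P (w8 24871 24872) (.cons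 11781 18 (.cons 1463 17 (.cons 4522 11 (.cons 7106 7 .nil)))) 11781 :=
    @P_join2 (w8 24871 24872) 11781 1 17 18 11781 23562 57596 (.cons 1463 17 (.cons 4522 11 (.cons 7106 7 .nil))) W15c1 (Nat.add W15c2 (Nat.mul (Nat.pow 2 57596) (Nat.add W15c3 (Nat.mul (Nat.pow 2 57596) (Nat.add W15c4 (Nat.mul (Nat.pow 2 57596) (Nat.add W15c5 (Nat.mul (Nat.pow 2 57596) (Nat.add W15c6 (Nat.mul (Nat.pow 2 57596) (Nat.add W15c7 (Nat.mul (Nat.pow 2 57596) (Nat.add W15c8 (Nat.mul (Nat.pow 2 57596) (Nat.add W15c9 (Nat.mul (Nat.pow 2 57596) (Nat.add W15c10 (Nat.mul (Nat.pow 2 57596) (Nat.add W15c11 (Nat.mul (Nat.pow 2 57596) (Nat.add W15c12 (Nat.mul (Nat.pow 2 57596) (Nat.add W15c13 (Nat.mul (Nat.pow 2 57596) (Nat.add W15c14 (Nat.mul (Nat.pow 2 57596) (Nat.add W15c15 (Nat.mul (Nat.pow 2 57596) (Nat.add W15c16 (Nat.mul (Nat.pow 2 57596) (Nat.add W15c17 (Nat.mul (Nat.pow 2 57596) (W15c18)))))))))))))))))))))))))))))))))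
      (chkW_sound (by norm_num) (by norm_num) (by norm_num) c15_1) h2 (by norm_num) rfl rfl
  have h0 : Nat.add W15c0 (Nat.mul (Nat.pow 2 57596) (Nat.add W15c1 (Nat.mul (Nat.pow 2 57596) (Nat.add W15c2 (Nat.mul (Nat.pow 2 57596) (Nat.add W15c3 (Nat.mul (Nat.pow 2 57596) (Nat.add W15c4 (Nat.mul (Nat.pow 2 57596) (Nat.add W15c5 (Nat.mul (Nat.pow 2 57596) (Nat.add W15c6 (Nat.mul (Nat.pow 2 57596) (Nat.add W15c7 (Nat.mul (Nat.pow 2 57596) (Nat.add W15c8 (Nat.mul (Nat.pow 2 57596) (Nat.add W15c9 (Nat.mul (Nat.pow 2 57596) (Nat.add W15c10 (Nat.mul (Nat.pow 2 57596) (Nat.add W15c11 (Nat.mul (Nat.pow 2 57596) (Nat.add W15c12 (Nat.mul (Nat.pow 2 57596) (Nat.add W15c13 (Nat.mul (Nat.pow 2 57596) (Nat.add W15c14 (Nat.mul (Nat.pow 2 57596) (Nat.add W15c15 (Nat.mul (Nat.pow 2 57596) (Nat.add W15c16 (Nat.mul (Nat.pow 2 57596) (Nat.add W15c17 (Nat.mul (Nat.pow 2 57596) (W15c18))))))))))))))))))))))))))))))))))))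 = P (w8 24871 24872) (.cons 11781 19 (.cons 1463 17 (.cons 4522 11 (.cons 7106 7 .nil)))) 0 :=
    @P_join2 (w8 24871 24872) 11781 1 18 19 0 11781 57596 (.cons 1463 17 (.cons 4522 11 (.cons 7106 7 .nil))) W15c0 (Nat.add W15c1 (Nat.mul (Nat.pow 2 57596) (Nat.add W15c2 (Nat.mul (Nat.pow 2 57596) (Nat.add W15c3 (Nat.mul (Nat.pow 2 57596) (Nat.add W15c4 (Nat.mul (Nat.pow 2 57596) (Nat.add W15c5 (Nat.mul (Nat.pow 2 57596) (Nat.add W15c6 (Nat.mul (Nat.pow 2 57596) (Nat.add W15c7 (Nat.mul (Nat.pow 2 57596) (Nat.add W15c8 (Nat.mul (Nat.pow 2 57596) (Nat.add W15c9 (Nat.mul (Nat.pow 2 57596) (Nat.add W15c10 (Nat.mul (Nat.pow 2 57596) (Nat.add W15c11 (Nat.mul (Nat.pow 2 57596) (Nat.add W15c12 (Nat.mul (Nat.pow 2 57596) (Nat.add W15c13 (Nat.mul (Nat.pow 2 57596) (Nat.add W15c14 (Nat.mul (Nat.pow 2 57596) (Nat.add W15c15 (Nat.mul (Nat.pow 2 57596) (Nat.add W15c16 (Nat.mul (Nat.pow 2 57596) (Nat.add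 W15c17 (Nat.mul (Nat.pow 2 57596) (W15c18)))))))))))))))))))))))))))))))))))
      (chkW_sound (by norm_num) (by norm_num) (by norm_num) c15_0) h1 (by norm_num) rfl rfl
  exact h0
theorem u14 : W14 = P (w8 24871 17766) (.cons 11781 19 (.cons 1463 17 (.cons 4522 11 .nil))) 7106 :=
  by
  unfold W14
  have h6 := chkW_sound (by norm_num) (by norm_num) (by norm_num) c14_6
  have h5 : Nat.add W14c5 (Nat.mul (Nat.pow 2 16456) (W14c6)) = P (w8 24871 17766) (.cons 11781 4 (.cons 1463 17 (.cons 4522 11 .nil))) 183821 :=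
    @P_join2 (w8 24871 17766) 11781 2 2 4 183821 207383 16456 (.cons 1463 17 (.cons 4522 11 .nil)) W14c5 (W14c6)
      (chkW_sound (by norm_num) (by norm_num) (by norm_num) c14_5) h6 (by norm_num) rfl rfl
  have h4 : Nat.add W14c4 (Nat.mul (Nat.pow 2 24684) (Nat.add W14c5 (Nat.mul (Nat.pow 2 16456) (W14c6)))) = P (w8 24871 17766) (.cons 11781 7 (.cons 1463 17 (.cons 4522 11 .nil))) 148478 :=
    @P_join2 (w8 24871 17766) 11781 3 4 7 148478 183821 24684 (.cons 1463 17 (.cons 4522 11 .nil)) W14c4 (Nat.add W14c5 (Nat.mul (Nat.pow 2 16456) (W14c6)))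
      (chkW_sound (by norm_num) (by norm_num) (by norm_num) c14_4) h5 (by norm_num) rfl rfl
  have h3 : Nat.add W14c3 (Nat.mul (Nat.pow 2 24684) (Nat.add W14c4 (Nat.mul (Nat.pow 2 24684) (Nat.add W14c5 (Nat.mul (Nat.pow 2 16456) (W14c6)))))) = P (w8 24871 17766) (.cons 11781 10 (.cons 1463 17 (.cons 4522 11 .nil))) 113135 :=
    @P_join2 (w8 24871 17766) 11781 3 7 10 113135 148478 24684 (.cons 1463 17 (.cons 4522 11 .nil)) W14c3 (Nat.add W14c4 (Nat.mul (Nat.pow 2 24684) (Nat.add W14c5 (Nat.mul (Nat.pow 2 16456) (W14c6)))))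
      (chkW_sound (by norm_num) (by norm_num) (by norm_num) c14_3) h4 (by norm_num) rfl rfl
  have h2 : Nat.add W14c2 (Nat.mul (Nat.pow 2 24684) (Nat.add W14c3 (Nat.mul (Nat.pow 2 24684) (Nat.add W14c4 (Nat.mul (Nat.pow 2 24684) (Nat.add W14c5 (Nat.mul (Nat.pow 2 16456) (W14c6)))))))) = P (w8 24871 17766) (.cons 11781 13 (.cons 1463 17 (.cons 4522 11 .nil))) 77792 :=
    @P_join2 (w8 24871 17766) 11781 3 10 13 77792 113135 24684 (.cons 1463 17 (.cons 4522 11 .nil)) W14c2 (Nat.add W14c3 (Nat.mul (Nat.pow 2 24684) (Nat.add W14c4 (Nat.mul (Nat.pow 2 24684) (Nat.add W14c5 (Nat.mul (Nat.pow 2 16456) (W14c6)))))))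
      (chkW_sound (by norm_num) (by norm_num) (by norm_num) c14_2) h3 (by norm_num) rfl rfl
  have h1 : Nat.add W14c1 (Nat.mul (Nat.pow 2 24684) (Nat.add W14c2 (Nat.mul (Nat.pow 2 24684) (Nat.add W14c3 (Nat.mul (Nat.pow 2 24684) (Nat.add W14c4 (Nat.mul (Nat.pow 2 24684) (Nat.add W14c5 (Nat.mul (Nat.pow 2 16456) (W14c6)))))))))) = P (w8 24871 17766) (.cons 11781 16 (.cons 1463 17 (.cons 4522 11 .nil))) 42449 :=
    @P_join2 (w8 24871 17766) 11781 3 13 16 42449 77792 24684 (.cons 1463 17 (.cons 4522 11 .nil)) W14c1 (Nat.add W14c2 (Nat.mul (Nat.pow 2 24684) (Nat.add W14c3 (Nat.mul (Nat.pow 2 24684) (Nat.add W14c4 (Nat.mul (Nat.pow 2 24684) (Nat.add W14c5 (Nat.mul (Nat.pow 2 16456) (W14c6)))))))))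
      (chkW_sound (by norm_num) (by norm_num) (by norm_num) c14_1) h2 (by norm_num) rfl rfl
  have h0 : Nat.add W14c0 (Nat.mul (Nat.pow 2 24684) (Nat.add W14c1 (Nat.mul (Nat.pow 2 24684) (Nat.add W14c2 (Nat.mul (Nat.pow 2 24684) (Nat.add W14c3 (Nat.mul (Nat.pow 2 24684) (Nat.add W14c4 (Nat.mul (Nat.pow 2 24684) (Nat.add W14c5 (Nat.mul (Nat.pow 2 16456) (W14c6)))))))))))) = P (w8 24871 17766) (.cons 11781 19 (.cons 1463 17 (.cons 4522 11 .nil))) 7106 :=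
    @P_join2 (w8 24871 17766) 11781 3 16 19 7106 42449 24684 (.cons 1463 17 (.cons 4522 11 .nil)) W14c0 (Nat.add W14c1 (Nat.mul (Nat.pow 2 24684) (Nat.add W14c2 (Nat.mul (Nat.pow 2 24684) (Nat.add W14c3 (Nat.mul (Nat.pow 2 24684) (Nat.add W14c4 (Nat.mul (Nat.pow 2 24684) (Nat.add W14c5 (Nat.mul (Nat.pow 2 16456) (W14c6)))))))))))
      (chkW_sound (by norm_num) (by norm_num) (by norm_num) c14_0) h1 (by norm_num) rfl rfl
  exact h0
theorem u13 : W13 = P (w8 24871 20350) (.cons 11781 19 (.cons 1463 17 (.cons 7106 7 .nil))) 4522 :=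
  by
  unfold W13
  have h3 := chkW_sound (by norm_num) (by norm_num) (by norm_num) c13_3
  have h2 : Nat.add W13c2 (Nat.mul (Nat.pow 2 26180) (W13c3)) = P (w8 24871 20350) (.cons 11781 9 (.cons 1463 17 (.cons 7106 7 .nil))) 122332 :=
    @P_join2 (w8 24871 20350) 11781 5 4 9 122332 181237 26180 (.cons 1463 17 (.cons 7106 7 .nil)) W13c2 (W13c3)
      (chkW_sound (by norm_num) (by norm_num) (by norm_num) c13_2) h3 (by norm_num) rfl rfl
  have h1 : Nat.add W13c1 (Nat.mul (Nat.pow 2 26180) (Nat.add W13c2 (Nat.mul (Nat.pow 2 26180) (W13c3)))) = P (w8 24871 20350) (.cons 11781 14 (.cons 1463 17 (.cons 7106 7 .nil))) 63427 :=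
    @P_join2 (w8 24871 20350) 11781 5 9 14 63427 122332 26180 (.cons 1463 17 (.cons 7106 7 .nil)) W13c1 (Nat.add W13c2 (Nat.mul (Nat.pow 2 26180) (W13c3)))
      (chkW_sound (by norm_num) (by norm_num) (by norm_num) c13_1) h2 (by norm_num) rfl rfl
  have h0 : Nat.add W13c0 (Nat.mul (Nat.pow 2 26180) (Nat.add W13c1 (Nat.mul (Nat.pow 2 26180) (Nat.add W13c2 (Nat.mul (Nat.pow 2 26180) (W13c3)))))) = P (w8 24871 20350) (.cons 11781 19 (.cons 1463 17 (.cons 7106 7 .nil))) 4522 :=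
    @P_join2 (w8 24871 20350) 11781 5 14 19 4522 63427 26180 (.cons 1463 17 (.cons 7106 7 .nil)) W13c0 (Nat.add W13c1 (Nat.mul (Nat.pow 2 26180) (Nat.add W13c2 (Nat.mul (Nat.pow 2 26180) (W13c3)))))
      (chkW_sound (by norm_num) (by norm_num) (by norm_num) c13_0) h1 (by norm_num) rfl rfl
  exact h0
theorem u12 : W12 = P (w8 24871 13244) (.cons 11781 19 (.cons 1463 17 .nil)) 11628 :=
  chkW_sound (by norm_num) (by norm_num) (by norm_num) c12_0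
theorem u11 : W11 = P (w8 24871 23409) (.cons 11781 19 (.cons 4522 11 (.cons 7106 7 .nil))) 1463 :=
  by
  unfold W11
  have h2 := chkW_sound (by norm_num) (by norm_num) (by norm_num) c11_2
  have h1 : Nat.add W11c1 (Nat.mul (Nat.pow 2 20328) (W11c2)) = P (w8 24871 23409) (.cons 11781 12 (.cons 4522 11 (.cons 7106 7 .nil))) 83930 :=
    @P_join2 (w8 24871 23409) 11781 6 6 12 83930 154616 20328 (.cons 4522 11 (.cons 7106 7 .nil)) W11c1 (W11c2)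
      (chkW_sound (by norm_num) (by norm_num) (by norm_num) c11_1) h2 (by norm_num) rfl rfl
  have h0 : Nat.add W11c0 (Nat.mul (Nat.pow 2 23716) (Nat.add W11c1 (Nat.mul (Nat.pow 2 20328) (W11c2)))) = P (w8 24871 23409) (.cons 11781 19 (.cons 4522 11 (.cons 7106 7 .nil))) 1463 :=
    @P_join2 (w8 24871 23409) 11781 7 12 19 1463 83930 23716 (.cons 4522 11 (.cons 7106 7 .nil)) W11c0 (Nat.add W11c1 (Nat.mul (Nat.pow 2 20328) (W11c2)))
      (chkW_sound (by norm_num) (by norm_num) (by norm_num) c11_0) h1 (by norm_num) rfl rfl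
  exact h0
theorem u10 : W10 = P (w8 24871 16303) (.cons 11781 19 (.cons 4522 11 .nil)) 8569 :=
  chkW_sound (by norm_num) (by norm_num) (by norm_num) c10_0
theorem u9 : W9 = P (w8 24871 18887) (.cons 11781 19 (.cons 7106 7 .nil)) 5985 :=
  chkW_sound (by norm_num) (by norm_num) (by norm_num) c9_0
theorem u8 : W8 = P (w8 24871 11781) (.cons 11781 19 .nil) 13091 :=
  chkW_sound (by norm_num) (by norm_num) (by norm_num) c8_0
theorem u7 : W7 = P (w8 24871 13091) (.cons 1463 17 (.cons 4522 11 (.cons 7106 7 .nil))) 11781 :=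
  by
  unfold W7
  have h2 := chkW_sound (by norm_num) (by norm_num) (by norm_num) c7_2
  have h1 : Nat.add W7c1 (Nat.mul (Nat.pow 2 20328) (W7c2)) = P (w8 24871 13091) (.cons 1463 11 (.cons 4522 11 (.cons 7106 7 .nil))) 20559 :=
    @P_join2 (w8 24871 13091) 1463 6 5 11 20559 29337 20328 (.cons 4522 11 (.cons 7106 7 .nil)) W7c1 (W7c2)
      (chkW_sound (by norm_num) (by norm_num) (by norm_num) c7_1) h2 (by norm_num) rfl rfl
  have h0 : Nat.add W7c0 (Nat.mul (Nat.pow 2 20328) (Nat.add W7c1 (Nat.mul (Nat.pow 2 20328) (W7c2)))) = P (w8 24871 13091) (.cons 1463 17 (.cons 4522 11 (.cons 7106 7 .nil))) 11781 :=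
    @P_join2 (w8 24871 13091) 1463 6 11 17 11781 20559 20328 (.cons 4522 11 (.cons 7106 7 .nil)) W7c0 (Nat.add W7c1 (Nat.mul (Nat.pow 2 20328) (W7c2)))
      (chkW_sound (by norm_num) (by norm_num) (by norm_num) c7_0) h1 (by norm_num) rfl rfl
  exact h0
theorem u6 : W6 = P (w8 24871 5985) (.cons 1463 17 (.cons 4522 11 .nil)) 18887 :=
  chkW_sound (by norm_num) (by norm_num) (by norm_num) c6_0
theorem u5 : W5 = P (w8 24871 8569) (.cons 1463 17 (.cons 7106 7 .nil)) 16303 :=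
  chkW_sound (by norm_num) (by norm_num) (by norm_num) c5_0
theorem u4 : W4 = P (w8 24871 1463) (.cons 1463 17 .nil) 23409 :=
  chkW_sound (by norm_num) (by norm_num) (by norm_num) c4_0
theorem u3 : W3 = P (w8 24871 11628) (.cons 4522 11 (.cons 7106 7 .nil)) 13244 :=
  chkW_sound (by norm_num) (by norm_num) (by norm_num) c3_0
theorem u2 : W2 = P (w8 24871 4522) (.cons 4522 11 .nil) 20350 :=
  chkW_sound (by norm_num) (by norm_num) (by norm_num) c2_0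
theorem u1 : W1 = P (w8 24871 7106) (.cons 7106 7 .nil) 17766 :=
  chkW_sound (by norm_num) (by norm_num) (by norm_num) c1_0
theorem tr_eq : tr = TR (w8 24871) [(11781, 19, 324876, 255), (1463, 17, 23784, 1), (4522, 11, 1476, 255), (7106, 7, 104, 255)] .nil 0 0 :=
  mk_node (mk_node (mk_node (mk_node (mk_leaf rfl u15) (mk_leaf rfl u14)) (mk_node (mk_leaf rfl u13) (mk_leaf rfl u12))) (mk_node (mk_node (mk_leaf rfl u11) (mk_leaf rfl u10)) (mk_node (mk_leaf rfl u9) (mk_leaf rfl u8)))) (mk_node (mk_node (mk_node (mk_leaf rfl u7) (mk_leaf rfl u6)) (mk_node (mk_leaf rfl u5) (mk_leaf rfl u4))) (mk_node (mk_node (mk_leaf rfl u3) (mk_leaf rfl u2)) (mk_node (mk_leaf rfl u1) (mk_leaf rfl (w8_zero _ _).symm))))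
theorem tb (d : ℤ) (n : ℕ)
    (h : ∀ l ∈ ({19, 17, 11, 7} : Finset ℕ), jacobiSym ((n : ℤ) ^ 2 + 4) l = -1) :
    (512 : ℤ) ∣ Pool.Agent.N367.LE.SEr d {19, 17, 11, 7} n -
      256 * (((BT24871 >>> (((n % 19 * 17 + n % 17) * 11 + n % 11) * 7 + n % 7)) % 2 : ℕ) : ℤ) :=
  tb_gen (m := 24871) pd19 pd17 pd11 pd7 (by norm_num) (by norm_num) (by norm_num)
    (by norm_num) (by norm_num) (by norm_num) (show Idem 7 11 17 19 7106 4522 1463 11781 from Idem.of (by decide)) (by norm_num) (by norm_num)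
    (by norm_num) (by rw [← tr_eq]; exact ev_true) d n h

end Pool.Agent.N367.HT.D24871
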