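import Pool.Agent.N367.HT.J
import Pool.Agent.N367.HT.D5655

/-! The sum for 29 13 5 3. -/

namespace Pool.Agent.N367.HT.D5655

open Pool.Agent.N156.HT Pool.Agent.N911.L Pool.Agent.N367.HT

set_option exponentiation.threshold 2000000

theorem u15 : W15 = P (w8 5655 11311) (.cons 3510 29 (.cons 4785 13 (.cons 1131 5 (.cons 1885 3 .nil)))) 0 :=
  by
  unfold W15
  have h2 := chkW_sound (by norm_num) (by norm_num) (by norm_num) c15_2
  have h1 : Nat.add W15c1 (Nat.mul (Nat.pow 2 85800) (W15c2)) = P (w8 5655 11311) (.cons 3510 19 (.cons 4785 13 (.cons 1131 5 (.cons 1885 3 .nil)))) 35100 :=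
    @P_join2 (w8 5655 11311) 3510 10 9 19 35100 70200 85800 (.cons 4785 13 (.cons 1131 5 (.cons 1885 3 .nil))) W15c1 (W15c2)
      (chkW_sound (by norm_num) (by norm_num) (by norm_num) c15_1) h2 (by norm_num) rfl rfl
  have h0 : Nat.add W15c0 (Nat.mul (Nat.pow 2 85800) (Nat.add W15c1 (Nat.mul (Nat.pow 2 85800) (W15c2)))) = P (w8 5655 11311) (.cons 3510 29 (.cons 4785 13 (.cons 1131 5 (.cons 1885 3 .nil)))) 0 :=
    @P_join2 (w8 5655 11311) 3510 10 19 29 0 35100 85800 (.cons 4785 13 (.cons 1131 5 (.cons 1885 3 .nil))) W15c0 (Nat.add W15c1 (Nat.mul (Nat.pow 2 85800) (W15c2)))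
      (chkW_sound (by norm_num) (by norm_num) (by norm_num) c15_0) h1 (by norm_num) rfl rfl
  exact h0
theorem u14 : W14 = P (w8 5655 9426) (.cons 3510 29 (.cons 4785 13 (.cons 1131 5 .nil))) 1885 :=
  chkW_sound (by norm_num) (by norm_num) (by norm_num) c14_0
theorem u13 : W13 = P (w8 5655 10180) (.cons 3510 29 (.cons 4785 13 (.cons 1885 3 .nil))) 1131 :=
  chkW_sound (by norm_num) (by norm_num) (by norm_num) c13_0
theorem u12 : W12 = P (w8 5655 8295) (.cons 3510 29 (.cons 4785 13 .nil)) 3016 :=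
  chkW_sound (by norm_num) (by norm_num) (by norm_num) c12_0
theorem u11 : W11 = P (w8 5655 6526) (.cons 3510 29 (.cons 1131 5 (.cons 1885 3 .nil))) 4785 :=
  chkW_sound (by norm_num) (by norm_num) (by norm_num) c11_0
theorem u10 : W10 = P (w8 5655 4641) (.cons 3510 29 (.cons 1131 5 .nil)) 6670 :=
  chkW_sound (by norm_num) (by norm_num) (by norm_num) c10_0
theorem u9 : W9 = P (w8 5655 5395) (.cons 3510 29 (.cons 1885 3 .nil)) 5916 :=
  chkW_sound (by norm_num) (by norm_num) (by norm_num) c9_0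
theorem u8 : W8 = P (w8 5655 3510) (.cons 3510 29 .nil) 7801 :=
  chkW_sound (by norm_num) (by norm_num) (by norm_num) c8_0
theorem u7 : W7 = P (w8 5655 7801) (.cons 4785 13 (.cons 1131 5 (.cons 1885 3 .nil))) 3510 :=
  chkW_sound (by norm_num) (by norm_num) (by norm_num) c7_0
theorem u6 : W6 = P (w8 5655 5916) (.cons 4785 13 (.cons 1131 5 .nil)) 5395 :=
  chkW_sound (by norm_num) (by norm_num) (by norm_num) c6_0
theorem u5 : W5 = P (w8 5655 6670) (.cons 4785 13 (.cons 1885 3 .nil)) 4641 :=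
  chkW_sound (by norm_num) (by norm_num) (by norm_num) c5_0
theorem u4 : W4 = P (w8 5655 4785) (.cons 4785 13 .nil) 6526 :=
  chkW_sound (by norm_num) (by norm_num) (by norm_num) c4_0
theorem u3 : W3 = P (w8 5655 3016) (.cons 1131 5 (.cons 1885 3 .nil)) 8295 :=
  chkW_sound (by norm_num) (by norm_num) (by norm_num) c3_0
theorem u2 : W2 = P (w8 5655 1131) (.cons 1131 5 .nil) 10180 :=
  chkW_sound (by norm_num) (by norm_num) (by norm_num) c2_0
theorem u1 : W1 = P (w8 5655 1885) (.cons 1885 3 .nil) 9426 :=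
  chkW_sound (by norm_num) (by norm_num) (by norm_num) c1_0
theorem tr_eq : tr = TR (w8 5655) [(3510, 29, 204397836, 1), (4785, 13, 2532, 1), (1131, 5, 12, 1), (1885, 3, 4, 255)] .nil 0 0 :=
  mk_node (mk_node (mk_node (mk_node (mk_leaf rfl u15) (mk_leaf rfl u14)) (mk_node (mk_leaf rfl u13) (mk_leaf rfl u12))) (mk_node (mk_node (mk_leaf rfl u11) (mk_leaf rfl u10)) (mk_node (mk_leaf rfl u9) (mk_leaf rfl u8)))) (mk_node (mk_node (mk_node (mk_leaf rfl u7) (mk_leaf rfl u6)) (mk_node (mk_leaf rfl u5) (mk_leaf rfl u4))) (mk_node (mk_node (mk_leaf rfl u3) (mk_leaf rfl u2)) (mk_node (mk_leaf rfl u1) (mk_leaf rfl (w8_zero _ _).symm))))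
theorem tb (d : ℤ) (n : ℕ)
    (h : ∀ l ∈ ({29, 13, 5, 3} : Finset ℕ), jacobiSym ((n : ℤ) ^ 2 + 4) l = -1) :
    (512 : ℤ) ∣ Pool.Agent.N367.LE.SEr d {29, 13, 5, 3} n -
      256 * (((BT5655 >>> (((n % 29 * 13 + n % 13) * 5 + n % 5) * 3 + n % 3)) % 2 : ℕ) : ℤ) :=
  tb_gen (m := 5655) pd29 pd13 pd5 pd3 (by norm_num) (by norm_num) (by norm_num)
    (by norm_num) (by norm_num) (by norm_num) (show Idem 3 5 13 29 1885 1131 4785 3510 from Idem.of (by decide)) (by norm_num) (by norm_num)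
    (by norm_num) (by rw [← tr_eq]; exact ev_true) d n h

end Pool.Agent.N367.HT.D5655
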