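import Pool.Agent.N367.HT.J
import Pool.Agent.N367.HT.D8151

/-! The sum for 19 13 11 3. -/

namespace Pool.Agent.N367.HT.D8151

open Pool.Agent.N156.HT Pool.Agent.N911.L Pool.Agent.N367.HT

set_option exponentiation.threshold 2000000

theorem u15 : W15 = P (w8 8151 16303) (.cons 3003 19 (.cons 5643 13 (.cons 2223 11 (.cons 5434 3 .nil)))) 0 :=
  by
  unfold W15
  have h4 := chkW_sound (by norm_num) (by norm_num) (by norm_num) c15_4
  have h3 : Nat.add W15c3 (Nat.mul (Nat.pow 2 75504) (W15c4)) = P (w8 8151 16303) (.cons 3003 7 (.cons 5643 13 (.cons 2223 11 (.cons 5434 3 .nil)))) 36036 :=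
    @P_join2 (w8 8151 16303) 3003 4 3 7 36036 48048 75504 (.cons 5643 13 (.cons 2223 11 (.cons 5434 3 .nil))) W15c3 (W15c4)
      (chkW_sound (by norm_num) (by norm_num) (by norm_num) c15_3) h4 (by norm_num) rfl rfl
  have h2 : Nat.add W15c2 (Nat.mul (Nat.pow 2 75504) (Nat.add W15c3 (Nat.mul (Nat.pow 2 75504) (W15c4)))) = P (w8 8151 16303) (.cons 3003 11 (.cons 5643 13 (.cons 2223 11 (.cons 5434 3 .nil)))) 24024 :=
    @P_join2 (w8 8151 16303) 3003 4 7 11 24024 36036 75504 (.cons 5643 13 (.cons 2223 11 (.cons 5434 3 .nil))) W15c2 (Nat.add W15c3 (Nat.mul (Nat.pow 2 75504) (W15c4)))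
      (chkW_sound (by norm_num) (by norm_num) (by norm_num) c15_2) h3 (by norm_num) rfl rfl
  have h1 : Nat.add W15c1 (Nat.mul (Nat.pow 2 75504) (Nat.add W15c2 (Nat.mul (Nat.pow 2 75504) (Nat.add W15c3 (Nat.mul (Nat.pow 2 75504) (W15c4)))))) = P (w8 8151 16303) (.cons 3003 15 (.cons 5643 13 (.cons 2223 11 (.cons 5434 3 .nil)))) 12012 :=
    @P_join2 (w8 8151 16303) 3003 4 11 15 12012 24024 75504 (.cons 5643 13 (.cons 2223 11 (.cons 5434 3 .nil))) W15c1 (Nat.add W15c2 (Nat.mul (Nat.pow 2 75504) (Nat.add W15c3 (Nat.mul (Nat.pow 2 75504) (W15c4)))))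
      (chkW_sound (by norm_num) (by norm_num) (by norm_num) c15_1) h2 (by norm_num) rfl rfl
  have h0 : Nat.add W15c0 (Nat.mul (Nat.pow 2 75504) (Nat.add W15c1 (Nat.mul (Nat.pow 2 75504) (Nat.add W15c2 (Nat.mul (Nat.pow 2 75504) (Nat.add W15c3 (Nat.mul (Nat.pow 2 75504) (W15c4)))))))) = P (w8 8151 16303) (.cons 3003 19 (.cons 5643 13 (.cons 2223 11 (.cons 5434 3 .nil)))) 0 :=
    @P_join2 (w8 8151 16303) 3003 4 15 19 0 12012 75504 (.cons 5643 13 (.cons 2223 11 (.cons 5434 3 .nil))) W15c0 (Nat.add W15c1 (Nat.mul (Nat.pow 2 75504) (Nat.add W15c2 (Nat.mul (Nat.pow 2 75504) (Nat.add W15c3 (Nat.mul (Nat.pow 2 75504) (W15c4)))))))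
      (chkW_sound (by norm_num) (by norm_num) (by norm_num) c15_0) h1 (by norm_num) rfl rfl
  exact h0
theorem u14 : W14 = P (w8 8151 10869) (.cons 3003 19 (.cons 5643 13 (.cons 2223 11 .nil))) 5434 :=
  by
  unfold W14
  have h1 := chkW_sound (by norm_num) (by norm_num) (by norm_num) c14_1
  have h0 : Nat.add W14c0 (Nat.mul (Nat.pow 2 62920) (W14c1)) = P (w8 8151 10869) (.cons 3003 19 (.cons 5643 13 (.cons 2223 11 .nil))) 5434 :=
    @P_join2 (w8 8151 10869) 3003 10 9 19 5434 35464 62920 (.cons 5643 13 (.cons 2223 11 .nil)) W14c0 (W14c1)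
      (chkW_sound (by norm_num) (by norm_num) (by norm_num) c14_0) h1 (by norm_num) rfl rfl
  exact h0
theorem u13 : W13 = P (w8 8151 14080) (.cons 3003 19 (.cons 5643 13 (.cons 5434 3 .nil))) 2223 :=
  chkW_sound (by norm_num) (by norm_num) (by norm_num) c13_0
theorem u12 : W12 = P (w8 8151 8646) (.cons 3003 19 (.cons 5643 13 .nil)) 7657 :=
  chkW_sound (by norm_num) (by norm_num) (by norm_num) c12_0
theorem u11 : W11 = P (w8 8151 10660) (.cons 3003 19 (.cons 2223 11 (.cons 5434 3 .nil))) 5643 :=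
  chkW_sound (by norm_num) (by norm_num) (by norm_num) c11_0
theorem u10 : W10 = P (w8 8151 5226) (.cons 3003 19 (.cons 2223 11 .nil)) 11077 :=
  chkW_sound (by norm_num) (by norm_num) (by norm_num) c10_0
theorem u9 : W9 = P (w8 8151 8437) (.cons 3003 19 (.cons 5434 3 .nil)) 7866 :=
  chkW_sound (by norm_num) (by norm_num) (by norm_num) c9_0
theorem u8 : W8 = P (w8 8151 3003) (.cons 3003 19 .nil) 13300 :=
  chkW_sound (by norm_num) (by norm_num) (by norm_num) c8_0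
theorem u7 : W7 = P (w8 8151 13300) (.cons 5643 13 (.cons 2223 11 (.cons 5434 3 .nil))) 3003 :=
  chkW_sound (by norm_num) (by norm_num) (by norm_num) c7_0
theorem u6 : W6 = P (w8 8151 7866) (.cons 5643 13 (.cons 2223 11 .nil)) 8437 :=
  chkW_sound (by norm_num) (by norm_num) (by norm_num) c6_0
theorem u5 : W5 = P (w8 8151 11077) (.cons 5643 13 (.cons 5434 3 .nil)) 5226 :=
  chkW_sound (by norm_num) (by norm_num) (by norm_num) c5_0
theorem u4 : W4 = P (w8 8151 5643) (.cons 5643 13 .nil) 10660 :=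
  chkW_sound (by norm_num) (by norm_num) (by norm_num) c4_0
theorem u3 : W3 = P (w8 8151 7657) (.cons 2223 11 (.cons 5434 3 .nil)) 8646 :=
  chkW_sound (by norm_num) (by norm_num) (by norm_num) c3_0
theorem u2 : W2 = P (w8 8151 2223) (.cons 2223 11 .nil) 14080 :=
  chkW_sound (by norm_num) (by norm_num) (by norm_num) c2_0
theorem u1 : W1 = P (w8 8151 5434) (.cons 5434 3 .nil) 10869 :=
  chkW_sound (by norm_num) (by norm_num) (by norm_num) c1_0
theorem tr_eq : tr = TR (w8 8151) [(3003, 19, 324876, 255), (5643, 13, 2532, 1), (2223, 11, 1476, 255), (5434, 3, 4, 255)] .nil 0 0 :=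
  mk_node (mk_node (mk_node (mk_node (mk_leaf rfl u15) (mk_leaf rfl u14)) (mk_node (mk_leaf rfl u13) (mk_leaf rfl u12))) (mk_node (mk_node (mk_leaf rfl u11) (mk_leaf rfl u10)) (mk_node (mk_leaf rfl u9) (mk_leaf rfl u8)))) (mk_node (mk_node (mk_node (mk_leaf rfl u7) (mk_leaf rfl u6)) (mk_node (mk_leaf rfl u5) (mk_leaf rfl u4))) (mk_node (mk_node (mk_leaf rfl u3) (mk_leaf rfl u2)) (mk_node (mk_leaf rfl u1) (mk_leaf rfl (w8_zero _ _).symm))))
theorem tb (d : ℤ) (n : ℕ)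
    (h : ∀ l ∈ ({19, 13, 11, 3} : Finset ℕ), jacobiSym ((n : ℤ) ^ 2 + 4) l = -1) :
    (512 : ℤ) ∣ Pool.Agent.N367.LE.SEr d {19, 13, 11, 3} n -
      256 * (((BT8151 >>> (((n % 19 * 13 + n % 13) * 11 + n % 11) * 3 + n % 3)) % 2 : ℕ) : ℤ) :=
  tb_gen (m := 8151) pd19 pd13 pd11 pd3 (by norm_num) (by norm_num) (by norm_num)
    (by norm_num) (by norm_num) (by norm_num) (show Idem 3 11 13 19 5434 2223 5643 3003 from Idem.of (by decide)) (by norm_num) (by norm_num)
    (by norm_num) (by rw [← tr_eq]; exact ev_true) d n h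

end Pool.Agent.N367.HT.D8151
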