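import Pool.Agent.N367.HT.J
import Pool.Agent.N367.HT.D8835

/-! The sum for 31 19 5 3. -/

namespace Pool.Agent.N367.HT.D8835

open Pool.Agent.N156.HT Pool.Agent.N911.L Pool.Agent.N367.HT

set_option exponentiation.threshold 2000000

theorem u15 : W15 = P (w8 8835 26506) (.cons 7410 31 (.cons 7905 19 (.cons 5301 5 (.cons 5890 3 .nil)))) 0 :=
  by
  unfold W15
  have h5 := chkW_sound (by norm_num) (by norm_num) (by norm_num) c15_5
  have h4 : Nat.add W15c4 (Nat.mul (Nat.pow 2 62700) (W15c5)) = P (w8 8835 26506) (.cons 7410 10 (.cons 7905 19 (.cons 5301 5 (.cons 5890 3 .nil)))) 155610 :=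
    @P_join2 (w8 8835 26506) 7410 5 5 10 155610 192660 62700 (.cons 7905 19 (.cons 5301 5 (.cons 5890 3 .nil))) W15c4 (W15c5)
      (chkW_sound (by norm_num) (by norm_num) (by norm_num) c15_4) h5 (by norm_num) rfl rfl
  have h3 : Nat.add W15c3 (Nat.mul (Nat.pow 2 62700) (Nat.add W15c4 (Nat.mul (Nat.pow 2 62700) (W15c5)))) = P (w8 8835 26506) (.cons 7410 15 (.cons 7905 19 (.cons 5301 5 (.cons 5890 3 .nil)))) 118560 :=
    @P_join2 (w8 8835 26506) 7410 5 10 15 118560 155610 62700 (.cons 7905 19 (.cons 5301 5 (.cons 5890 3 .nil))) W15c3 (Nat.add W15c4 (Nat.mul (Nat.pow 2 62700) (W15c5)))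
      (chkW_sound (by norm_num) (by norm_num) (by norm_num) c15_3) h4 (by norm_num) rfl rfl
  have h2 : Nat.add W15c2 (Nat.mul (Nat.pow 2 62700) (Nat.add W15c3 (Nat.mul (Nat.pow 2 62700) (Nat.add W15c4 (Nat.mul (Nat.pow 2 62700) (W15c5)))))) = P (w8 8835 26506) (.cons 7410 20 (.cons 7905 19 (.cons 5301 5 (.cons 5890 3 .nil)))) 81510 :=
    @P_join2 (w8 8835 26506) 7410 5 15 20 81510 118560 62700 (.cons 7905 19 (.cons 5301 5 (.cons 5890 3 .nil))) W15c2 (Nat.add W15c3 (Nat.mul (Nat.pow 2 62700) (Nat.add W15c4 (Nat.mul (Nat.pow 2 62700) (W15c5)))))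
      (chkW_sound (by norm_num) (by norm_num) (by norm_num) c15_2) h3 (by norm_num) rfl rfl
  have h1 : Nat.add W15c1 (Nat.mul (Nat.pow 2 62700) (Nat.add W15c2 (Nat.mul (Nat.pow 2 62700) (Nat.add W15c3 (Nat.mul (Nat.pow 2 62700) (Nat.add W15c4 (Nat.mul (Nat.pow 2 62700) (W15c5)))))))) = P (w8 8835 26506) (.cons 7410 25 (.cons 7905 19 (.cons 5301 5 (.cons 5890 3 .nil)))) 44460 :=
    @P_join2 (w8 8835 26506) 7410 5 20 25 44460 81510 62700 (.cons 7905 19 (.cons 5301 5 (.cons 5890 3 .nil))) W15c1 (Nat.add W15c2 (Nat.mul (Nat.pow 2 62700) (Nat.add W15c3 (Nat.mul (Nat.pow 2 62700) (Nat.add W15c4 (Nat.mul (Nat.pow 2 62700) (W15c5)))))))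
      (chkW_sound (by norm_num) (by norm_num) (by norm_num) c15_1) h2 (by norm_num) rfl rfl
  have h0 : Nat.add W15c0 (Nat.mul (Nat.pow 2 75240) (Nat.add W15c1 (Nat.mul (Nat.pow 2 62700) (Nat.add W15c2 (Nat.mul (Nat.pow 2 62700) (Nat.add W15c3 (Nat.mul (Nat.pow 2 62700) (Nat.add W15c4 (Nat.mul (Nat.pow 2 62700) (W15c5)))))))))) = P (w8 8835 26506) (.cons 7410 31 (.cons 7905 19 (.cons 5301 5 (.cons 5890 3 .nil)))) 0 :=
    @P_join2 (w8 8835 26506) 7410 6 25 31 0 44460 75240 (.cons 7905 19 (.cons 5301 5 (.cons 5890 3 .nil))) W15c0 (Nat.add W15c1 (Nat.mul (Nat.pow 2 62700) (Nat.add W15c2 (Nat.mul (Nat.pow 2 62700) (Nat.add W15c3 (Nat.mul (Nat.pow 2 62700) (Nat.add W15c4 (Nat.mul (Nat.pow 2 62700) (W15c5)))))))))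
      (chkW_sound (by norm_num) (by norm_num) (by norm_num) c15_0) h1 (by norm_num) rfl rfl
  exact h0
theorem u14 : W14 = P (w8 8835 20616) (.cons 7410 31 (.cons 7905 19 (.cons 5301 5 .nil))) 5890 :=
  by
  unfold W14
  have h1 := chkW_sound (by norm_num) (by norm_num) (by norm_num) c14_1
  have h0 : Nat.add W14c0 (Nat.mul (Nat.pow 2 66880) (W14c1)) = P (w8 8835 20616) (.cons 7410 31 (.cons 7905 19 (.cons 5301 5 .nil))) 5890 :=
    @P_join2 (w8 8835 20616) 7410 16 15 31 5890 124450 66880 (.cons 7905 19 (.cons 5301 5 .nil)) W14c0 (W14c1)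
      (chkW_sound (by norm_num) (by norm_num) (by norm_num) c14_0) h1 (by norm_num) rfl rfl
  exact h0
theorem u13 : W13 = P (w8 8835 21205) (.cons 7410 31 (.cons 7905 19 (.cons 5890 3 .nil))) 5301 :=
  chkW_sound (by norm_num) (by norm_num) (by norm_num) c13_0
theorem u12 : W12 = P (w8 8835 15315) (.cons 7410 31 (.cons 7905 19 .nil)) 11191 :=
  chkW_sound (by norm_num) (by norm_num) (by norm_num) c12_0
theorem u11 : W11 = P (w8 8835 18601) (.cons 7410 31 (.cons 5301 5 (.cons 5890 3 .nil))) 7905 :=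
  chkW_sound (by norm_num) (by norm_num) (by norm_num) c11_0
theorem u10 : W10 = P (w8 8835 12711) (.cons 7410 31 (.cons 5301 5 .nil)) 13795 :=
  chkW_sound (by norm_num) (by norm_num) (by norm_num) c10_0
theorem u9 : W9 = P (w8 8835 13300) (.cons 7410 31 (.cons 5890 3 .nil)) 13206 :=
  chkW_sound (by norm_num) (by norm_num) (by norm_num) c9_0
theorem u8 : W8 = P (w8 8835 7410) (.cons 7410 31 .nil) 19096 :=
  chkW_sound (by norm_num) (by norm_num) (by norm_num) c8_0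
theorem u7 : W7 = P (w8 8835 19096) (.cons 7905 19 (.cons 5301 5 (.cons 5890 3 .nil))) 7410 :=
  chkW_sound (by norm_num) (by norm_num) (by norm_num) c7_0
theorem u6 : W6 = P (w8 8835 13206) (.cons 7905 19 (.cons 5301 5 .nil)) 13300 :=
  chkW_sound (by norm_num) (by norm_num) (by norm_num) c6_0
theorem u5 : W5 = P (w8 8835 13795) (.cons 7905 19 (.cons 5890 3 .nil)) 12711 :=
  chkW_sound (by norm_num) (by norm_num) (by norm_num) c5_0
theorem u4 : W4 = P (w8 8835 7905) (.cons 7905 19 .nil) 18601 :=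
  chkW_sound (by norm_num) (by norm_num) (by norm_num) c4_0
theorem u3 : W3 = P (w8 8835 11191) (.cons 5301 5 (.cons 5890 3 .nil)) 15315 :=
  chkW_sound (by norm_num) (by norm_num) (by norm_num) c3_0
theorem u2 : W2 = P (w8 8835 5301) (.cons 5301 5 .nil) 21205 :=
  chkW_sound (by norm_num) (by norm_num) (by norm_num) c2_0
theorem u1 : W1 = P (w8 8835 5890) (.cons 5890 3 .nil) 20616 :=
  chkW_sound (by norm_num) (by norm_num) (by norm_num) c1_0
theorem tr_eq : tr = TR (w8 8835) [(7410, 31, 1843574856, 255), (7905, 19, 324876, 255), (5301, 5, 12, 1), (5890, 3, 4, 255)] .nil 0 0 :=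
  mk_node (mk_node (mk_node (mk_node (mk_leaf rfl u15) (mk_leaf rfl u14)) (mk_node (mk_leaf rfl u13) (mk_leaf rfl u12))) (mk_node (mk_node (mk_leaf rfl u11) (mk_leaf rfl u10)) (mk_node (mk_leaf rfl u9) (mk_leaf rfl u8)))) (mk_node (mk_node (mk_node (mk_leaf rfl u7) (mk_leaf rfl u6)) (mk_node (mk_leaf rfl u5) (mk_leaf rfl u4))) (mk_node (mk_node (mk_leaf rfl u3) (mk_leaf rfl u2)) (mk_node (mk_leaf rfl u1) (mk_leaf rfl (w8_zero _ _).symm))))
theorem tb (d : ℤ) (n : ℕ)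
    (h : ∀ l ∈ ({31, 19, 5, 3} : Finset ℕ), jacobiSym ((n : ℤ) ^ 2 + 4) l = -1) :
    (512 : ℤ) ∣ Pool.Agent.N367.LE.SEr d {31, 19, 5, 3} n -
      256 * (((BT8835 >>> (((n % 31 * 19 + n % 19) * 5 + n % 5) * 3 + n % 3)) % 2 : ℕ) : ℤ) :=
  tb_gen (m := 8835) pd31 pd19 pd5 pd3 (by norm_num) (by norm_num) (by norm_num)
    (by norm_num) (by norm_num) (by norm_num) (show Idem 3 5 19 31 5890 5301 7905 7410 from Idem.of (by decide)) (by norm_num) (by norm_num)
    (by norm_num) (by rw [← tr_eq]; exact ev_true) d n h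

end Pool.Agent.N367.HT.D8835
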