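import Pool.Agent.N367.HT.J
import Pool.Agent.N367.HT.D8855

/-! The sum for 23 11 7 5. -/

namespace Pool.Agent.N367.HT.D8855

open Pool.Agent.N156.HT Pool.Agent.N911.L Pool.Agent.N367.HT

set_option exponentiation.threshold 2000000

theorem u15 : W15 = P (w8 8855 17711) (.cons 7315 23 (.cons 4830 11 (.cons 3795 7 (.cons 1771 5 .nil)))) 0 :=
  by
  unfold W15
  have h5 := chkW_sound (by norm_num) (by norm_num) (by norm_num) c15_5
  have h4 : Nat.add W15c4 (Nat.mul (Nat.pow 2 67760) (W15c5)) = P (w8 8855 17711) (.cons 7315 7 (.cons 4830 11 (.cons 3795 7 (.cons 1771 5 .nil)))) 117040 :=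
    @P_join2 (w8 8855 17711) 7315 4 3 7 117040 146300 67760 (.cons 4830 11 (.cons 3795 7 (.cons 1771 5 .nil))) W15c4 (W15c5)
      (chkW_sound (by norm_num) (by norm_num) (by norm_num) c15_4) h5 (by norm_num) rfl rfl
  have h3 : Nat.add W15c3 (Nat.mul (Nat.pow 2 67760) (Nat.add W15c4 (Nat.mul (Nat.pow 2 67760) (W15c5)))) = P (w8 8855 17711) (.cons 7315 11 (.cons 4830 11 (.cons 3795 7 (.cons 1771 5 .nil)))) 87780 :=
    @P_join2 (w8 8855 17711) 7315 4 7 11 87780 117040 67760 (.cons 4830 11 (.cons 3795 7 (.cons 1771 5 .nil))) W15c3 (Nat.add W15c4 (Nat.mul (Nat.pow 2 67760) (W15c5)))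
      (chkW_sound (by norm_num) (by norm_num) (by norm_num) c15_3) h4 (by norm_num) rfl rfl
  have h2 : Nat.add W15c2 (Nat.mul (Nat.pow 2 67760) (Nat.add W15c3 (Nat.mul (Nat.pow 2 67760) (Nat.add W15c4 (Nat.mul (Nat.pow 2 67760) (W15c5)))))) = P (w8 8855 17711) (.cons 7315 15 (.cons 4830 11 (.cons 3795 7 (.cons 1771 5 .nil)))) 58520 :=
    @P_join2 (w8 8855 17711) 7315 4 11 15 58520 87780 67760 (.cons 4830 11 (.cons 3795 7 (.cons 1771 5 .nil))) W15c2 (Nat.add W15c3 (Nat.mul (Nat.pow 2 67760) (Nat.add W15c4 (Nat.mul (Nat.pow 2 67760) (W15c5)))))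
      (chkW_sound (by norm_num) (by norm_num) (by norm_num) c15_2) h3 (by norm_num) rfl rfl
  have h1 : Nat.add W15c1 (Nat.mul (Nat.pow 2 67760) (Nat.add W15c2 (Nat.mul (Nat.pow 2 67760) (Nat.add W15c3 (Nat.mul (Nat.pow 2 67760) (Nat.add W15c4 (Nat.mul (Nat.pow 2 67760) (W15c5)))))))) = P (w8 8855 17711) (.cons 7315 19 (.cons 4830 11 (.cons 3795 7 (.cons 1771 5 .nil)))) 29260 :=
    @P_join2 (w8 8855 17711) 7315 4 15 19 29260 58520 67760 (.cons 4830 11 (.cons 3795 7 (.cons 1771 5 .nil))) W15c1 (Nat.add W15c2 (Nat.mul (Nat.pow 2 67760) (Nat.add W15c3 (Nat.mul (Nat.pow 2 67760) (Nat.add W15c4 (Nat.mul (Nat.pow 2 67760) (W15c5)))))))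
      (chkW_sound (by norm_num) (by norm_num) (by norm_num) c15_1) h2 (by norm_num) rfl rfl
  have h0 : Nat.add W15c0 (Nat.mul (Nat.pow 2 67760) (Nat.add W15c1 (Nat.mul (Nat.pow 2 67760) (Nat.add W15c2 (Nat.mul (Nat.pow 2 67760) (Nat.add W15c3 (Nat.mul (Nat.pow 2 67760) (Nat.add W15c4 (Nat.mul (Nat.pow 2 67760) (W15c5)))))))))) = P (w8 8855 17711) (.cons 7315 23 (.cons 4830 11 (.cons 3795 7 (.cons 1771 5 .nil)))) 0 :=
    @P_join2 (w8 8855 17711) 7315 4 19 23 0 29260 67760 (.cons 4830 11 (.cons 3795 7 (.cons 1771 5 .nil))) W15c0 (Nat.add W15c1 (Nat.mul (Nat.pow 2 67760) (Nat.add W15c2 (Nat.mul (Nat.pow 2 67760) (Nat.add W15c3 (Nat.mul (Nat.pow 2 67760) (Nat.add W15c4 (Nat.mul (Nat.pow 2 67760) (W15c5)))))))))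
      (chkW_sound (by norm_num) (by norm_num) (by norm_num) c15_0) h1 (by norm_num) rfl rfl
  exact h0
theorem u14 : W14 = P (w8 8855 15940) (.cons 7315 23 (.cons 4830 11 (.cons 3795 7 .nil))) 1771 :=
  chkW_sound (by norm_num) (by norm_num) (by norm_num) c14_0
theorem u13 : W13 = P (w8 8855 13916) (.cons 7315 23 (.cons 4830 11 (.cons 1771 5 .nil))) 3795 :=
  chkW_sound (by norm_num) (by norm_num) (by norm_num) c13_0
theorem u12 : W12 = P (w8 8855 12145) (.cons 7315 23 (.cons 4830 11 .nil)) 5566 :=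
  chkW_sound (by norm_num) (by norm_num) (by norm_num) c12_0
theorem u11 : W11 = P (w8 8855 12881) (.cons 7315 23 (.cons 3795 7 (.cons 1771 5 .nil))) 4830 :=
  chkW_sound (by norm_num) (by norm_num) (by norm_num) c11_0
theorem u10 : W10 = P (w8 8855 11110) (.cons 7315 23 (.cons 3795 7 .nil)) 6601 :=
  chkW_sound (by norm_num) (by norm_num) (by norm_num) c10_0
theorem u9 : W9 = P (w8 8855 9086) (.cons 7315 23 (.cons 1771 5 .nil)) 8625 :=
  chkW_sound (by norm_num) (by norm_num) (by norm_num) c9_0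
theorem u8 : W8 = P (w8 8855 7315) (.cons 7315 23 .nil) 10396 :=
  chkW_sound (by norm_num) (by norm_num) (by norm_num) c8_0
theorem u7 : W7 = P (w8 8855 10396) (.cons 4830 11 (.cons 3795 7 (.cons 1771 5 .nil))) 7315 :=
  chkW_sound (by norm_num) (by norm_num) (by norm_num) c7_0
theorem u6 : W6 = P (w8 8855 8625) (.cons 4830 11 (.cons 3795 7 .nil)) 9086 :=
  chkW_sound (by norm_num) (by norm_num) (by norm_num) c6_0
theorem u5 : W5 = P (w8 8855 6601) (.cons 4830 11 (.cons 1771 5 .nil)) 11110 :=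
  chkW_sound (by norm_num) (by norm_num) (by norm_num) c5_0
theorem u4 : W4 = P (w8 8855 4830) (.cons 4830 11 .nil) 12881 :=
  chkW_sound (by norm_num) (by norm_num) (by norm_num) c4_0
theorem u3 : W3 = P (w8 8855 5566) (.cons 3795 7 (.cons 1771 5 .nil)) 12145 :=
  chkW_sound (by norm_num) (by norm_num) (by norm_num) c3_0
theorem u2 : W2 = P (w8 8855 3795) (.cons 3795 7 .nil) 13916 :=
  chkW_sound (by norm_num) (by norm_num) (by norm_num) c2_0
theorem u1 : W1 = P (w8 8855 1771) (.cons 1771 5 .nil) 15940 :=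
  chkW_sound (by norm_num) (by norm_num) (by norm_num) c1_0
theorem tr_eq : tr = TR (w8 8855) [(7315, 23, 8047776, 255), (4830, 11, 1476, 255), (3795, 7, 104, 255), (1771, 5, 12, 1)] .nil 0 0 :=
  mk_node (mk_node (mk_node (mk_node (mk_leaf rfl u15) (mk_leaf rfl u14)) (mk_node (mk_leaf rfl u13) (mk_leaf rfl u12))) (mk_node (mk_node (mk_leaf rfl u11) (mk_leaf rfl u10)) (mk_node (mk_leaf rfl u9) (mk_leaf rfl u8)))) (mk_node (mk_node (mk_node (mk_leaf rfl u7) (mk_leaf rfl u6)) (mk_node (mk_leaf rfl u5) (mk_leaf rfl u4))) (mk_node (mk_node (mk_leaf rfl u3) (mk_leaf rfl u2)) (mk_node (mk_leaf rfl u1) (mk_leaf rfl (w8_zero _ _).symm))))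
theorem tb (d : ℤ) (n : ℕ)
    (h : ∀ l ∈ ({23, 11, 7, 5} : Finset ℕ), jacobiSym ((n : ℤ) ^ 2 + 4) l = -1) :
    (512 : ℤ) ∣ Pool.Agent.N367.LE.SEr d {23, 11, 7, 5} n -
      256 * (((BT8855 >>> (((n % 23 * 11 + n % 11) * 7 + n % 7) * 5 + n % 5)) % 2 : ℕ) : ℤ) :=
  tb_gen (m := 8855) pd23 pd11 pd7 pd5 (by norm_num) (by norm_num) (by norm_num)
    (by norm_num) (by norm_num) (by norm_num) (show Idem 5 7 11 23 1771 3795 4830 7315 from Idem.of (by decide)) (by norm_num) (by norm_num)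
    (by norm_num) (by rw [← tr_eq]; exact ev_true) d n h

end Pool.Agent.N367.HT.D8855
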