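import Pool.Agent.N367.HT.J
import Pool.Agent.N367.HT.D9867

/-! The sum for 23 13 11 3. -/

namespace Pool.Agent.N367.HT.D9867

open Pool.Agent.N156.HT Pool.Agent.N911.L Pool.Agent.N367.HT

set_option exponentiation.threshold 2000000

theorem u15 : W15 = P (w8 9867 19735) (.cons 8580 23 (.cons 6072 13 (.cons 1794 11 (.cons 3289 3 .nil)))) 0 :=
  by
  unfold W15
  have h7 := chkW_sound (by norm_num) (by norm_num) (by norm_num) c15_7
  have h6 : Nat.add W15c6 (Nat.mul (Nat.pow 2 56628) (W15c7)) = P (w8 9867 19735) (.cons 8580 5 (.cons 6072 13 (.cons 1794 11 (.cons 3289 3 .nil)))) 154440 :=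
    @P_join2 (w8 9867 19735) 8580 3 2 5 154440 180180 56628 (.cons 6072 13 (.cons 1794 11 (.cons 3289 3 .nil))) W15c6 (W15c7)
      (chkW_sound (by norm_num) (by norm_num) (by norm_num) c15_6) h7 (by norm_num) rfl rfl
  have h5 : Nat.add W15c5 (Nat.mul (Nat.pow 2 56628) (Nat.add W15c6 (Nat.mul (Nat.pow 2 56628) (W15c7)))) = P (w8 9867 19735) (.cons 8580 8 (.cons 6072 13 (.cons 1794 11 (.cons 3289 3 .nil)))) 128700 :=
    @P_join2 (w8 9867 19735) 8580 3 5 8 128700 154440 56628 (.cons 6072 13 (.cons 1794 11 (.cons 3289 3 .nil))) W15c5 (Nat.add W15c6 (Nat.mul (Nat.pow 2 56628) (W15c7)))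
      (chkW_sound (by norm_num) (by norm_num) (by norm_num) c15_5) h6 (by norm_num) rfl rfl
  have h4 : Nat.add W15c4 (Nat.mul (Nat.pow 2 56628) (Nat.add W15c5 (Nat.mul (Nat.pow 2 56628) (Nat.add W15c6 (Nat.mul (Nat.pow 2 56628) (W15c7)))))) = P (w8 9867 19735) (.cons 8580 11 (.cons 6072 13 (.cons 1794 11 (.cons 3289 3 .nil)))) 102960 :=
    @P_join2 (w8 9867 19735) 8580 3 8 11 102960 128700 56628 (.cons 6072 13 (.cons 1794 11 (.cons 3289 3 .nil))) W15c4 (Nat.add W15c5 (Nat.mul (Nat.pow 2 56628) (Nat.add W15c6 (Nat.mul (Nat.pow 2 56628) (W15c7)))))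
      (chkW_sound (by norm_num) (by norm_num) (by norm_num) c15_4) h5 (by norm_num) rfl rfl
  have h3 : Nat.add W15c3 (Nat.mul (Nat.pow 2 56628) (Nat.add W15c4 (Nat.mul (Nat.pow 2 56628) (Nat.add W15c5 (Nat.mul (Nat.pow 2 56628) (Nat.add W15c6 (Nat.mul (Nat.pow 2 56628) (W15c7)))))))) = P (w8 9867 19735) (.cons 8580 14 (.cons 6072 13 (.cons 1794 11 (.cons 3289 3 .nil)))) 77220 :=
    @P_join2 (w8 9867 19735) 8580 3 11 14 77220 102960 56628 (.cons 6072 13 (.cons 1794 11 (.cons 3289 3 .nil))) W15c3 (Nat.add W15c4 (Nat.mul (Nat.pow 2 56628) (Nat.add W15c5 (Nat.mul (Nat.pow 2 56628) (Nat.add W15c6 (Nat.mul (Nat.pow 2 56628) (W15c7)))))))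
      (chkW_sound (by norm_num) (by norm_num) (by norm_num) c15_3) h4 (by norm_num) rfl rfl
  have h2 : Nat.add W15c2 (Nat.mul (Nat.pow 2 56628) (Nat.add W15c3 (Nat.mul (Nat.pow 2 56628) (Nat.add W15c4 (Nat.mul (Nat.pow 2 56628) (Nat.add W15c5 (Nat.mul (Nat.pow 2 56628) (Nat.add W15c6 (Nat.mul (Nat.pow 2 56628) (W15c7)))))))))) = P (w8 9867 19735) (.cons 8580 17 (.cons 6072 13 (.cons 1794 11 (.cons 3289 3 .nil)))) 51480 :=
    @P_join2 (w8 9867 19735) 8580 3 14 17 51480 77220 56628 (.cons 6072 13 (.cons 1794 11 (.cons 3289 3 .nil))) W15c2 (Nat.add W15c3 (Nat.mul (Nat.pow 2 56628) (Nat.add W15c4 (Nat.mul (Nat.pow 2 56628) (Nat.add W15c5 (Nat.mul (Nat.pow 2 56628) (Nat.add W15c6 (Nat.mul (Nat.pow 2 56628) (W15c7)))))))))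
      (chkW_sound (by norm_num) (by norm_num) (by norm_num) c15_2) h3 (by norm_num) rfl rfl
  have h1 : Nat.add W15c1 (Nat.mul (Nat.pow 2 56628) (Nat.add W15c2 (Nat.mul (Nat.pow 2 56628) (Nat.add W15c3 (Nat.mul (Nat.pow 2 56628) (Nat.add W15c4 (Nat.mul (Nat.pow 2 56628) (Nat.add W15c5 (Nat.mul (Nat.pow 2 56628) (Nat.add W15c6 (Nat.mul (Nat.pow 2 56628) (W15c7)))))))))))) = P (w8 9867 19735) (.cons 8580 20 (.cons 6072 13 (.cons 1794 11 (.cons 3289 3 .nil)))) 25740 :=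
    @P_join2 (w8 9867 19735) 8580 3 17 20 25740 51480 56628 (.cons 6072 13 (.cons 1794 11 (.cons 3289 3 .nil))) W15c1 (Nat.add W15c2 (Nat.mul (Nat.pow 2 56628) (Nat.add W15c3 (Nat.mul (Nat.pow 2 56628) (Nat.add W15c4 (Nat.mul (Nat.pow 2 56628) (Nat.add W15c5 (Nat.mul (Nat.pow 2 56628) (Nat.add W15c6 (Nat.mul (Nat.pow 2 56628) (W15c7)))))))))))
      (chkW_sound (by norm_num) (by norm_num) (by norm_num) c15_1) h2 (by norm_num) rfl rfl
  have h0 : Nat.add W15c0 (Nat.mul (Nat.pow 2 56628) (Nat.add W15c1 (Nat.mul (Nat.pow 2 56628) (Nat.add W15c2 (Nat.mul (Nat.pow 2 56628) (Nat.add W15c3 (Nat.mul (Nat.pow 2 56628) (Nat.add W15c4 (Nat.mul (Nat.pow 2 56628) (Nat.add W15c5 (Nat.mul (Nat.pow 2 56628) (Nat.add W15c6 (Nat.mul (Nat.pow 2 56628) (W15c7)))))))))))))) = P (w8 9867 19735) (.cons 8580 23 (.cons 6072 13 (.cons 1794 11 (.cons 3289 3 .nil)))) 0 :=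
    @P_join2 (w8 9867 19735) 8580 3 20 23 0 25740 56628 (.cons 6072 13 (.cons 1794 11 (.cons 3289 3 .nil))) W15c0 (Nat.add W15c1 (Nat.mul (Nat.pow 2 56628) (Nat.add W15c2 (Nat.mul (Nat.pow 2 56628) (Nat.add W15c3 (Nat.mul (Nat.pow 2 56628) (Nat.add W15c4 (Nat.mul (Nat.pow 2 56628) (Nat.add W15c5 (Nat.mul (Nat.pow 2 56628) (Nat.add W15c6 (Nat.mul (Nat.pow 2 56628) (W15c7)))))))))))))
      (chkW_sound (by norm_num) (by norm_num) (by norm_num) c15_0) h1 (by norm_num) rfl rfl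
  exact h0
theorem u14 : W14 = P (w8 9867 16446) (.cons 8580 23 (.cons 6072 13 (.cons 1794 11 .nil))) 3289 :=
  by
  unfold W14
  have h2 := chkW_sound (by norm_num) (by norm_num) (by norm_num) c14_2
  have h1 : Nat.add W14c1 (Nat.mul (Nat.pow 2 50336) (W14c2)) = P (w8 9867 16446) (.cons 8580 15 (.cons 6072 13 (.cons 1794 11 .nil))) 71929 :=
    @P_join2 (w8 9867 16446) 8580 8 7 15 71929 140569 50336 (.cons 6072 13 (.cons 1794 11 .nil)) W14c1 (W14c2)
      (chkW_sound (by norm_num) (by norm_num) (by norm_num) c14_1) h2 (by norm_num) rfl rfl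
  have h0 : Nat.add W14c0 (Nat.mul (Nat.pow 2 50336) (Nat.add W14c1 (Nat.mul (Nat.pow 2 50336) (W14c2)))) = P (w8 9867 16446) (.cons 8580 23 (.cons 6072 13 (.cons 1794 11 .nil))) 3289 :=
    @P_join2 (w8 9867 16446) 8580 8 15 23 3289 71929 50336 (.cons 6072 13 (.cons 1794 11 .nil)) W14c0 (Nat.add W14c1 (Nat.mul (Nat.pow 2 50336) (W14c2)))
      (chkW_sound (by norm_num) (by norm_num) (by norm_num) c14_0) h1 (by norm_num) rfl rfl
  exact h0
theorem u13 : W13 = P (w8 9867 17941) (.cons 8580 23 (.cons 6072 13 (.cons 3289 3 .nil))) 1794 :=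
  chkW_sound (by norm_num) (by norm_num) (by norm_num) c13_0
theorem u12 : W12 = P (w8 9867 14652) (.cons 8580 23 (.cons 6072 13 .nil)) 5083 :=
  chkW_sound (by norm_num) (by norm_num) (by norm_num) c12_0
theorem u11 : W11 = P (w8 9867 13663) (.cons 8580 23 (.cons 1794 11 (.cons 3289 3 .nil))) 6072 :=
  chkW_sound (by norm_num) (by norm_num) (by norm_num) c11_0
theorem u10 : W10 = P (w8 9867 10374) (.cons 8580 23 (.cons 1794 11 .nil)) 9361 :=
  chkW_sound (by norm_num) (by norm_num) (by norm_num) c10_0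
theorem u9 : W9 = P (w8 9867 11869) (.cons 8580 23 (.cons 3289 3 .nil)) 7866 :=
  chkW_sound (by norm_num) (by norm_num) (by norm_num) c9_0
theorem u8 : W8 = P (w8 9867 8580) (.cons 8580 23 .nil) 11155 :=
  chkW_sound (by norm_num) (by norm_num) (by norm_num) c8_0
theorem u7 : W7 = P (w8 9867 11155) (.cons 6072 13 (.cons 1794 11 (.cons 3289 3 .nil))) 8580 :=
  chkW_sound (by norm_num) (by norm_num) (by norm_num) c7_0
theorem u6 : W6 = P (w8 9867 7866) (.cons 6072 13 (.cons 1794 11 .nil)) 11869 :=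
  chkW_sound (by norm_num) (by norm_num) (by norm_num) c6_0
theorem u5 : W5 = P (w8 9867 9361) (.cons 6072 13 (.cons 3289 3 .nil)) 10374 :=
  chkW_sound (by norm_num) (by norm_num) (by norm_num) c5_0
theorem u4 : W4 = P (w8 9867 6072) (.cons 6072 13 .nil) 13663 :=
  chkW_sound (by norm_num) (by norm_num) (by norm_num) c4_0
theorem u3 : W3 = P (w8 9867 5083) (.cons 1794 11 (.cons 3289 3 .nil)) 14652 :=
  chkW_sound (by norm_num) (by norm_num) (by norm_num) c3_0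
theorem u2 : W2 = P (w8 9867 1794) (.cons 1794 11 .nil) 17941 :=
  chkW_sound (by norm_num) (by norm_num) (by norm_num) c2_0
theorem u1 : W1 = P (w8 9867 3289) (.cons 3289 3 .nil) 16446 :=
  chkW_sound (by norm_num) (by norm_num) (by norm_num) c1_0
theorem tr_eq : tr = TR (w8 9867) [(8580, 23, 8047776, 255), (6072, 13, 2532, 1), (1794, 11, 1476, 255), (3289, 3, 4, 255)] .nil 0 0 :=
  mk_node (mk_node (mk_node (mk_node (mk_leaf rfl u15) (mk_leaf rfl u14)) (mk_node (mk_leaf rfl u13) (mk_leaf rfl u12))) (mk_node (mk_node (mk_leaf rfl u11) (mk_leaf rfl u10)) (mk_node (mk_leaf rfl u9) (mk_leaf rfl u8)))) (mk_node (mk_node (mk_node (mk_leaf rfl u7) (mk_leaf rfl u6)) (mk_node (mk_leaf rfl u5) (mk_leaf rfl u4))) (mk_node (mk_node (mk_leaf rfl u3) (mk_leaf rfl u2)) (mk_node (mk_leaf rfl u1) (mk_leaf rfl (w8_zero _ _).symm))))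
theorem tb (d : ℤ) (n : ℕ)
    (h : ∀ l ∈ ({23, 13, 11, 3} : Finset ℕ), jacobiSym ((n : ℤ) ^ 2 + 4) l = -1) :
    (512 : ℤ) ∣ Pool.Agent.N367.LE.SEr d {23, 13, 11, 3} n -
      256 * (((BT9867 >>> (((n % 23 * 13 + n % 13) * 11 + n % 11) * 3 + n % 3)) % 2 : ℕ) : ℤ) :=
  tb_gen (m := 9867) pd23 pd13 pd11 pd3 (by norm_num) (by norm_num) (by norm_num)
    (by norm_num) (by norm_num) (by norm_num) (show Idem 3 11 13 23 3289 1794 6072 8580 from Idem.of (by decide)) (by norm_num) (by norm_num)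
    (by norm_num) (by rw [← tr_eq]; exact ev_true) d n h

end Pool.Agent.N367.HT.D9867
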