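import Pool.Agent.N911.L.R2
import Pool.Agent.N156.HT.T1155
import Pool.Agent.N156.HT.T1995
import Pool.Agent.N156.HT.T2415
import Pool.Agent.N156.HT.T3003
import Pool.Agent.N156.HT.T3135
import Pool.Agent.N156.HT.T3255
import Pool.Agent.N156.HT.T3315
import Pool.Agent.N156.HT.T3795
import Pool.Agent.N156.HT.T3927
import Pool.Agent.N367.HT.T5115
import Pool.Agent.N367.HT.T5187
import Pool.Agent.N367.HT.T5655
import Pool.Agent.N367.HT.T6279
import Pool.Agent.N367.HT.T6699
import Pool.Agent.N367.HT.T6783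
import Pool.Agent.N367.HT.T7395
import Pool.Agent.N367.HT.T8151
import Pool.Agent.N367.HT.T8211
import Pool.Agent.N367.HT.T8463
import Pool.Agent.N367.HT.T8835
import Pool.Agent.N367.HT.T8855
import Pool.Agent.N367.HT.T9867
import Pool.Agent.N367.HT.T10659
import Pool.Agent.N367.HT.T10695
import Pool.Agent.N367.HT.T11067
import Pool.Agent.N367.HT.T11571
import Pool.Agent.N367.HT.T12903
import Pool.Agent.N367.HT.T13299
import Pool.Agent.N367.HT.T14007
import Pool.Agent.N367.HT.T19019
import Pool.Agent.N367.HT.T19227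
import Pool.Agent.N367.HT.T22011
import Pool.Agent.N367.HT.T22287
import Pool.Agent.N367.HT.T24871

/-! All tables. -/

namespace Pool.Agent.N367.HT

open Pool.Agent.N911.L

theorem all : AllTB where
  t1155 := Pool.Agent.N156.HT.D1155.tb
  t1995 := Pool.Agent.N156.HT.D1995.tb
  t2415 := Pool.Agent.N156.HT.D2415.tb
  t3003 := Pool.Agent.N156.HT.D3003.tb
  t3135 := Pool.Agent.N156.HT.D3135.tb
  t3255 := Pool.Agent.N156.HT.D3255.tb
  t3315 := Pool.Agent.N156.HT.D3315.tb
  t3795 := Pool.Agent.N156.HT.D3795.tb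
  t3927 := Pool.Agent.N156.HT.D3927.tb
  t5115 := D5115.tb
  t5187 := D5187.tb
  t5655 := D5655.tb
  t6279 := D6279.tb
  t6699 := D6699.tb
  t6783 := D6783.tb
  t7395 := D7395.tb
  t8151 := D8151.tb
  t8211 := D8211.tb
  t8463 := D8463.tb
  t8835 := D8835.tb
  t8855 := D8855.tb
  t9867 := D9867.tb
  t10659 := D10659.tb
  t10695 := D10695.tb
  t11067 := D11067.tb
  t11571 := D11571.tb
  t12903 := D12903.tb
  t13299 := D13299.tb
  t14007 := D14007.tb
  t19019 := D19019.tb
  t19227 := D19227.tb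
  t22011 := D22011.tb
  t22287 := D22287.tb
  t24871 := D24871.tb

end Pool.Agent.N367.HT
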