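import Pool.Agent.N156.HT.H9

/-! Joining two consecutive pieces of a packed table. -/

namespace Pool.Agent.N367.HT

open Pool.Agent.N156.HT

theorem P_join2 {a : ℕ → ℕ} {e c c' C b b' s : ℕ} {r : Ax} {T T' : ℕ}
    (h : T = P a (.cons e c r) b) (h' : T' = P a (.cons e c' r) b') (hb : b' = b + e * c)
    (hs : s = 44 * r.sz * c) (hC : c + c' = C) :
    Nat.add T (Nat.mul (Nat.pow 2 s) T') = P a (.cons e C r) b := by
  subst hC
  exact P_join h h' hb hs

end Pool.Agent.N367.HT
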