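import Pool.Agent.N367.HT.J
import Pool.Agent.N367.HT.D19227

/-! The sum for 29 17 13 3. -/

namespace Pool.Agent.N367.HT.D19227

open Pool.Agent.N156.HT Pool.Agent.N911.L Pool.Agent.N367.HT

set_option exponentiation.threshold 2000000

theorem u15 : W15 = P (w8 19227 19228) (.cons 4641 29 (.cons 2262 17 (.cons 5916 13 (.cons 6409 3 .nil)))) 0 :=
  by
  unfold W15
  have h28 := chkW_sound (by norm_num) (by norm_num) (by norm_num) c15_28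
  have h27 : Nat.add W15c27 (Nat.mul (Nat.pow 2 29172) (W15c28)) = P (w8 19227 19228) (.cons 4641 2 (.cons 2262 17 (.cons 5916 13 (.cons 6409 3 .nil)))) 125307 :=
    @P_join2 (w8 19227 19228) 4641 1 1 2 125307 129948 29172 (.cons 2262 17 (.cons 5916 13 (.cons 6409 3 .nil))) W15c27 (W15c28)
      (chkW_sound (by norm_num) (by norm_num) (by norm_num) c15_27) h28 (by norm_num) rfl rfl
  have h26 : Nat.add W15c26 (Nat.mul (Nat.pow 2 29172) (Nat.add W15c27 (Nat.mul (Nat.pow 2 29172) (W15c28)))) = P (w8 19227 19228) (.cons 4641 3 (.cons 2262 17 (.cons 5916 13 (.cons 6409 3 .nil)))) 120666 :=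
    @P_join2 (w8 19227 19228) 4641 1 2 3 120666 125307 29172 (.cons 2262 17 (.cons 5916 13 (.cons 6409 3 .nil))) W15c26 (Nat.add W15c27 (Nat.mul (Nat.pow 2 29172) (W15c28)))
      (chkW_sound (by norm_num) (by norm_num) (by norm_num) c15_26) h27 (by norm_num) rfl rfl
  have h25 : Nat.add W15c25 (Nat.mul (Nat.pow 2 29172) (Nat.add W15c26 (Nat.mul (Nat.pow 2 29172) (Nat.add W15c27 (Nat.mul (Nat.pow 2 29172) (W15c28)))))) = P (w8 19227 19228) (.cons 4641 4 (.cons 2262 17 (.cons 5916 13 (.cons 6409 3 .nil)))) 116025 :=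
    @P_join2 (w8 19227 19228) 4641 1 3 4 116025 120666 29172 (.cons 2262 17 (.cons 5916 13 (.cons 6409 3 .nil))) W15c25 (Nat.add W15c26 (Nat.mul (Nat.pow 2 29172) (Nat.add W15c27 (Nat.mul (Nat.pow 2 29172) (W15c28)))))
      (chkW_sound (by norm_num) (by norm_num) (by norm_num) c15_25) h26 (by norm_num) rfl rfl
  have h24 : Nat.add W15c24 (Nat.mul (Nat.pow 2 29172) (Nat.add W15c25 (Nat.mul (Nat.pow 2 29172) (Nat.add W15c26 (Nat.mul (Nat.pow 2 29172) (Nat.add W15c27 (Nat.mul (Nat.pow 2 29172) (W15c28)))))))) = P (w8 19227 19228) (.cons 4641 5 (.cons 2262 17 (.cons 5916 13 (.cons 6409 3 .nil)))) 111384 :=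
    @P_join2 (w8 19227 19228) 4641 1 4 5 111384 116025 29172 (.cons 2262 17 (.cons 5916 13 (.cons 6409 3 .nil))) W15c24 (Nat.add W15c25 (Nat.mul (Nat.pow 2 29172) (Nat.add W15c26 (Nat.mul (Nat.pow 2 29172) (Nat.add W15c27 (Nat.mul (Nat.pow 2 29172) (W15c28)))))))
      (chkW_sound (by norm_num) (by norm_num) (by norm_num) c15_24) h25 (by norm_num) rfl rfl
  have h23 : Nat.add W15c23 (Nat.mul (Nat.pow 2 29172) (Nat.add W15c24 (Nat.mul (Nat.pow 2 29172) (Nat.add W15c25 (Nat.mul (Nat.pow 2 29172) (Nat.add W15c26 (Nat.mul (Nat.pow 2 29172) (Nat.add W15c27 (Nat.mul (Nat.pow 2 29172) (W15c28)))))))))) = P (w8 19227 19228) (.cons 4641 6 (.cons 2262 17 (.cons 5916 13 (.cons 6409 3 .nil)))) 106743 :=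
    @P_join2 (w8 19227 19228) 4641 1 5 6 106743 111384 29172 (.cons 2262 17 (.cons 5916 13 (.cons 6409 3 .nil))) W15c23 (Nat.add W15c24 (Nat.mul (Nat.pow 2 29172) (Nat.add W15c25 (Nat.mul (Nat.pow 2 29172) (Nat.add W15c26 (Nat.mul (Nat.pow 2 29172) (Nat.add W15c27 (Nat.mul (Nat.pow 2 29172) (W15c28)))))))))
      (chkW_sound (by norm_num) (by norm_num) (by norm_num) c15_23) h24 (by norm_num) rfl rfl
  have h22 : Nat.add W15c22 (Nat.mul (Nat.pow 2 29172) (Nat.add W15c23 (Nat.mul (Nat.pow 2 29172) (Nat.add W15c24 (Nat.mul (Nat.pow 2 29172) (Nat.add W15c25 (Nat.mul (Nat.pow 2 29172) (Nat.add W15c26 (Nat.mul (Nat.pow 2 29172) (Nat.add W15c27 (Nat.mul (Nat.pow 2 29172) (W15c28)))))))))))) = P (w8 19227 19228) (.cons 4641 7 (.cons 2262 17 (.cons 5916 13 (.cons 6409 3 .nil)))) 102102 :=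
    @P_join2 (w8 19227 19228) 4641 1 6 7 102102 106743 29172 (.cons 2262 17 (.cons 5916 13 (.cons 6409 3 .nil))) W15c22 (Nat.add W15c23 (Nat.mul (Nat.pow 2 29172) (Nat.add W15c24 (Nat.mul (Nat.pow 2 29172) (Nat.add W15c25 (Nat.mul (Nat.pow 2 29172) (Nat.add W15c26 (Nat.mul (Nat.pow 2 29172) (Nat.add W15c27 (Nat.mul (Nat.pow 2 29172) (W15c28)))))))))))
      (chkW_sound (by norm_num) (by norm_num) (by norm_num) c15_22) h23 (by norm_num) rfl rfl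
  have h21 : Nat.add W15c21 (Nat.mul (Nat.pow 2 29172) (Nat.add W15c22 (Nat.mul (Nat.pow 2 29172) (Nat.add W15c23 (Nat.mul (Nat.pow 2 29172) (Nat.add W15c24 (Nat.mul (Nat.pow 2 29172) (Nat.add W15c25 (Nat.mul (Nat.pow 2 29172) (Nat.add W15c26 (Nat.mul (Nat.pow 2 29172) (Nat.add W15c27 (Nat.mul (Nat.pow 2 29172) (W15c28)))))))))))))) = P (w8 19227 19228) (.cons 4641 8 (.cons 2262 17 (.cons 5916 13 (.cons 6409 3 .nil)))) 97461 :=
    @P_join2 (w8 19227 19228) 4641 1 7 8 97461 102102 29172 (.cons 2262 17 (.cons 5916 13 (.cons 6409 3 .nil))) W15c21 (Nat.add W15c22 (Nat.mul (Nat.pow 2 29172) (Nat.add W15c23 (Nat.mul (Nat.pow 2 29172) (Nat.add W15c24 (Nat.mul (Nat.pow 2 29172) (Nat.add W15c25 (Nat.mul (Nat.pow 2 29172) (Nat.add W15c26 (Nat.mul (Nat.pow 2 29172) (Nat.add W15c27 (Nat.mul (Nat.pow 2 29172) (W15c28)))))))))))))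
      (chkW_sound (by norm_num) (by norm_num) (by norm_num) c15_21) h22 (by norm_num) rfl rfl
  have h20 : Nat.add W15c20 (Nat.mul (Nat.pow 2 29172) (Nat.add W15c21 (Nat.mul (Nat.pow 2 29172) (Nat.add W15c22 (Nat.mul (Nat.pow 2 29172) (Nat.add W15c23 (Nat.mul (Nat.pow 2 29172) (Nat.add W15c24 (Nat.mul (Nat.pow 2 29172) (Nat.add W15c25 (Nat.mul (Nat.pow 2 29172) (Nat.add W15c26 (Nat.mul (Nat.pow 2 29172) (Nat.add W15c27 (Nat.mul (Nat.pow 2 29172) (W15c28)))))))))))))))) = P (w8 19227 19228) (.cons 4641 9 (.cons 2262 17 (.cons 5916 13 (.cons 6409 3 .nil)))) 92820 :=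
    @P_join2 (w8 19227 19228) 4641 1 8 9 92820 97461 29172 (.cons 2262 17 (.cons 5916 13 (.cons 6409 3 .nil))) W15c20 (Nat.add W15c21 (Nat.mul (Nat.pow 2 29172) (Nat.add W15c22 (Nat.mul (Nat.pow 2 29172) (Nat.add W15c23 (Nat.mul (Nat.pow 2 29172) (Nat.add W15c24 (Nat.mul (Nat.pow 2 29172) (Nat.add W15c25 (Nat.mul (Nat.pow 2 29172) (Nat.add W15c26 (Nat.mul (Nat.pow 2 29172) (Nat.add W15c27 (Nat.mul (Nat.pow 2 29172) (W15c28)))))))))))))))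
      (chkW_sound (by norm_num) (by norm_num) (by norm_num) c15_20) h21 (by norm_num) rfl rfl
  have h19 : Nat.add W15c19 (Nat.mul (Nat.pow 2 29172) (Nat.add W15c20 (Nat.mul (Nat.pow 2 29172) (Nat.add W15c21 (Nat.mul (Nat.pow 2 29172) (Nat.add W15c22 (Nat.mul (Nat.pow 2 29172) (Nat.add W15c23 (Nat.mul (Nat.pow 2 29172) (Nat.add W15c24 (Nat.mul (Nat.pow 2 29172) (Nat.add W15c25 (Nat.mul (Nat.pow 2 29172) (Nat.add W15c26 (Nat.mul (Nat.pow 2 29172) (Nat.add W15c27 (Nat.mul (Nat.pow 2 29172) (W15c28)))))))))))))))))) = P (w8 19227 19228) (.cons 4641 10 (.cons 2262 17 (.cons 5916 13 (.cons 6409 3 .nil)))) 88179 :=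
    @P_join2 (w8 19227 19228) 4641 1 9 10 88179 92820 29172 (.cons 2262 17 (.cons 5916 13 (.cons 6409 3 .nil))) W15c19 (Nat.add W15c20 (Nat.mul (Nat.pow 2 29172) (Nat.add W15c21 (Nat.mul (Nat.pow 2 29172) (Nat.add W15c22 (Nat.mul (Nat.pow 2 29172) (Nat.add W15c23 (Nat.mul (Nat.pow 2 29172) (Nat.add W15c24 (Nat.mul (Nat.pow 2 29172) (Nat.add W15c25 (Nat.mul (Nat.pow 2 29172) (Nat.add W15c26 (Nat.mul (Nat.pow 2 29172) (Nat.add W15c27 (Nat.mul (Nat.pow 2 29172) (W15c28)))))))))))))))))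
      (chkW_sound (by norm_num) (by norm_num) (by norm_num) c15_19) h20 (by norm_num) rfl rfl
  have h18 : Nat.add W15c18 (Nat.mul (Nat.pow 2 29172) (Nat.add W15c19 (Nat.mul (Nat.pow 2 29172) (Nat.add W15c20 (Nat.mul (Nat.pow 2 29172) (Nat.add W15c21 (Nat.mul (Nat.pow 2 29172) (Nat.add W15c22 (Nat.mul (Nat.pow 2 29172) (Nat.add W15c23 (Nat.mul (Nat.pow 2 29172) (Nat.add W15c24 (Nat.mul (Nat.pow 2 29172) (Nat.add W15c25 (Nat.mul (Nat.pow 2 29172) (Nat.add W15c26 (Nat.mul (Nat.pow 2 29172) (Nat.add W15c27 (Nat.mul (Nat.pow 2 29172) (W15c28)))))))))))))))))))) = P (w8 19227 19228) (.cons 4641 11 (.cons 2262 17 (.cons 5916 13 (.cons 6409 3 .nil)))) 83538 :=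
    @P_join2 (w8 19227 19228) 4641 1 10 11 83538 88179 29172 (.cons 2262 17 (.cons 5916 13 (.cons 6409 3 .nil))) W15c18 (Nat.add W15c19 (Nat.mul (Nat.pow 2 29172) (Nat.add W15c20 (Nat.mul (Nat.pow 2 29172) (Nat.add W15c21 (Nat.mul (Nat.pow 2 29172) (Nat.add W15c22 (Nat.mul (Nat.pow 2 29172) (Nat.add W15c23 (Nat.mul (Nat.pow 2 29172) (Nat.add W15c24 (Nat.mul (Nat.pow 2 29172) (Nat.add W15c25 (Nat.mul (Nat.pow 2 29172) (Nat.add W15c26 (Nat.mul (Nat.pow 2 29172) (Nat.add W15c27 (Nat.mul (Nat.pow 2 29172) (W15c28)))))))))))))))))))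
      (chkW_sound (by norm_num) (by norm_num) (by norm_num) c15_18) h19 (by norm_num) rfl rfl
  have h17 : Nat.add W15c17 (Nat.mul (Nat.pow 2 29172) (Nat.add W15c18 (Nat.mul (Nat.pow 2 29172) (Nat.add W15c19 (Nat.mul (Nat.pow 2 29172) (Nat.add W15c20 (Nat.mul (Nat.pow 2 29172) (Nat.add W15c21 (Nat.mul (Nat.pow 2 29172) (Nat.add W15c22 (Nat.mul (Nat.pow 2 29172) (Nat.add W15c23 (Nat.mul (Nat.pow 2 29172) (Nat.add W15c24 (Nat.mul (Nat.pow 2 29172) (Nat.add W15c25 (Nat.mul (Nat.pow 2 29172) (Nat.add W15c26 (Nat.mul (Nat.pow 2 29172) (Nat.add W15c27 (Nat.mul (Nat.pow 2 29172) (W15c28)))))))))))))))))))))) = P (w8 19227 19228) (.cons 4641 12 (.cons 2262 17 (.cons 5916 13 (.cons 6409 3 .nil)))) 78897 :=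
    @P_join2 (w8 19227 19228) 4641 1 11 12 78897 83538 29172 (.cons 2262 17 (.cons 5916 13 (.cons 6409 3 .nil))) W15c17 (Nat.add W15c18 (Nat.mul (Nat.pow 2 29172) (Nat.add W15c19 (Nat.mul (Nat.pow 2 29172) (Nat.add W15c20 (Nat.mul (Nat.pow 2 29172) (Nat.add W15c21 (Nat.mul (Nat.pow 2 29172) (Nat.add W15c22 (Nat.mul (Nat.pow 2 29172) (Nat.add W15c23 (Nat.mul (Nat.pow 2 29172) (Nat.add W15c24 (Nat.mul (Nat.pow 2 29172) (Nat.add W15c25 (Nat.mul (Nat.pow 2 29172) (Nat.add W15c26 (Nat.mul (Nat.pow 2 29172) (Nat.add W15c27 (Nat.mul (Nat.pow 2 29172) (W15c28)))))))))))))))))))))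
      (chkW_sound (by norm_num) (by norm_num) (by norm_num) c15_17) h18 (by norm_num) rfl rfl
  have h16 : Nat.add W15c16 (Nat.mul (Nat.pow 2 29172) (Nat.add W15c17 (Nat.mul (Nat.pow 2 29172) (Nat.add W15c18 (Nat.mul (Nat.pow 2 29172) (Nat.add W15c19 (Nat.mul (Nat.pow 2 29172) (Nat.add W15c20 (Nat.mul (Nat.pow 2 29172) (Nat.add W15c21 (Nat.mul (Nat.pow 2 29172) (Nat.add W15c22 (Nat.mul (Nat.pow 2 29172) (Nat.add W15c23 (Nat.mul (Nat.pow 2 29172) (Nat.add W15c24 (Nat.mul (Nat.pow 2 29172) (Nat.add W15c25 (Nat.mul (Nat.pow 2 29172) (Nat.add W15c26 (Nat.mul (Nat.pow 2 29172) (Nat.add W15c27 (Nat.mul (Nat.pow 2 29172) (W15c28)))))))))))))))))))))))) = P (w8 19227 19228) (.cons 4641 13 (.cons 2262 17 (.cons 5916 13 (.cons 6409 3 .nil)))) 74256 :=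
    @P_join2 (w8 19227 19228) 4641 1 12 13 74256 78897 29172 (.cons 2262 17 (.cons 5916 13 (.cons 6409 3 .nil))) W15c16 (Nat.add W15c17 (Nat.mul (Nat.pow 2 29172) (Nat.add W15c18 (Nat.mul (Nat.pow 2 29172) (Nat.add W15c19 (Nat.mul (Nat.pow 2 29172) (Nat.add W15c20 (Nat.mul (Nat.pow 2 29172) (Nat.add W15c21 (Nat.mul (Nat.pow 2 29172) (Nat.add W15c22 (Nat.mul (Nat.pow 2 29172) (Nat.add W15c23 (Nat.mul (Nat.pow 2 29172) (Nat.add W15c24 (Nat.mul (Nat.pow 2 29172) (Nat.add W15c25 (Nat.mul (Nat.pow 2 29172) (Nat.add W15c26 (Nat.mul (Nat.pow 2 29172) (Nat.add W15c27 (Nat.mul (Nat.pow 2 29172) (W15c28)))))))))))))))))))))))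
      (chkW_sound (by norm_num) (by norm_num) (by norm_num) c15_16) h17 (by norm_num) rfl rfl
  have h15 : Nat.add W15c15 (Nat.mul (Nat.pow 2 29172) (Nat.add W15c16 (Nat.mul (Nat.pow 2 29172) (Nat.add W15c17 (Nat.mul (Nat.pow 2 29172) (Nat.add W15c18 (Nat.mul (Nat.pow 2 29172) (Nat.add W15c19 (Nat.mul (Nat.pow 2 29172) (Nat.add W15c20 (Nat.mul (Nat.pow 2 29172) (Nat.add W15c21 (Nat.mul (Nat.pow 2 29172) (Nat.add W15c22 (Nat.mul (Nat.pow 2 29172) (Nat.add W15c23 (Nat.mul (Nat.pow 2 29172) (Nat.add W15c24 (Nat.mul (Nat.pow 2 29172) (Nat.add W15c25 (Nat.mul (Nat.pow 2 29172) (Nat.add W15c26 (Nat.mul (Nat.pow 2 29172) (Nat.add W15c27 (Nat.mul (Nat.pow 2 29172) (W15c28)))))))))))))))))))))))))) = P (w8 19227 19228) (.cons 4641 14 (.cons 2262 17 (.cons 5916 13 (.cons 6409 3 .nil)))) 69615 :=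
    @P_join2 (w8 19227 19228) 4641 1 13 14 69615 74256 29172 (.cons 2262 17 (.cons 5916 13 (.cons 6409 3 .nil))) W15c15 (Nat.add W15c16 (Nat.mul (Nat.pow 2 29172) (Nat.add W15c17 (Nat.mul (Nat.pow 2 29172) (Nat.add W15c18 (Nat.mul (Nat.pow 2 29172) (Nat.add W15c19 (Nat.mul (Nat.pow 2 29172) (Nat.add W15c20 (Nat.mul (Nat.pow 2 29172) (Nat.add W15c21 (Nat.mul (Nat.pow 2 29172) (Nat.add W15c22 (Nat.mul (Nat.pow 2 29172) (Nat.add W15c23 (Nat.mul (Nat.pow 2 29172) (Nat.add W15c24 (Nat.mul (Nat.pow 2 29172) (Nat.add W15c25 (Nat.mul (Nat.pow 2 29172) (Nat.add W15c26 (Nat.mul (Nat.pow 2 29172) (Nat.add W15c27 (Nat.mul (Nat.pow 2 29172) (W15c28)))))))))))))))))))))))))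
      (chkW_sound (by norm_num) (by norm_num) (by norm_num) c15_15) h16 (by norm_num) rfl rfl
  have h14 : Nat.add W15c14 (Nat.mul (Nat.pow 2 29172) (Nat.add W15c15 (Nat.mul (Nat.pow 2 29172) (Nat.add W15c16 (Nat.mul (Nat.pow 2 29172) (Nat.add W15c17 (Nat.mul (Nat.pow 2 29172) (Nat.add W15c18 (Nat.mul (Nat.pow 2 29172) (Nat.add W15c19 (Nat.mul (Nat.pow 2 29172) (Nat.add W15c20 (Nat.mul (Nat.pow 2 29172) (Nat.add W15c21 (Nat.mul (Nat.pow 2 29172) (Nat.add W15c22 (Nat.mul (Nat.pow 2 29172) (Nat.add W15c23 (Nat.mul (Nat.pow 2 29172) (Nat.add W15c24 (Nat.mul (Nat.pow 2 29172) (Nat.add W15c25 (Nat.mul (Nat.pow 2 29172) (Nat.add W15c26 (Nat.mul (Nat.pow 2 29172) (Nat.add W15c27 (Nat.mul (Nat.pow 2 29172) (W15c28)))))))))))))))))))))))))))) = P (w8 19227 19228) (.cons 4641 15 (.cons 2262 17 (.cons 5916 13 (.cons 6409 3 .nil)))) 64974 :=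
    @P_join2 (w8 19227 19228) 4641 1 14 15 64974 69615 29172 (.cons 2262 17 (.cons 5916 13 (.cons 6409 3 .nil))) W15c14 (Nat.add W15c15 (Nat.mul (Nat.pow 2 29172) (Nat.add W15c16 (Nat.mul (Nat.pow 2 29172) (Nat.add W15c17 (Nat.mul (Nat.pow 2 29172) (Nat.add W15c18 (Nat.mul (Nat.pow 2 29172) (Nat.add W15c19 (Nat.mul (Nat.pow 2 29172) (Nat.add W15c20 (Nat.mul (Nat.pow 2 29172) (Nat.add W15c21 (Nat.mul (Nat.pow 2 29172) (Nat.add W15c22 (Nat.mul (Nat.pow 2 29172) (Nat.add W15c23 (Nat.mul (Nat.pow 2 29172) (Nat.add W15c24 (Nat.mul (Nat.pow 2 29172) (Nat.add W15c25 (Nat.mul (Nat.pow 2 29172) (Nat.add W15c26 (Nat.mul (Nat.pow 2 29172) (Nat.add W15c27 (Nat.mul (Nat.pow 2 29172) (W15c28)))))))))))))))))))))))))))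
      (chkW_sound (by norm_num) (by norm_num) (by norm_num) c15_14) h15 (by norm_num) rfl rfl
  have h13 : Nat.add W15c13 (Nat.mul (Nat.pow 2 29172) (Nat.add W15c14 (Nat.mul (Nat.pow 2 29172) (Nat.add W15c15 (Nat.mul (Nat.pow 2 29172) (Nat.add W15c16 (Nat.mul (Nat.pow 2 29172) (Nat.add W15c17 (Nat.mul (Nat.pow 2 29172) (Nat.add W15c18 (Nat.mul (Nat.pow 2 29172) (Nat.add W15c19 (Nat.mul (Nat.pow 2 29172) (Nat.add W15c20 (Nat.mul (Nat.pow 2 29172) (Nat.add W15c21 (Nat.mul (Nat.pow 2 29172) (Nat.add W15c22 (Nat.mul (Nat.pow 2 29172) (Nat.add W15c23 (Nat.mul (Nat.pow 2 29172) (Nat.add W15c24 (Nat.mul (Nat.pow 2 29172) (Nat.add W15c25 (Nat.mul (Nat.pow 2 29172) (Nat.add W15c26 (Nat.mul (Nat.pow 2 29172) (Nat.add W15c27 (Nat.mul (Nat.pow 2 29172) (W15c28)))))))))))))))))))))))))))))) = P (w8 19227 19228) (.cons 4641 16 (.cons 2262 17 (.cons 5916 13 (.cons 6409 3 .nil))))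 60333 :=
    @P_join2 (w8 19227 19228) 4641 1 15 16 60333 64974 29172 (.cons 2262 17 (.cons 5916 13 (.cons 6409 3 .nil))) W15c13 (Nat.add W15c14 (Nat.mul (Nat.pow 2 29172) (Nat.add W15c15 (Nat.mul (Nat.pow 2 29172) (Nat.add W15c16 (Nat.mul (Nat.pow 2 29172) (Nat.add W15c17 (Nat.mul (Nat.pow 2 29172) (Nat.add W15c18 (Nat.mul (Nat.pow 2 29172) (Nat.add W15c19 (Nat.mul (Nat.pow 2 29172) (Nat.add W15c20 (Nat.mul (Nat.pow 2 29172) (Nat.add W15c21 (Nat.mul (Nat.pow 2 29172) (Nat.add W15c22 (Nat.mul (Nat.pow 2 29172) (Nat.add W15c23 (Nat.mul (Nat.pow 2 29172) (Nat.add W15c24 (Nat.mul (Nat.pow 2 29172) (Nat.add W15c25 (Nat.mul (Nat.pow 2 29172) (Nat.add W15c26 (Nat.mul (Nat.pow 2 29172) (Nat.add W15c27 (Nat.mul (Nat.pow 2 29172) (W15c28)))))))))))))))))))))))))))))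
      (chkW_sound (by norm_num) (by norm_num) (by norm_num) c15_13) h14 (by norm_num) rfl rfl
  have h12 : Nat.add W15c12 (Nat.mul (Nat.pow 2 29172) (Nat.add W15c13 (Nat.mul (Nat.pow 2 29172) (Nat.add W15c14 (Nat.mul (Nat.pow 2 29172) (Nat.add W15c15 (Nat.mul (Nat.pow 2 29172) (Nat.add W15c16 (Nat.mul (Nat.pow 2 29172) (Nat.add W15c17 (Nat.mul (Nat.pow 2 29172) (Nat.add W15c18 (Nat.mul (Nat.pow 2 29172) (Nat.add W15c19 (Nat.mul (Nat.pow 2 29172) (Nat.add W15c20 (Nat.mul (Nat.pow 2 29172) (Nat.add W15c21 (Nat.mul (Nat.pow 2 29172) (Nat.add W15c22 (Nat.mul (Nat.pow 2 29172) (Nat.add W15c23 (Nat.mul (Nat.pow 2 29172) (Nat.add W15c24 (Nat.mul (Nat.pow 2 29172) (Nat.add W15c25 (Nat.mul (Nat.pow 2 29172) (Nat.add W15c26 (Nat.mul (Nat.pow 2 29172) (Nat.add W15c27 (Nat.mul (Nat.pow 2 29172) (W15c28)))))))))))))))))))))))))))))))) = P (w8 19227 19228) (.cons 4641 17 (.cons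 2262 17 (.cons 5916 13 (.cons 6409 3 .nil)))) 55692 :=
    @P_join2 (w8 19227 19228) 4641 1 16 17 55692 60333 29172 (.cons 2262 17 (.cons 5916 13 (.cons 6409 3 .nil))) W15c12 (Nat.add W15c13 (Nat.mul (Nat.pow 2 29172) (Nat.add W15c14 (Nat.mul (Nat.pow 2 29172) (Nat.add W15c15 (Nat.mul (Nat.pow 2 29172) (Nat.add W15c16 (Nat.mul (Nat.pow 2 29172) (Nat.add W15c17 (Nat.mul (Nat.pow 2 29172) (Nat.add W15c18 (Nat.mul (Nat.pow 2 29172) (Nat.add W15c19 (Nat.mul (Nat.pow 2 29172) (Nat.add W15c20 (Nat.mul (Nat.pow 2 29172) (Nat.add W15c21 (Nat.mul (Nat.pow 2 29172) (Nat.add W15c22 (Nat.mul (Nat.pow 2 29172) (Nat.add W15c23 (Nat.mul (Nat.pow 2 29172) (Nat.add W15c24 (Nat.mul (Nat.pow 2 29172) (Nat.add W15c25 (Nat.mul (Nat.pow 2 29172) (Nat.add W15c26 (Nat.mul (Nat.pow 2 29172) (Nat.add W15c27 (Nat.mul (Nat.pow 2 29172) (W15c28)))))))))))))))))))))))))))))))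
      (chkW_sound (by norm_num) (by norm_num) (by norm_num) c15_12) h13 (by norm_num) rfl rfl
  have h11 : Nat.add W15c11 (Nat.mul (Nat.pow 2 29172) (Nat.add W15c12 (Nat.mul (Nat.pow 2 29172) (Nat.add W15c13 (Nat.mul (Nat.pow 2 29172) (Nat.add W15c14 (Nat.mul (Nat.pow 2 29172) (Nat.add W15c15 (Nat.mul (Nat.pow 2 29172) (Nat.add W15c16 (Nat.mul (Nat.pow 2 29172) (Nat.add W15c17 (Nat.mul (Nat.pow 2 29172) (Nat.add W15c18 (Nat.mul (Nat.pow 2 29172) (Nat.add W15c19 (Nat.mul (Nat.pow 2 29172) (Nat.add W15c20 (Nat.mul (Nat.pow 2 29172) (Nat.add W15c21 (Nat.mul (Nat.pow 2 29172) (Nat.add W15c22 (Nat.mul (Nat.pow 2 29172) (Nat.add W15c23 (Nat.mul (Nat.pow 2 29172) (Nat.add W15c24 (Nat.mul (Nat.pow 2 29172) (Nat.add W15c25 (Nat.mul (Nat.pow 2 29172) (Nat.add W15c26 (Nat.mul (Nat.pow 2 29172) (Nat.add W15c27 (Nat.mul (Nat.pow 2 29172) (W15c28))))))))))))))))))))))))))))))))))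 = P (w8 19227 19228) (.cons 4641 18 (.cons 2262 17 (.cons 5916 13 (.cons 6409 3 .nil)))) 51051 :=
    @P_join2 (w8 19227 19228) 4641 1 17 18 51051 55692 29172 (.cons 2262 17 (.cons 5916 13 (.cons 6409 3 .nil))) W15c11 (Nat.add W15c12 (Nat.mul (Nat.pow 2 29172) (Nat.add W15c13 (Nat.mul (Nat.pow 2 29172) (Nat.add W15c14 (Nat.mul (Nat.pow 2 29172) (Nat.add W15c15 (Nat.mul (Nat.pow 2 29172) (Nat.add W15c16 (Nat.mul (Nat.pow 2 29172) (Nat.add W15c17 (Nat.mul (Nat.pow 2 29172) (Nat.add W15c18 (Nat.mul (Nat.pow 2 29172) (Nat.add W15c19 (Nat.mul (Nat.pow 2 29172) (Nat.add W15c20 (Nat.mul (Nat.pow 2 29172) (Nat.add W15c21 (Nat.mul (Nat.pow 2 29172) (Nat.add W15c22 (Nat.mul (Nat.pow 2 29172) (Nat.add W15c23 (Nat.mul (Nat.pow 2 29172) (Nat.add W15c24 (Nat.mul (Nat.pow 2 29172) (Nat.add W15c25 (Nat.mul (Nat.pow 2 29172) (Nat.add W15c26 (Nat.mul (Nat.pow 2 29172) (Nat.add W15c27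 (Nat.mul (Nat.pow 2 29172) (W15c28)))))))))))))))))))))))))))))))))
      (chkW_sound (by norm_num) (by norm_num) (by norm_num) c15_11) h12 (by norm_num) rfl rfl
  have h10 : Nat.add W15c10 (Nat.mul (Nat.pow 2 29172) (Nat.add W15c11 (Nat.mul (Nat.pow 2 29172) (Nat.add W15c12 (Nat.mul (Nat.pow 2 29172) (Nat.add W15c13 (Nat.mul (Nat.pow 2 29172) (Nat.add W15c14 (Nat.mul (Nat.pow 2 29172) (Nat.add W15c15 (Nat.mul (Nat.pow 2 29172) (Nat.add W15c16 (Nat.mul (Nat.pow 2 29172) (Nat.add W15c17 (Nat.mul (Nat.pow 2 29172) (Nat.add W15c18 (Nat.mul (Nat.pow 2 29172) (Nat.add W15c19 (Nat.mul (Nat.pow 2 29172) (Nat.add W15c20 (Nat.mul (Nat.pow 2 29172) (Nat.add W15c21 (Nat.mul (Nat.pow 2 29172) (Nat.add W15c22 (Nat.mul (Nat.pow 2 29172) (Nat.add W15c23 (Nat.mul (Nat.pow 2 29172) (Nat.add W15c24 (Nat.mul (Nat.pow 2 29172) (Nat.add W15c25 (Nat.mul (Nat.pow 2 29172) (Nat.add W15c26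 (Nat.mul (Nat.pow 2 29172) (Nat.add W15c27 (Nat.mul (Nat.pow 2 29172) (W15c28)))))))))))))))))))))))))))))))))))) = P (w8 19227 19228) (.cons 4641 19 (.cons 2262 17 (.cons 5916 13 (.cons 6409 3 .nil)))) 46410 :=
    @P_join2 (w8 19227 19228) 4641 1 18 19 46410 51051 29172 (.cons 2262 17 (.cons 5916 13 (.cons 6409 3 .nil))) W15c10 (Nat.add W15c11 (Nat.mul (Nat.pow 2 29172) (Nat.add W15c12 (Nat.mul (Nat.pow 2 29172) (Nat.add W15c13 (Nat.mul (Nat.pow 2 29172) (Nat.add W15c14 (Nat.mul (Nat.pow 2 29172) (Nat.add W15c15 (Nat.mul (Nat.pow 2 29172) (Nat.add W15c16 (Nat.mul (Nat.pow 2 29172) (Nat.add W15c17 (Nat.mul (Nat.pow 2 29172) (Nat.add W15c18 (Nat.mul (Nat.pow 2 29172) (Nat.add W15c19 (Nat.mul (Nat.pow 2 29172) (Nat.add W15c20 (Nat.mul (Nat.pow 2 29172) (Nat.add W15c21 (Nat.mul (Nat.pow 2 29172) (Nat.add W15c22 (Nat.mul (Nat.pow 2 29172) (Nat.add W15c23 (Nat.mul (Nat.pow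 2 29172) (Nat.add W15c24 (Nat.mul (Nat.pow 2 29172) (Nat.add W15c25 (Nat.mul (Nat.pow 2 29172) (Nat.add W15c26 (Nat.mul (Nat.pow 2 29172) (Nat.add W15c27 (Nat.mul (Nat.pow 2 29172) (W15c28)))))))))))))))))))))))))))))))))))
      (chkW_sound (by norm_num) (by norm_num) (by norm_num) c15_10) h11 (by norm_num) rfl rfl
  have h9 : Nat.add W15c9 (Nat.mul (Nat.pow 2 29172) (Nat.add W15c10 (Nat.mul (Nat.pow 2 29172) (Nat.add W15c11 (Nat.mul (Nat.pow 2 29172) (Nat.add W15c12 (Nat.mul (Nat.pow 2 29172) (Nat.add W15c13 (Nat.mul (Nat.pow 2 29172) (Nat.add W15c14 (Nat.mul (Nat.pow 2 29172) (Nat.add W15c15 (Nat.mul (Nat.pow 2 29172) (Nat.add W15c16 (Nat.mul (Nat.pow 2 29172) (Nat.add W15c17 (Nat.mul (Nat.pow 2 29172) (Nat.add W15c18 (Nat.mul (Nat.pow 2 29172) (Nat.add W15c19 (Nat.mul (Nat.pow 2 29172) (Nat.add W15c20 (Nat.mul (Nat.pow 2 29172) (Nat.add W15c21 (Nat.mul (Nat.pow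 2 29172) (Nat.add W15c22 (Nat.mul (Nat.pow 2 29172) (Nat.add W15c23 (Nat.mul (Nat.pow 2 29172) (Nat.add W15c24 (Nat.mul (Nat.pow 2 29172) (Nat.add W15c25 (Nat.mul (Nat.pow 2 29172) (Nat.add W15c26 (Nat.mul (Nat.pow 2 29172) (Nat.add W15c27 (Nat.mul (Nat.pow 2 29172) (W15c28)))))))))))))))))))))))))))))))))))))) = P (w8 19227 19228) (.cons 4641 20 (.cons 2262 17 (.cons 5916 13 (.cons 6409 3 .nil)))) 41769 :=
    @P_join2 (w8 19227 19228) 4641 1 19 20 41769 46410 29172 (.cons 2262 17 (.cons 5916 13 (.cons 6409 3 .nil))) W15c9 (Nat.add W15c10 (Nat.mul (Nat.pow 2 29172) (Nat.add W15c11 (Nat.mul (Nat.pow 2 29172) (Nat.add W15c12 (Nat.mul (Nat.pow 2 29172) (Nat.add W15c13 (Nat.mul (Nat.pow 2 29172) (Nat.add W15c14 (Nat.mul (Nat.pow 2 29172) (Nat.add W15c15 (Nat.mul (Nat.pow 2 29172) (Nat.add W15c16 (Nat.mul (Nat.pow 2 29172) (Nat.add W15c17 (Nat.mul (Nat.pow 2 29172) (Nat.add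 W15c18 (Nat.mul (Nat.pow 2 29172) (Nat.add W15c19 (Nat.mul (Nat.pow 2 29172) (Nat.add W15c20 (Nat.mul (Nat.pow 2 29172) (Nat.add W15c21 (Nat.mul (Nat.pow 2 29172) (Nat.add W15c22 (Nat.mul (Nat.pow 2 29172) (Nat.add W15c23 (Nat.mul (Nat.pow 2 29172) (Nat.add W15c24 (Nat.mul (Nat.pow 2 29172) (Nat.add W15c25 (Nat.mul (Nat.pow 2 29172) (Nat.add W15c26 (Nat.mul (Nat.pow 2 29172) (Nat.add W15c27 (Nat.mul (Nat.pow 2 29172) (W15c28)))))))))))))))))))))))))))))))))))))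
      (chkW_sound (by norm_num) (by norm_num) (by norm_num) c15_9) h10 (by norm_num) rfl rfl
  have h8 : Nat.add W15c8 (Nat.mul (Nat.pow 2 29172) (Nat.add W15c9 (Nat.mul (Nat.pow 2 29172) (Nat.add W15c10 (Nat.mul (Nat.pow 2 29172) (Nat.add W15c11 (Nat.mul (Nat.pow 2 29172) (Nat.add W15c12 (Nat.mul (Nat.pow 2 29172) (Nat.add W15c13 (Nat.mul (Nat.pow 2 29172) (Nat.add W15c14 (Nat.mul (Nat.pow 2 29172) (Nat.add W15c15 (Nat.mul (Nat.pow 2 29172) (Nat.add W15c16 (Nat.mul (Nat.pow 2 29172) (Nat.add W15c17 (Nat.mul (Nat.pow 2 29172) (Nat.add W15c18 (Nat.mul (Nat.pow 2 29172) (Nat.add W15c19 (Nat.mul (Nat.pow 2 29172) (Nat.add W15c20 (Nat.mul (Nat.pow 2 29172) (Nat.add W15c21 (Nat.mul (Nat.pow 2 29172) (Nat.add W15c22 (Nat.mul (Nat.pow 2 29172) (Nat.add W15c23 (Nat.mul (Nat.pow 2 29172) (Nat.add W15c24 (Nat.mul (Nat.pow 2 29172) (Nat.add W15c25 (Nat.mul (Nat.pow 2 29172)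 (Nat.add W15c26 (Nat.mul (Nat.pow 2 29172) (Nat.add W15c27 (Nat.mul (Nat.pow 2 29172) (W15c28)))))))))))))))))))))))))))))))))))))))) = P (w8 19227 19228) (.cons 4641 21 (.cons 2262 17 (.cons 5916 13 (.cons 6409 3 .nil)))) 37128 :=
    @P_join2 (w8 19227 19228) 4641 1 20 21 37128 41769 29172 (.cons 2262 17 (.cons 5916 13 (.cons 6409 3 .nil))) W15c8 (Nat.add W15c9 (Nat.mul (Nat.pow 2 29172) (Nat.add W15c10 (Nat.mul (Nat.pow 2 29172) (Nat.add W15c11 (Nat.mul (Nat.pow 2 29172) (Nat.add W15c12 (Nat.mul (Nat.pow 2 29172) (Nat.add W15c13 (Nat.mul (Nat.pow 2 29172) (Nat.add W15c14 (Nat.mul (Nat.pow 2 29172) (Nat.add W15c15 (Nat.mul (Nat.pow 2 29172) (Nat.add W15c16 (Nat.mul (Nat.pow 2 29172) (Nat.add W15c17 (Nat.mul (Nat.pow 2 29172) (Nat.add W15c18 (Nat.mul (Nat.pow 2 29172) (Nat.add W15c19 (Nat.mul (Nat.pow 2 29172) (Nat.add W15c20 (Nat.mul (Nat.pow 2 29172) (Nat.add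 W15c21 (Nat.mul (Nat.pow 2 29172) (Nat.add W15c22 (Nat.mul (Nat.pow 2 29172) (Nat.add W15c23 (Nat.mul (Nat.pow 2 29172) (Nat.add W15c24 (Nat.mul (Nat.pow 2 29172) (Nat.add W15c25 (Nat.mul (Nat.pow 2 29172) (Nat.add W15c26 (Nat.mul (Nat.pow 2 29172) (Nat.add W15c27 (Nat.mul (Nat.pow 2 29172) (W15c28)))))))))))))))))))))))))))))))))))))))
      (chkW_sound (by norm_num) (by norm_num) (by norm_num) c15_8) h9 (by norm_num) rfl rfl
  have h7 : Nat.add W15c7 (Nat.mul (Nat.pow 2 29172) (Nat.add W15c8 (Nat.mul (Nat.pow 2 29172) (Nat.add W15c9 (Nat.mul (Nat.pow 2 29172) (Nat.add W15c10 (Nat.mul (Nat.pow 2 29172) (Nat.add W15c11 (Nat.mul (Nat.pow 2 29172) (Nat.add W15c12 (Nat.mul (Nat.pow 2 29172) (Nat.add W15c13 (Nat.mul (Nat.pow 2 29172) (Nat.add W15c14 (Nat.mul (Nat.pow 2 29172) (Nat.add W15c15 (Nat.mul (Nat.pow 2 29172) (Nat.add W15c16 (Nat.mul (Nat.pow 2 29172) (Nat.add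 W15c17 (Nat.mul (Nat.pow 2 29172) (Nat.add W15c18 (Nat.mul (Nat.pow 2 29172) (Nat.add W15c19 (Nat.mul (Nat.pow 2 29172) (Nat.add W15c20 (Nat.mul (Nat.pow 2 29172) (Nat.add W15c21 (Nat.mul (Nat.pow 2 29172) (Nat.add W15c22 (Nat.mul (Nat.pow 2 29172) (Nat.add W15c23 (Nat.mul (Nat.pow 2 29172) (Nat.add W15c24 (Nat.mul (Nat.pow 2 29172) (Nat.add W15c25 (Nat.mul (Nat.pow 2 29172) (Nat.add W15c26 (Nat.mul (Nat.pow 2 29172) (Nat.add W15c27 (Nat.mul (Nat.pow 2 29172) (W15c28)))))))))))))))))))))))))))))))))))))))))) = P (w8 19227 19228) (.cons 4641 22 (.cons 2262 17 (.cons 5916 13 (.cons 6409 3 .nil)))) 32487 :=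
    @P_join2 (w8 19227 19228) 4641 1 21 22 32487 37128 29172 (.cons 2262 17 (.cons 5916 13 (.cons 6409 3 .nil))) W15c7 (Nat.add W15c8 (Nat.mul (Nat.pow 2 29172) (Nat.add W15c9 (Nat.mul (Nat.pow 2 29172) (Nat.add W15c10 (Nat.mul (Nat.pow 2 29172) (Nat.add W15c11 (Nat.mul (Nat.pow 2 29172) (Nat.add W15c12 (Nat.mul (Nat.pow 2 29172) (Nat.add W15c13 (Nat.mul (Nat.pow 2 29172) (Nat.add W15c14 (Nat.mul (Nat.pow 2 29172) (Nat.add W15c15 (Nat.mul (Nat.pow 2 29172) (Nat.add W15c16 (Nat.mul (Nat.pow 2 29172) (Nat.add W15c17 (Nat.mul (Nat.pow 2 29172) (Nat.add W15c18 (Nat.mul (Nat.pow 2 29172) (Nat.add W15c19 (Nat.mul (Nat.pow 2 29172) (Nat.add W15c20 (Nat.mul (Nat.pow 2 29172) (Nat.add W15c21 (Nat.mul (Nat.pow 2 29172) (Nat.add W15c22 (Nat.mul (Nat.pow 2 29172) (Nat.add W15c23 (Nat.mul (Nat.pow 2 29172) (Nat.add W15c24 (Nat.mul (Nat.pow 2 29172) (Nat.add W15c25 (Nat.mul (Nat.pow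 2 29172) (Nat.add W15c26 (Nat.mul (Nat.pow 2 29172) (Nat.add W15c27 (Nat.mul (Nat.pow 2 29172) (W15c28)))))))))))))))))))))))))))))))))))))))))
      (chkW_sound (by norm_num) (by norm_num) (by norm_num) c15_7) h8 (by norm_num) rfl rfl
  have h6 : Nat.add W15c6 (Nat.mul (Nat.pow 2 29172) (Nat.add W15c7 (Nat.mul (Nat.pow 2 29172) (Nat.add W15c8 (Nat.mul (Nat.pow 2 29172) (Nat.add W15c9 (Nat.mul (Nat.pow 2 29172) (Nat.add W15c10 (Nat.mul (Nat.pow 2 29172) (Nat.add W15c11 (Nat.mul (Nat.pow 2 29172) (Nat.add W15c12 (Nat.mul (Nat.pow 2 29172) (Nat.add W15c13 (Nat.mul (Nat.pow 2 29172) (Nat.add W15c14 (Nat.mul (Nat.pow 2 29172) (Nat.add W15c15 (Nat.mul (Nat.pow 2 29172) (Nat.add W15c16 (Nat.mul (Nat.pow 2 29172) (Nat.add W15c17 (Nat.mul (Nat.pow 2 29172) (Nat.add W15c18 (Nat.mul (Nat.pow 2 29172) (Nat.add W15c19 (Nat.mul (Nat.pow 2 29172) (Nat.add W15c20 (Nat.mul (Nat.pow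 2 29172) (Nat.add W15c21 (Nat.mul (Nat.pow 2 29172) (Nat.add W15c22 (Nat.mul (Nat.pow 2 29172) (Nat.add W15c23 (Nat.mul (Nat.pow 2 29172) (Nat.add W15c24 (Nat.mul (Nat.pow 2 29172) (Nat.add W15c25 (Nat.mul (Nat.pow 2 29172) (Nat.add W15c26 (Nat.mul (Nat.pow 2 29172) (Nat.add W15c27 (Nat.mul (Nat.pow 2 29172) (W15c28)))))))))))))))))))))))))))))))))))))))))))) = P (w8 19227 19228) (.cons 4641 23 (.cons 2262 17 (.cons 5916 13 (.cons 6409 3 .nil)))) 27846 :=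
    @P_join2 (w8 19227 19228) 4641 1 22 23 27846 32487 29172 (.cons 2262 17 (.cons 5916 13 (.cons 6409 3 .nil))) W15c6 (Nat.add W15c7 (Nat.mul (Nat.pow 2 29172) (Nat.add W15c8 (Nat.mul (Nat.pow 2 29172) (Nat.add W15c9 (Nat.mul (Nat.pow 2 29172) (Nat.add W15c10 (Nat.mul (Nat.pow 2 29172) (Nat.add W15c11 (Nat.mul (Nat.pow 2 29172) (Nat.add W15c12 (Nat.mul (Nat.pow 2 29172) (Nat.add W15c13 (Nat.mul (Nat.pow 2 29172) (Nat.add W15c14 (Nat.mul (Nat.pow 2 29172) (Nat.add W15c15 (Nat.mul (Nat.pow 2 29172) (Nat.add W15c16 (Nat.mul (Nat.pow 2 29172) (Nat.add W15c17 (Nat.mul (Nat.pow 2 29172) (Nat.add W15c18 (Nat.mul (Nat.pow 2 29172) (Nat.add W15c19 (Nat.mul (Nat.pow 2 29172) (Nat.add W15c20 (Nat.mul (Nat.pow 2 29172) (Nat.add W15c21 (Nat.mul (Nat.pow 2 29172) (Nat.add W15c22 (Nat.mul (Nat.pow 2 29172) (Nat.add W15c23 (Nat.mul (Nat.pow 2 29172) (Nat.add W15c24 (Nat.mul (Nat.pow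 2 29172) (Nat.add W15c25 (Nat.mul (Nat.pow 2 29172) (Nat.add W15c26 (Nat.mul (Nat.pow 2 29172) (Nat.add W15c27 (Nat.mul (Nat.pow 2 29172) (W15c28)))))))))))))))))))))))))))))))))))))))))))
      (chkW_sound (by norm_num) (by norm_num) (by norm_num) c15_6) h7 (by norm_num) rfl rfl
  have h5 : Nat.add W15c5 (Nat.mul (Nat.pow 2 29172) (Nat.add W15c6 (Nat.mul (Nat.pow 2 29172) (Nat.add W15c7 (Nat.mul (Nat.pow 2 29172) (Nat.add W15c8 (Nat.mul (Nat.pow 2 29172) (Nat.add W15c9 (Nat.mul (Nat.pow 2 29172) (Nat.add W15c10 (Nat.mul (Nat.pow 2 29172) (Nat.add W15c11 (Nat.mul (Nat.pow 2 29172) (Nat.add W15c12 (Nat.mul (Nat.pow 2 29172) (Nat.add W15c13 (Nat.mul (Nat.pow 2 29172) (Nat.add W15c14 (Nat.mul (Nat.pow 2 29172) (Nat.add W15c15 (Nat.mul (Nat.pow 2 29172) (Nat.add W15c16 (Nat.mul (Nat.pow 2 29172) (Nat.add W15c17 (Nat.mul (Nat.pow 2 29172) (Nat.add W15c18 (Nat.mul (Nat.pow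 2 29172) (Nat.add W15c19 (Nat.mul (Nat.pow 2 29172) (Nat.add W15c20 (Nat.mul (Nat.pow 2 29172) (Nat.add W15c21 (Nat.mul (Nat.pow 2 29172) (Nat.add W15c22 (Nat.mul (Nat.pow 2 29172) (Nat.add W15c23 (Nat.mul (Nat.pow 2 29172) (Nat.add W15c24 (Nat.mul (Nat.pow 2 29172) (Nat.add W15c25 (Nat.mul (Nat.pow 2 29172) (Nat.add W15c26 (Nat.mul (Nat.pow 2 29172) (Nat.add W15c27 (Nat.mul (Nat.pow 2 29172) (W15c28)))))))))))))))))))))))))))))))))))))))))))))) = P (w8 19227 19228) (.cons 4641 24 (.cons 2262 17 (.cons 5916 13 (.cons 6409 3 .nil)))) 23205 :=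
    @P_join2 (w8 19227 19228) 4641 1 23 24 23205 27846 29172 (.cons 2262 17 (.cons 5916 13 (.cons 6409 3 .nil))) W15c5 (Nat.add W15c6 (Nat.mul (Nat.pow 2 29172) (Nat.add W15c7 (Nat.mul (Nat.pow 2 29172) (Nat.add W15c8 (Nat.mul (Nat.pow 2 29172) (Nat.add W15c9 (Nat.mul (Nat.pow 2 29172) (Nat.add W15c10 (Nat.mul (Nat.pow 2 29172) (Nat.add W15c11 (Nat.mul (Nat.pow 2 29172) (Nat.add W15c12 (Nat.mul (Nat.pow 2 29172) (Nat.add W15c13 (Nat.mul (Nat.pow 2 29172) (Nat.add W15c14 (Nat.mul (Nat.pow 2 29172) (Nat.add W15c15 (Nat.mul (Nat.pow 2 29172) (Nat.add W15c16 (Nat.mul (Nat.pow 2 29172) (Nat.add W15c17 (Nat.mul (Nat.pow 2 29172) (Nat.add W15c18 (Nat.mul (Nat.pow 2 29172) (Nat.add W15c19 (Nat.mul (Nat.pow 2 29172) (Nat.add W15c20 (Nat.mul (Nat.pow 2 29172) (Nat.add W15c21 (Nat.mul (Nat.pow 2 29172) (Nat.add W15c22 (Nat.mul (Nat.pow 2 29172) (Nat.add W15c23 (Nat.mul (Nat.pow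 2 29172) (Nat.add W15c24 (Nat.mul (Nat.pow 2 29172) (Nat.add W15c25 (Nat.mul (Nat.pow 2 29172) (Nat.add W15c26 (Nat.mul (Nat.pow 2 29172) (Nat.add W15c27 (Nat.mul (Nat.pow 2 29172) (W15c28)))))))))))))))))))))))))))))))))))))))))))))
      (chkW_sound (by norm_num) (by norm_num) (by norm_num) c15_5) h6 (by norm_num) rfl rfl
  have h4 : Nat.add W15c4 (Nat.mul (Nat.pow 2 29172) (Nat.add W15c5 (Nat.mul (Nat.pow 2 29172) (Nat.add W15c6 (Nat.mul (Nat.pow 2 29172) (Nat.add W15c7 (Nat.mul (Nat.pow 2 29172) (Nat.add W15c8 (Nat.mul (Nat.pow 2 29172) (Nat.add W15c9 (Nat.mul (Nat.pow 2 29172) (Nat.add W15c10 (Nat.mul (Nat.pow 2 29172) (Nat.add W15c11 (Nat.mul (Nat.pow 2 29172) (Nat.add W15c12 (Nat.mul (Nat.pow 2 29172) (Nat.add W15c13 (Nat.mul (Nat.pow 2 29172) (Nat.add W15c14 (Nat.mul (Nat.pow 2 29172) (Nat.add W15c15 (Nat.mul (Nat.pow 2 29172) (Nat.add W15c16 (Nat.mul (Nat.pow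 2 29172) (Nat.add W15c17 (Nat.mul (Nat.pow 2 29172) (Nat.add W15c18 (Nat.mul (Nat.pow 2 29172) (Nat.add W15c19 (Nat.mul (Nat.pow 2 29172) (Nat.add W15c20 (Nat.mul (Nat.pow 2 29172) (Nat.add W15c21 (Nat.mul (Nat.pow 2 29172) (Nat.add W15c22 (Nat.mul (Nat.pow 2 29172) (Nat.add W15c23 (Nat.mul (Nat.pow 2 29172) (Nat.add W15c24 (Nat.mul (Nat.pow 2 29172) (Nat.add W15c25 (Nat.mul (Nat.pow 2 29172) (Nat.add W15c26 (Nat.mul (Nat.pow 2 29172) (Nat.add W15c27 (Nat.mul (Nat.pow 2 29172) (W15c28)))))))))))))))))))))))))))))))))))))))))))))))) = P (w8 19227 19228) (.cons 4641 25 (.cons 2262 17 (.cons 5916 13 (.cons 6409 3 .nil)))) 18564 :=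
    @P_join2 (w8 19227 19228) 4641 1 24 25 18564 23205 29172 (.cons 2262 17 (.cons 5916 13 (.cons 6409 3 .nil))) W15c4 (Nat.add W15c5 (Nat.mul (Nat.pow 2 29172) (Nat.add W15c6 (Nat.mul (Nat.pow 2 29172) (Nat.add W15c7 (Nat.mul (Nat.pow 2 29172) (Nat.add W15c8 (Nat.mul (Nat.pow 2 29172) (Nat.add W15c9 (Nat.mul (Nat.pow 2 29172) (Nat.add W15c10 (Nat.mul (Nat.pow 2 29172) (Nat.add W15c11 (Nat.mul (Nat.pow 2 29172) (Nat.add W15c12 (Nat.mul (Nat.pow 2 29172) (Nat.add W15c13 (Nat.mul (Nat.pow 2 29172) (Nat.add W15c14 (Nat.mul (Nat.pow 2 29172) (Nat.add W15c15 (Nat.mul (Nat.pow 2 29172) (Nat.add W15c16 (Nat.mul (Nat.pow 2 29172) (Nat.add W15c17 (Nat.mul (Nat.pow 2 29172) (Nat.add W15c18 (Nat.mul (Nat.pow 2 29172) (Nat.add W15c19 (Nat.mul (Nat.pow 2 29172) (Nat.add W15c20 (Nat.mul (Nat.pow 2 29172) (Nat.add W15c21 (Nat.mul (Nat.pow 2 29172) (Nat.add W15c22 (Nat.mul (Nat.pow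 2 29172) (Nat.add W15c23 (Nat.mul (Nat.pow 2 29172) (Nat.add W15c24 (Nat.mul (Nat.pow 2 29172) (Nat.add W15c25 (Nat.mul (Nat.pow 2 29172) (Nat.add W15c26 (Nat.mul (Nat.pow 2 29172) (Nat.add W15c27 (Nat.mul (Nat.pow 2 29172) (W15c28)))))))))))))))))))))))))))))))))))))))))))))))
      (chkW_sound (by norm_num) (by norm_num) (by norm_num) c15_4) h5 (by norm_num) rfl rfl
  have h3 : Nat.add W15c3 (Nat.mul (Nat.pow 2 29172) (Nat.add W15c4 (Nat.mul (Nat.pow 2 29172) (Nat.add W15c5 (Nat.mul (Nat.pow 2 29172) (Nat.add W15c6 (Nat.mul (Nat.pow 2 29172) (Nat.add W15c7 (Nat.mul (Nat.pow 2 29172) (Nat.add W15c8 (Nat.mul (Nat.pow 2 29172) (Nat.add W15c9 (Nat.mul (Nat.pow 2 29172) (Nat.add W15c10 (Nat.mul (Nat.pow 2 29172) (Nat.add W15c11 (Nat.mul (Nat.pow 2 29172) (Nat.add W15c12 (Nat.mul (Nat.pow 2 29172) (Nat.add W15c13 (Nat.mul (Nat.pow 2 29172) (Nat.add W15c14 (Nat.mul (Nat.pow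 2 29172) (Nat.add W15c15 (Nat.mul (Nat.pow 2 29172) (Nat.add W15c16 (Nat.mul (Nat.pow 2 29172) (Nat.add W15c17 (Nat.mul (Nat.pow 2 29172) (Nat.add W15c18 (Nat.mul (Nat.pow 2 29172) (Nat.add W15c19 (Nat.mul (Nat.pow 2 29172) (Nat.add W15c20 (Nat.mul (Nat.pow 2 29172) (Nat.add W15c21 (Nat.mul (Nat.pow 2 29172) (Nat.add W15c22 (Nat.mul (Nat.pow 2 29172) (Nat.add W15c23 (Nat.mul (Nat.pow 2 29172) (Nat.add W15c24 (Nat.mul (Nat.pow 2 29172) (Nat.add W15c25 (Nat.mul (Nat.pow 2 29172) (Nat.add W15c26 (Nat.mul (Nat.pow 2 29172) (Nat.add W15c27 (Nat.mul (Nat.pow 2 29172) (W15c28)))))))))))))))))))))))))))))))))))))))))))))))))) = P (w8 19227 19228) (.cons 4641 26 (.cons 2262 17 (.cons 5916 13 (.cons 6409 3 .nil)))) 13923 :=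
    @P_join2 (w8 19227 19228) 4641 1 25 26 13923 18564 29172 (.cons 2262 17 (.cons 5916 13 (.cons 6409 3 .nil))) W15c3 (Nat.add W15c4 (Nat.mul (Nat.pow 2 29172) (Nat.add W15c5 (Nat.mul (Nat.pow 2 29172) (Nat.add W15c6 (Nat.mul (Nat.pow 2 29172) (Nat.add W15c7 (Nat.mul (Nat.pow 2 29172) (Nat.add W15c8 (Nat.mul (Nat.pow 2 29172) (Nat.add W15c9 (Nat.mul (Nat.pow 2 29172) (Nat.add W15c10 (Nat.mul (Nat.pow 2 29172) (Nat.add W15c11 (Nat.mul (Nat.pow 2 29172) (Nat.add W15c12 (Nat.mul (Nat.pow 2 29172) (Nat.add W15c13 (Nat.mul (Nat.pow 2 29172) (Nat.add W15c14 (Nat.mul (Nat.pow 2 29172) (Nat.add W15c15 (Nat.mul (Nat.pow 2 29172) (Nat.add W15c16 (Nat.mul (Nat.pow 2 29172) (Nat.add W15c17 (Nat.mul (Nat.pow 2 29172) (Nat.add W15c18 (Nat.mul (Nat.pow 2 29172) (Nat.add W15c19 (Nat.mul (Nat.pow 2 29172) (Nat.add W15c20 (Nat.mul (Nat.pow 2 29172) (Nat.add W15c21 (Nat.mul (Nat.pow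 2 29172) (Nat.add W15c22 (Nat.mul (Nat.pow 2 29172) (Nat.add W15c23 (Nat.mul (Nat.pow 2 29172) (Nat.add W15c24 (Nat.mul (Nat.pow 2 29172) (Nat.add W15c25 (Nat.mul (Nat.pow 2 29172) (Nat.add W15c26 (Nat.mul (Nat.pow 2 29172) (Nat.add W15c27 (Nat.mul (Nat.pow 2 29172) (W15c28)))))))))))))))))))))))))))))))))))))))))))))))))
      (chkW_sound (by norm_num) (by norm_num) (by norm_num) c15_3) h4 (by norm_num) rfl rfl
  have h2 : Nat.add W15c2 (Nat.mul (Nat.pow 2 29172) (Nat.add W15c3 (Nat.mul (Nat.pow 2 29172) (Nat.add W15c4 (Nat.mul (Nat.pow 2 29172) (Nat.add W15c5 (Nat.mul (Nat.pow 2 29172) (Nat.add W15c6 (Nat.mul (Nat.pow 2 29172) (Nat.add W15c7 (Nat.mul (Nat.pow 2 29172) (Nat.add W15c8 (Nat.mul (Nat.pow 2 29172) (Nat.add W15c9 (Nat.mul (Nat.pow 2 29172) (Nat.add W15c10 (Nat.mul (Nat.pow 2 29172) (Nat.add W15c11 (Nat.mul (Nat.pow 2 29172) (Nat.add W15c12 (Nat.mul (Nat.pow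 2 29172) (Nat.add W15c13 (Nat.mul (Nat.pow 2 29172) (Nat.add W15c14 (Nat.mul (Nat.pow 2 29172) (Nat.add W15c15 (Nat.mul (Nat.pow 2 29172) (Nat.add W15c16 (Nat.mul (Nat.pow 2 29172) (Nat.add W15c17 (Nat.mul (Nat.pow 2 29172) (Nat.add W15c18 (Nat.mul (Nat.pow 2 29172) (Nat.add W15c19 (Nat.mul (Nat.pow 2 29172) (Nat.add W15c20 (Nat.mul (Nat.pow 2 29172) (Nat.add W15c21 (Nat.mul (Nat.pow 2 29172) (Nat.add W15c22 (Nat.mul (Nat.pow 2 29172) (Nat.add W15c23 (Nat.mul (Nat.pow 2 29172) (Nat.add W15c24 (Nat.mul (Nat.pow 2 29172) (Nat.add W15c25 (Nat.mul (Nat.pow 2 29172) (Nat.add W15c26 (Nat.mul (Nat.pow 2 29172) (Nat.add W15c27 (Nat.mul (Nat.pow 2 29172) (W15c28)))))))))))))))))))))))))))))))))))))))))))))))))))) = P (w8 19227 19228) (.cons 4641 27 (.cons 2262 17 (.cons 5916 13 (.cons 6409 3 .nil)))) 9282 :=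
    @P_join2 (w8 19227 19228) 4641 1 26 27 9282 13923 29172 (.cons 2262 17 (.cons 5916 13 (.cons 6409 3 .nil))) W15c2 (Nat.add W15c3 (Nat.mul (Nat.pow 2 29172) (Nat.add W15c4 (Nat.mul (Nat.pow 2 29172) (Nat.add W15c5 (Nat.mul (Nat.pow 2 29172) (Nat.add W15c6 (Nat.mul (Nat.pow 2 29172) (Nat.add W15c7 (Nat.mul (Nat.pow 2 29172) (Nat.add W15c8 (Nat.mul (Nat.pow 2 29172) (Nat.add W15c9 (Nat.mul (Nat.pow 2 29172) (Nat.add W15c10 (Nat.mul (Nat.pow 2 29172) (Nat.add W15c11 (Nat.mul (Nat.pow 2 29172) (Nat.add W15c12 (Nat.mul (Nat.pow 2 29172) (Nat.add W15c13 (Nat.mul (Nat.pow 2 29172) (Nat.add W15c14 (Nat.mul (Nat.pow 2 29172) (Nat.add W15c15 (Nat.mul (Nat.pow 2 29172) (Nat.add W15c16 (Nat.mul (Nat.pow 2 29172) (Nat.add W15c17 (Nat.mul (Nat.pow 2 29172) (Nat.add W15c18 (Nat.mul (Nat.pow 2 29172) (Nat.add W15c19 (Nat.mul (Nat.pow 2 29172) (Nat.add W15c20 (Nat.mul (Nat.pow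 2 29172) (Nat.add W15c21 (Nat.mul (Nat.pow 2 29172) (Nat.add W15c22 (Nat.mul (Nat.pow 2 29172) (Nat.add W15c23 (Nat.mul (Nat.pow 2 29172) (Nat.add W15c24 (Nat.mul (Nat.pow 2 29172) (Nat.add W15c25 (Nat.mul (Nat.pow 2 29172) (Nat.add W15c26 (Nat.mul (Nat.pow 2 29172) (Nat.add W15c27 (Nat.mul (Nat.pow 2 29172) (W15c28)))))))))))))))))))))))))))))))))))))))))))))))))))
      (chkW_sound (by norm_num) (by norm_num) (by norm_num) c15_2) h3 (by norm_num) rfl rfl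
  have h1 : Nat.add W15c1 (Nat.mul (Nat.pow 2 29172) (Nat.add W15c2 (Nat.mul (Nat.pow 2 29172) (Nat.add W15c3 (Nat.mul (Nat.pow 2 29172) (Nat.add W15c4 (Nat.mul (Nat.pow 2 29172) (Nat.add W15c5 (Nat.mul (Nat.pow 2 29172) (Nat.add W15c6 (Nat.mul (Nat.pow 2 29172) (Nat.add W15c7 (Nat.mul (Nat.pow 2 29172) (Nat.add W15c8 (Nat.mul (Nat.pow 2 29172) (Nat.add W15c9 (Nat.mul (Nat.pow 2 29172) (Nat.add W15c10 (Nat.mul (Nat.pow 2 29172) (Nat.add W15c11 (Nat.mul (Nat.pow 2 29172) (Nat.add W15c12 (Nat.mul (Nat.pow 2 29172) (Nat.add W15c13 (Nat.mul (Nat.pow 2 29172) (Nat.add W15c14 (Nat.mul (Nat.pow 2 29172) (Nat.add W15c15 (Nat.mul (Nat.pow 2 29172) (Nat.add W15c16 (Nat.mul (Nat.pow 2 29172) (Nat.add W15c17 (Nat.mul (Nat.pow 2 29172) (Nat.add W15c18 (Nat.mul (Nat.pow 2 29172) (Nat.add W15c19 (Nat.mul (Nat.pow 2 29172) (Nat.add W15c20 (Nat.mul (Nat.pow 2 29172) (Nat.add W15c21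 (Nat.mul (Nat.pow 2 29172) (Nat.add W15c22 (Nat.mul (Nat.pow 2 29172) (Nat.add W15c23 (Nat.mul (Nat.pow 2 29172) (Nat.add W15c24 (Nat.mul (Nat.pow 2 29172) (Nat.add W15c25 (Nat.mul (Nat.pow 2 29172) (Nat.add W15c26 (Nat.mul (Nat.pow 2 29172) (Nat.add W15c27 (Nat.mul (Nat.pow 2 29172) (W15c28)))))))))))))))))))))))))))))))))))))))))))))))))))))) = P (w8 19227 19228) (.cons 4641 28 (.cons 2262 17 (.cons 5916 13 (.cons 6409 3 .nil)))) 4641 :=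
    @P_join2 (w8 19227 19228) 4641 1 27 28 4641 9282 29172 (.cons 2262 17 (.cons 5916 13 (.cons 6409 3 .nil))) W15c1 (Nat.add W15c2 (Nat.mul (Nat.pow 2 29172) (Nat.add W15c3 (Nat.mul (Nat.pow 2 29172) (Nat.add W15c4 (Nat.mul (Nat.pow 2 29172) (Nat.add W15c5 (Nat.mul (Nat.pow 2 29172) (Nat.add W15c6 (Nat.mul (Nat.pow 2 29172) (Nat.add W15c7 (Nat.mul (Nat.pow 2 29172) (Nat.add W15c8 (Nat.mul (Nat.pow 2 29172) (Nat.add W15c9 (Nat.mul (Nat.pow 2 29172) (Nat.add W15c10 (Nat.mul (Nat.pow 2 29172) (Nat.add W15c11 (Nat.mul (Nat.pow 2 29172) (Nat.add W15c12 (Nat.mul (Nat.pow 2 29172) (Nat.add W15c13 (Nat.mul (Nat.pow 2 29172) (Nat.add W15c14 (Nat.mul (Nat.pow 2 29172) (Nat.add W15c15 (Nat.mul (Nat.pow 2 29172) (Nat.add W15c16 (Nat.mul (Nat.pow 2 29172) (Nat.add W15c17 (Nat.mul (Nat.pow 2 29172) (Nat.add W15c18 (Nat.mul (Nat.pow 2 29172) (Nat.add W15c19 (Nat.mul (Nat.pow 2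 29172) (Nat.add W15c20 (Nat.mul (Nat.pow 2 29172) (Nat.add W15c21 (Nat.mul (Nat.pow 2 29172) (Nat.add W15c22 (Nat.mul (Nat.pow 2 29172) (Nat.add W15c23 (Nat.mul (Nat.pow 2 29172) (Nat.add W15c24 (Nat.mul (Nat.pow 2 29172) (Nat.add W15c25 (Nat.mul (Nat.pow 2 29172) (Nat.add W15c26 (Nat.mul (Nat.pow 2 29172) (Nat.add W15c27 (Nat.mul (Nat.pow 2 29172) (W15c28)))))))))))))))))))))))))))))))))))))))))))))))))))))
      (chkW_sound (by norm_num) (by norm_num) (by norm_num) c15_1) h2 (by norm_num) rfl rfl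
  have h0 : Nat.add W15c0 (Nat.mul (Nat.pow 2 29172) (Nat.add W15c1 (Nat.mul (Nat.pow 2 29172) (Nat.add W15c2 (Nat.mul (Nat.pow 2 29172) (Nat.add W15c3 (Nat.mul (Nat.pow 2 29172) (Nat.add W15c4 (Nat.mul (Nat.pow 2 29172) (Nat.add W15c5 (Nat.mul (Nat.pow 2 29172) (Nat.add W15c6 (Nat.mul (Nat.pow 2 29172) (Nat.add W15c7 (Nat.mul (Nat.pow 2 29172) (Nat.add W15c8 (Nat.mul (Nat.pow 2 29172) (Nat.add W15c9 (Nat.mul (Nat.pow 2 29172) (Nat.add W15c10 (Nat.mul (Nat.pow 2 29172) (Nat.add W15c11 (Nat.mul (Nat.pow 2 29172) (Nat.add W15c12 (Nat.mul (Nat.pow 2 29172) (Nat.add W15c13 (Nat.mul (Nat.pow 2 29172) (Nat.add W15c14 (Nat.mul (Nat.pow 2 29172) (Nat.add W15c15 (Nat.mul (Nat.pow 2 29172) (Nat.add W15c16 (Nat.mul (Nat.pow 2 29172) (Nat.add W15c17 (Nat.mul (Nat.pow 2 29172) (Nat.add W15c18 (Nat.mul (Nat.pow 2 29172) (Nat.add W15c19 (Nat.mul (Nat.pow 2 29172) (Nat.add W15c20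 (Nat.mul (Nat.pow 2 29172) (Nat.add W15c21 (Nat.mul (Nat.pow 2 29172) (Nat.add W15c22 (Nat.mul (Nat.pow 2 29172) (Nat.add W15c23 (Nat.mul (Nat.pow 2 29172) (Nat.add W15c24 (Nat.mul (Nat.pow 2 29172) (Nat.add W15c25 (Nat.mul (Nat.pow 2 29172) (Nat.add W15c26 (Nat.mul (Nat.pow 2 29172) (Nat.add W15c27 (Nat.mul (Nat.pow 2 29172) (W15c28)))))))))))))))))))))))))))))))))))))))))))))))))))))))) = P (w8 19227 19228) (.cons 4641 29 (.cons 2262 17 (.cons 5916 13 (.cons 6409 3 .nil)))) 0 :=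
    @P_join2 (w8 19227 19228) 4641 1 28 29 0 4641 29172 (.cons 2262 17 (.cons 5916 13 (.cons 6409 3 .nil))) W15c0 (Nat.add W15c1 (Nat.mul (Nat.pow 2 29172) (Nat.add W15c2 (Nat.mul (Nat.pow 2 29172) (Nat.add W15c3 (Nat.mul (Nat.pow 2 29172) (Nat.add W15c4 (Nat.mul (Nat.pow 2 29172) (Nat.add W15c5 (Nat.mul (Nat.pow 2 29172) (Nat.add W15c6 (Nat.mul (Nat.pow 2 29172) (Nat.add W15c7 (Nat.mul (Nat.pow 2 29172) (Nat.add W15c8 (Nat.mul (Nat.pow 2 29172) (Nat.add W15c9 (Nat.mul (Nat.pow 2 29172) (Nat.add W15c10 (Nat.mul (Nat.pow 2 29172) (Nat.add W15c11 (Nat.mul (Nat.pow 2 29172) (Nat.add W15c12 (Nat.mul (Nat.pow 2 29172) (Nat.add W15c13 (Nat.mul (Nat.pow 2 29172) (Nat.add W15c14 (Nat.mul (Nat.pow 2 29172) (Nat.add W15c15 (Nat.mul (Nat.pow 2 29172) (Nat.add W15c16 (Nat.mul (Nat.pow 2 29172) (Nat.add W15c17 (Nat.mul (Nat.pow 2 29172) (Nat.add W15c18 (Nat.mul (Nat.pow 2 29172)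 (Nat.add W15c19 (Nat.mul (Nat.pow 2 29172) (Nat.add W15c20 (Nat.mul (Nat.pow 2 29172) (Nat.add W15c21 (Nat.mul (Nat.pow 2 29172) (Nat.add W15c22 (Nat.mul (Nat.pow 2 29172) (Nat.add W15c23 (Nat.mul (Nat.pow 2 29172) (Nat.add W15c24 (Nat.mul (Nat.pow 2 29172) (Nat.add W15c25 (Nat.mul (Nat.pow 2 29172) (Nat.add W15c26 (Nat.mul (Nat.pow 2 29172) (Nat.add W15c27 (Nat.mul (Nat.pow 2 29172) (W15c28)))))))))))))))))))))))))))))))))))))))))))))))))))))))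
      (chkW_sound (by norm_num) (by norm_num) (by norm_num) c15_0) h1 (by norm_num) rfl rfl
  exact h0
theorem u14 : W14 = P (w8 19227 12819) (.cons 4641 29 (.cons 2262 17 (.cons 5916 13 .nil))) 6409 :=
  by
  unfold W14
  have h9 := chkW_sound (by norm_num) (by norm_num) (by norm_num) c14_9
  have h8 : Nat.add W14c8 (Nat.mul (Nat.pow 2 29172) (W14c9)) = P (w8 19227 12819) (.cons 4641 5 (.cons 2262 17 (.cons 5916 13 .nil))) 117793 :=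
    @P_join2 (w8 19227 12819) 4641 3 2 5 117793 131716 29172 (.cons 2262 17 (.cons 5916 13 .nil)) W14c8 (W14c9)
      (chkW_sound (by norm_num) (by norm_num) (by norm_num) c14_8) h9 (by norm_num) rfl rfl
  have h7 : Nat.add W14c7 (Nat.mul (Nat.pow 2 29172) (Nat.add W14c8 (Nat.mul (Nat.pow 2 29172) (W14c9)))) = P (w8 19227 12819) (.cons 4641 8 (.cons 2262 17 (.cons 5916 13 .nil))) 103870 :=
    @P_join2 (w8 19227 12819) 4641 3 5 8 103870 117793 29172 (.cons 2262 17 (.cons 5916 13 .nil)) W14c7 (Nat.add W14c8 (Nat.mul (Nat.pow 2 29172) (W14c9)))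
      (chkW_sound (by norm_num) (by norm_num) (by norm_num) c14_7) h8 (by norm_num) rfl rfl
  have h6 : Nat.add W14c6 (Nat.mul (Nat.pow 2 29172) (Nat.add W14c7 (Nat.mul (Nat.pow 2 29172) (Nat.add W14c8 (Nat.mul (Nat.pow 2 29172) (W14c9)))))) = P (w8 19227 12819) (.cons 4641 11 (.cons 2262 17 (.cons 5916 13 .nil))) 89947 :=
    @P_join2 (w8 19227 12819) 4641 3 8 11 89947 103870 29172 (.cons 2262 17 (.cons 5916 13 .nil)) W14c6 (Nat.add W14c7 (Nat.mul (Nat.pow 2 29172) (Nat.add W14c8 (Nat.mul (Nat.pow 2 29172) (W14c9)))))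
      (chkW_sound (by norm_num) (by norm_num) (by norm_num) c14_6) h7 (by norm_num) rfl rfl
  have h5 : Nat.add W14c5 (Nat.mul (Nat.pow 2 29172) (Nat.add W14c6 (Nat.mul (Nat.pow 2 29172) (Nat.add W14c7 (Nat.mul (Nat.pow 2 29172) (Nat.add W14c8 (Nat.mul (Nat.pow 2 29172) (W14c9)))))))) = P (w8 19227 12819) (.cons 4641 14 (.cons 2262 17 (.cons 5916 13 .nil))) 76024 :=
    @P_join2 (w8 19227 12819) 4641 3 11 14 76024 89947 29172 (.cons 2262 17 (.cons 5916 13 .nil)) W14c5 (Nat.add W14c6 (Nat.mul (Nat.pow 2 29172) (Nat.add W14c7 (Nat.mul (Nat.pow 2 29172) (Nat.add W14c8 (Nat.mul (Nat.pow 2 29172) (W14c9)))))))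
      (chkW_sound (by norm_num) (by norm_num) (by norm_num) c14_5) h6 (by norm_num) rfl rfl
  have h4 : Nat.add W14c4 (Nat.mul (Nat.pow 2 29172) (Nat.add W14c5 (Nat.mul (Nat.pow 2 29172) (Nat.add W14c6 (Nat.mul (Nat.pow 2 29172) (Nat.add W14c7 (Nat.mul (Nat.pow 2 29172) (Nat.add W14c8 (Nat.mul (Nat.pow 2 29172) (W14c9)))))))))) = P (w8 19227 12819) (.cons 4641 17 (.cons 2262 17 (.cons 5916 13 .nil))) 62101 :=
    @P_join2 (w8 19227 12819) 4641 3 14 17 62101 76024 29172 (.cons 2262 17 (.cons 5916 13 .nil)) W14c4 (Nat.add W14c5 (Nat.mul (Nat.pow 2 29172) (Nat.add W14c6 (Nat.mul (Nat.pow 2 29172) (Nat.add W14c7 (Nat.mul (Nat.pow 2 29172) (Nat.add W14c8 (Nat.mul (Nat.pow 2 29172) (W14c9)))))))))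
      (chkW_sound (by norm_num) (by norm_num) (by norm_num) c14_4) h5 (by norm_num) rfl rfl
  have h3 : Nat.add W14c3 (Nat.mul (Nat.pow 2 29172) (Nat.add W14c4 (Nat.mul (Nat.pow 2 29172) (Nat.add W14c5 (Nat.mul (Nat.pow 2 29172) (Nat.add W14c6 (Nat.mul (Nat.pow 2 29172) (Nat.add W14c7 (Nat.mul (Nat.pow 2 29172) (Nat.add W14c8 (Nat.mul (Nat.pow 2 29172) (W14c9)))))))))))) = P (w8 19227 12819) (.cons 4641 20 (.cons 2262 17 (.cons 5916 13 .nil))) 48178 :=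
    @P_join2 (w8 19227 12819) 4641 3 17 20 48178 62101 29172 (.cons 2262 17 (.cons 5916 13 .nil)) W14c3 (Nat.add W14c4 (Nat.mul (Nat.pow 2 29172) (Nat.add W14c5 (Nat.mul (Nat.pow 2 29172) (Nat.add W14c6 (Nat.mul (Nat.pow 2 29172) (Nat.add W14c7 (Nat.mul (Nat.pow 2 29172) (Nat.add W14c8 (Nat.mul (Nat.pow 2 29172) (W14c9)))))))))))
      (chkW_sound (by norm_num) (by norm_num) (by norm_num) c14_3) h4 (by norm_num) rfl rfl
  have h2 : Nat.add W14c2 (Nat.mul (Nat.pow 2 29172) (Nat.add W14c3 (Nat.mul (Nat.pow 2 29172) (Nat.add W14c4 (Nat.mul (Nat.pow 2 29172) (Nat.add W14c5 (Nat.mul (Nat.pow 2 29172) (Nat.add W14c6 (Nat.mul (Nat.pow 2 29172) (Nat.add W14c7 (Nat.mul (Nat.pow 2 29172) (Nat.add W14c8 (Nat.mul (Nat.pow 2 29172) (W14c9)))))))))))))) = P (w8 19227 12819) (.cons 4641 23 (.cons 2262 17 (.cons 5916 13 .nil))) 34255 :=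
    @P_join2 (w8 19227 12819) 4641 3 20 23 34255 48178 29172 (.cons 2262 17 (.cons 5916 13 .nil)) W14c2 (Nat.add W14c3 (Nat.mul (Nat.pow 2 29172) (Nat.add W14c4 (Nat.mul (Nat.pow 2 29172) (Nat.add W14c5 (Nat.mul (Nat.pow 2 29172) (Nat.add W14c6 (Nat.mul (Nat.pow 2 29172) (Nat.add W14c7 (Nat.mul (Nat.pow 2 29172) (Nat.add W14c8 (Nat.mul (Nat.pow 2 29172) (W14c9)))))))))))))
      (chkW_sound (by norm_num) (by norm_num) (by norm_num) c14_2) h3 (by norm_num) rfl rfl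
  have h1 : Nat.add W14c1 (Nat.mul (Nat.pow 2 29172) (Nat.add W14c2 (Nat.mul (Nat.pow 2 29172) (Nat.add W14c3 (Nat.mul (Nat.pow 2 29172) (Nat.add W14c4 (Nat.mul (Nat.pow 2 29172) (Nat.add W14c5 (Nat.mul (Nat.pow 2 29172) (Nat.add W14c6 (Nat.mul (Nat.pow 2 29172) (Nat.add W14c7 (Nat.mul (Nat.pow 2 29172) (Nat.add W14c8 (Nat.mul (Nat.pow 2 29172) (W14c9)))))))))))))))) = P (w8 19227 12819) (.cons 4641 26 (.cons 2262 17 (.cons 5916 13 .nil))) 20332 :=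
    @P_join2 (w8 19227 12819) 4641 3 23 26 20332 34255 29172 (.cons 2262 17 (.cons 5916 13 .nil)) W14c1 (Nat.add W14c2 (Nat.mul (Nat.pow 2 29172) (Nat.add W14c3 (Nat.mul (Nat.pow 2 29172) (Nat.add W14c4 (Nat.mul (Nat.pow 2 29172) (Nat.add W14c5 (Nat.mul (Nat.pow 2 29172) (Nat.add W14c6 (Nat.mul (Nat.pow 2 29172) (Nat.add W14c7 (Nat.mul (Nat.pow 2 29172) (Nat.add W14c8 (Nat.mul (Nat.pow 2 29172) (W14c9)))))))))))))))
      (chkW_sound (by norm_num) (by norm_num) (by norm_num) c14_1) h2 (by norm_num) rfl rfl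
  have h0 : Nat.add W14c0 (Nat.mul (Nat.pow 2 29172) (Nat.add W14c1 (Nat.mul (Nat.pow 2 29172) (Nat.add W14c2 (Nat.mul (Nat.pow 2 29172) (Nat.add W14c3 (Nat.mul (Nat.pow 2 29172) (Nat.add W14c4 (Nat.mul (Nat.pow 2 29172) (Nat.add W14c5 (Nat.mul (Nat.pow 2 29172) (Nat.add W14c6 (Nat.mul (Nat.pow 2 29172) (Nat.add W14c7 (Nat.mul (Nat.pow 2 29172) (Nat.add W14c8 (Nat.mul (Nat.pow 2 29172) (W14c9)))))))))))))))))) = P (w8 19227 12819) (.cons 4641 29 (.cons 2262 17 (.cons 5916 13 .nil))) 6409 :=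
    @P_join2 (w8 19227 12819) 4641 3 26 29 6409 20332 29172 (.cons 2262 17 (.cons 5916 13 .nil)) W14c0 (Nat.add W14c1 (Nat.mul (Nat.pow 2 29172) (Nat.add W14c2 (Nat.mul (Nat.pow 2 29172) (Nat.add W14c3 (Nat.mul (Nat.pow 2 29172) (Nat.add W14c4 (Nat.mul (Nat.pow 2 29172) (Nat.add W14c5 (Nat.mul (Nat.pow 2 29172) (Nat.add W14c6 (Nat.mul (Nat.pow 2 29172) (Nat.add W14c7 (Nat.mul (Nat.pow 2 29172) (Nat.add W14c8 (Nat.mul (Nat.pow 2 29172) (W14c9)))))))))))))))))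
      (chkW_sound (by norm_num) (by norm_num) (by norm_num) c14_0) h1 (by norm_num) rfl rfl
  exact h0
theorem u13 : W13 = P (w8 19227 13312) (.cons 4641 29 (.cons 2262 17 (.cons 6409 3 .nil))) 5916 :=
  by
  unfold W13
  have h1 := chkW_sound (by norm_num) (by norm_num) (by norm_num) c13_1
  have h0 : Nat.add W13c0 (Nat.mul (Nat.pow 2 33660) (W13c1)) = P (w8 19227 13312) (.cons 4641 29 (.cons 2262 17 (.cons 6409 3 .nil))) 5916 :=
    @P_join2 (w8 19227 13312) 4641 15 14 29 5916 75531 33660 (.cons 2262 17 (.cons 6409 3 .nil)) W13c0 (W13c1)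
      (chkW_sound (by norm_num) (by norm_num) (by norm_num) c13_0) h1 (by norm_num) rfl rfl
  exact h0
theorem u12 : W12 = P (w8 19227 6903) (.cons 4641 29 (.cons 2262 17 .nil)) 12325 :=
  chkW_sound (by norm_num) (by norm_num) (by norm_num) c12_0
theorem u11 : W11 = P (w8 19227 16966) (.cons 4641 29 (.cons 5916 13 (.cons 6409 3 .nil))) 2262 :=
  by
  unfold W11
  have h1 := chkW_sound (by norm_num) (by norm_num) (by norm_num) c11_1
  have h0 : Nat.add W11c0 (Nat.mul (Nat.pow 2 25740) (W11c1)) = P (w8 19227 16966) (.cons 4641 29 (.cons 5916 13 (.cons 6409 3 .nil))) 2262 :=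
    @P_join2 (w8 19227 16966) 4641 15 14 29 2262 71877 25740 (.cons 5916 13 (.cons 6409 3 .nil)) W11c0 (W11c1)
      (chkW_sound (by norm_num) (by norm_num) (by norm_num) c11_0) h1 (by norm_num) rfl rfl
  exact h0
theorem u10 : W10 = P (w8 19227 10557) (.cons 4641 29 (.cons 5916 13 .nil)) 8671 :=
  chkW_sound (by norm_num) (by norm_num) (by norm_num) c10_0
theorem u9 : W9 = P (w8 19227 11050) (.cons 4641 29 (.cons 6409 3 .nil)) 8178 :=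
  chkW_sound (by norm_num) (by norm_num) (by norm_num) c9_0
theorem u8 : W8 = P (w8 19227 4641) (.cons 4641 29 .nil) 14587 :=
  chkW_sound (by norm_num) (by norm_num) (by norm_num) c8_0
theorem u7 : W7 = P (w8 19227 14587) (.cons 2262 17 (.cons 5916 13 (.cons 6409 3 .nil))) 4641 :=
  chkW_sound (by norm_num) (by norm_num) (by norm_num) c7_0
theorem u6 : W6 = P (w8 19227 8178) (.cons 2262 17 (.cons 5916 13 .nil)) 11050 :=
  chkW_sound (by norm_num) (by norm_num) (by norm_num) c6_0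
theorem u5 : W5 = P (w8 19227 8671) (.cons 2262 17 (.cons 6409 3 .nil)) 10557 :=
  chkW_sound (by norm_num) (by norm_num) (by norm_num) c5_0
theorem u4 : W4 = P (w8 19227 2262) (.cons 2262 17 .nil) 16966 :=
  chkW_sound (by norm_num) (by norm_num) (by norm_num) c4_0
theorem u3 : W3 = P (w8 19227 12325) (.cons 5916 13 (.cons 6409 3 .nil)) 6903 :=
  chkW_sound (by norm_num) (by norm_num) (by norm_num) c3_0
theorem u2 : W2 = P (w8 19227 5916) (.cons 5916 13 .nil) 13312 :=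
  chkW_sound (by norm_num) (by norm_num) (by norm_num) c2_0
theorem u1 : W1 = P (w8 19227 6409) (.cons 6409 3 .nil) 12819 :=
  chkW_sound (by norm_num) (by norm_num) (by norm_num) c1_0
theorem tr_eq : tr = TR (w8 19227) [(4641, 29, 204397836, 1), (2262, 17, 23784, 1), (5916, 13, 2532, 1), (6409, 3, 4, 255)] .nil 0 0 :=
  mk_node (mk_node (mk_node (mk_node (mk_leaf rfl u15) (mk_leaf rfl u14)) (mk_node (mk_leaf rfl u13) (mk_leaf rfl u12))) (mk_node (mk_node (mk_leaf rfl u11) (mk_leaf rfl u10)) (mk_node (mk_leaf rfl u9) (mk_leaf rfl u8)))) (mk_node (mk_node (mk_node (mk_leaf rfl u7) (mk_leaf rfl u6)) (mk_node (mk_leaf rfl u5) (mk_leaf rfl u4))) (mk_node (mk_node (mk_leaf rfl u3) (mk_leaf rfl u2)) (mk_node (mk_leaf rfl u1) (mk_leaf rfl (w8_zero _ _).symm))))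
theorem tb (d : ℤ) (n : ℕ)
    (h : ∀ l ∈ ({29, 17, 13, 3} : Finset ℕ), jacobiSym ((n : ℤ) ^ 2 + 4) l = -1) :
    (512 : ℤ) ∣ Pool.Agent.N367.LE.SEr d {29, 17, 13, 3} n -
      256 * (((BT19227 >>> (((n % 29 * 17 + n % 17) * 13 + n % 13) * 3 + n % 3)) % 2 : ℕ) : ℤ) :=
  tb_gen (m := 19227) pd29 pd17 pd13 pd3 (by norm_num) (by norm_num) (by norm_num)
    (by norm_num) (by norm_num) (by norm_num) (show Idem 3 13 17 29 6409 5916 2262 4641 from Idem.of (by decide)) (by norm_num) (by norm_num)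
    (by norm_num) (by rw [← tr_eq]; exact ev_true) d n h

end Pool.Agent.N367.HT.D19227
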